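import Pool.Agent.Run7.h793.Geometry

/-!
Beltrami's formula: the mean curvature vector is `-(1/2) Δ x`.
-/

namespace Run7.h793

open Filter Topology
open scoped ContDiff RealInnerProductSpace

variable {Ω : Set P2} {x : P2 → E4}

section
variable {V : Type*} [NormedAddCommGroup V] [NormedSpace ℝ V]

theorem pu_smul_at {a : P2 → ℝ} {f : P2 → V} {p : P2} (ha : DifferentiableAt ℝ a p)
    (hf : DifferentiableAt ℝ f p) :
    pu (fun q => a q • f q) p = a p • pu f p + pu a p • f p := by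
  unfold pu
  rw [fderiv_fun_smul ha hf]
  simp

theorem pv_smul_at {a : P2 → ℝ} {f : P2 → V} {p : P2} (ha : DifferentiableAt ℝ a p)
    (hf : DifferentiableAt ℝ f p) :
    pv (fun q => a q • f q) p = a p • pv f p + pv a p • f p := by
  unfold pv
  rw [fderiv_fun_smul ha hf]
  simp

theorem pu_sub_at {f g : P2 → V} {p : P2} (hf : DifferentiableAt ℝ f p)
    (hg : DifferentiableAt ℝ g p) :
    pu (fun q => f q - g q) p = pu f p - pu g p := by
  unfold pu
  rw [fderiv_fun_sub hf hg]
  simp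

theorem pv_sub_at {f g : P2 → V} {p : P2} (hf : DifferentiableAt ℝ f p)
    (hg : DifferentiableAt ℝ g p) :
    pv (fun q => f q - g q) p = pv f p - pv g p := by
  unfold pv
  rw [fderiv_fun_sub hf hg]
  simp

theorem pv_pu_comm (hΩ : IsOpen Ω) {f : P2 → V} (hf : ContDiffOn ℝ ∞ f Ω) {p : P2}
    (hp : p ∈ Ω) : pv (pu f) p = pu (pv f) p := by
  have h4 : ContDiffAt ℝ ∞ f p := hf.contDiffAt (hΩ.mem_nhds hp)
  have h5 : DifferentiableAt ℝ (fderiv ℝ f) p := by
    have := (hf.fderiv_of_isOpen hΩ (m := ∞) (by simp)).contDiffAt (hΩ.mem_nhds hp)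
    exact this.differentiableAt (by simp)
  have h6 : IsSymmSndFDerivAt ℝ f p :=
    h4.isSymmSndFDerivAt (by simp; exact WithTop.coe_le_coe.2 le_top)
  have key : ∀ v w : P2, fderiv ℝ (fun q => fderiv ℝ f q v) p w = fderiv ℝ (fderiv ℝ f) p w v := by
    intro v w
    rw [fderiv_clm_apply h5 (differentiableAt_const v)]
    simp
  change fderiv ℝ (fun q => fderiv ℝ f q (1, 0)) p (0, 1)
    = fderiv ℝ (fun q => fderiv ℝ f q (0, 1)) p (1, 0)
  rw [key, key]
  exact h6 _ _

end

/-- expansion of the Laplacian -/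
theorem lap_expand (hΩ : IsOpen Ω) (hx : ContDiffOn ℝ ∞ x Ω)
    (himm : ∀ p ∈ Ω, Function.Injective (fderiv ℝ x p)) {p : P2} (hp : p ∈ Ω) :
    ∃ a b : ℝ, lap x x p = -((gW x p)⁻¹ ^ 2) • (gG x p • pu (pu x) p
      - (2 * gF x p) • pu (pv x) p + gE x p • pv (pv x) p) + a • pu x p + b • pv x p := by
  have dW : DifferentiableAt ℝ (fun q => (gW x q)⁻¹) p :=
    diffAt hΩ ((gW_smooth hΩ hx himm).inv (fun p hp => ne_of_gt (gW_pos (himm p hp)))) hp
  have dE := diffAt hΩ (gE_smooth hΩ hx) hp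
  have dF := diffAt hΩ (gF_smooth hΩ hx) hp
  have dG := diffAt hΩ (gG_smooth hΩ hx) hp
  have du := diffAt hΩ (pu_smooth hΩ hx) hp
  have dv := diffAt hΩ (pv_smooth hΩ hx) hp
  have d1 : DifferentiableAt ℝ (fun q => gG x q • pu x q) p := dG.smul du
  have d2 : DifferentiableAt ℝ (fun q => gF x q • pv x q) p := dF.smul dv
  have d3 : DifferentiableAt ℝ (fun q => gE x q • pv x q) p := dE.smul dv
  have d4 : DifferentiableAt ℝ (fun q => gF x q • pu x q) p := dF.smul du
  have d5 : DifferentiableAt ℝ (fun q => gG x q • pu x q - gF x q • pv x q) p := d1.sub d2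
  have d6 : DifferentiableAt ℝ (fun q => gE x q • pv x q - gF x q • pu x q) p := d3.sub d4
  unfold lap
  rw [pu_smul_at dW d5, pv_smul_at dW d6, pu_sub_at d1 d2, pv_sub_at d3 d4, pu_smul_at dG du,
    pu_smul_at dF dv, pv_smul_at dE dv, pv_smul_at dF du, pv_pu_comm hΩ hx hp]
  generalize pu (fun q => (gW x q)⁻¹) p = wu
  generalize pv (fun q => (gW x q)⁻¹) p = wv
  generalize (gW x p)⁻¹ = w
  generalize pu (gG x) p = Gu
  generalize pu (gF x) p = Fu
  generalize pv (gE x) p = Ev
  generalize pv (gF x) p = Fv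
  refine ⟨-w * (w * (Gu - Fv) + wu * gG x p - wv * gF x p),
    -w * (w * (Ev - Fu) + wv * gE x p - wu * gF x p), ?_⟩
  module

theorem meanCurvature_eq (hΩ : IsOpen Ω) (hx : ContDiffOn ℝ ∞ x Ω)
    (himm : ∀ p ∈ Ω, Function.Injective (fderiv ℝ x p)) {p : P2} (hp : p ∈ Ω) :
    meanCurvature x p = -(1 / 2 : ℝ) • lap x x p := by
  obtain ⟨a, b, hab⟩ := lap_expand hΩ hx himm hp
  obtain ⟨n1, n2⟩ := lap_normal hΩ hx himm p hp
  have hW := gW_pos (himm p hp)
  have hW0 : gW x p ≠ 0 := ne_of_gt hW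
  have hmem : lap x x p ∈ (tangentPlane x p)ᗮ := by
    rw [Submodule.mem_orthogonal]
    intro u hu
    rw [real_inner_comm]
    unfold tangentPlane at hu
    rw [Submodule.mem_span_pair] at hu
    obtain ⟨c, d, rfl⟩ := hu
    rw [inner_add_right, real_inner_smul_right, real_inner_smul_right, n1, n2]; simp
  have hproj : (tangentPlane x p)ᗮ.starProjection
      (gG x p • pu (pu x) p - (2 * gF x p) • pu (pv x) p + gE x p • pv (pv x) p)
      = -(gW x p ^ 2) • lap x x p := by
    apply Submodule.eq_starProjection_of_mem_orthogonal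
    · exact Submodule.smul_mem _ _ hmem
    · apply Submodule.le_orthogonal_orthogonal
      have : gG x p • pu (pu x) p - (2 * gF x p) • pu (pv x) p + gE x p • pv (pv x) p
          - -(gW x p ^ 2) • lap x x p = (gW x p ^ 2 * a) • pu x p + (gW x p ^ 2 * b) • pv x p := by
        rw [hab]
        have hw : gW x p ^ 2 * (gW x p)⁻¹ ^ 2 = 1 := by field_simp
        rw [smul_add, smul_add, smul_smul, smul_smul, smul_smul]
        have e : -gW x p ^ 2 * -(gW x p)⁻¹ ^ 2 = 1 := by linear_combination hw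
        rw [e]
        module
      rw [this]
      unfold tangentPlane
      rw [Submodule.mem_span_pair]
      exact ⟨_, _, rfl⟩
  unfold meanCurvature
  rw [hproj, smul_smul]
  congr 1
  field_simp

end Run7.h793
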