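import Mathlib

namespace Run7.h793

variable {K : Type*} [Field K]

/-- A polynomial relation in `n` whose coefficients are killed by a derivation `T` with `T n ≠ 0`
has vanishing coefficients (characteristic zero). -/
theorem coeff_zero_of_rel [CharZero K] (T : Derivation ℤ K K) (n : K) (hn : T n ≠ 0) :
    ∀ (N : ℕ) (f : ℕ → K), (∀ k, T (f k) = 0) →
      (∑ k ∈ Finset.range N, f k * n ^ k) = 0 → ∀ k < N, f k = 0 := by
  intro N
  induction N with
  | zero => intro f _ _ k hk; omega
  | succ N ih =>
    intro f hf hs
    have h1 : (∑ k ∈ Finset.range N, (((k : K) + 1) * f (k + 1)) * n ^ k) = 0 := by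
      have h2 := congrArg T hs
      rw [map_sum, map_zero] at h2
      have h3 : ∀ k ∈ Finset.range (N + 1), T (f k * n ^ k) = (f k * (k : K) * n ^ (k - 1)) * T n := by
        intro k _
        rw [Derivation.leibniz, hf k, Derivation.leibniz_pow]
        simp only [smul_eq_mul, nsmul_eq_mul, smul_zero, add_zero]
        ring
      rw [Finset.sum_congr rfl h3, ← Finset.sum_mul] at h2
      have h4 := (mul_eq_zero.mp h2).resolve_right hn
      rw [Finset.sum_range_succ'] at h4
      simp only [Nat.cast_zero, mul_zero, zero_mul, add_zero] at h4
      rw [← h4]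
      apply Finset.sum_congr rfl
      intro k _
      rw [Nat.add_sub_cancel]
      push_cast
      ring
    have h5 := ih (fun k => ((k : K) + 1) * f (k + 1)) (by
      intro k
      rw [Derivation.leibniz, hf (k + 1)]
      have : T ((k : K) + 1) = 0 := by
        have h : ((k : K) + 1) = ((k + 1 : ℕ) : K) := by push_cast; ring
        rw [h]; exact T.map_natCast _
      rw [this]; simp) h1
    have h6 : ∀ k < N, f (k + 1) = 0 := by
      intro k hk
      have h7 := h5 k hk
      have h8 : ((k : K) + 1) ≠ 0 := by exact_mod_cast Nat.succ_ne_zero k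
      exact (mul_eq_zero.mp h7).resolve_left h8
    intro k hk
    cases k with
    | zero =>
      rw [Finset.sum_range_succ'] at hs
      have h9 : (∑ k ∈ Finset.range N, f (k + 1) * n ^ (k + 1)) = 0 := by
        apply Finset.sum_eq_zero
        intro i hi
        rw [h6 i (Finset.mem_range.mp hi)]; ring
      rw [h9] at hs
      simpa using hs
    | succ k => exact h6 k (by omega)

end Run7.h793
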