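import Pool.Agent.Run7.h793.Structure

/-!
From coordinates to adapted frames.
-/

namespace Run7.h793

set_option linter.unusedSimpArgs false
set_option linter.unusedVariables false

variable {K : Type*} [Field K]

/-- The coordinate Laplace operator. -/
def LBK (du dv : Derivation ℤ K K) (E F G W : K) (f : K) : K :=
  -(du ((G * du f - F * dv f) / W) + dv ((E * dv f - F * du f) / W)) / W

theorem comm_of {du dv : Derivation ℤ K K} (huv : ∀ f, du (dv f) = dv (du f))
    {a b c d W A B : K} (hW : W ≠ 0) (hdet : (a * d - b * c) * W = 1)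
    (hA : A = -(du (W * c) + dv (W * d)) / W) (hB : B = -(du (W * a) + dv (W * b)) / W)
    {D1 D2 : Derivation ℤ K K} (hD1 : ∀ f, D1 f = a * du f + b * dv f)
    (hD2 : ∀ f, D2 f = c * du f + d * dv f) (f : K) :
    D1 (D2 f) - D2 (D1 f) = -A * D1 f + B * D2 f := by
  have hA' : A * W = -(du (W * c) + dv (W * d)) := by rw [hA]; field_simp
  have hB' : B * W = -(du (W * a) + dv (W * b)) := by rw [hB]; field_simp
  have e1 := congrArg du hdet
  have e2 := congrArg dv hdet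
  simp only [Derivation.leibniz, map_sub, smul_eq_mul, Derivation.map_one_eq_zero] at e1 e2 hA' hB'
  refine mul_left_cancel₀ hW ?_
  have h1 : W * (D1 (D2 f) - D2 (D1 f)) = W * ((a * du c + b * dv c - c * du a - d * dv a) * du f
      + (a * du d + b * dv d - c * du b - d * dv b) * dv f) := by
    simp only [hD1, hD2, map_add, Derivation.leibniz, smul_eq_mul, huv]
    ring
  rw [h1, hD1, hD2]
  linear_combination (-(du f)) * e2 + dv f * e1 + (a * du f + b * dv f) * hA'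
    - (c * du f + d * dv f) * hB'

theorem lap_of {du dv : Derivation ℤ K K} {E F G : K}
    {a b c d W A B : K} (hW : W ≠ 0) (hG : W ^ 2 * (a ^ 2 + c ^ 2) = G)
    (hF : W ^ 2 * (a * b + c * d) = -F) (hE : W ^ 2 * (b ^ 2 + d ^ 2) = E)
    (hA : A = -(du (W * c) + dv (W * d)) / W) (hB : B = -(du (W * a) + dv (W * b)) / W)
    {D1 D2 : Derivation ℤ K K} (hD1 : ∀ f, D1 f = a * du f + b * dv f)
    (hD2 : ∀ f, D2 f = c * du f + d * dv f) (f : K) :
    LBK du dv E F G W f = -(D1 (D1 f) + D2 (D2 f) - A * D2 f - B * D1 f) := by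
  have hA' : A * W = -(du (W * c) + dv (W * d)) := by rw [hA]; field_simp
  have hB' : B * W = -(du (W * a) + dv (W * b)) := by rw [hB]; field_simp
  have e1 : (G * du f - F * dv f) / W = (W * a) * D1 f + (W * c) * D2 f := by
    rw [div_eq_iff hW, ← hG, hD1, hD2]; linear_combination (-dv f) * hF
  have e2 : (E * dv f - F * du f) / W = (W * b) * D1 f + (W * d) * D2 f := by
    rw [div_eq_iff hW, ← hE, hD1, hD2]; linear_combination (-du f) * hF
  unfold LBK
  rw [e1, e2]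
  rw [div_eq_iff hW]
  have e3 : du (W * a * D1 f + W * c * D2 f) = W * a * du (D1 f) + D1 f * du (W * a)
      + W * c * du (D2 f) + D2 f * du (W * c) := by
    rw [map_add, Derivation.leibniz, Derivation.leibniz (D := du) (W * c)]
    simp only [smul_eq_mul]; ring
  have e4 : dv (W * b * D1 f + W * d * D2 f) = W * b * dv (D1 f) + D1 f * dv (W * b)
      + W * d * dv (D2 f) + D2 f * dv (W * d) := by
    rw [map_add, Derivation.leibniz, Derivation.leibniz (D := dv) (W * d)]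
    simp only [smul_eq_mul]; ring
  rw [e3, e4, hD1 (D1 f), hD2 (D2 f)]
  linear_combination (-D2 f) * hA' - D1 f * hB'

section ordered
variable [LinearOrder K] [IsStrictOrderedRing K]

theorem exists_coframe (hsqrt : ∀ a : K, 0 < a → ∃ b, 0 < b ∧ b * b = a)
    {E F G W : K} (L M N : K) (hE : 0 < E) (hW : 0 < W) (hEG : E * G - F ^ 2 = W ^ 2) :
    ∃ a b c d : K, (a * d - b * c) * W = 1 ∧ W ^ 2 * (a ^ 2 + c ^ 2) = G ∧
      W ^ 2 * (a * b + c * d) = -F ∧ W ^ 2 * (b ^ 2 + d ^ 2) = E ∧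
      a ^ 2 * E + 2 * a * b * F + b ^ 2 * G = 1 ∧
      a * c * E + (a * d + b * c) * F + b * d * G = 0 ∧
      c ^ 2 * E + 2 * c * d * F + d ^ 2 * G = 1 ∧
      a * c * L + (a * d + b * c) * M + b * d * N = 0 := by
  obtain ⟨s, hs, hss⟩ := hsqrt _ hE
  have hs0 : s ≠ 0 := ne_of_gt hs
  have hW0 : W ≠ 0 := ne_of_gt hW
  obtain ⟨a0, ha0⟩ : ∃ t, t = 1 / s := ⟨_, rfl⟩
  obtain ⟨c0, hc0⟩ : ∃ t, t = -F / (s * W) := ⟨_, rfl⟩
  obtain ⟨d0, hd0⟩ : ∃ t, t = s / W := ⟨_, rfl⟩
  have r1 : a0 * d0 * W = 1 := by rw [ha0, hd0]; field_simp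
  have r2 : W ^ 2 * (a0 ^ 2 + c0 ^ 2) = G := by
    rw [ha0, hc0]; field_simp; linear_combination -hEG - G * hss
  have r3 : W ^ 2 * (c0 * d0) = -F := by rw [hc0, hd0]; field_simp
  have r4 : W ^ 2 * d0 ^ 2 = E := by rw [hd0]; field_simp; linear_combination hss
  have r5 : a0 ^ 2 * E = 1 := by rw [ha0, ← hss]; field_simp
  have r6 : a0 * c0 * E + a0 * d0 * F = 0 := by
    rw [ha0, hc0, hd0, ← hss]; field_simp; ring
  have r7 : c0 ^ 2 * E + 2 * c0 * d0 * F + d0 ^ 2 * G = 1 := by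
    rw [hc0, hd0]
    field_simp
    linear_combination - F ^ 2 * hss + s ^ 2 * hEG + G * s ^ 2 * hss
  obtain ⟨p, q, hpq, hrot⟩ := exists_rot hsqrt (a0 ^ 2 * L) (a0 * c0 * L + a0 * d0 * M)
    (c0 ^ 2 * L + 2 * c0 * d0 * M + d0 ^ 2 * N)
  refine ⟨p * a0 + q * c0, q * d0, -q * a0 + p * c0, p * d0, ?_, ?_, ?_, ?_, ?_, ?_, ?_, ?_⟩
  · linear_combination r1 * (p ^ 2 + q ^ 2) + hpq
  · linear_combination r2 * (p ^ 2 + q ^ 2) + G * hpq
  · linear_combination r3 * (p ^ 2 + q ^ 2) - F * hpq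
  · linear_combination r4 * (p ^ 2 + q ^ 2) + E * hpq
  · linear_combination p ^ 2 * r5 + 2 * p * q * r6 + q ^ 2 * r7 + hpq
  · linear_combination -p * q * r5 + (p ^ 2 - q ^ 2) * r6 + p * q * r7
  · linear_combination q ^ 2 * r5 - 2 * p * q * r6 + p ^ 2 * r7 + hpq
  · linear_combination hrot

end ordered

end Run7.h793
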