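import Pool.Agent.Run7.h793.Polys

namespace Run7.h793

variable {K : Type*} [Field K]


theorem det3_abs (x1 y1 z1 x2 y2 z2 x3 y3 z3 a b : K) (h1 : x1 * a + y1 * b + z1 = 0)
    (h2 : x2 * a + y2 * b + z2 = 0) (h3 : x3 * a + y3 * b + z3 = 0) :
    (x2 * y3 - y2 * x3) * z1 - (x1 * y3 - y1 * x3) * z2 + (x1 * y2 - y1 * x2) * z3 = 0 := by
  linear_combination (x2 * y3 - y2 * x3) * h1 - (x1 * y3 - y1 * x3) * h2 + (x1 * y2 - y1 * x2) * h3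

set_option maxRecDepth 20000 in
theorem det_poly (n c c1 c2 L w g : K) (hw : w = 1 + c * n) (hg : g = 1 + n ^ 2) :
    (cdp n c c1 c2 L * cgq n c c1 c2 L - cdq n c c1 c2 L * cgp n c c1 c2 L) * csr n c c1 c2 L
      - (w ^ 2 * csp n c c1 c2 L * cgq n c c1 c2 L - w * csq n c c1 c2 L * cgp n c c1 c2 L) * cdr n c c1 c2 L
      + (w ^ 2 * csp n c c1 c2 L * cdq n c c1 c2 L - w * csq n c c1 c2 L * cdp n c c1 c2 L) * cgr n c c1 c2 L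
      = (-16) * ((n ^ 4 * w ^ 2 * g) * (f9_0 c c1 c2 L * n ^ 0 + f9_1 c c1 c2 L * n ^ 1 + f9_2 c c1 c2 L * n ^ 2 + f9_3 c c1 c2 L * n ^ 3 + f9_4 c c1 c2 L * n ^ 4 + f9_5 c c1 c2 L * n ^ 5 + f9_6 c c1 c2 L * n ^ 6 + f9_7 c c1 c2 L * n ^ 7 + f9_8 c c1 c2 L * n ^ 8 + f9_9 c c1 c2 L * n ^ 9)) := by
  rw [hw, hg]
  simp only [csp, csq, csr, cdp, cdq, cdr, cgp, cgq, cgr, f9_0, f9_1, f9_2, f9_3, f9_4, f9_5, f9_6, f9_7, f9_8, f9_9]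
  ring

theorem det_rel [CharZero K] (n c c1 c2 P D L w g : K) (hn : n ≠ 0) (hw : w = 1 + c * n)
    (hg : g = 1 + n ^ 2) (hw0 : w ≠ 0) (hg0 : g ≠ 0)
    (hs : g * w ^ 2 * csp n c c1 c2 L * P + g ^ 2 * w ^ 2 * csq n c c1 c2 L * D + n ^ 2 * csr n c c1 c2 L = 0)
    (hd : g * cdp n c c1 c2 L * P + g ^ 2 * w * cdq n c c1 c2 L * D + n ^ 2 * cdr n c c1 c2 L = 0)
    (hG : g * cgp n c c1 c2 L * P + g ^ 2 * w * cgq n c c1 c2 L * D + n ^ 2 * cgr n c c1 c2 L = 0) :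
    f9_0 c c1 c2 L * n ^ 0 + f9_1 c c1 c2 L * n ^ 1 + f9_2 c c1 c2 L * n ^ 2 + f9_3 c c1 c2 L * n ^ 3 + f9_4 c c1 c2 L * n ^ 4 + f9_5 c c1 c2 L * n ^ 5 + f9_6 c c1 c2 L * n ^ 6 + f9_7 c c1 c2 L * n ^ 7 + f9_8 c c1 c2 L * n ^ 8 + f9_9 c c1 c2 L * n ^ 9 = 0 := by
  have habs := det3_abs (w ^ 2 * csp n c c1 c2 L) (w * csq n c c1 c2 L) (csr n c c1 c2 L) (cdp n c c1 c2 L) (cdq n c c1 c2 L) (cdr n c c1 c2 L) (cgp n c c1 c2 L) (cgq n c c1 c2 L) (cgr n c c1 c2 L)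
    (g*P/n^2) (g^2*w*D/n^2) (by field_simp; linear_combination hs) (by field_simp; linear_combination hd)
    (by field_simp; linear_combination hG)
  rw [det_poly n c c1 c2 L w g hw hg] at habs
  have h3 : n ^ 4 * w ^ 2 * g ≠ 0 :=
    mul_ne_zero (mul_ne_zero (pow_ne_zero _ hn) (pow_ne_zero _ hw0)) hg0
  have h4 : ((-16) : K) ≠ 0 := by norm_num
  exact (mul_eq_zero.mp ((mul_eq_zero.mp habs).resolve_left h4)).resolve_left h3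

end Run7.h793
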