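import Pool.Agent.Run7.h793.EvenRel
import Pool.Agent.Run7.h793.Det
import Pool.Agent.Run7.h793.Coeff

namespace Run7.h793

variable {K : Type*} [Field K]

/-- the coefficient family of the degree nine relation -/
def f9 (c c1 c2 L : K) : ℕ → K
  | 0 => f9_0 c c1 c2 L
  | 1 => f9_1 c c1 c2 L
  | 2 => f9_2 c c1 c2 L
  | 3 => f9_3 c c1 c2 L
  | 4 => f9_4 c c1 c2 L
  | 5 => f9_5 c c1 c2 L
  | 6 => f9_6 c c1 c2 L
  | 7 => f9_7 c c1 c2 L
  | 8 => f9_8 c c1 c2 L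
  | 9 => f9_9 c c1 c2 L
  | _ => 0

theorem T_f9 (T : Derivation ℤ K K) (c c1 c2 L : K) (hTc : T c = 0) (hTc1 : T c1 = 0)
    (hTc2 : T c2 = 0) (hTL : T L = 0) (k : ℕ) : T (f9 c c1 c2 L k) = 0 := by
  rcases k with _ | _ | _ | _ | _ | _ | _ | _ | _ | _ | k <;>
  simp only [f9, f9_0, f9_1, f9_2, f9_3, f9_4, f9_5, f9_6, f9_7, f9_8, f9_9, map_add, map_sub, map_neg,
    Derivation.leibniz, Derivation.leibniz_pow, hTc, hTc1, hTc2, hTL, der_ofNat, smul_zero, add_zero,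
    sub_zero, neg_zero, map_zero]

theorem even_core [CharZero K] (T U : Derivation ℤ K K) (n c c1 P D L w g : K) (hn : n ≠ 0) (hw : w = 1 + c * n)
    (hg : g = 1 + n ^ 2) (hw0 : w ≠ 0) (hg0 : g ≠ 0)
    (hTn : T n = g / n) (hUn : U n = g * (1 - c * n) / n)
    (hTc : T c = 0) (hUc : U c = 2 * c1) (hTc1 : T c1 = 0) (hTL : T L = 0) (hUL : U L = -4 * L)
    (hTP : T P = -(2 / (g * w)) * (2 - L + 8 / w)
      - P * (2 / n ^ 2 + c * g / (n * w)) - 2 * D * g / n ^ 2)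
    (hUP : U P = 2 * (2 - L + 8 / (g * w))
      + P * (4 / n ^ 2 + c / n - 8 + c * n + (-c + (6 + c ^ 2) * n + (7 * c - 2 * c1) * n ^ 2 + 3 * c ^ 2 * n ^ 3) / (n * w)) + 4 * g * w * D / n ^ 2)
    (hTD : T D = 2 / (g * w) * (2 - L + 8 / (g * w))
      + 2 / (g * w) * P * ((1 + g * w) / n ^ 2 + 1 - (-c + (6 + c ^ 2) * n + (7 * c - 2 * c1) * n ^ 2 + 3 * c ^ 2 * n ^ 3) / (4 * n * w) + c * g / (2 * n))
      + D * (4 / n ^ 2 - 1 - c * g / (n * w)))
    (hUD : U D = -(2 / (g * w)) * (2 - L + 8 / w)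
      - P * (2 / n ^ 2 + c * g / (2 * n * w))
      - D * ((1 + g * w) / n ^ 2 + 17 - 2 * (-c + (6 + c ^ 2) * n + (7 * c - 2 * c1) * n ^ 2 + 3 * c ^ 2 * n ^ 3) / (n * w) + c * g / n))
    (c2 m q : K) (hUc1 : U c1 = 2 * c2) (hTc2 : T c2 = 0)
    (hcomm : ∀ f, U (T f) - T (U f) = c * g / n * T f)
    (hm : m = (-c + (6 + c ^ 2) * n + (7 * c - 2 * c1) * n ^ 2 + 3 * c ^ 2 * n ^ 3) / (8 * n * w)) (hq : q = c * g / (8 * n * w))
    (hG : P * ((U m - g * w * (1 + 4 * q) * q - g * w * T q) / 2)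
      + g * w * D * ((T m - U q - (4 - 4 * m) * q) / 2)
      + (2 - L + 8 / (g * w) + P * ((1 + g * w) / n ^ 2 + m - 1) + g * w * D * (2 / n ^ 2 - q)) * m
      + (2 / (g * w) * (2 - L + 8 / w) + D * ((1 + g * w) / n ^ 2 + 5 - 6 * m)
          + P * (2 / n ^ 2 + 6 * q)) / 2 * (g * w) * q
      - P * (m ^ 2 + g * w * q ^ 2) + 2 * m * q * (g * w) * D = 1 - 4 / w) : False := by
  have hs := s0_rel T U n c c1 P D L w g hn hw hg hw0 hg0 hTn hUn hTc hUc hTc1 hTL hUL hTP hUP hTD hUD c2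
    (hcomm P)
  have hd := d0_rel T U n c c1 P D L w g hn hw hg hw0 hg0 hTn hUn hTc hUc hTc1 hTL hUL hTP hUP hTD hUD c2
    hUc1 (hcomm D)
  have hgg := g0_rel T U n c c1 P D L w g hn hw hg hw0 hg0 hTn hUn hTc hUc hTc1 hTL hUL hTP hUP hTD hUD c2
    m q hUc1 hm hq hG
  have hF := det_rel n c c1 c2 P D L w g hn hw hg hw0 hg0 hs hd hgg
  have hsum : (∑ k ∈ Finset.range 10, f9 c c1 c2 L k * n ^ k) = 0 := by
    rw [← hF]
    simp only [Finset.sum_range_succ, Finset.sum_range_zero, f9]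
    ring
  have hTn0 : T n ≠ 0 := by rw [hTn]; exact div_ne_zero hg0 hn
  have htop := coeff_zero_of_rel T n hTn0 10 (f9 c c1 c2 L) (T_f9 T c c1 c2 L hTc hTc1 hTc2 hTL) hsum 9
    (by norm_num)
  have hL6 : L ≠ 6 := by
    intro h
    rw [h, der_ofNat] at hUL
    norm_num at hUL
  have h7 : c ^ 7 * (L - 6) = 0 := by
    simp only [f9, f9_9] at htop
    have h3 : (3 : K) * (c ^ 7 * (L - 6)) = 0 := by linear_combination htop
    exact (mul_eq_zero.mp h3).resolve_left three_ne_zero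
  have hc : c = 0 := by
    rcases mul_eq_zero.mp h7 with h | h
    · exact pow_eq_zero_iff (by norm_num) |>.mp h
    · exact absurd (sub_eq_zero.mp h) hL6
  have hc1 : c1 = 0 := by
    rw [hc, map_zero] at hUc
    exact (mul_eq_zero.mp hUc.symm).resolve_left two_ne_zero
  have hc2 : c2 = 0 := by
    rw [hc1, map_zero] at hUc1
    exact (mul_eq_zero.mp hUc1.symm).resolve_left two_ne_zero
  subst hc hc1 hc2
  have hw1 : w = 1 := by rw [hw]; ring
  subst hw1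
  simp only [csp, csq, csr] at hs
  simp only [cgp, cgq, cgr] at hgg
  have e1 : n * (g * P + g ^ 2 * D + 4 * n ^ 2) = 0 := by linear_combination (-1 / 12 : K) * hs
  have e2 := (mul_eq_zero.mp e1).resolve_left hn
  have e3 : n ^ 2 * (g * (L - 6)) = 0 := by
    rw [hg] at hgg e2 ⊢
    linear_combination (-1 / 12 : K) * hgg + 2 * e2
  have e4 := (mul_eq_zero.mp e3).resolve_left (pow_ne_zero _ hn)
  exact hL6 (sub_eq_zero.mp ((mul_eq_zero.mp e4).resolve_left hg0))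

end Run7.h793
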