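import Pool.Agent.Run7.h793.Polys

namespace Run7.h793

variable {K : Type*} [Field K]

theorem der_ofNat (D : Derivation ℤ K K) (k : ℕ) [k.AtLeastTwo] :
    D (ofNat(k) : K) = 0 := by
  have h := D.map_natCast k
  exact_mod_cast h

variable [CharZero K]


set_option maxRecDepth 20000 in
theorem s0_rel (T U : Derivation ℤ K K) (n c c1 P D L w g : K) (hn : n ≠ 0) (hw : w = 1 + c * n)
    (hg : g = 1 + n ^ 2) (hw0 : w ≠ 0) (hg0 : g ≠ 0)
    (hTn : T n = g / n) (hUn : U n = g * (1 - c * n) / n)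
    (hTc : T c = 0) (hUc : U c = 2 * c1) (hTc1 : T c1 = 0) (hTL : T L = 0) (hUL : U L = -4 * L)
    (hTP : T P = -(2 / (g * w)) * (2 - L + 8 / w)
      - P * (2 / n ^ 2 + c * g / (n * w)) - 2 * D * g / n ^ 2)
    (hUP : U P = 2 * (2 - L + 8 / (g * w))
      + P * (4 / n ^ 2 + c / n - 8 + c * n + (-c + (6 + c ^ 2) * n + (7 * c - 2 * c1) * n ^ 2 + 3 * c ^ 2 * n ^ 3) / (n * w)) + 4 * g * w * D / n ^ 2)
    (hTD : T D = 2 / (g * w) * (2 - L + 8 / (g * w))
      + 2 / (g * w) * P * ((1 + g * w) / n ^ 2 + 1 - (-c + (6 + c ^ 2) * n + (7 * c - 2 * c1) * n ^ 2 + 3 * c ^ 2 * n ^ 3) / (4 * n * w) + c * g / (2 * n))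
      + D * (4 / n ^ 2 - 1 - c * g / (n * w)))
    (hUD : U D = -(2 / (g * w)) * (2 - L + 8 / w)
      - P * (2 / n ^ 2 + c * g / (2 * n * w))
      - D * ((1 + g * w) / n ^ 2 + 17 - 2 * (-c + (6 + c ^ 2) * n + (7 * c - 2 * c1) * n ^ 2 + 3 * c ^ 2 * n ^ 3) / (n * w) + c * g / n))
    (c2 : K) (hcomm : U (T P) - T (U P) = c * g / n * T P) :
    g * w ^ 2 * csp n c c1 c2 L * P + g ^ 2 * w ^ 2 * csq n c c1 c2 L * D + n ^ 2 * csr n c c1 c2 L = 0 := by
  have hTw : T w = c * (g / n) := by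
    rw [hw, map_add, Derivation.map_one_eq_zero, Derivation.leibniz, hTc, hTn]; simp
  have hUw : U w = c * (g * (1 - c * n) / n) + n * (2 * c1) := by
    rw [hw, map_add, Derivation.map_one_eq_zero, Derivation.leibniz, hUc, hUn]; simp
  have hTg : T g = 2 * g := by
    rw [hg, map_add, Derivation.map_one_eq_zero, Derivation.leibniz_pow, hTn, ← hg]
    simp only [smul_eq_mul, nsmul_eq_mul]; push_cast; field_simp; ring
  have hUg : U g = 2 * g * (1 - c * n) := by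
    rw [hg, map_add, Derivation.map_one_eq_zero, Derivation.leibniz_pow, hUn, ← hg]
    simp only [smul_eq_mul, nsmul_eq_mul]; push_cast; field_simp; ring
  have e1 := congrArg U hTP
  have e2 := congrArg T hUP
  simp only [map_add, map_sub, map_neg, Derivation.leibniz, Derivation.leibniz_div, Derivation.leibniz_pow,
    smul_eq_mul, nsmul_eq_mul, hTn, hUn, hTc, hUc, hTc1, hTL, hUL, hTw, hUw, hTg, hUg, der_ofNat, Derivation.map_one_eq_zero] at e1 e2
  rw [e1, e2, hUP, hUD, hTP, hTD] at hcomm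
  have key : (g * w ^ 2 * csp n c c1 c2 L * P + g ^ 2 * w ^ 2 * csq n c c1 c2 L * D + n ^ 2 * csr n c c1 c2 L) / (n ^ 3 * w ^ 3 * g) = 0 := by
    rw [← sub_eq_zero] at hcomm
    rw [← neg_eq_zero, ← hcomm]
    simp only [csp, csq, csr, cdp, cdq, cdr, cgp, cgq, cgr]
    push_cast
    field_simp
    rw [hw, hg]
    ring
  have h3 : n ^ 3 * w ^ 3 * g ≠ 0 :=
    mul_ne_zero (mul_ne_zero (pow_ne_zero _ hn) (pow_ne_zero _ hw0)) hg0
  exact (div_eq_zero_iff.mp key).resolve_right h3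

set_option maxRecDepth 20000 in
theorem d0_rel (T U : Derivation ℤ K K) (n c c1 P D L w g : K) (hn : n ≠ 0) (hw : w = 1 + c * n)
    (hg : g = 1 + n ^ 2) (hw0 : w ≠ 0) (hg0 : g ≠ 0)
    (hTn : T n = g / n) (hUn : U n = g * (1 - c * n) / n)
    (hTc : T c = 0) (hUc : U c = 2 * c1) (hTc1 : T c1 = 0) (hTL : T L = 0) (hUL : U L = -4 * L)
    (hTP : T P = -(2 / (g * w)) * (2 - L + 8 / w)
      - P * (2 / n ^ 2 + c * g / (n * w)) - 2 * D * g / n ^ 2)
    (hUP : U P = 2 * (2 - L + 8 / (g * w))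
      + P * (4 / n ^ 2 + c / n - 8 + c * n + (-c + (6 + c ^ 2) * n + (7 * c - 2 * c1) * n ^ 2 + 3 * c ^ 2 * n ^ 3) / (n * w)) + 4 * g * w * D / n ^ 2)
    (hTD : T D = 2 / (g * w) * (2 - L + 8 / (g * w))
      + 2 / (g * w) * P * ((1 + g * w) / n ^ 2 + 1 - (-c + (6 + c ^ 2) * n + (7 * c - 2 * c1) * n ^ 2 + 3 * c ^ 2 * n ^ 3) / (4 * n * w) + c * g / (2 * n))
      + D * (4 / n ^ 2 - 1 - c * g / (n * w)))
    (hUD : U D = -(2 / (g * w)) * (2 - L + 8 / w)
      - P * (2 / n ^ 2 + c * g / (2 * n * w))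
      - D * ((1 + g * w) / n ^ 2 + 17 - 2 * (-c + (6 + c ^ 2) * n + (7 * c - 2 * c1) * n ^ 2 + 3 * c ^ 2 * n ^ 3) / (n * w) + c * g / n))
    (c2 : K) (hUc1 : U c1 = 2 * c2)
    (hcomm : U (T D) - T (U D) = c * g / n * T D) :
    g * cdp n c c1 c2 L * P + g ^ 2 * w * cdq n c c1 c2 L * D + n ^ 2 * cdr n c c1 c2 L = 0 := by
  have hTw : T w = c * (g / n) := by
    rw [hw, map_add, Derivation.map_one_eq_zero, Derivation.leibniz, hTc, hTn]; simp
  have hUw : U w = c * (g * (1 - c * n) / n) + n * (2 * c1) := by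
    rw [hw, map_add, Derivation.map_one_eq_zero, Derivation.leibniz, hUc, hUn]; simp
  have hTg : T g = 2 * g := by
    rw [hg, map_add, Derivation.map_one_eq_zero, Derivation.leibniz_pow, hTn, ← hg]
    simp only [smul_eq_mul, nsmul_eq_mul]; push_cast; field_simp; ring
  have hUg : U g = 2 * g * (1 - c * n) := by
    rw [hg, map_add, Derivation.map_one_eq_zero, Derivation.leibniz_pow, hUn, ← hg]
    simp only [smul_eq_mul, nsmul_eq_mul]; push_cast; field_simp; ring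
  have e1 := congrArg U hTD
  have e2 := congrArg T hUD
  simp only [map_add, map_sub, map_neg, Derivation.leibniz, Derivation.leibniz_div, Derivation.leibniz_pow,
    smul_eq_mul, nsmul_eq_mul, hTn, hUn, hTc, hUc, hTc1, hUc1, hTL, hUL, hTw, hUw, hTg, hUg, der_ofNat, Derivation.map_one_eq_zero] at e1 e2
  rw [e1, e2, hUP, hUD, hTP, hTD] at hcomm
  have key : (g * cdp n c c1 c2 L * P + g ^ 2 * w * cdq n c c1 c2 L * D + n ^ 2 * cdr n c c1 c2 L) / (2 * n ^ 3 * w ^ 3 * g ^ 2) = 0 := by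
    rw [← sub_eq_zero] at hcomm
    rw [← neg_eq_zero, ← hcomm]
    simp only [csp, csq, csr, cdp, cdq, cdr, cgp, cgq, cgr]
    push_cast
    field_simp
    rw [hw, hg]
    ring
  have h3 : 2 * n ^ 3 * w ^ 3 * g ^ 2 ≠ 0 :=
    mul_ne_zero (mul_ne_zero (mul_ne_zero two_ne_zero (pow_ne_zero _ hn)) (pow_ne_zero _ hw0)) (pow_ne_zero _ hg0)
  exact (div_eq_zero_iff.mp key).resolve_right h3

set_option maxRecDepth 20000 in
theorem g0_rel (T U : Derivation ℤ K K) (n c c1 P D L w g : K) (hn : n ≠ 0) (hw : w = 1 + c * n)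
    (hg : g = 1 + n ^ 2) (hw0 : w ≠ 0) (hg0 : g ≠ 0)
    (hTn : T n = g / n) (hUn : U n = g * (1 - c * n) / n)
    (hTc : T c = 0) (hUc : U c = 2 * c1) (hTc1 : T c1 = 0) (hTL : T L = 0) (hUL : U L = -4 * L)
    (hTP : T P = -(2 / (g * w)) * (2 - L + 8 / w)
      - P * (2 / n ^ 2 + c * g / (n * w)) - 2 * D * g / n ^ 2)
    (hUP : U P = 2 * (2 - L + 8 / (g * w))
      + P * (4 / n ^ 2 + c / n - 8 + c * n + (-c + (6 + c ^ 2) * n + (7 * c - 2 * c1) * n ^ 2 + 3 * c ^ 2 * n ^ 3) / (n * w)) + 4 * g * w * D / n ^ 2)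
    (hTD : T D = 2 / (g * w) * (2 - L + 8 / (g * w))
      + 2 / (g * w) * P * ((1 + g * w) / n ^ 2 + 1 - (-c + (6 + c ^ 2) * n + (7 * c - 2 * c1) * n ^ 2 + 3 * c ^ 2 * n ^ 3) / (4 * n * w) + c * g / (2 * n))
      + D * (4 / n ^ 2 - 1 - c * g / (n * w)))
    (hUD : U D = -(2 / (g * w)) * (2 - L + 8 / w)
      - P * (2 / n ^ 2 + c * g / (2 * n * w))
      - D * ((1 + g * w) / n ^ 2 + 17 - 2 * (-c + (6 + c ^ 2) * n + (7 * c - 2 * c1) * n ^ 2 + 3 * c ^ 2 * n ^ 3) / (n * w) + c * g / n))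
    (c2 m q : K) (hUc1 : U c1 = 2 * c2) (hm : m = (-c + (6 + c ^ 2) * n + (7 * c - 2 * c1) * n ^ 2 + 3 * c ^ 2 * n ^ 3) / (8 * n * w)) (hq : q = c * g / (8 * n * w))
    (hG : P * ((U m - g * w * (1 + 4 * q) * q - g * w * T q) / 2)
      + g * w * D * ((T m - U q - (4 - 4 * m) * q) / 2)
      + (2 - L + 8 / (g * w) + P * ((1 + g * w) / n ^ 2 + m - 1) + g * w * D * (2 / n ^ 2 - q)) * m
      + (2 / (g * w) * (2 - L + 8 / w) + D * ((1 + g * w) / n ^ 2 + 5 - 6 * m)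
          + P * (2 / n ^ 2 + 6 * q)) / 2 * (g * w) * q
      - P * (m ^ 2 + g * w * q ^ 2) + 2 * m * q * (g * w) * D = 1 - 4 / w) :
    g * cgp n c c1 c2 L * P + g ^ 2 * w * cgq n c c1 c2 L * D + n ^ 2 * cgr n c c1 c2 L = 0 := by
  have hTw : T w = c * (g / n) := by
    rw [hw, map_add, Derivation.map_one_eq_zero, Derivation.leibniz, hTc, hTn]; simp
  have hUw : U w = c * (g * (1 - c * n) / n) + n * (2 * c1) := by
    rw [hw, map_add, Derivation.map_one_eq_zero, Derivation.leibniz, hUc, hUn]; simp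
  have hTg : T g = 2 * g := by
    rw [hg, map_add, Derivation.map_one_eq_zero, Derivation.leibniz_pow, hTn, ← hg]
    simp only [smul_eq_mul, nsmul_eq_mul]; push_cast; field_simp; ring
  have hUg : U g = 2 * g * (1 - c * n) := by
    rw [hg, map_add, Derivation.map_one_eq_zero, Derivation.leibniz_pow, hUn, ← hg]
    simp only [smul_eq_mul, nsmul_eq_mul]; push_cast; field_simp; ring
  have e1 := congrArg U hm
  have e2 := congrArg T hm
  have e3 := congrArg U hq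
  have e4 := congrArg T hq
  simp only [map_add, map_sub, map_neg, Derivation.leibniz, Derivation.leibniz_div, Derivation.leibniz_pow,
    smul_eq_mul, nsmul_eq_mul, hTn, hUn, hTc, hUc, hTc1, hUc1, hTL, hUL, hTw, hUw, hTg, hUg, der_ofNat] at e1 e2 e3 e4
  rw [e1, e2, e3, e4, hm, hq] at hG
  have key : (g * cgp n c c1 c2 L * P + g ^ 2 * w * cgq n c c1 c2 L * D + n ^ 2 * cgr n c c1 c2 L) / (16 * n ^ 2 * w ^ 2 * g) = 0 := by
    rw [← sub_eq_zero] at hG
    rw [← hG]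
    simp only [csp, csq, csr, cdp, cdq, cdr, cgp, cgq, cgr]
    push_cast
    field_simp
    rw [hw, hg]
    ring
  have h3 : 16 * n ^ 2 * w ^ 2 * g ≠ 0 :=
    mul_ne_zero (mul_ne_zero (mul_ne_zero (by norm_num) (pow_ne_zero _ hn)) (pow_ne_zero _ hw0)) hg0
  exact (div_eq_zero_iff.mp key).resolve_right h3

end Run7.h793
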