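import Pool.Agent.Run7.h793.RotTransfer
import Pool.Agent.Run7.h793.Beltrami

/-!
Null 2-type surfaces with flat normal connection.
-/

namespace Run7.h793

open Filter Topology
open scoped ContDiff RealInnerProductSpace

set_option linter.unusedVariables false

variable {U : Ultrafilter P2} {V0 Ω : Set P2} {x : P2 → E4}

theorem flat_matrix {E F G L M N L' M' N' : ℝ} (hdet : E * G - F ^ 2 ≠ 0)
    (h : ((!![E, F; F, G] : Matrix (Fin 2) (Fin 2) ℝ)⁻¹ * !![L, M; M, N])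
        * ((!![E, F; F, G] : Matrix (Fin 2) (Fin 2) ℝ)⁻¹ * !![L', M'; M', N'])
      = ((!![E, F; F, G] : Matrix (Fin 2) (Fin 2) ℝ)⁻¹ * !![L', M'; M', N'])
        * ((!![E, F; F, G] : Matrix (Fin 2) (Fin 2) ℝ)⁻¹ * !![L, M; M, N])) :
    G * (L * M' - M * L') - F * (L * N' - N * L') + E * (M * N' - N * M') = 0 := by
  have hdet' : (!![E, F; F, G] : Matrix (Fin 2) (Fin 2) ℝ).det = E * G - F ^ 2 := by
    rw [Matrix.det_fin_two_of]; ring
  have hunit : IsUnit (!![E, F; F, G] : Matrix (Fin 2) (Fin 2) ℝ).det := by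
    rw [hdet']; exact isUnit_iff_ne_zero.mpr hdet
  obtain ⟨I, hI⟩ : ∃ I : Matrix (Fin 2) (Fin 2) ℝ, I = !![E, F; F, G] := ⟨_, rfl⟩
  obtain ⟨S, hS⟩ : ∃ I : Matrix (Fin 2) (Fin 2) ℝ, I = !![L, M; M, N] := ⟨_, rfl⟩
  obtain ⟨S', hS'⟩ : ∃ I : Matrix (Fin 2) (Fin 2) ℝ, I = !![L', M'; M', N'] := ⟨_, rfl⟩
  rw [← hI] at hunit h hdet'
  rw [← hS, ← hS'] at h
  have h2 : S * I⁻¹ * S' = S' * I⁻¹ * S := by
    have := congrArg (fun Z => I * Z) h
    simp only [← Matrix.mul_assoc] at this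
    rw [Matrix.mul_nonsing_inv _ hunit, Matrix.one_mul, Matrix.one_mul] at this
    exact this
  have h3 : S * I.adjugate * S' = S' * I.adjugate * S := by
    have hadj : I.adjugate = I.det • I⁻¹ := by
      rw [Matrix.inv_def, smul_smul, Ring.mul_inverse_cancel _ hunit, one_smul]
    rw [hadj, Matrix.mul_smul, Matrix.smul_mul, Matrix.mul_smul, Matrix.smul_mul, h2]
  rw [hI, hS, hS', Matrix.adjugate_fin_two_of] at h3
  have h4 := congrFun (congrFun h3 0) 1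
  simp [Matrix.mul_apply, Fin.sum_univ_two] at h4
  linear_combination h4

/-- flatness in the germ field -/
theorem flat_transfer (hU : Adapted U V0) (hΩ : IsOpen Ω) (hΩU : Ω ∈ U)
    (hx : ContDiffOn ℝ ∞ x Ω) (himm : ∀ p ∈ Ω, Function.Injective (fderiv ℝ x p))
    (hflat : HasFlatNormalConnection Ω x) (ξ η : Fin 4 → KF U)
    (h1 : ip (fun i => Der hU (1, 0) (gv U hΩ hΩU hx i)) ξ = 0)
    (h2 : ip (fun i => Der hU (0, 1) (gv U hΩ hΩU hx i)) ξ = 0)
    (h3 : ip (fun i => Der hU (1, 0) (gv U hΩ hΩU hx i)) η = 0)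
    (h4 : ip (fun i => Der hU (0, 1) (gv U hΩ hΩU hx i)) η = 0) :
    gs U hΩ hΩU (gG_smooth hΩ hx) *
        (ip (fun i => Der hU (1, 0) (Der hU (1, 0) (gv U hΩ hΩU hx i))) ξ
          * ip (fun i => Der hU (1, 0) (Der hU (0, 1) (gv U hΩ hΩU hx i))) η
        - ip (fun i => Der hU (1, 0) (Der hU (0, 1) (gv U hΩ hΩU hx i))) ξ
          * ip (fun i => Der hU (1, 0) (Der hU (1, 0) (gv U hΩ hΩU hx i))) η)
      - gs U hΩ hΩU (gF_smooth hΩ hx) *
        (ip (fun i => Der hU (1, 0) (Der hU (1, 0) (gv U hΩ hΩU hx i))) ξ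
          * ip (fun i => Der hU (0, 1) (Der hU (0, 1) (gv U hΩ hΩU hx i))) η
        - ip (fun i => Der hU (0, 1) (Der hU (0, 1) (gv U hΩ hΩU hx i))) ξ
          * ip (fun i => Der hU (1, 0) (Der hU (1, 0) (gv U hΩ hΩU hx i))) η)
      + gs U hΩ hΩU (gE_smooth hΩ hx) *
        (ip (fun i => Der hU (1, 0) (Der hU (0, 1) (gv U hΩ hΩU hx i))) ξ
          * ip (fun i => Der hU (0, 1) (Der hU (0, 1) (gv U hΩ hΩU hx i))) η
        - ip (fun i => Der hU (0, 1) (Der hU (0, 1) (gv U hΩ hΩU hx i))) ξ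
          * ip (fun i => Der hU (1, 0) (Der hU (0, 1) (gv U hΩ hΩU hx i))) η) = 0 := by
  obtain ⟨fξ, hfξ⟩ : ∃ f : P2 → E4, ∀ i, IsRep (ξ i) (fun p => f p i) :=
    ⟨fun p => WithLp.toLp 2 (fun i => rep (ξ i) p), fun i => isRep_rep _⟩
  obtain ⟨fη, hfη⟩ : ∃ f : P2 → E4, ∀ i, IsRep (η i) (fun p => f p i) :=
    ⟨fun p => WithLp.toLp 2 (fun i => rep (η i) p), fun i => isRep_rep _⟩
  have hxu := pu_smooth hΩ hx
  have hxv := pv_smooth hΩ hx
  have ru := fun i => rep_pu hU hΩ hΩU hx (isRep_gv hΩ hΩU hx i)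
  have rv := fun i => rep_pv hU hΩ hΩU hx (isRep_gv hΩ hΩU hx i)
  have ruu := fun i => rep_pu hU hΩ hΩU hxu (ru i)
  have ruv := fun i => rep_pu hU hΩ hΩU hxv (rv i)
  have rvv := fun i => rep_pv hU hΩ hΩU hxv (rv i)
  have e1 := ((rep_ip ru hfξ).eq_iff isRep_zero).mp h1
  have e2 := ((rep_ip rv hfξ).eq_iff isRep_zero).mp h2
  have e3 := ((rep_ip ru hfη).eq_iff isRep_zero).mp h3
  have e4 := ((rep_ip rv hfη).eq_iff isRep_zero).mp h4
  have rG := isRep_gs hΩ hΩU (gG_smooth hΩ hx)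
  have rF := isRep_gs hΩ hΩU (gF_smooth hΩ hx)
  have rE := isRep_gs hΩ hΩU (gE_smooth hΩ hx)
  have L := rep_ip ruu hfξ
  have M := rep_ip ruv hfξ
  have N := rep_ip rvv hfξ
  have L' := rep_ip ruu hfη
  have M' := rep_ip ruv hfη
  have N' := rep_ip rvv hfη
  rw [(((rG.mul ((L.mul M').sub (M.mul L'))).sub (rF.mul ((L.mul N').sub (N.mul L')))).add
    (rE.mul ((M.mul N').sub (N.mul M')))).eq_iff isRep_zero]
  filter_upwards [e1, e2, e3, e4, hΩU] with p p1 p2 p3 p4 hp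
  have hmem : ∀ w : E4, ⟪pu x p, w⟫ = 0 → ⟪pv x p, w⟫ = 0 → w ∈ (tangentPlane x p)ᗮ := by
    intro w k1 k2
    rw [Submodule.mem_orthogonal]
    intro u hu
    unfold tangentPlane at hu
    rw [Submodule.mem_span_pair] at hu
    obtain ⟨c, d, rfl⟩ := hu
    rw [inner_add_left, real_inner_smul_left, real_inner_smul_left, k1, k2]; simp
  have hfl := hflat p hp (fξ p) (hmem _ p1 p2) (fη p) (hmem _ p3 p4)
  unfold shapeOperator firstForm secondForm at hfl
  exact flat_matrix (ne_of_gt (gram_pos (himm p hp))) hfl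

theorem flat_main (hsurf : IsImmersedSurface Ω x) (hnull : IsNullTwoType Ω x)
    (hflat : HasFlatNormalConnection Ω x) :
    (∃ c : ℝ, ∀ p ∈ Ω, ‖meanCurvature x p‖ = c) ∨
      ∃ V ⊆ Ω, IsOpen V ∧ V.Nonempty ∧ IsRotationalOn V x := by
  obtain ⟨hΩ, hconn, hx, himm⟩ := hsurf
  obtain ⟨x0, x1, x2, lam, hlam, h1, h2, hdec, hl1, hl2, -, -⟩ := hnull
  have hpos := lap_position hΩ hx himm h1 h2 hdec hl1 hl2
  have hH : ∀ p ∈ Ω, meanCurvature x p = (-(lam / 2)) • x2 p := by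
    intro p hp
    rw [meanCurvature_eq hΩ hx himm hp, hpos p hp, smul_smul]; congr 1; ring
  obtain ⟨h, hh⟩ : ∃ h : P2 → ℝ, h = fun p => ⟪x2 p, x2 p⟫ := ⟨_, rfl⟩
  have hsm : ContDiffOn ℝ ∞ h Ω := by rw [hh]; exact h2.inner ℝ h2
  by_cases hc : ∀ p ∈ Ω, fderiv ℝ h p = 0
  · left
    obtain ⟨p0, hp0⟩ := hconn.nonempty
    refine ⟨‖meanCurvature x p0‖, fun p hp => ?_⟩
    have hconst := hΩ.is_const_of_fderiv_eq_zero hconn.isPreconnected
      (fun z hz => (diffAt hΩ hsm hz).differentiableWithinAt) hc hp hp0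
    rw [hh] at hconst
    simp only [real_inner_self_eq_norm_sq] at hconst
    rw [hH p hp, hH p0 hp0, norm_smul, norm_smul]
    congr 1
    have := norm_nonneg (x2 p)
    have := norm_nonneg (x2 p0)
    nlinarith
  · right
    push Not at hc
    obtain ⟨p0, hp0, hne⟩ := hc
    have hdc : ContinuousOn (fderiv ℝ h) Ω :=
      (hsm.fderiv_of_isOpen hΩ (m := ∞) (by simp)).continuousOn
    have hV0 : IsOpen (Ω ∩ {q | fderiv ℝ h q ≠ 0}) := hdc.isOpen_inter_preimage hΩ isOpen_ne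
    obtain ⟨U, hU⟩ := exists_adapted _ hV0 ⟨p0, hp0, hne⟩
    have hΩU : Ω ∈ U := Filter.mem_of_superset hU.1 Set.inter_subset_left
    obtain ⟨m1, m2, m3, m4, m5⟩ := metric_rel hU hΩ hΩU hx himm
    have rE := isRep_gs hΩ hΩU (gE_smooth hΩ hx)
    have rF := isRep_gs hΩ hΩU (gF_smooth hΩ hx)
    have rG := isRep_gs hΩ hΩU (gG_smooth hΩ hx)
    have rW := isRep_gs hΩ hΩU (gW_smooth hΩ hx himm)
    obtain ⟨la, hla⟩ : ∃ la, la = cst U lam := ⟨_, rfl⟩
    have hula : Der hU (1, 0) la = 0 := by rw [hla]; exact Der_cst hU _ _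
    have hvla : Der hU (0, 1) la = 0 := by rw [hla]; exact Der_cst hU _ _
    have hula2 : Der hU (1, 0) (-la / 2) = 0 := by
      have : -la / 2 = cst U (-lam / 2) := by
        have e2 : (2 : KF U) = cst U 2 := rfl
        rw [hla, e2, ((isRep_cst (U := U) lam).neg.div (isRep_cst 2)).eq_iff (isRep_cst _)]
        exact Eventually.of_forall (fun _ => rfl)
      rw [this]; exact Der_cst hU _ _
    have hvla2 : Der hU (0, 1) (-la / 2) = 0 := by
      have : -la / 2 = cst U (-lam / 2) := by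
        have e2 : (2 : KF U) = cst U 2 := rfl
        rw [hla, e2, ((isRep_cst (U := U) lam).neg.div (isRep_cst 2)).eq_iff (isRep_cst _)]
        exact Eventually.of_forall (fun _ => rfl)
      rw [this]; exact Der_cst hU _ _
    have hX : ∀ i, LBK (Der hU (1, 0)) (Der hU (0, 1)) (gs U hΩ hΩU (gE_smooth hΩ hx))
        (gs U hΩ hΩU (gF_smooth hΩ hx)) (gs U hΩ hΩU (gG_smooth hΩ hx))
        (gs U hΩ hΩU (gW_smooth hΩ hx himm)) (gv U hΩ hΩU hx i)
        = -2 * ((-la / 2) * gv U hΩ hΩU h2 i) := by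
      intro i
      have e : -2 * ((-la / 2) * gv U hΩ hΩU h2 i) = la * gv U hΩ hΩU h2 i := by
        field_simp
      rw [e, hla]
      rw [(rep_lap hU hΩ hΩU hx himm hx rE rF rG rW (isRep_gv hΩ hΩU hx i)).eq_iff
        ((isRep_cst lam).mul (isRep_gv hΩ hΩU h2 i))]
      filter_upwards [hΩU] with p hp
      rw [hpos p hp]; simp
    have hH2 : ∀ i, LBK (Der hU (1, 0)) (Der hU (0, 1)) (gs U hΩ hΩU (gE_smooth hΩ hx))
        (gs U hΩ hΩU (gF_smooth hΩ hx)) (gs U hΩ hΩU (gG_smooth hΩ hx))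
        (gs U hΩ hΩU (gW_smooth hΩ hx himm)) ((-la / 2) * gv U hΩ hΩU h2 i)
        = la * ((-la / 2) * gv U hΩ hΩU h2 i) := by
      intro i
      rw [LBK_smul _ _ _ _ _ _ hula2 hvla2]
      have e : LBK (Der hU (1, 0)) (Der hU (0, 1)) (gs U hΩ hΩU (gE_smooth hΩ hx))
        (gs U hΩ hΩU (gF_smooth hΩ hx)) (gs U hΩ hΩU (gG_smooth hΩ hx))
        (gs U hΩ hΩU (gW_smooth hΩ hx himm)) (gv U hΩ hΩU h2 i) = la * gv U hΩ hΩU h2 i := by
        rw [hla]
        rw [(rep_lap hU hΩ hΩU hx himm h2 rE rF rG rW (isRep_gv hΩ hΩU h2 i)).eq_iff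
          ((isRep_cst lam).mul (isRep_gv hΩ hΩU h2 i))]
        filter_upwards [hΩU] with p hp
        rw [hl2 p hp]; simp
      rw [e]; ring
    rcases main_K exists_sqrt (Der_comm hU (1, 0) (0, 1)) m5 m1 m2 m3 m4 hX hH2 hula hvla
      (flat_transfer hU hΩ hΩU hx himm hflat) with ⟨c1, c2⟩ | ⟨u, v, c, p, q, r, hrot⟩
    · exfalso
      -- the germ of h has zero derivatives
      have hla0 : la ≠ 0 := by
        rw [hla]
        intro h0
        have := ((isRep_cst (U := U) lam).eq_iff isRep_zero).mp h0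
        obtain ⟨y, hy⟩ := this.exists
        exact hlam hy
      have hip : ip (fun i => (-la / 2) * gv U hΩ hΩU h2 i)
          (fun i => (-la / 2) * gv U hΩ hΩU h2 i) = (-la / 2) ^ 2 * ip (gv U hΩ hΩU h2)
          (gv U hΩ hΩU h2) := by unfold ip; ring
      have hne2 : (-la / 2) ^ 2 ≠ 0 := by
        apply pow_ne_zero; field_simp; simpa using hla0
      have d1 : Der hU (1, 0) (ip (gv U hΩ hΩU h2) (gv U hΩ hΩU h2)) = 0 := by
        change Der hU (1, 0) (ip (fun i => (-la / 2) * gv U hΩ hΩU h2 i)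
          (fun i => (-la / 2) * gv U hΩ hΩU h2 i)) = 0 at c1
        rw [hip, Derivation.leibniz, Derivation.leibniz_pow, hula2] at c1
        simp only [smul_zero, add_zero, smul_eq_mul, mul_zero] at c1
        exact (mul_eq_zero.mp c1).resolve_left hne2
      have d2 : Der hU (0, 1) (ip (gv U hΩ hΩU h2) (gv U hΩ hΩU h2)) = 0 := by
        change Der hU (0, 1) (ip (fun i => (-la / 2) * gv U hΩ hΩU h2 i)
          (fun i => (-la / 2) * gv U hΩ hΩU h2 i)) = 0 at c2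
        rw [hip, Derivation.leibniz, Derivation.leibniz_pow, hvla2] at c2
        simp only [smul_zero, add_zero, smul_eq_mul, mul_zero] at c2
        exact (mul_eq_zero.mp c2).resolve_left hne2
      have rh : IsRep (ip (gv U hΩ hΩU h2) (gv U hΩ hΩU h2)) h := by
        rw [hh]; exact rep_ip (isRep_gv hΩ hΩU h2) (isRep_gv hΩ hΩU h2)
      have hz := fderiv_zero_OF hU rh ⟨Ω, hΩ, hΩU, hsm⟩ d1 d2
      obtain ⟨N, n1, n2, n3⟩ := eventually_OF.mp hz
      obtain ⟨y, hy1, hy2⟩ : (N ∩ (Ω ∩ {q | fderiv ℝ h q ≠ 0})).Nonempty :=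
        Ultrafilter.nonempty_of_mem (Filter.inter_mem n2 hU.1)
      exact hy2.2 (n3 y hy1)
    · obtain ⟨V, hV, k1, k2, k3⟩ := rot_transfer hU hV0 hΩ hΩU hx hrot
      exact ⟨V, hV.trans Set.inter_subset_left, k1, k2, k3⟩

end Run7.h793
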