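import Pool.Agent.Run7.h793.MainK

/-!
The main theorem over an ordered differential field, continued.
-/

namespace Run7.h793

set_option linter.unusedSimpArgs false
set_option linter.unusedVariables false

variable {K : Type*} [Field K]

/-- Data of an infinitesimal rotation tangent to the surface. -/
structure RotData (du dv : Derivation ℤ K K) (X u v c : Fin 4 → K) (p q r : K) : Prop where
  uu : ip u u = 1
  vv : ip v v = 1
  uv : ip u v = 0
  rne : r ≠ 0
  dS : ∀ i j, du (u i * v j - v i * u j) = 0 ∧ dv (u i * v j - v i * u j) = 0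
  dT : ∀ i, du (u i * ip v c - v i * ip u c) = 0 ∧ dv (u i * ip v c - v i * ip u c) = 0
  field : ∀ i, u i * (ip v X - ip v c) - v i * (ip u X - ip u c) = r * u i
  tang : ∀ i, u i = p * du (X i) + q * dv (X i)

theorem du_dv_zero {du dv D1 D2 : Derivation ℤ K K} {a b c d W : K}
    (hdet : (a * d - b * c) * W = 1) (hD1 : ∀ f, D1 f = a * du f + b * dv f)
    (hD2 : ∀ f, D2 f = c * du f + d * dv f) {f : K} (h1 : D1 f = 0) (h2 : D2 f = 0) :
    du f = 0 ∧ dv f = 0 := by
  rw [hD1] at h1
  rw [hD2] at h2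
  constructor
  · linear_combination W * d * h1 - W * b * h2 - du f * hdet
  · linear_combination (-W * c) * h1 + W * a * h2 - dv f * hdet

section ordered
variable [LinearOrder K] [IsStrictOrderedRing K]

theorem rot_of_frame (hsqrt : ∀ a : K, 0 < a → ∃ b, 0 < b ∧ b * b = a)
    {D1 D2 : Derivation ℤ K K} {A B al mu be W1 W2 la : K}
    {X e3 e4 : Fin 4 → K} (hbe : be ≠ 0)
    (hF : FrameEq D1 D2 A B al mu be 0 W1 W2 (fun i => D1 (X i)) (fun i => D2 (X i)) e3 e4)
    (hS : StrEq D1 D2 A B al mu be 0 W1 W2 la)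
    (hA : A = 0) (hW2 : W2 = 0) (hal2 : D2 al = 0) (hmu2 : D2 mu = 0) (hbe2 : D2 be = 0)
    (hB2 : D2 B = 0) : ∃ (v c : Fin 4 → K) (r : K),
      RotData D1 D2 X (fun i => D2 (X i)) v c 0 1 r := by
  obtain ⟨e1, he1⟩ : ∃ e1 : Fin 4 → K, ∀ i, e1 i = D1 (X i) := ⟨_, fun _ => rfl⟩
  obtain ⟨e2, he2⟩ : ∃ e2 : Fin 4 → K, ∀ i, e2 i = D2 (X i) := ⟨_, fun _ => rfl⟩
  simp only [← he1, ← he2] at hF ⊢
  obtain ⟨⟨h11, h22, h33, h44, h12, h13, h14, h23, h24, h34⟩, d11, d12, d13, d14, d21, d22, d23,
    d24⟩ := hF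
  obtain ⟨mu1, mu2, be2, be1, gauss, ricci, t1, t2, n3, n4⟩ := hS
  subst hA hW2
  rw [map_zero] at be1 be2 gauss
  obtain ⟨N, hN⟩ : ∃ N : Fin 4 → K, ∀ i, N i = B * e1 i + (al - mu) * e3 i - be * e4 i :=
    ⟨_, fun _ => rfl⟩
  obtain ⟨k2, hk2⟩ : ∃ k, k = B ^ 2 + (al - mu) ^ 2 + be ^ 2 := ⟨_, rfl⟩
  have hk2pos : 0 < k2 := by
    have h1 := sq_nonneg B
    have h2 := sq_nonneg (al - mu)
    have h3 : 0 < be ^ 2 := by positivity
    rw [hk2]; linarith
  have hk20 : k2 ≠ 0 := ne_of_gt hk2pos
  obtain ⟨ka, hka, hkaka⟩ := hsqrt _ hk2pos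
  have hka0 : ka ≠ 0 := ne_of_gt hka
  have D1N : ∀ i, D1 (N i) = B * N i := by
    intro i
    rw [hN]
    simp only [map_add, map_sub, Derivation.leibniz, smul_eq_mul, d11, d13, d14]
    linear_combination (e1 i) * gauss - (e3 i) * mu1 - (e4 i) * be1
  have D2N : ∀ i, D2 (N i) = -k2 * e2 i := by
    intro i
    rw [hN, hk2]
    simp only [map_add, map_sub, Derivation.leibniz, smul_eq_mul, d21, d23, d24, hal2, hmu2, hbe2,
      hB2]
    ring
  have D1k2 : D1 k2 = 2 * B * k2 := by
    rw [hk2]
    simp only [map_add, map_sub, Derivation.leibniz_pow, smul_eq_mul, nsmul_eq_mul]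
    push_cast
    linear_combination 2 * B * gauss - 2 * (al - mu) * mu1 + 2 * be * be1
  have D2k2 : D2 k2 = 0 := by
    rw [hk2]
    simp only [map_add, map_sub, Derivation.leibniz_pow, smul_eq_mul, nsmul_eq_mul, hal2, hmu2,
      hbe2, hB2]
    ring
  have D1ka : D1 ka = B * ka := by
    have h := congrArg D1 hkaka
    rw [D1k2] at h
    simp only [Derivation.leibniz, smul_eq_mul] at h
    refine mul_left_cancel₀ (mul_ne_zero two_ne_zero hka0) ?_
    linear_combination h - 2 * B * hkaka
  have D2ka : D2 ka = 0 := by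
    have h := congrArg D2 hkaka
    rw [D2k2] at h
    simp only [Derivation.leibniz, smul_eq_mul] at h
    refine mul_left_cancel₀ (mul_ne_zero two_ne_zero hka0) ?_
    linear_combination h
  obtain ⟨m, hm⟩ : ∃ m, m = ka⁻¹ := ⟨_, rfl⟩
  have hmka : m * ka = 1 := by rw [hm]; exact inv_mul_cancel₀ hka0
  have hm0 : m ≠ 0 := by rw [hm]; exact inv_ne_zero hka0
  have hmk2 : m ^ 2 * k2 = 1 := by
    rw [← hkaka]; linear_combination (m * ka + 1) * hmka
  have D1m : D1 m = -B * m := by
    have h := congrArg D1 hmka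
    simp only [Derivation.leibniz, smul_eq_mul, D1ka, Derivation.map_one_eq_zero] at h
    refine mul_left_cancel₀ hka0 ?_
    linear_combination h
  have D2m : D2 m = 0 := by
    have h := congrArg D2 hmka
    simp only [Derivation.leibniz, smul_eq_mul, D2ka, Derivation.map_one_eq_zero] at h
    refine mul_left_cancel₀ hka0 ?_
    linear_combination h
  have ipNN : ip N N = k2 := by
    unfold ip at *
    simp only [hN]
    rw [hk2]
    linear_combination B ^ 2 * h11 + (al - mu) ^ 2 * h33 + be ^ 2 * h44 + 2 * B * (al - mu) * h13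
      - 2 * B * be * h14 - 2 * (al - mu) * be * h34
  have ipN1 : ip N e1 = B := by
    unfold ip at *
    simp only [hN]
    linear_combination B * h11 + (al - mu) * h13 - be * h14
  have ipN2 : ip N e2 = 0 := by
    unfold ip at *
    simp only [hN]
    linear_combination B * h12 + (al - mu) * h23 - be * h24
  have De2 : ∀ i, D1 (e2 i) = 0 := by intro i; rw [d12]; ring
  have De2' : ∀ i, D2 (e2 i) = N i := by intro i; rw [d22, hN]
  refine ⟨fun i => m * N i, fun i => X i + m ^ 2 * N i, -m, ?_⟩
  have hv : ip (fun i => m * N i) (fun i => m * N i) = 1 := by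
    have : ip (fun i => m * N i) (fun i => m * N i) = m ^ 2 * ip N N := by unfold ip; ring
    rw [this, ipNN, hmk2]
  have huv : ip e2 (fun i => m * N i) = 0 := by
    have : ip e2 (fun i => m * N i) = m * ip N e2 := by unfold ip; ring
    rw [this, ipN2, mul_zero]
  have D1mN : ∀ i, D1 (m * N i) = 0 := by
    intro i; rw [Derivation.leibniz, D1N, D1m]; simp only [smul_eq_mul]; ring
  have D2mN : ∀ i, D2 (m * N i) = -m * k2 * e2 i := by
    intro i; rw [Derivation.leibniz, D2N, D2m]; simp only [smul_eq_mul]; ring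
  have D1c : ∀ i, D1 (X i + m ^ 2 * N i) = e1 i - B * m ^ 2 * N i := by
    intro i
    rw [map_add, Derivation.leibniz, Derivation.leibniz_pow, D1N, D1m, ← he1]
    simp only [smul_eq_mul, nsmul_eq_mul]; push_cast; ring
  have D2c : ∀ i, D2 (X i + m ^ 2 * N i) = 0 := by
    intro i
    rw [map_add, Derivation.leibniz, Derivation.leibniz_pow, D2N, D2m, ← he2]
    simp only [smul_eq_mul, nsmul_eq_mul]; push_cast
    linear_combination (-e2 i) * hmk2
  refine ⟨h22, hv, huv, neg_ne_zero.mpr hm0, ?_, ?_, ?_, ?_⟩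
  · intro i j
    constructor
    · rw [map_sub, Derivation.leibniz, Derivation.leibniz (D := D1) (m * N i), D1mN, D1mN, De2,
        De2]
      simp
    · rw [map_sub, Derivation.leibniz, Derivation.leibniz (D := D2) (m * N i), D2mN, D2mN, De2',
        De2']
      simp only [smul_eq_mul]; ring
  · intro i
    constructor
    · rw [map_sub, Derivation.leibniz, Derivation.leibniz (D := D1) (m * N i), D_ip, D_ip]
      simp only [D1mN, De2, D1c, smul_eq_mul]
      have q1 : ip (fun i => m * N i) (fun i => e1 i - B * m ^ 2 * N i) = 0 := by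
        have : ip (fun i => m * N i) (fun i => e1 i - B * m ^ 2 * N i)
          = m * ip N e1 - B * m ^ 3 * ip N N := by unfold ip; ring
        rw [this, ipN1, ipNN]; linear_combination (-B * m) * hmk2
      have q2 : ip e2 (fun i => e1 i - B * m ^ 2 * N i) = 0 := by
        have : ip e2 (fun i => e1 i - B * m ^ 2 * N i) = ip e1 e2 - B * m ^ 2 * ip N e2 := by
          unfold ip; ring
        rw [this, h12, ipN2]; ring
      rw [q1, q2]
      unfold ip
      ring
    · rw [map_sub, Derivation.leibniz, Derivation.leibniz (D := D2) (m * N i), D_ip, D_ip]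
      simp only [D2mN, De2', D2c, smul_eq_mul]
      unfold ip
      ring
  · intro i
    have q1 : ip (fun i => m * N i) X - ip (fun i => m * N i) (fun i => X i + m ^ 2 * N i)
        = -m := by
      have : ip (fun i => m * N i) X - ip (fun i => m * N i) (fun i => X i + m ^ 2 * N i)
        = - m ^ 3 * ip N N := by unfold ip; ring
      rw [this, ipNN]; linear_combination (-m) * hmk2
    have q2 : ip e2 X - ip e2 (fun i => X i + m ^ 2 * N i) = 0 := by
      have : ip e2 X - ip e2 (fun i => X i + m ^ 2 * N i)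
        = - m ^ 2 * ip N e2 := by unfold ip; ring
      rw [this, ipN2]; ring
    rw [q1, q2]; ring
  · intro i; rw [← he2]; ring

omit [LinearOrder K] [IsStrictOrderedRing K] in
theorem RotData.change {du dv D1 D2 : Derivation ℤ K K} {a b c d W : K}
    (hdet : (a * d - b * c) * W = 1) (hD1 : ∀ f, D1 f = a * du f + b * dv f)
    (hD2 : ∀ f, D2 f = c * du f + d * dv f) {X u v y : Fin 4 → K} {p q r : K}
    (h : RotData D1 D2 X u v y p q r) :
    ∃ p' q', RotData du dv X u v y p' q' r := by
  obtain ⟨uu, vv, uv, rne, dS, dT, field, tang⟩ := h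
  refine ⟨p * a + q * c, p * b + q * d, uu, vv, uv, rne, ?_, ?_, field, ?_⟩
  · intro i j
    exact du_dv_zero hdet hD1 hD2 (dS i j).1 (dS i j).2
  · intro i
    exact du_dv_zero hdet hD1 hD2 (dT i).1 (dT i).2
  · intro i
    rw [tang i, hD1, hD2]; ring

/-- algebraic part: constant mean curvature or one derivative vanishes. -/
theorem cases_K {D1 D2 : Derivation ℤ K K} {A B al mu be ga W1 W2 la : K}
    (hal : 0 < al) (hD1la : D1 la = 0) (hD2la : D2 la = 0)
    (hcomm : ∀ f, D1 (D2 f) - D2 (D1 f) = -A * D1 f + B * D2 f)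
    (h : StrEq D1 D2 A B al mu be ga W1 W2 la) (hmg : mu * ga = 0) :
    (D1 al = 0 ∧ D2 al = 0) ∨ (mu ≠ 0 ∧ be ≠ 0 ∧ ga = 0 ∧ D1 al ≠ 0 ∧ D2 al = 0) ∨
      (mu ≠ 0 ∧ be ≠ 0 ∧ ga = 0 ∧ D1 al = 0 ∧ D2 al ≠ 0) := by
  have hal0 : al ≠ 0 := ne_of_gt hal
  by_cases hmu : mu = 0
  · left
    obtain ⟨mu1, mu2, be2, be1, gauss, ricci, t1, t2, n3, n4⟩ := h
    subst hmu
    rw [map_zero] at mu1 mu2
    constructor
    · refine mul_left_cancel₀ hal0 ?_
      linear_combination al * mu1 + t1
    · refine mul_left_cancel₀ hal0 ?_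
      linear_combination -al * mu2 - t2
  · have hga : ga = 0 := (mul_eq_zero.mp hmg).resolve_left hmu
    subst hga
    by_cases hbe : be = 0
    · left
      subst hbe
      constructor
      · by_contra h1
        exact be_zero_case hal hmu h1 hD1la h
      · by_contra h1
        have hs := h.swap
        rw [neg_zero] at hs
        exact be_zero_case hal (neg_ne_zero.mpr hmu) h1 hD2la hs
    · by_cases h1 : D1 al = 0
      · by_cases h2 : D2 al = 0
        · exact Or.inl ⟨h1, h2⟩
        · exact Or.inr (Or.inr ⟨hmu, hbe, rfl, h1, h2⟩)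
      · by_cases h2 : D2 al = 0
        · exact Or.inr (Or.inl ⟨hmu, hbe, rfl, h1, h2⟩)
        · exfalso
          obtain ⟨mu1, mu2, be2, be1, gauss, ricci, t1, t2, n3, n4⟩ := h
          rw [map_zero] at be1 be2
          obtain ⟨a1, ha1⟩ : ∃ a1, a1 = D1 al / al := ⟨_, rfl⟩
          obtain ⟨a2, ha2⟩ : ∃ a2, a2 = D2 al / al := ⟨_, rfl⟩
          have ha1' : D1 al = al * a1 := by rw [ha1]; field_simp
          have ha2' : D2 al = al * a2 := by rw [ha2]; field_simp
          have a1ne : a1 ≠ 0 := by rintro rfl; exact h1 (by rw [ha1']; ring)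
          have a2ne : a2 ≠ 0 := by rintro rfl; exact h2 (by rw [ha2']; ring)
          have hW1 : be * W1 = -(2 * al + mu) * a1 := by
            refine mul_left_cancel₀ hal0 ?_
            linear_combination t1 - (2 * al + mu) * ha1'
          have hW2 : be * W2 = (2 * al - mu) * a2 := by
            refine mul_left_cancel₀ hal0 ?_
            linear_combination t2 + (2 * al - mu) * ha2'
          have hD1D1 : D1 (D1 al) = al * D1 a1 + a1 * (al * a1) := by
            rw [ha1', Derivation.leibniz, ha1']; simp only [smul_eq_mul]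
          have hD2D2 : D2 (D2 al) = al * D2 a2 + a2 * (al * a2) := by
            rw [ha2', Derivation.leibniz, ha2']; simp only [smul_eq_mul]
          refine generic_case D1 D2 A B al mu be W1 W2 a1 a2 la hal0 hmu hbe a1ne a2ne ?_ hcomm
            ha1' ha2' hD1la hD2la ?_ ?_ hW1 hW2 ?_ ?_ ?_ ?_ ?_ ?_
          · have h3 : 0 < mu ^ 2 := by positivity
            have h4 : 0 < be ^ 2 := by positivity
            linarith
          · linear_combination mu1 + ha1' + hW1
          · linear_combination mu2 - ha2' + hW2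
          · linear_combination be1
          · linear_combination be2
          · refine mul_left_cancel₀ hal0 ?_
            rw [hD1D1, hD2D2] at n3
            linear_combination n3 + A * ha2' + B * ha1'
          · refine mul_left_cancel₀ hal0 ?_
            linear_combination n4 - 2 * W1 * ha1' - 2 * W2 * ha2'
          · linear_combination gauss
          · linear_combination ricci

end ordered

end Run7.h793
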