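import Pool.Agent.Run7.h793.S2Sys
import Pool.Agent.Run7.h793.EvenRel

/-!
From the structure equations of the rotational case to the system.
-/

namespace Run7.h793

set_option linter.unusedSimpArgs false
set_option linter.unusedVariables false

/-- the data of the rotational case in the variables `x, m, k, s, n` -/
structure RotSys {K : Type*} [Field K] (D : Derivation ℤ K K) (x m k s n : K) : Prop where
  hx : D x = 1 - m - x ^ 2
  hm : D m = 2 * x * m + n
  hk : D k = 2 * x * k - n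
  hs : D s = 2 / 3 * x * s + 2 * n
  hn : D n = -m * k
  l1 : s * pA1 x 1 m k n + pB1 x 1 m k n = 0
  lx : pX x 1 m k s n = 0
  ht : 3 * n + x * s ≠ 0

theorem rotSys_of {K : Type*} [Field K] [CharZero K] (D1 : Derivation ℤ K K)
    {B al mu be W1 a1 la p x m k s n : K} (hal : al ≠ 0) (ha : a1 ≠ 0) (hbe : be ≠ 0)
    (hp : p ≠ 0)
    (hR : p ^ 2 * (B ^ 2 + (al - mu) ^ 2 + be ^ 2) = 1)
    (dp : D1 p = -B * p) (dal : D1 al = a1) (dmu : D1 mu = a1 + 2 * B * mu + W1 * be)
    (dbe : D1 be = 2 * B * be + (al - mu) * W1) (dB : D1 B = B ^ 2 + al ^ 2 - mu ^ 2 - be ^ 2)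
    (dla : D1 la = 0)
    (T1 : al * (be * W1) = -(2 * al + mu) * a1)
    (N3 : D1 a1 = al * (al + mu) ^ 2 + al * (al - mu) ^ 2 + al * W1 ^ 2 + B * a1 - la * al)
    (N4 : al * D1 W1 = 2 * al * mu * be + B * al * W1 - 2 * a1 * W1)
    (hx : x = -B * p) (hm : m = 2 * al * (al - mu) * p ^ 2) (hk : k = la * p ^ 2 - m)
    (hs : s = -12 * al * mu * p ^ 2)
    (hn : n = 6 * al * a1 * p ^ 3 - 4 * al * mu * B * p ^ 3) :
    RotSys (p • D1) x m k s n := by
  have h2c : D1 (2 : K) = 0 := der_ofNat D1 2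
  have h3c : D1 (3 : K) = 0 := der_ofNat D1 3
  have h4c : D1 (4 : K) = 0 := der_ofNat D1 4
  have h6c : D1 (6 : K) = 0 := der_ofNat D1 6
  have h12c : D1 (12 : K) = 0 := der_ofNat D1 12
  -- the derivative of T1
  have hb0 : 3 * al ^ 2 * W1 ^ 2 - 4 * al * B * a1 + 2 * al * mu * be ^ 2 + 3 * a1 ^ 2
      + (2 * al + mu) * al * (2 * (al ^ 2 + mu ^ 2) - la) = 0 := by
    have h := congrArg D1 T1
    simp only [Derivation.leibniz, map_add, map_neg, map_zero, smul_eq_mul, h2c, dal, dmu, dbe,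
      N3] at h
    linear_combination h - be * N4 - 3 * B * T1
  have dx : (p • D1) x = 1 - m - x ^ 2 := by
    rw [hx, hm, Derivation.smul_apply, smul_eq_mul]
    simp only [Derivation.leibniz, map_neg, smul_eq_mul, dp, dB]
    linear_combination hR
  have dm : (p • D1) m = 2 * x * m + n := by
    rw [hx, hm, hn, Derivation.smul_apply, smul_eq_mul]
    simp only [Derivation.leibniz, Derivation.leibniz_pow, map_sub, map_neg, smul_eq_mul, dp, dB,
      nsmul_eq_mul, dal, dmu, h2c]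
    push_cast
    linear_combination -2 * p ^ 3 * T1
  have dk : (p • D1) k = 2 * x * k - n := by
    rw [hk, map_sub, dm, hx, Derivation.smul_apply, smul_eq_mul]
    simp only [Derivation.leibniz, Derivation.leibniz_pow, map_sub, map_neg, smul_eq_mul, dp,
      nsmul_eq_mul, dla, h2c]
    push_cast
    ring
  have ds : (p • D1) s = 2 / 3 * x * s + 2 * n := by
    rw [hx, hs, hn, Derivation.smul_apply, smul_eq_mul]
    simp only [Derivation.leibniz, Derivation.leibniz_pow, map_sub, map_neg, smul_eq_mul, dp, dB,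
      nsmul_eq_mul, dal, dmu, h12c]
    push_cast
    linear_combination -12 * p ^ 3 * T1
  have hmu1 : D1 (al * mu * B) = a1 * mu * B + al * mu * (B ^ 2 + al ^ 2 - mu ^ 2 - be ^ 2)
      + (al * a1 + 2 * B * al * mu - (2 * al + mu) * a1) * B := by
    simp only [Derivation.leibniz, smul_eq_mul, dal, dmu, dB]
    linear_combination B * T1
  have dn : (p • D1) n = -m * k := by
    have e0 : n = 6 * (al * a1 * p ^ 3) - 4 * (al * mu * B * p ^ 3) := by rw [hn]; ring
    rw [e0, hk, hm, Derivation.smul_apply, smul_eq_mul]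
    have e1 : D1 (6 * (al * a1 * p ^ 3) - 4 * (al * mu * B * p ^ 3))
      = 6 * (a1 ^ 2 * p ^ 3 + al * (al * (al + mu) ^ 2 + al * (al - mu) ^ 2 + al * W1 ^ 2
        + B * a1 - la * al) * p ^ 3 - 3 * B * al * a1 * p ^ 3) - 4 * (D1 (al * mu * B) * p ^ 3
        - 3 * al * mu * B ^ 2 * p ^ 3) := by
      simp only [Derivation.leibniz, Derivation.leibniz_pow, map_sub, map_neg, smul_eq_mul, dp,
        nsmul_eq_mul, dal, dmu, h6c, h4c, N3]
      push_cast
      ring
    rw [e1, hmu1]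
    linear_combination 2 * p ^ 4 * hb0
  have hT1 : (al * be * W1) ^ 2 = ((2 * al + mu) * a1) ^ 2 := by
    linear_combination (al * be * W1 - (2 * al + mu) * a1) * T1
  have ht : 3 * n + x * s = 18 * al * a1 * p ^ 3 := by rw [hx, hs, hn]; ring
  have hg : 1 - x ^ 2 = p ^ 2 * ((al - mu) ^ 2 + be ^ 2) := by
    rw [hx]; linear_combination -hR
  have hG : 6 * m - s = 12 * al ^ 2 * p ^ 2 := by rw [hm, hs]; ring
  have lx : pX x 1 m k s n = 0 := by
    have e1 : pX x 1 m k s n = (3 * n + x * s) ^ 2 * (4 * (1 - x ^ 2) + 6 * m - 3 * s)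
        - ((1 - x ^ 2) * (6 * m - s) - 3 * m ^ 2) * (-8 * x * (3 * n + x * s)
          + 6 * s * (1 - x ^ 2) + 3 * m * s - 3 * s ^ 2 + 36 * m * k - 9 * s * k) := by
      unfold pX; ring
    rw [e1, hg, ht, hG, hx, hs, hk, hm]
    linear_combination (432 * p ^ 8 * al ^ 2 * be ^ 2) * hb0 - 1296 * p ^ 8 * al ^ 2 * hT1
  -- the first derived equation
  obtain ⟨Y, hY⟩ : ∃ Y, Y = (-3 * m * k + s - m * s - 7 / 3 * x ^ 2 * s - 4 * x * n) / 18
      - m ^ 2 / 4 + (m + k) * (6 * m - s) / 12 := ⟨_, rfl⟩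
  have hΨ : Y = p ^ 4 * (a1 ^ 2 + (al * (al + mu)) ^ 2 + (al * W1) ^ 2) := by
    have e2 : Y = (-3 * m * k + s * (1 - x ^ 2) - m * s - 4 / 3 * x ^ 2 * s - 4 * x * n) / 18
      - m ^ 2 / 4 + (m + k) * (6 * m - s) / 12 := by rw [hY]; ring
    rw [e2, hg, hG, hx, hs, hk, hn, hm]
    linear_combination (-1 / 3 * p ^ 4) * hb0
  have q1 : D1 (al * (al + mu)) = a1 * (al + mu) + al * (2 * a1 + 2 * B * mu + W1 * be) := by
    simp only [Derivation.leibniz, map_add, smul_eq_mul, dal, dmu]; ring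
  have q2 : D1 (al * W1) = 2 * al * mu * be + B * al * W1 - a1 * W1 := by
    simp only [Derivation.leibniz, smul_eq_mul, dal]; linear_combination N4
  have dY : (p • D1) Y = 2 * x * Y + m * (2 * x * m + n) / 2 - x * m ^ 2 / 2
      - (m + k) * (3 * n + x * s) / 9 := by
    rw [hΨ, ht, Derivation.smul_apply, smul_eq_mul]
    rw [Derivation.leibniz, map_add, map_add, Derivation.leibniz_pow, Derivation.leibniz_pow,
      Derivation.leibniz_pow, Derivation.leibniz_pow, q1, q2, N3, dp]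
    simp only [nsmul_eq_mul, smul_eq_mul]
    push_cast
    rw [hx, hk, hn, hm]
    linear_combination (p ^ 5 * (2 * al * (al + mu) + 4 * al * mu)) * T1
  have l1 : s * pA1 x 1 m k n + pB1 x 1 m k n = 0 := by
    have e3 : 108 * Y = 6 * (-3 * m * k + s - m * s) - 14 * x ^ 2 * s - 24 * x * n - 27 * m ^ 2
      + 9 * (m + k) * (6 * m - s) := by rw [hY]; ring
    obtain ⟨D, hD⟩ : ∃ D : Derivation ℤ K K, D = p • D1 := ⟨_, rfl⟩
    rw [← hD] at dx dm dk ds dn dY
    have h := congrArg D e3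
    simp only [map_add, map_sub, map_neg, map_zero, Derivation.leibniz,
      Derivation.leibniz_pow, smul_eq_mul, nsmul_eq_mul, der_ofNat, dx, dm, dk, ds, dn, dY] at h
    push_cast at h
    unfold pA1 pB1
    linear_combination (-3 / 2) * h + 3 * x * e3
  refine ⟨dx, dm, dk, ds, dn, l1, lx, ?_⟩
  rw [ht]
  have h18 : (18 : K) ≠ 0 := by norm_num
  exact mul_ne_zero (mul_ne_zero (mul_ne_zero h18 hal) ha) (pow_ne_zero 3 hp)

end Run7.h793
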