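import Pool.Agent.Run7.h793.S2Main
import Pool.Agent.Run7.h793.S2Struct
import Pool.Agent.Run7.h793.MainK2

/-!
The rotational case cannot occur.
-/

namespace Run7.h793

set_option linter.unusedSimpArgs false
set_option linter.unusedVariables false

section ordered
variable {K : Type*} [Field K] [LinearOrder K] [IsStrictOrderedRing K]

theorem s2_false (hsqrt : ∀ a : K, 0 < a → ∃ b, 0 < b ∧ b * b = a)
    (hcbrt : ∀ a : K, 0 < a → ∃ b, 0 < b ∧ b ^ 3 = a)
    {D1 D2 : Derivation ℤ K K} {A B al mu be W1 W2 la : K}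
    (hal : 0 < al) (hbe : be ≠ 0) (h1 : D1 al ≠ 0) (h2 : D2 al = 0)
    (hla : D1 la = 0)
    (hS : StrEq D1 D2 A B al mu be 0 W1 W2 la) (hA : A = 0) (hW2 : W2 = 0) : False := by
  have hal0 : al ≠ 0 := ne_of_gt hal
  obtain ⟨mu1, mu2, be2, be1, gauss, ricci, t1, t2, n3, n4⟩ := hS
  subst hA hW2
  rw [map_zero] at be1 be2 gauss n4
  rw [h2, map_zero] at n3
  obtain ⟨k2, hk2⟩ : ∃ k, k = B ^ 2 + (al - mu) ^ 2 + be ^ 2 := ⟨_, rfl⟩
  have hk2pos : 0 < k2 := by
    have h1 := sq_nonneg B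
    have h2 := sq_nonneg (al - mu)
    have h3 : 0 < be ^ 2 := by positivity
    rw [hk2]; linarith
  have hk20 : k2 ≠ 0 := ne_of_gt hk2pos
  obtain ⟨ka, hka, hkaka⟩ := hsqrt _ hk2pos
  have hka0 : ka ≠ 0 := ne_of_gt hka
  have D1k2 : D1 k2 = 2 * B * k2 := by
    rw [hk2]
    simp only [map_add, map_sub, Derivation.leibniz_pow, smul_eq_mul, nsmul_eq_mul]
    push_cast
    linear_combination 2 * B * gauss - 2 * (al - mu) * mu1 + 2 * be * be1
  have D1ka : D1 ka = B * ka := by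
    have h := congrArg D1 hkaka
    rw [D1k2] at h
    simp only [Derivation.leibniz, smul_eq_mul] at h
    refine mul_left_cancel₀ (mul_ne_zero two_ne_zero hka0) ?_
    linear_combination h - 2 * B * hkaka
  obtain ⟨m, hm⟩ : ∃ m, m = ka⁻¹ := ⟨_, rfl⟩
  have hmka : m * ka = 1 := by rw [hm]; exact inv_mul_cancel₀ hka0
  have hm0 : m ≠ 0 := by rw [hm]; exact inv_ne_zero hka0
  have hmk2 : m ^ 2 * k2 = 1 := by
    rw [← hkaka]; linear_combination (m * ka + 1) * hmka
  have D1m : D1 m = -B * m := by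
    have h := congrArg D1 hmka
    simp only [Derivation.leibniz, smul_eq_mul, D1ka, Derivation.map_one_eq_zero] at h
    refine mul_left_cancel₀ hka0 ?_
    linear_combination h
  rw [hk2] at hmk2
  have key := rotSys_of D1 (B := B) (al := al) (mu := mu) (be := be) (W1 := W1) (a1 := D1 al)
    (la := la) (p := m) hal0 h1 hbe hm0 hmk2 D1m rfl (by linear_combination mu1)
    (by linear_combination be1) (by linear_combination gauss) hla (by linear_combination t1)
    (by linear_combination n3) (by linear_combination n4) rfl rfl rfl rfl rfl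
  have hsq : ∀ a : K, a ≠ 0 → ∃ b, b ≠ 0 ∧ (b ^ 2 = a ∨ b ^ 2 = -a) := by
    intro a ha
    rcases lt_or_gt_of_ne ha with h | h
    · obtain ⟨b, hb, hbb⟩ := hsqrt (-a) (by linarith)
      exact ⟨b, ne_of_gt hb, Or.inr (by rw [sq]; exact hbb)⟩
    · obtain ⟨b, hb, hbb⟩ := hsqrt a h
      exact ⟨b, ne_of_gt hb, Or.inl (by rw [sq]; exact hbb)⟩
  have hcb : ∀ a : K, a ≠ 0 → ∃ b, b ≠ 0 ∧ b ^ 3 = a := by
    intro a ha
    rcases lt_or_gt_of_ne ha with h | h
    · obtain ⟨b, hb, hbb⟩ := hcbrt (-a) (by linarith)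
      exact ⟨-b, neg_ne_zero.mpr (ne_of_gt hb), by linear_combination -hbb⟩
    · obtain ⟨b, hb, hbb⟩ := hcbrt a h
      exact ⟨b, ne_of_gt hb, hbb⟩
  exact s2_contra _ hsq hcb key.hx key.hm key.hk key.hs key.hn key.l1 key.lx key.ht

end ordered

end Run7.h793
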