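import Pool.Agent.Run7.h793.MainK3
import Pool.Agent.Run7.h793.S2K

/-!
The main theorem over an ordered differential field, in its final form.
-/

namespace Run7.h793

set_option linter.unusedSimpArgs false
set_option linter.unusedVariables false

variable {K : Type*} [Field K]

/-- the data of an adapted frame -/
structure AdaptedFrame (du dv : Derivation ℤ K K) (X H : Fin 4 → K) (E F G W la : K)
    (a b c d A B : K) (D1 D2 : Derivation ℤ K K) (e3 e4 : Fin 4 → K)
    (al mu be ga W1 W2 : K) : Prop where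
  hdet : (a * d - b * c) * W = 1
  hG : W ^ 2 * (a ^ 2 + c ^ 2) = G
  hF : W ^ 2 * (a * b + c * d) = -F
  hE : W ^ 2 * (b ^ 2 + d ^ 2) = E
  hD1 : ∀ f, D1 f = a * du f + b * dv f
  hD2 : ∀ f, D2 f = c * du f + d * dv f
  hcomm : ∀ f, D1 (D2 f) - D2 (D1 f) = -A * D1 f + B * D2 f
  hHe : ∀ i, H i = al * e3 i
  hFr : FrameEq D1 D2 A B al mu be ga W1 W2 (fun i => D1 (X i)) (fun i => D2 (X i)) e3 e4
  hSt : StrEq D1 D2 A B al mu be ga W1 W2 la

section ordered
variable [LinearOrder K] [IsStrictOrderedRing K]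

theorem exists_adaptedFrame (hsqrt : ∀ a : K, 0 < a → ∃ b, 0 < b ∧ b * b = a)
    {du dv : Derivation ℤ K K} (huv : ∀ f, du (dv f) = dv (du f)) {X H : Fin 4 → K}
    {E F G W la : K} (hW : 0 < W)
    (hEd : E = ip (fun i => du (X i)) (fun i => du (X i)))
    (hFd : F = ip (fun i => du (X i)) (fun i => dv (X i)))
    (hGd : G = ip (fun i => dv (X i)) (fun i => dv (X i)))
    (hEG : E * G - F ^ 2 = W ^ 2)
    (hX : ∀ i, LBK du dv E F G W (X i) = -2 * H i)
    (hH : ∀ i, LBK du dv E F G W (H i) = la * H i) (hne : H ≠ 0) :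
    ∃ (a b c d A B : K) (D1 D2 : Derivation ℤ K K) (e3 e4 : Fin 4 → K)
      (al mu be ga W1 W2 : K), 0 < al ∧
      AdaptedFrame du dv X H E F G W la a b c d A B D1 D2 e3 e4 al mu be ga W1 W2 := by
  have hW0 : W ≠ 0 := ne_of_gt hW
  have hE0 : 0 ≤ E := by rw [hEd]; exact ip_self_nonneg _
  have hEpos : 0 < E := by
    rcases hE0.lt_or_eq with h | h
    · exact h
    · exfalso
      rw [← h] at hEG
      have h1 : 0 < W ^ 2 := by positivity
      have h2 := sq_nonneg F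
      linarith
  obtain ⟨L, hL⟩ : ∃ t, t = ip (fun i => du (du (X i))) H := ⟨_, rfl⟩
  obtain ⟨M, hM⟩ : ∃ t, t = ip (fun i => du (dv (X i))) H := ⟨_, rfl⟩
  obtain ⟨N, hN⟩ : ∃ t, t = ip (fun i => dv (dv (X i))) H := ⟨_, rfl⟩
  obtain ⟨a, b, c, d, hdet, hG, hF, hE, o1, o2, o3, hdiag⟩ :=
    exists_coframe hsqrt L M N hEpos hW hEG
  obtain ⟨A, hA⟩ : ∃ A, A = -(du (W * c) + dv (W * d)) / W := ⟨_, rfl⟩
  obtain ⟨B, hB⟩ : ∃ B, B = -(du (W * a) + dv (W * b)) / W := ⟨_, rfl⟩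
  obtain ⟨D1, hD1⟩ : ∃ D1 : Derivation ℤ K K, ∀ f, D1 f = a * du f + b * dv f :=
    ⟨a • du + b • dv, fun f => by simp⟩
  obtain ⟨D2, hD2⟩ : ∃ D2 : Derivation ℤ K K, ∀ f, D2 f = c * du f + d * dv f :=
    ⟨c • du + d • dv, fun f => by simp⟩
  have hcomm := fun f => comm_of huv hW0 hdet hA hB hD1 hD2 f
  have hlap := fun f => lap_of hW0 hG hF hE hA hB hD1 hD2 f
  have h11 : ip (fun i => D1 (X i)) (fun i => D1 (X i)) = 1 := by
    rw [← o1, hEd, hFd, hGd]; unfold ip; simp only [hD1]; ring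
  have h22 : ip (fun i => D2 (X i)) (fun i => D2 (X i)) = 1 := by
    rw [← o3, hEd, hFd, hGd]; unfold ip; simp only [hD2]; ring
  have h12 : ip (fun i => D1 (X i)) (fun i => D2 (X i)) = 0 := by
    rw [← o2, hEd, hFd, hGd]; unfold ip; simp only [hD1, hD2]; ring
  have hHH : ∀ i, 2 * H i = D1 (D1 (X i)) + D2 (D2 (X i)) - A * D2 (X i) - B * D1 (X i) := by
    intro i
    have h1 := hX i
    rw [hlap] at h1
    linear_combination h1
  -- normality of H
  have i1 := congrArg D1 h11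
  have i2 := congrArg D2 h11
  have i3 := congrArg D1 h22
  have i4 := congrArg D2 h22
  have i5 := congrArg D1 h12
  have i6 := congrArg D2 h12
  rw [D_ip] at i1 i2 i3 i4 i5 i6
  simp only [map_zero, Derivation.map_one_eq_zero] at i1 i2 i3 i4 i5 i6
  have two : (2 : K) ≠ 0 := two_ne_zero
  have hc := fun i => hcomm (X i)
  have k1 : ip (fun i => D1 (X i)) H = 0 := by
    refine mul_left_cancel₀ (mul_ne_zero two two) ?_
    unfold ip at *
    linear_combination 2 * (D1 (X 0) * hHH 0 + D1 (X 1) * hHH 1 + D1 (X 2) * hHH 2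
      + D1 (X 3) * hHH 3) + i1 + 2 * i6 - i3 - 2 * A * h12 - 2 * B * h11 + 2 * (D2 (X 0) * hc 0
      + D2 (X 1) * hc 1 + D2 (X 2) * hc 2 + D2 (X 3) * hc 3) + 2 * B * h22 - 2 * A * h12
  have k2 : ip (fun i => D2 (X i)) H = 0 := by
    refine mul_left_cancel₀ (mul_ne_zero two two) ?_
    unfold ip at *
    linear_combination 2 * (D2 (X 0) * hHH 0 + D2 (X 1) * hHH 1 + D2 (X 2) * hHH 2
      + D2 (X 3) * hHH 3) + i4 + 2 * i5 - i2 - 2 * A * h22 - 2 * B * h12 - 2 * (D1 (X 0) * hc 0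
      + D1 (X 1) * hc 1 + D1 (X 2) * hc 2 + D1 (X 3) * hc 3) + 2 * A * h11 - 2 * B * h12
  have ku : ip (fun i => du (X i)) H = 0 := by
    unfold ip at *
    simp only [hD1, hD2] at k1 k2
    linear_combination W * d * k1 - W * b * k2 - (du (X 0) * H 0 + du (X 1) * H 1
      + du (X 2) * H 2 + du (X 3) * H 3) * hdet
  have kv : ip (fun i => dv (X i)) H = 0 := by
    unfold ip at *
    simp only [hD1, hD2] at k1 k2
    linear_combination (-W * c) * k1 + W * a * k2 - (dv (X 0) * H 0 + dv (X 1) * H 1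
      + dv (X 2) * H 2 + dv (X 3) * H 3) * hdet
  have hdg : ip (fun i => D1 (D2 (X i))) H = 0 := by
    rw [← hdiag, hL, hM, hN]
    unfold ip at *
    simp only [hD1, hD2, map_add, Derivation.leibniz, smul_eq_mul, ← huv]
    linear_combination (a * du c + b * dv c) * ku + (a * du d + b * dv d) * kv
  obtain ⟨e3, e4, al, mu, be, ga, W1, W2, hal, hHe, hFr⟩ :=
    exists_frame hsqrt hcomm h11 h22 h12 hHH hdg hne
  have hal0 : al ≠ 0 := ne_of_gt hal
  have hSt : StrEq D1 D2 A B al mu be ga W1 W2 la := by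
    refine StrEq.of_frame hal0 hcomm hFr ?_
    intro i
    have h1 := hH i
    rw [hlap, hHe] at h1
    linear_combination -h1
  exact ⟨a, b, c, d, A, B, D1, D2, e3, e4, al, mu, be, ga, W1, W2, hal, hdet, hG, hF, hE, hD1,
    hD2, hcomm, hHe, hFr, hSt⟩

theorem main_K_flat (hsqrt : ∀ a : K, 0 < a → ∃ b, 0 < b ∧ b * b = a)
    (hcbrt : ∀ a : K, 0 < a → ∃ b, 0 < b ∧ b ^ 3 = a)
    {du dv : Derivation ℤ K K} (huv : ∀ f, du (dv f) = dv (du f)) {X H : Fin 4 → K}
    {E F G W la : K} (hW : 0 < W)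
    (hEd : E = ip (fun i => du (X i)) (fun i => du (X i)))
    (hFd : F = ip (fun i => du (X i)) (fun i => dv (X i)))
    (hGd : G = ip (fun i => dv (X i)) (fun i => dv (X i)))
    (hEG : E * G - F ^ 2 = W ^ 2)
    (hX : ∀ i, LBK du dv E F G W (X i) = -2 * H i)
    (hH : ∀ i, LBK du dv E F G W (H i) = la * H i)
    (hula : du la = 0) (hvla : dv la = 0)
    (hflat : ∀ ξ η : Fin 4 → K, ip (fun i => du (X i)) ξ = 0 → ip (fun i => dv (X i)) ξ = 0 →
      ip (fun i => du (X i)) η = 0 → ip (fun i => dv (X i)) η = 0 →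
      G * (ip (fun i => du (du (X i))) ξ * ip (fun i => du (dv (X i))) η
          - ip (fun i => du (dv (X i))) ξ * ip (fun i => du (du (X i))) η)
        - F * (ip (fun i => du (du (X i))) ξ * ip (fun i => dv (dv (X i))) η
          - ip (fun i => dv (dv (X i))) ξ * ip (fun i => du (du (X i))) η)
        + E * (ip (fun i => du (dv (X i))) ξ * ip (fun i => dv (dv (X i))) η
          - ip (fun i => dv (dv (X i))) ξ * ip (fun i => du (dv (X i))) η) = 0) :
    du (ip H H) = 0 ∧ dv (ip H H) = 0 := by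
  by_cases hne : H = 0
  · subst hne
    have : ip (0 : Fin 4 → K) 0 = 0 := by unfold ip; simp
    rw [this, map_zero, map_zero]
    exact ⟨rfl, rfl⟩
  have hW0 : W ≠ 0 := ne_of_gt hW
  obtain ⟨a, b, c, d, A, B, D1, D2, e3, e4, al, mu, be, ga, W1, W2, hal, hdet, hG, hF, hE, hD1,
    hD2, hcomm, hHe, hFr, hSt⟩ := exists_adaptedFrame hsqrt huv hW hEd hFd hGd hEG hX hH hne
  have hmg : mu * ga = 0 := by
    have := flat_of huv hW0 hdet hG hF hE hD1 hD2 hFr hflat
    exact (mul_eq_zero.mp this).resolve_left two_ne_zero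
  have h1la : D1 la = 0 := by rw [hD1, hula, hvla]; ring
  have h2la : D2 la = 0 := by rw [hD2, hula, hvla]; ring
  rcases cases_K hal h1la h2la hcomm hSt hmg with ⟨c1, c2⟩ | ⟨hmu, hbe, hga, c1, c2⟩ |
      ⟨hmu, hbe, hga, c1, c2⟩
  · have hHHal : ip H H = al ^ 2 := by
      have h33 := hFr.on.h33
      unfold ip at *
      simp only [hHe]
      linear_combination al ^ 2 * h33
    apply du_dv_zero hdet hD1 hD2
    · rw [hHHal, Derivation.leibniz_pow, c1]; simp
    · rw [hHHal, Derivation.leibniz_pow, c2]; simp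
  · exfalso
    subst hga
    obtain ⟨rA, rW2, rmu, rbe, rB⟩ := s2_vanish hal hmu hbe c1 c2 hcomm hSt
    exact s2_false hsqrt hcbrt hal hbe c1 c2 h1la hSt rA rW2
  · exfalso
    subst hga
    have hcomm' : ∀ f, D2 (D1 f) - D1 (D2 f) = -B * D2 f + A * D1 f := by
      intro f; linear_combination -hcomm f
    obtain ⟨rA, rW2, rmu, rbe, rB⟩ := s2_vanish hal (neg_ne_zero.mpr hmu) (neg_ne_zero.mpr hbe)
      c2 c1 hcomm' hSt.swap
    exact s2_false hsqrt hcbrt hal (neg_ne_zero.mpr hbe) c2 c1 h2la hSt.swap rA rW2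

end ordered

end Run7.h793
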