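import Pool.Agent.Run7.h793.FlatFinal
import Pool.Agent.Run7.h793.MainK4

/-!
Null 2-type surfaces with flat normal connection have constant mean curvature.
-/

namespace Run7.h793

open Filter Topology
open scoped ContDiff RealInnerProductSpace

set_option linter.unusedVariables false

variable {U : Ultrafilter P2} {V0 Ω : Set P2} {x : P2 → E4}

theorem exists_cbrt (a : KF U) (ha : 0 < a) : ∃ b : KF U, 0 < b ∧ b ^ 3 = a := by
  obtain ⟨f, hf, rfl⟩ := exists_rep a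
  have hpos := mkK_pos hf ha
  have hs : ∃ O : Set P2, IsOpen O ∧ O ∈ U ∧
      ContDiffOn ℝ ∞ (fun p => (f p) ^ (1 / 3 : ℝ)) O := by
    obtain ⟨O, h1, h2, h3⟩ := hf
    refine ⟨O ∩ {p | 0 < f p}, ?_, Filter.inter_mem h2 hpos, ?_⟩
    · exact h3.continuousOn.isOpen_inter_preimage h1 isOpen_Ioi
    · exact (h3.mono Set.inter_subset_left).rpow_const_of_ne (fun p hp => (ne_of_gt hp.2))
  refine ⟨mkK _ hs, ?_, ?_⟩
  · apply mkK_pos'
    filter_upwards [hpos] with p hp using Real.rpow_pos_of_pos hp _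
  · have e : (mkK (U := U) (fun p => (f p) ^ (1 / 3 : ℝ)) hs) ^ 3
        = mkK _ hs * mkK _ hs * mkK _ hs := by ring
    rw [e, mkK_mul, mkK_mul, mkK_eq_iff]
    filter_upwards [hpos] with p hp
    have h3 : ((f p) ^ (1 / 3 : ℝ)) ^ 3 = f p := by
      rw [← Real.rpow_natCast, ← Real.rpow_mul hp.le]
      norm_num
    linear_combination h3

/-- Transfer: constancy of the mean curvature follows from a statement about germs. -/
theorem cmc_of_K (hsurf : IsImmersedSurface Ω x) (hnull : IsNullTwoType Ω x)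
    (key : ∀ (U : Ultrafilter P2) (V0 : Set P2) (hU : Adapted U V0) (hΩ : IsOpen Ω)
      (hΩU : Ω ∈ U) (hx : ContDiffOn ℝ ∞ x Ω)
      (himm : ∀ p ∈ Ω, Function.Injective (fderiv ℝ x p)) (H : Fin 4 → KF U) (la : KF U),
      (∀ i, LBK (Der hU (1, 0)) (Der hU (0, 1)) (gs U hΩ hΩU (gE_smooth hΩ hx))
        (gs U hΩ hΩU (gF_smooth hΩ hx)) (gs U hΩ hΩU (gG_smooth hΩ hx))
        (gs U hΩ hΩU (gW_smooth hΩ hx himm)) (gv U hΩ hΩU hx i) = -2 * H i) →
      (∀ i, LBK (Der hU (1, 0)) (Der hU (0, 1)) (gs U hΩ hΩU (gE_smooth hΩ hx))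
        (gs U hΩ hΩU (gF_smooth hΩ hx)) (gs U hΩ hΩU (gG_smooth hΩ hx))
        (gs U hΩ hΩU (gW_smooth hΩ hx himm)) (H i) = la * H i) →
      Der hU (1, 0) la = 0 → Der hU (0, 1) la = 0 →
      Der hU (1, 0) (ip H H) = 0 ∧ Der hU (0, 1) (ip H H) = 0) :
    ∃ c : ℝ, ∀ p ∈ Ω, ‖meanCurvature x p‖ = c := by
  obtain ⟨hΩ, hconn, hx, himm⟩ := hsurf
  obtain ⟨x0, x1, x2, lam, hlam, h1, h2, hdec, hl1, hl2, -, -⟩ := hnull
  have hpos := lap_position hΩ hx himm h1 h2 hdec hl1 hl2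
  have hH : ∀ p ∈ Ω, meanCurvature x p = (-(lam / 2)) • x2 p := by
    intro p hp
    rw [meanCurvature_eq hΩ hx himm hp, hpos p hp, smul_smul]; congr 1; ring
  obtain ⟨h, hh⟩ : ∃ h : P2 → ℝ, h = fun p => ⟪x2 p, x2 p⟫ := ⟨_, rfl⟩
  have hsm : ContDiffOn ℝ ∞ h Ω := by rw [hh]; exact h2.inner ℝ h2
  by_cases hc : ∀ p ∈ Ω, fderiv ℝ h p = 0
  · obtain ⟨p0, hp0⟩ := hconn.nonempty
    refine ⟨‖meanCurvature x p0‖, fun p hp => ?_⟩
    have hconst := hΩ.is_const_of_fderiv_eq_zero hconn.isPreconnected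
      (fun z hz => (diffAt hΩ hsm hz).differentiableWithinAt) hc hp hp0
    rw [hh] at hconst
    simp only [real_inner_self_eq_norm_sq] at hconst
    rw [hH p hp, hH p0 hp0, norm_smul, norm_smul]
    congr 1
    have := norm_nonneg (x2 p)
    have := norm_nonneg (x2 p0)
    nlinarith
  · exfalso
    push Not at hc
    obtain ⟨p0, hp0, hne⟩ := hc
    have hdc : ContinuousOn (fderiv ℝ h) Ω :=
      (hsm.fderiv_of_isOpen hΩ (m := ∞) (by simp)).continuousOn
    have hV0 : IsOpen (Ω ∩ {q | fderiv ℝ h q ≠ 0}) := hdc.isOpen_inter_preimage hΩ isOpen_ne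
    obtain ⟨U, hU⟩ := exists_adapted _ hV0 ⟨p0, hp0, hne⟩
    have hΩU : Ω ∈ U := Filter.mem_of_superset hU.1 Set.inter_subset_left
    obtain ⟨m1, m2, m3, m4, m5⟩ := metric_rel hU hΩ hΩU hx himm
    have rE := isRep_gs hΩ hΩU (gE_smooth hΩ hx)
    have rF := isRep_gs hΩ hΩU (gF_smooth hΩ hx)
    have rG := isRep_gs hΩ hΩU (gG_smooth hΩ hx)
    have rW := isRep_gs hΩ hΩU (gW_smooth hΩ hx himm)
    obtain ⟨la, hla⟩ : ∃ la, la = cst U lam := ⟨_, rfl⟩
    have hula : Der hU (1, 0) la = 0 := by rw [hla]; exact Der_cst hU _ _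
    have hvla : Der hU (0, 1) la = 0 := by rw [hla]; exact Der_cst hU _ _
    have hula2 : Der hU (1, 0) (-la / 2) = 0 := by
      have : -la / 2 = cst U (-lam / 2) := by
        have e2 : (2 : KF U) = cst U 2 := rfl
        rw [hla, e2, ((isRep_cst (U := U) lam).neg.div (isRep_cst 2)).eq_iff (isRep_cst _)]
        exact Eventually.of_forall (fun _ => rfl)
      rw [this]; exact Der_cst hU _ _
    have hvla2 : Der hU (0, 1) (-la / 2) = 0 := by
      have : -la / 2 = cst U (-lam / 2) := by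
        have e2 : (2 : KF U) = cst U 2 := rfl
        rw [hla, e2, ((isRep_cst (U := U) lam).neg.div (isRep_cst 2)).eq_iff (isRep_cst _)]
        exact Eventually.of_forall (fun _ => rfl)
      rw [this]; exact Der_cst hU _ _
    have hX : ∀ i, LBK (Der hU (1, 0)) (Der hU (0, 1)) (gs U hΩ hΩU (gE_smooth hΩ hx))
        (gs U hΩ hΩU (gF_smooth hΩ hx)) (gs U hΩ hΩU (gG_smooth hΩ hx))
        (gs U hΩ hΩU (gW_smooth hΩ hx himm)) (gv U hΩ hΩU hx i)
        = -2 * ((-la / 2) * gv U hΩ hΩU h2 i) := by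
      intro i
      have e : -2 * ((-la / 2) * gv U hΩ hΩU h2 i) = la * gv U hΩ hΩU h2 i := by
        field_simp
      rw [e, hla]
      rw [(rep_lap hU hΩ hΩU hx himm hx rE rF rG rW (isRep_gv hΩ hΩU hx i)).eq_iff
        ((isRep_cst lam).mul (isRep_gv hΩ hΩU h2 i))]
      filter_upwards [hΩU] with p hp
      rw [hpos p hp]; simp
    have hH2 : ∀ i, LBK (Der hU (1, 0)) (Der hU (0, 1)) (gs U hΩ hΩU (gE_smooth hΩ hx))
        (gs U hΩ hΩU (gF_smooth hΩ hx)) (gs U hΩ hΩU (gG_smooth hΩ hx))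
        (gs U hΩ hΩU (gW_smooth hΩ hx himm)) ((-la / 2) * gv U hΩ hΩU h2 i)
        = la * ((-la / 2) * gv U hΩ hΩU h2 i) := by
      intro i
      rw [LBK_smul _ _ _ _ _ _ hula2 hvla2]
      have e : LBK (Der hU (1, 0)) (Der hU (0, 1)) (gs U hΩ hΩU (gE_smooth hΩ hx))
        (gs U hΩ hΩU (gF_smooth hΩ hx)) (gs U hΩ hΩU (gG_smooth hΩ hx))
        (gs U hΩ hΩU (gW_smooth hΩ hx himm)) (gv U hΩ hΩU h2 i) = la * gv U hΩ hΩU h2 i := by
        rw [hla]
        rw [(rep_lap hU hΩ hΩU hx himm h2 rE rF rG rW (isRep_gv hΩ hΩU h2 i)).eq_iff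
          ((isRep_cst lam).mul (isRep_gv hΩ hΩU h2 i))]
        filter_upwards [hΩU] with p hp
        rw [hl2 p hp]; simp
      rw [e]; ring
    obtain ⟨c1, c2⟩ := key U _ hU hΩ hΩU hx himm (fun i => (-la / 2) * gv U hΩ hΩU h2 i) la
      hX hH2 hula hvla
    have hla0 : la ≠ 0 := by
      rw [hla]
      intro h0
      have := ((isRep_cst (U := U) lam).eq_iff isRep_zero).mp h0
      obtain ⟨y, hy⟩ := this.exists
      exact hlam hy
    have hip : ip (fun i => (-la / 2) * gv U hΩ hΩU h2 i)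
        (fun i => (-la / 2) * gv U hΩ hΩU h2 i) = (-la / 2) ^ 2 * ip (gv U hΩ hΩU h2)
        (gv U hΩ hΩU h2) := by unfold ip; ring
    have hne2 : (-la / 2) ^ 2 ≠ 0 := by
      apply pow_ne_zero; field_simp; simpa using hla0
    have d1 : Der hU (1, 0) (ip (gv U hΩ hΩU h2) (gv U hΩ hΩU h2)) = 0 := by
      change Der hU (1, 0) (ip (fun i => (-la / 2) * gv U hΩ hΩU h2 i)
        (fun i => (-la / 2) * gv U hΩ hΩU h2 i)) = 0 at c1
      rw [hip, Derivation.leibniz, Derivation.leibniz_pow, hula2] at c1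
      simp only [smul_zero, add_zero, smul_eq_mul, mul_zero] at c1
      exact (mul_eq_zero.mp c1).resolve_left hne2
    have d2 : Der hU (0, 1) (ip (gv U hΩ hΩU h2) (gv U hΩ hΩU h2)) = 0 := by
      change Der hU (0, 1) (ip (fun i => (-la / 2) * gv U hΩ hΩU h2 i)
        (fun i => (-la / 2) * gv U hΩ hΩU h2 i)) = 0 at c2
      rw [hip, Derivation.leibniz, Derivation.leibniz_pow, hvla2] at c2
      simp only [smul_zero, add_zero, smul_eq_mul, mul_zero] at c2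
      exact (mul_eq_zero.mp c2).resolve_left hne2
    have rh : IsRep (ip (gv U hΩ hΩU h2) (gv U hΩ hΩU h2)) h := by
      rw [hh]; exact rep_ip (isRep_gv hΩ hΩU h2) (isRep_gv hΩ hΩU h2)
    have hz := fderiv_zero_OF hU rh ⟨Ω, hΩ, hΩU, hsm⟩ d1 d2
    obtain ⟨N, n1, n2, n3⟩ := eventually_OF.mp hz
    obtain ⟨y, hy1, hy2⟩ : (N ∩ (Ω ∩ {q | fderiv ℝ h q ≠ 0})).Nonempty :=
      Ultrafilter.nonempty_of_mem (Filter.inter_mem n2 hU.1)
    exact hy2.2 (n3 y hy1)

theorem flat_cmc (hsurf : IsImmersedSurface Ω x) (hnull : IsNullTwoType Ω x)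
    (hflat : HasFlatNormalConnection Ω x) : ∃ c : ℝ, ∀ p ∈ Ω, ‖meanCurvature x p‖ = c := by
  refine cmc_of_K hsurf hnull ?_
  intro U V0 hU hΩ hΩU hx himm H la hX hH hula hvla
  obtain ⟨m1, m2, m3, m4, m5⟩ := metric_rel hU hΩ hΩU hx himm
  exact main_K_flat exists_sqrt exists_cbrt (Der_comm hU (1, 0) (0, 1)) m5 m1 m2 m3 m4 hX hH
    hula hvla (flat_transfer hU hΩ hΩU hx himm hflat)

end Run7.h793
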