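import Mathlib

/-!
Linear algebra of vectors in `K^4` and orthonormal frames.
-/

namespace Run7.h793

section basic
variable {K : Type*} [Field K]

/-- inner product on `K^4` -/
def ip (X Y : Fin 4 → K) : K := X 0 * Y 0 + X 1 * Y 1 + X 2 * Y 2 + X 3 * Y 3

theorem ip_comm (X Y : Fin 4 → K) : ip X Y = ip Y X := by
  unfold ip; ring

theorem D_ip (D : Derivation ℤ K K) (X Y : Fin 4 → K) :
    D (ip X Y) = ip (fun i => D (X i)) Y + ip X (fun i => D (Y i)) := by
  unfold ip
  simp only [map_add, Derivation.leibniz, smul_eq_mul]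
  ring

/-- ten orthonormality relations -/
structure ON (e1 e2 e3 e4 : Fin 4 → K) : Prop where
  h11 : ip e1 e1 = 1
  h22 : ip e2 e2 = 1
  h33 : ip e3 e3 = 1
  h44 : ip e4 e4 = 1
  h12 : ip e1 e2 = 0
  h13 : ip e1 e3 = 0
  h14 : ip e1 e4 = 0
  h23 : ip e2 e3 = 0
  h24 : ip e2 e4 = 0
  h34 : ip e3 e4 = 0

theorem ON.complete {e1 e2 e3 e4 : Fin 4 → K} (h : ON e1 e2 e3 e4) (V : Fin 4 → K) (i : Fin 4) :
    V i = ip V e1 * e1 i + ip V e2 * e2 i + ip V e3 * e3 i + ip V e4 * e4 i := by
  obtain ⟨h11, h22, h33, h44, h12, h13, h14, h23, h24, h34⟩ := h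
  unfold ip at *
  let O : Matrix (Fin 4) (Fin 4) K := Matrix.of ![e1, e2, e3, e4]
  have hO : O * O.transpose = 1 := by
    ext a b
    rw [Matrix.mul_apply, Fin.sum_univ_four]
    fin_cases a <;> fin_cases b <;>
      simp only [O, Matrix.of_apply, Matrix.transpose_apply, Matrix.cons_val', Matrix.cons_val_zero,
        Matrix.cons_val_one, Matrix.cons_val, Matrix.one_apply, Fin.zero_eta, Fin.mk_one,
        Fin.reduceFinMk, Fin.isValue] <;> simp <;>
      first
      | linear_combination h11 | linear_combination h12 | linear_combination h13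
      | linear_combination h14 | linear_combination h22 | linear_combination h23
      | linear_combination h24 | linear_combination h33 | linear_combination h34
      | linear_combination h44
  have hO2 : O.transpose * O = 1 := mul_eq_one_comm.mp hO
  have key : ∀ j i, e1 j * e1 i + e2 j * e2 i + e3 j * e3 i + e4 j * e4 i
      = if j = i then 1 else 0 := by
    intro j i
    have := congrFun (congrFun hO2 j) i
    rw [Matrix.mul_apply, Fin.sum_univ_four] at this
    simpa [O, Matrix.one_apply] using this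
  have k0 := key 0 i
  have k1 := key 1 i
  have k2 := key 2 i
  have k3 := key 3 i
  fin_cases i <;> simp at k0 k1 k2 k3 ⊢ <;>
    linear_combination -V 0 * k0 - V 1 * k1 - V 2 * k2 - V 3 * k3

theorem ON.indep {e1 e2 e3 e4 : Fin 4 → K} (h : ON e1 e2 e3 e4) {c1 c2 c3 c4 : K}
    (hc : ∀ i, c1 * e1 i + c2 * e2 i + c3 * e3 i + c4 * e4 i = 0) :
    c1 = 0 ∧ c2 = 0 ∧ c3 = 0 ∧ c4 = 0 := by
  obtain ⟨h11, h22, h33, h44, h12, h13, h14, h23, h24, h34⟩ := h
  unfold ip at *
  have k0 := hc 0
  have k1 := hc 1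
  have k2 := hc 2
  have k3 := hc 3
  refine ⟨?_, ?_, ?_, ?_⟩
  · linear_combination e1 0 * k0 + e1 1 * k1 + e1 2 * k2 + e1 3 * k3 - c1 * h11 - c2 * h12
      - c3 * h13 - c4 * h14
  · linear_combination e2 0 * k0 + e2 1 * k1 + e2 2 * k2 + e2 3 * k3 - c1 * h12 - c2 * h22
      - c3 * h23 - c4 * h24
  · linear_combination e3 0 * k0 + e3 1 * k1 + e3 2 * k2 + e3 3 * k3 - c1 * h13 - c2 * h23
      - c3 * h33 - c4 * h34
  · linear_combination e4 0 * k0 + e4 1 * k1 + e4 2 * k2 + e4 3 * k3 - c1 * h14 - c2 * h24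
      - c3 * h34 - c4 * h44

end basic

section ordered
variable {K : Type*} [Field K] [LinearOrder K] [IsStrictOrderedRing K]

theorem ip_self_nonneg (X : Fin 4 → K) : 0 ≤ ip X X := by
  unfold ip
  have := mul_self_nonneg (X 0)
  have := mul_self_nonneg (X 1)
  have := mul_self_nonneg (X 2)
  have := mul_self_nonneg (X 3)
  linarith

theorem ip_self_pos {X : Fin 4 → K} (h : X ≠ 0) : 0 < ip X X := by
  rcases (ip_self_nonneg X).lt_or_eq with h1 | h1
  · exact h1
  · exfalso
    apply h
    unfold ip at h1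
    have a0 := mul_self_nonneg (X 0)
    have a1 := mul_self_nonneg (X 1)
    have a2 := mul_self_nonneg (X 2)
    have a3 := mul_self_nonneg (X 3)
    have b0 : X 0 * X 0 = 0 := by linarith
    have b1 : X 1 * X 1 = 0 := by linarith
    have b2 : X 2 * X 2 = 0 := by linarith
    have b3 : X 3 * X 3 = 0 := by linarith
    funext i
    fin_cases i
    · exact mul_self_eq_zero.mp b0
    · exact mul_self_eq_zero.mp b1
    · exact mul_self_eq_zero.mp b2
    · exact mul_self_eq_zero.mp b3

theorem exists_normal (hsqrt : ∀ a : K, 0 < a → ∃ b, 0 < b ∧ b * b = a)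
    (e1 e2 e3 : Fin 4 → K) :
    ∃ e4 : Fin 4 → K, ip e4 e4 = 1 ∧ ip e1 e4 = 0 ∧ ip e2 e4 = 0 ∧ ip e3 e4 = 0 := by
  let M : Matrix (Fin 4) (Fin 4) K := Matrix.of ![e1, e2, e3, 0]
  have hdet : M.det = 0 := Matrix.det_eq_zero_of_row_eq_zero 3 (by intro j; simp [M])
  obtain ⟨v, hv, hMv⟩ := Matrix.exists_mulVec_eq_zero_iff.mpr hdet
  have hpos := ip_self_pos hv
  obtain ⟨n, hn, hnn⟩ := hsqrt _ hpos
  have hn0 : n ≠ 0 := ne_of_gt hn
  have q1 : ip e1 v = 0 := by
    have := congrFun hMv 0
    simpa [M, Matrix.mulVec, dotProduct, Fin.sum_univ_four, ip] using this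
  have q2 : ip e2 v = 0 := by
    have := congrFun hMv 1
    simpa [M, Matrix.mulVec, dotProduct, Fin.sum_univ_four, ip] using this
  have q3 : ip e3 v = 0 := by
    have := congrFun hMv 2
    simpa [M, Matrix.mulVec, dotProduct, Fin.sum_univ_four, ip] using this
  refine ⟨fun i => v i / n, ?_, ?_, ?_, ?_⟩
  · have : ip (fun i => v i / n) (fun i => v i / n) = ip v v / (n * n) := by
      unfold ip; field_simp
    rw [this, hnn]; exact div_self (ne_of_gt hpos)
  · have : ip e1 (fun i => v i / n) = ip e1 v / n := by unfold ip; ring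
    rw [this, q1, zero_div]
  · have : ip e2 (fun i => v i / n) = ip e2 v / n := by unfold ip; ring
    rw [this, q2, zero_div]
  · have : ip e3 (fun i => v i / n) = ip e3 v / n := by unfold ip; ring
    rw [this, q3, zero_div]

/-- simultaneous diagonalisation of a symmetric matrix by a rotation -/
theorem exists_rot (hsqrt : ∀ a : K, 0 < a → ∃ b, 0 < b ∧ b * b = a) (p q r : K) :
    ∃ c s : K, c ^ 2 + s ^ 2 = 1 ∧ c * s * (r - p) + (c ^ 2 - s ^ 2) * q = 0 := by
  by_cases hq : q = 0
  · exact ⟨1, 0, by ring, by rw [hq]; ring⟩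
  · have hpos : 0 < (r - p) ^ 2 + 4 * q ^ 2 := by
      have := sq_nonneg (r - p)
      have := pow_pos (abs_pos.mpr hq) 2
      rw [sq_abs] at this
      linarith
    obtain ⟨d, hd, hdd⟩ := hsqrt _ hpos
    obtain ⟨t, ht⟩ : ∃ t, t = ((r - p) + d) / (2 * q) := ⟨_, rfl⟩
    have h2q : 2 * q ≠ 0 := by simpa using hq
    have ht' : t * (2 * q) = (r - p) + d := by rw [ht]; field_simp
    have heq : q * t ^ 2 - (r - p) * t - q = 0 := by
      have h4 : 4 * q * (q * t ^ 2 - (r - p) * t - q) = 0 := by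
        linear_combination (t * (2 * q) + (r - p) + d - 2 * (r - p)) * ht' + hdd
      rcases mul_eq_zero.mp h4 with h5 | h5
      · exfalso; exact hq (by simpa using h5)
      · exact h5
    have hpos2 : 0 < 1 + t ^ 2 := by have := sq_nonneg t; linarith
    obtain ⟨n, hn, hnn⟩ := hsqrt _ hpos2
    have hn0 : n ≠ 0 := ne_of_gt hn
    refine ⟨1 / n, t / n, ?_, ?_⟩
    · field_simp; linear_combination -hnn
    · field_simp; linear_combination -heq

end ordered

end Run7.h793
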