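import Pool.Agent.Run7.h793.Scaled

namespace Run7.h793

variable {K : Type*} [Field K] [CharZero K]

theorem k0_formula (d1 d2 : Derivation ℤ K K) (al mu be a1 a2 m1 m2 k0 : K)
    (hal : al ≠ 0) (hbe : be ≠ 0) (ha1 : a1 ≠ 0) (ha2 : a2 ≠ 0)
    (h1al : d1 al = al) (h2al : d2 al = al)
    (h1mu : d1 mu = 2 * m2 * mu - (al + mu)) (h2mu : d2 mu = 2 * m1 * mu + (al - mu))
    (h1be : d1 be = 2 * m2 * be - (al - mu) * (2 * al + mu) / be)
    (h2be : d2 be = 2 * m1 * be - (al + mu) * (2 * al - mu) / be)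
    (h2a1 : d2 a1 = (k0 + m1) * a1) (h1a2 : d1 a2 = (k0 + m2) * a2)
    (hRic : a1 * d1 ((2 * al - mu) * a2 / be) - a2 * d2 (-(2 * al + mu) * a1 / be)
      + m1 * a2 * (-(2 * al + mu) * a1 / be) - m2 * a1 * ((2 * al - mu) * a2 / be) = 0) :
    k0 = m1 + m2 - 3 / 2 - (4 * al ^ 2 - mu ^ 2) / (2 * be ^ 2) := by
  simp only [Derivation.leibniz_div, Derivation.leibniz, map_sub, map_add, map_neg, smul_eq_mul, h1al, h2al,
    h1mu, h2mu, h1be, h2be, h2a1, h1a2, der_ofNat] at hRic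
  have key : k0 - (m1 + m2 - 3 / 2 - (4 * al ^ 2 - mu ^ 2) / (2 * be ^ 2)) = 0 := by
    have h0 : (be / (4 * al * a1 * a2)) * 0 = (0 : K) := mul_zero _
    rw [← h0, ← hRic]
    field_simp
    ring
  linear_combination key

theorem delta_formula (d1 d2 : Derivation ℤ K K) (al mu be m1 m2 k0 s : K)
    (hal : al ≠ 0) (hmu : mu ≠ 0) (hbe : be ≠ 0) (hs : s = mu ^ 2 + be ^ 2)
    (h1al : d1 al = al) (h2al : d2 al = al)
    (h1mu : d1 mu = 2 * m2 * mu - (al + mu)) (h2mu : d2 mu = 2 * m1 * mu + (al - mu))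
    (h1be : d1 be = 2 * m2 * be - (al - mu) * (2 * al + mu) / be)
    (h2be : d2 be = 2 * m1 * be - (al + mu) * (2 * al - mu) / be)
    (hcomm : ∀ f, d1 (d2 f) - d2 (d1 f) = k0 * (d1 f - d2 f))
    (hk0 : k0 = m1 + m2 - 3 / 2 - (4 * al ^ 2 - mu ^ 2) / (2 * be ^ 2)) :
    m1 - m2 = (4 * al ^ 2 - s) * s / (8 * al * mu * be ^ 2) := by
  obtain ⟨n, hn⟩ : ∃ n, n = be / mu := ⟨_, rfl⟩
  have e1 : d1 n = -(al - mu) * (2 * al + mu) / (be * mu) + be * (al + mu) / mu ^ 2 := by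
    rw [hn]
    simp only [Derivation.leibniz_div, smul_eq_mul, h1mu, h1be]
    field_simp; ring
  have e2 : d2 n = -(al + mu) * (2 * al - mu) / (be * mu) - be * (al - mu) / mu ^ 2 := by
    rw [hn]
    simp only [Derivation.leibniz_div, smul_eq_mul, h2mu, h2be]
    field_simp; ring
  have h3 := hcomm n
  have e3 := congrArg d1 e2
  have e4 := congrArg d2 e1
  simp only [Derivation.leibniz_div, Derivation.leibniz, Derivation.leibniz_pow, map_sub, map_add, map_neg, smul_eq_mul,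
    nsmul_eq_mul, h1al, h2al, h1mu, h2mu, h1be, h2be, der_ofNat] at e3 e4
  rw [e3, e4, e1, e2, hk0, ← sub_eq_zero] at h3
  have key : m1 - m2 - (4 * al ^ 2 - s) * s / (8 * al * mu * be ^ 2) = 0 := by
    have h0 : (-(be * mu) / (8 * al ^ 2)) * 0 = (0 : K) := mul_zero _
    rw [← h0, ← h3, hs]
    push_cast
    field_simp
    ring
  linear_combination key

end Run7.h793
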