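import Pool.Agent.Run7.h793.GenA

namespace Run7.h793

variable {K : Type*} [Field K] [CharZero K]

theorem generic_scaled (d1 d2 : Derivation ℤ K K) (al mu be a1 a2 m k0 la x1 x2 s m1 m2 : K)
    (hal : al ≠ 0) (hmu : mu ≠ 0) (hbe : be ≠ 0) (ha1 : a1 ≠ 0) (ha2 : a2 ≠ 0) (hs0 : s ≠ 0)
    (hs : s = mu ^ 2 + be ^ 2)
    (hm1 : m1 = m + (4 * al ^ 2 - s) * s / (16 * al * mu * be ^ 2))
    (hm2 : m2 = m - (4 * al ^ 2 - s) * s / (16 * al * mu * be ^ 2))
    (hk0 : k0 = 2 * m - 3 / 2 - (4 * al ^ 2 - mu ^ 2) / (2 * be ^ 2))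
    (h1al : d1 al = al) (h2al : d2 al = al) (h1la : d1 la = 0) (h2la : d2 la = 0)
    (h1mu : d1 mu = 2 * m2 * mu - (al + mu)) (h2mu : d2 mu = 2 * m1 * mu + (al - mu))
    (h1be : d1 be = 2 * m2 * be - (al - mu) * (2 * al + mu) / be)
    (h2be : d2 be = 2 * m1 * be - (al + mu) * (2 * al - mu) / be)
    (h1a1 : d1 a1 = x1 / a1) (h2a2 : d2 a2 = x2 / a2)
    (h2a1 : d2 a1 = (k0 + m1) * a1) (h1a2 : d1 a2 = (k0 + m2) * a2)
    (hcomm : ∀ f, d1 (d2 f) - d2 (d1 f) = k0 * (d1 f - d2 f))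
    (hN3 : x1 + x2 + a1 ^ 2 + a2 ^ 2 - (-(2 * al + mu) * a1 / be) ^ 2 - ((2 * al - mu) * a2 / be) ^ 2
      - m1 * a2 ^ 2 - m2 * a1 ^ 2 = 2 * al ^ 2 + 2 * mu ^ 2 - la)
    (hN4 : 2 * (a1 * (-(2 * al + mu) * a1 / be) + a2 * ((2 * al - mu) * a2 / be))
      + a1 * d1 (-(2 * al + mu) * a1 / be) + a2 * d2 ((2 * al - mu) * a2 / be)
      - m1 * a2 * ((2 * al - mu) * a2 / be) - m2 * a1 * (-(2 * al + mu) * a1 / be) = 2 * mu * be)
    (hGauss : a1 * d1 (m2 * a1) + a2 * d2 (m1 * a2)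
      = (m1 * a2) ^ 2 + (m2 * a1) ^ 2 + al ^ 2 - mu ^ 2 - be ^ 2) : False := by
  have h1s : d1 s = 4 * m2 * s - 4 * al ^ 2 := by
    rw [hs]; simp only [map_add, Derivation.leibniz_pow, smul_eq_mul, nsmul_eq_mul, h1mu, h1be]
    push_cast; field_simp; ring
  have h2s : d2 s = 4 * m1 * s - 4 * al ^ 2 := by
    rw [hs]; simp only [map_add, Derivation.leibniz_pow, smul_eq_mul, nsmul_eq_mul, h2mu, h2be]
    push_cast; field_simp; ring
  obtain ⟨n, hn⟩ : ∃ n, n = be / mu := ⟨_, rfl⟩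
  obtain ⟨E, hE⟩ : ∃ E, E = 2 * al / mu := ⟨_, rfl⟩
  obtain ⟨g, hg⟩ : ∃ g, g = s / mu ^ 2 := ⟨_, rfl⟩
  obtain ⟨w, hw⟩ : ∃ w, w = 4 * al ^ 2 / s := ⟨_, rfl⟩
  obtain ⟨c, hc⟩ : ∃ c, c = (4 * al ^ 2 - s) * mu / (s * be) := ⟨_, rfl⟩
  obtain ⟨q, hq⟩ : ∃ q, q = (4 * al ^ 2 - s) * s / (32 * al ^ 2 * be ^ 2) := ⟨_, rfl⟩
  obtain ⟨L, hL⟩ : ∃ L, L = la / al ^ 2 := ⟨_, rfl⟩
  obtain ⟨P, hP⟩ : ∃ P, P = (a1 ^ 2 + a2 ^ 2) / al ^ 2 := ⟨_, rfl⟩
  obtain ⟨D, hD⟩ : ∃ D, D = (a1 ^ 2 - a2 ^ 2) * mu / (2 * al ^ 3) := ⟨_, rfl⟩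
  have hn0 : n ≠ 0 := by rw [hn]; exact div_ne_zero hbe hmu
  have hE0 : E ≠ 0 := by rw [hE]; exact div_ne_zero (mul_ne_zero two_ne_zero hal) hmu
  have hg0 : g ≠ 0 := by rw [hg]; exact div_ne_zero hs0 (pow_ne_zero _ hmu)
  have hw0 : w ≠ 0 := by
    rw [hw]; exact div_ne_zero (mul_ne_zero (by norm_num) (pow_ne_zero _ hal)) hs0
  have hw1 : w = 1 + c * n := by rw [hw, hc, hn]; field_simp; ring
  have hg1 : g = 1 + n ^ 2 := by rw [hg, hn, hs]; field_simp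
  have hEE : E ^ 2 = g * w := by rw [hE, hg, hw]; field_simp; ring
  have hqq : q = c * g / (8 * n * w) := by rw [hq, hc, hg, hn, hw]; field_simp; ring
  -- derivatives of n
  have e1n : d1 n = -(al - mu) * (2 * al + mu) / (be * mu) + be * (al + mu) / mu ^ 2 := by
    rw [hn]; simp only [Derivation.leibniz_div, smul_eq_mul, h1mu, h1be]; field_simp; ring
  have e2n : d2 n = -(al + mu) * (2 * al - mu) / (be * mu) - be * (al - mu) / mu ^ 2 := by
    rw [hn]; simp only [Derivation.leibniz_div, smul_eq_mul, h2mu, h2be]; field_simp; ring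
  have e1E : d1 E = E * (2 - 2 * m2) + E ^ 2 / 2 := by
    rw [hE]; simp only [Derivation.leibniz_div, Derivation.leibniz, smul_eq_mul, h1mu, h1al, der_ofNat]
    field_simp; ring
  have e2E : d2 E = E * (2 - 2 * m1) - E ^ 2 / 2 := by
    rw [hE]; simp only [Derivation.leibniz_div, Derivation.leibniz, smul_eq_mul, h2mu, h2al, der_ofNat]
    field_simp; ring
  obtain ⟨T, hT⟩ : ∃ T : Derivation ℤ K K, ∀ f, T f = E⁻¹ * (d1 f - d2 f) :=
    ⟨E⁻¹ • (d1 - d2), fun f => by simp [Derivation.smul_apply, Derivation.sub_apply]⟩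
  obtain ⟨U, hU⟩ : ∃ U : Derivation ℤ K K, ∀ f, U f = d1 f + d2 f :=
    ⟨d1 + d2, fun f => by simp [Derivation.add_apply]⟩
  have hTn : T n = g / n := by
    rw [hT, e1n, e2n, hE, hg, hn, hs]; field_simp; ring
  have hUn : U n = g * (1 - c * n) / n := by
    rw [hU, e1n, e2n, hc, hg, hn, hs]
    have : mu ^ 2 + be ^ 2 ≠ 0 := hs ▸ hs0
    field_simp; ring
  have hTc : T c = 0 := by
    rw [hT, hc]
    simp only [Derivation.leibniz_div, Derivation.leibniz, Derivation.leibniz_pow, map_sub, smul_eq_mul,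
      nsmul_eq_mul, h1s, h2s, h1mu, h2mu, h1be, h2be, h1al, h2al, der_ofNat]
    rw [hm1, hm2]
    push_cast
    field_simp
    rw [hs]
    ring
  have hcommT : ∀ f, U (T f) - T (U f) = c * g / n * T f := by
    intro f
    have h5 := hcomm f
    have h6 : d1 (d2 f) = d2 (d1 f) + k0 * (d1 f - d2 f) := by linear_combination h5
    have h7 : U (T f) - T (U f) = -(E⁻¹ ^ 2 * (d1 E + d2 E)) * (d1 f - d2 f)
        + E⁻¹ * (-2 * (k0 * (d1 f - d2 f))) := by
      rw [hT f, hU f, hU, hT]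
      simp only [Derivation.leibniz, Derivation.leibniz_inv, map_sub, map_add, smul_eq_mul]
      rw [h6]
      ring
    rw [h7, hT f, e1E, e2E, hk0, hm1, hm2, hc, hg, hn, hE]
    field_simp
    rw [hs]
    ring
  -- the first integrals
  have hUc0 : U c = (4 * n * w + 2 * n * w ^ 2 - c * g * (2 - w) - 8 * m * n * w) / n ^ 2 := by
    rw [hU, hc]
    simp only [Derivation.leibniz_div, Derivation.leibniz, Derivation.leibniz_pow, map_sub, smul_eq_mul,
      nsmul_eq_mul, h1s, h2s, h1mu, h2mu, h1be, h2be, h1al, h2al, der_ofNat]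
    rw [hm1, hm2, hg, hw, hn]
    push_cast
    field_simp
    rw [hs]
    ring
  obtain ⟨c1, hc1⟩ : ∃ c1, c1 = U c / 2 := ⟨_, rfl⟩
  obtain ⟨c2, hc2⟩ : ∃ c2, c2 = U c1 / 2 := ⟨_, rfl⟩
  have hUc : U c = 2 * c1 := by rw [hc1]; ring
  have hUc1 : U c1 = 2 * c2 := by rw [hc2]; ring
  have hTc1 : T c1 = 0 := by
    have h8 := hcommT c
    rw [hTc, map_zero, mul_zero, zero_sub, neg_eq_zero, hUc, Derivation.leibniz, der_ofNat, smul_zero,
      add_zero, smul_eq_mul] at h8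
    exact (mul_eq_zero.mp h8).resolve_left two_ne_zero
  have hTc2 : T c2 = 0 := by
    have h8 := hcommT c1
    rw [hTc1, map_zero, mul_zero, zero_sub, neg_eq_zero, hUc1, Derivation.leibniz, der_ofNat, smul_zero,
      add_zero, smul_eq_mul] at h8
    exact (mul_eq_zero.mp h8).resolve_left two_ne_zero
  have hm : m = (-c + (6 + c ^ 2) * n + (7 * c - 2 * c1) * n ^ 2 + 3 * c ^ 2 * n ^ 3) / (8 * n * w) := by
    have h9 : 2 * c1 = (4 * n * w + 2 * n * w ^ 2 - c * g * (2 - w) - 8 * m * n * w) / n ^ 2 := by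
      rw [← hUc, hUc0]
    have h10 : 2 * c1 * n ^ 2 = 4 * n * w + 2 * n * w ^ 2 - c * g * (2 - w) - 8 * m * n * w := by
      rw [h9]; field_simp
    rw [eq_div_iff (mul_ne_zero (mul_ne_zero (by norm_num) hn0) hw0)]
    rw [hw1, hg1] at h10
    rw [hw1]
    linear_combination h10
  have hTL : T L = 0 := by
    rw [hT, hL]
    simp only [Derivation.leibniz_div, Derivation.leibniz_pow, smul_eq_mul, nsmul_eq_mul, h1la, h2la, h1al, h2al]
    ring
  have hUL : U L = -4 * L := by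
    rw [hU, hL]
    simp only [Derivation.leibniz_div, Derivation.leibniz_pow, smul_eq_mul, nsmul_eq_mul, h1la, h2la, h1al, h2al]
    push_cast; field_simp; ring
  have hM8 : (-c + (6 + c ^ 2) * n + (7 * c - 2 * c1) * n ^ 2 + 3 * c ^ 2 * n ^ 3) / (n * w) = 8 * m := by
    rw [hm]; field_simp
  have hM84 : (-c + (6 + c ^ 2) * n + (7 * c - 2 * c1) * n ^ 2 + 3 * c ^ 2 * n ^ 3) / (4 * n * w) = 2 * m := by
    rw [hm]; field_simp; ring
  have hM82 : 2 * (-c + (6 + c ^ 2) * n + (7 * c - 2 * c1) * n ^ 2 + 3 * c ^ 2 * n ^ 3) / (n * w) = 16 * m := by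
    rw [mul_div_assoc, hM8]; ring
  -- second order relations
  simp only [Derivation.leibniz_div, Derivation.leibniz, map_sub, map_add, map_neg, smul_eq_mul, h1al, h2al,
    h1mu, h2mu, h1be, h2be, h1a1, h2a2, der_ofNat] at hN4
  have hTP : T P = -(2 / (g * w)) * (2 - L + 8 / w)
      - P * (2 / n ^ 2 + c * g / (n * w)) - 2 * D * g / n ^ 2 := by
    rw [hT, hP, hD, hL, hE]
    simp only [Derivation.leibniz_div, Derivation.leibniz, Derivation.leibniz_pow, map_sub, map_add, smul_eq_mul,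
      nsmul_eq_mul, h1mu, h2mu, h1al, h2al, h1a1, h2a2, h2a1, h1a2, der_ofNat]
    rw [hk0, hm1, hm2, hc, hw, hg, hn]
    push_cast
    linear_combination (norm := skip) (-mu ^ 2 / (2 * al ^ 4)) * hN3 + (-(be * mu) / (2 * al ^ 4)) * hN4
    rw [hm1, hm2]
    field_simp
    rw [hs]
    ring
  have hUP' : U P = 2 * (2 - L + 8 / (g * w))
      + P * (4 / n ^ 2 + c / n - 8 + c * n + 8 * m) + 4 * g * w * D / n ^ 2 := by
    rw [hU, hP, hD, hL]
    simp only [Derivation.leibniz_div, Derivation.leibniz, Derivation.leibniz_pow, map_sub, map_add, smul_eq_mul,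
      nsmul_eq_mul, h1mu, h2mu, h1al, h2al, h1a1, h2a2, h2a1, h1a2, der_ofNat]
    rw [hk0, hm1, hm2, hc, hw, hg, hn]
    push_cast
    linear_combination (norm := skip) (2 / al ^ 2) * hN3
    rw [hm1, hm2]
    field_simp
    rw [hs]
    ring
  have hTD' : T D = 2 / (g * w) * (2 - L + 8 / (g * w))
      + 2 / (g * w) * P * ((1 + g * w) / n ^ 2 + 1 - 2 * m + c * g / (2 * n))
      + D * (4 / n ^ 2 - 1 - c * g / (n * w)) := by
    rw [hT, hP, hD, hL, hE]
    simp only [Derivation.leibniz_div, Derivation.leibniz, Derivation.leibniz_pow, map_sub, map_add, smul_eq_mul,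
      nsmul_eq_mul, h1mu, h2mu, h1al, h2al, h1a1, h2a2, h2a1, h1a2, der_ofNat]
    rw [hk0, hm1, hm2, hc, hw, hg, hn]
    push_cast
    linear_combination (norm := skip) (mu ^ 2 / (2 * al ^ 4)) * hN3
    rw [hm1, hm2]
    field_simp
    rw [hs]
    ring
  have hUD' : U D = -(2 / (g * w)) * (2 - L + 8 / w)
      - P * (2 / n ^ 2 + c * g / (2 * n * w))
      - D * ((1 + g * w) / n ^ 2 + 17 - 16 * m + c * g / n) := by
    rw [hU, hP, hD, hL]
    simp only [Derivation.leibniz_div, Derivation.leibniz, Derivation.leibniz_pow, map_sub, map_add, smul_eq_mul,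
      nsmul_eq_mul, h1mu, h2mu, h1al, h2al, h1a1, h2a2, h2a1, h1a2, der_ofNat]
    rw [hk0, hm1, hm2, hc, hw, hg, hn]
    push_cast
    linear_combination (norm := skip) (-mu ^ 2 / (2 * al ^ 4)) * hN3 + (-(be * mu) / (2 * al ^ 4)) * hN4
    rw [hm1, hm2]
    field_simp
    rw [hs]
    ring
  have e1m1 : d2 m1 = d2 m + d2 ((4 * al ^ 2 - s) * s / (16 * al * mu * be ^ 2)) := by
    rw [← map_add, ← hm1]
  have e1m2 : d1 m2 = d1 m - d1 ((4 * al ^ 2 - s) * s / (16 * al * mu * be ^ 2)) := by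
    rw [← map_sub, ← hm2]
  have hG : P * ((U m - g * w * (1 + 4 * q) * q - g * w * T q) / 2)
      + g * w * D * ((T m - U q - (4 - 4 * m) * q) / 2)
      + (2 - L + 8 / (g * w) + P * ((1 + g * w) / n ^ 2 + m - 1) + g * w * D * (2 / n ^ 2 - q)) * m
      + (2 / (g * w) * (2 - L + 8 / w) + D * ((1 + g * w) / n ^ 2 + 5 - 6 * m)
          + P * (2 / n ^ 2 + 6 * q)) / 2 * (g * w) * q
      - P * (m ^ 2 + g * w * q ^ 2) + 2 * m * q * (g * w) * D = 1 - 4 / w := by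
    have hGauss' := hGauss
    rw [Derivation.leibniz, Derivation.leibniz, e1m1, e1m2, h1a1, h2a2] at hGauss'
    simp only [Derivation.leibniz_div, Derivation.leibniz, Derivation.leibniz_pow, map_sub, map_add, smul_eq_mul,
      nsmul_eq_mul, h1mu, h2mu, h1al, h2al, h1be, h2be, h1s, h2s, der_ofNat] at hGauss'
    rw [hU m, hT m, hT q, hU q, hq]
    simp only [Derivation.leibniz_div, Derivation.leibniz, Derivation.leibniz_pow, map_sub, map_add, smul_eq_mul,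
      nsmul_eq_mul, h1mu, h2mu, h1al, h2al, h1be, h2be, h1s, h2s, der_ofNat]
    linear_combination (norm := skip) (1 / al ^ 2) * hGauss'
      + (-m / al ^ 2 - (4 * al ^ 2 - s) * s / (32 * al ^ 4 * be ^ 2)) * hN3
      + (-(4 * al ^ 2 - s) * s / (32 * al ^ 4 * mu * be)) * hN4
    rw [hP, hD, hL, hw, hg, hn, hE, hm1, hm2]
    push_cast
    field_simp
    rw [hs]
    ring
  exact even_core T U n c c1 P D L w g hn0 hw1 hg1 hw0 hg0 hTn hUn hTc hUc hTc1 hTL hUL hTP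
    (by rw [hM8]; exact hUP') (by rw [hM84]; exact hTD') (by rw [hM82]; exact hUD')
    c2 m q hUc1 hTc2 hcommT hm hqq hG

end Run7.h793
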