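import Pool.Agent.Run7.h793.GenB

namespace Run7.h793

variable {K : Type*} [Field K] [CharZero K]

theorem generic_case (D1 D2 : Derivation ℤ K K) (A B al mu be W1 W2 a1 a2 la : K)
    (hal : al ≠ 0) (hmu : mu ≠ 0) (hbe : be ≠ 0) (ha1 : a1 ≠ 0) (ha2 : a2 ≠ 0)
    (hs0 : mu ^ 2 + be ^ 2 ≠ 0)
    (hcomm : ∀ f, D1 (D2 f) - D2 (D1 f) = -A * D1 f + B * D2 f)
    (hD1al : D1 al = al * a1) (hD2al : D2 al = al * a2)
    (hD1la : D1 la = 0) (hD2la : D2 la = 0)
    (hD1mu : D1 mu = 2 * B * mu - (al + mu) * a1) (hD2mu : D2 mu = 2 * A * mu + (al - mu) * a2)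
    (hW1 : be * W1 = -(2 * al + mu) * a1) (hW2 : be * W2 = (2 * al - mu) * a2)
    (hD1be : D1 be = (al - mu) * W1 + 2 * B * be) (hD2be : D2 be = 2 * A * be - (al + mu) * W2)
    (hN3 : D1 a1 + D2 a2 + a1 ^ 2 + a2 ^ 2 - W1 ^ 2 - W2 ^ 2 - A * a2 - B * a1
      = 2 * al ^ 2 + 2 * mu ^ 2 - la)
    (hN4 : 2 * (a1 * W1 + a2 * W2) + D1 W1 + D2 W2 - A * W2 - B * W1 = 2 * mu * be)
    (hGauss : D1 B + D2 A = A ^ 2 + B ^ 2 + al ^ 2 - mu ^ 2 - be ^ 2)
    (hRic : D1 W2 - D2 W1 + A * W1 - B * W2 = 0) : False := by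
  have hW1' : W1 = -(2 * al + mu) * a1 / be := by
    rw [eq_div_iff hbe]; linear_combination hW1
  have hW2' : W2 = (2 * al - mu) * a2 / be := by
    rw [eq_div_iff hbe]; linear_combination hW2
  obtain ⟨m1, hm1⟩ : ∃ m1, m1 = A / a2 := ⟨_, rfl⟩
  obtain ⟨m2, hm2⟩ : ∃ m2, m2 = B / a1 := ⟨_, rfl⟩
  obtain ⟨k0, hk0⟩ : ∃ k0, k0 = D2 a1 / (a1 * a2) - m1 := ⟨_, rfl⟩
  obtain ⟨e1, e2, hc⟩ := scaled_comm D1 D2 A B al a1 a2 k0 m1 m2 hal ha1 ha2 hcomm hD1al hD2al hm1 hm2 hk0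
  have hA : A = m1 * a2 := by rw [hm1]; field_simp
  have hB : B = m2 * a1 := by rw [hm2]; field_simp
  obtain ⟨d1, hd1⟩ : ∃ d1 : Derivation ℤ K K, d1 = a1⁻¹ • D1 := ⟨_, rfl⟩
  obtain ⟨d2, hd2⟩ : ∃ d2 : Derivation ℤ K K, d2 = a2⁻¹ • D2 := ⟨_, rfl⟩
  rw [← hd1, ← hd2] at hc
  have f1 : ∀ f, D1 f = a1 * d1 f := by
    intro f; rw [hd1, Derivation.smul_apply, smul_eq_mul]; field_simp
  have f2 : ∀ f, D2 f = a2 * d2 f := by
    intro f; rw [hd2, Derivation.smul_apply, smul_eq_mul]; field_simp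
  have h1al : d1 al = al := by
    have := f1 al; rw [hD1al] at this
    exact (mul_left_cancel₀ ha1 (by linear_combination this)).symm
  have h2al : d2 al = al := by
    have := f2 al; rw [hD2al] at this
    exact (mul_left_cancel₀ ha2 (by linear_combination this)).symm
  have h1la : d1 la = 0 := by
    have := f1 la; rw [hD1la] at this
    exact (mul_eq_zero.mp this.symm).resolve_left ha1
  have h2la : d2 la = 0 := by
    have := f2 la; rw [hD2la] at this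
    exact (mul_eq_zero.mp this.symm).resolve_left ha2
  have h1mu : d1 mu = 2 * m2 * mu - (al + mu) := by
    have := f1 mu; rw [hD1mu, hB] at this
    exact (mul_left_cancel₀ ha1 (by linear_combination this)).symm
  have h2mu : d2 mu = 2 * m1 * mu + (al - mu) := by
    have := f2 mu; rw [hD2mu, hA] at this
    exact (mul_left_cancel₀ ha2 (by linear_combination this)).symm
  have h1be : d1 be = 2 * m2 * be - (al - mu) * (2 * al + mu) / be := by
    have := f1 be; rw [hD1be, hB, hW1'] at this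
    refine (mul_left_cancel₀ ha1 ?_).symm
    rw [← this]; field_simp; ring
  have h2be : d2 be = 2 * m1 * be - (al + mu) * (2 * al - mu) / be := by
    have := f2 be; rw [hD2be, hA, hW2'] at this
    refine (mul_left_cancel₀ ha2 ?_).symm
    rw [← this]; field_simp
  have h1a1 : d1 a1 = D1 a1 / a1 := by rw [f1 a1]; field_simp
  have h2a2 : d2 a2 = D2 a2 / a2 := by rw [f2 a2]; field_simp
  have h2a1 : d2 a1 = (k0 + m1) * a1 := by
    have := f2 a1; rw [e2] at this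
    exact (mul_left_cancel₀ ha2 (by linear_combination this)).symm
  have h1a2 : d1 a2 = (k0 + m2) * a2 := by
    have := f1 a2; rw [e1] at this
    exact (mul_left_cancel₀ ha1 (by linear_combination this)).symm
  have hRic' : a1 * d1 ((2 * al - mu) * a2 / be) - a2 * d2 (-(2 * al + mu) * a1 / be)
      + m1 * a2 * (-(2 * al + mu) * a1 / be) - m2 * a1 * ((2 * al - mu) * a2 / be) = 0 := by
    rw [← f1, ← f2, ← hW1', ← hW2', ← hA, ← hB]; exact hRic
  have hk := k0_formula d1 d2 al mu be a1 a2 m1 m2 k0 hal hbe ha1 ha2 h1al h2al h1mu h2mu h1be h2be h2a1 h1a2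
    hRic'
  have hdel := delta_formula d1 d2 al mu be m1 m2 k0 (mu ^ 2 + be ^ 2) hal hmu hbe rfl h1al h2al h1mu h2mu
    h1be h2be hc hk
  refine generic_scaled d1 d2 al mu be a1 a2 ((m1 + m2) / 2) k0 la (D1 a1) (D2 a2) (mu ^ 2 + be ^ 2) m1 m2
    hal hmu hbe ha1 ha2 hs0 rfl ?_ ?_ ?_ h1al h2al h1la h2la h1mu h2mu h1be h2be h1a1 h2a2 h2a1 h1a2 hc ?_ ?_ ?_
  · linear_combination (norm := skip) (1 / 2 : K) * hdel
    field_simp; ring
  · linear_combination (norm := skip) (-1 / 2 : K) * hdel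
    field_simp; ring
  · rw [hk]; ring
  · rw [← hW1', ← hW2', ← hN3, hA, hB]; ring
  · rw [← hW1', ← hW2', ← f1, ← f2, ← hA, ← hB]; linear_combination hN4
  · rw [← f1, ← f2, ← hA, ← hB]; exact hGauss

end Run7.h793
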