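import Mathlib

/-!
Parametrised surfaces in Euclidean four-space: first fundamental form, Laplace operator, mean
curvature vector, flat normal connection, null 2-type immersions, rotational surfaces.
-/

namespace Run7.h793

open scoped ContDiff RealInnerProductSpace

/-- Euclidean four-space. -/
abbrev E4 := EuclideanSpace ℝ (Fin 4)

section
variable {V : Type*} [NormedAddCommGroup V] [NormedSpace ℝ V]

/-- Partial derivative with respect to the first parameter. -/
noncomputable def pu (f : ℝ × ℝ → V) (p : ℝ × ℝ) : V := fderiv ℝ f p (1, 0)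

/-- Partial derivative with respect to the second parameter. -/
noncomputable def pv (f : ℝ × ℝ → V) (p : ℝ × ℝ) : V := fderiv ℝ f p (0, 1)

end

/-- Coefficient `E` of the first fundamental form. -/
noncomputable def gE (x : ℝ × ℝ → E4) (p : ℝ × ℝ) : ℝ := ⟪pu x p, pu x p⟫

/-- Coefficient `F` of the first fundamental form. -/
noncomputable def gF (x : ℝ × ℝ → E4) (p : ℝ × ℝ) : ℝ := ⟪pu x p, pv x p⟫

/-- Coefficient `G` of the first fundamental form. -/
noncomputable def gG (x : ℝ × ℝ → E4) (p : ℝ × ℝ) : ℝ := ⟪pv x p, pv x p⟫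

/-- The area density `√(EG - F²)`. -/
noncomputable def gW (x : ℝ × ℝ → E4) (p : ℝ × ℝ) : ℝ :=
  Real.sqrt (gE x p * gG x p - gF x p ^ 2)

/-- The Laplace operator `-div grad` of the metric induced by `x`, in local coordinates:
`Δf = -W⁻¹ (∂_u (W⁻¹ (G f_u - F f_v)) + ∂_v (W⁻¹ (E f_v - F f_u)))`. -/
noncomputable def lap {V : Type*} [NormedAddCommGroup V] [NormedSpace ℝ V]
    (x : ℝ × ℝ → E4) (f : ℝ × ℝ → V) (p : ℝ × ℝ) : V :=
  -((gW x p)⁻¹ • (pu (fun q => (gW x q)⁻¹ • (gG x q • pu f q - gF x q • pv f q)) p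
    + pv (fun q => (gW x q)⁻¹ • (gE x q • pv f q - gF x q • pu f q)) p))

/-- The tangent plane of the surface, as a linear subspace. -/
noncomputable def tangentPlane (x : ℝ × ℝ → E4) (p : ℝ × ℝ) : Submodule ℝ E4 :=
  Submodule.span ℝ {pu x p, pv x p}

/-- The mean curvature vector: half the trace, with respect to the first fundamental form, of the
second fundamental form (the normal component of the second derivatives of `x`). -/
noncomputable def meanCurvature (x : ℝ × ℝ → E4) (p : ℝ × ℝ) : E4 :=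
  (2 * gW x p ^ 2)⁻¹ • (tangentPlane x p)ᗮ.starProjection
    (gG x p • pu (pu x) p - (2 * gF x p) • pu (pv x) p + gE x p • pv (pv x) p)

/-- A smoothly immersed surface in `E4` parametrised by a connected open set of the plane. -/
structure IsImmersedSurface (Ω : Set (ℝ × ℝ)) (x : ℝ × ℝ → E4) : Prop where
  isOpen : IsOpen Ω
  isConnected : IsConnected Ω
  smooth : ContDiffOn ℝ ∞ x Ω
  immersion : ∀ p ∈ Ω, Function.Injective (fderiv ℝ x p)

/-- The immersion is of null 2-type: `x = x₀ + x₁ + x₂` with `x₀` constant, `x₁`, `x₂` smooth and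
not constant, `Δ x₁ = 0` and `Δ x₂ = lam x₂` for a constant `lam ≠ 0`. -/
def IsNullTwoType (Ω : Set (ℝ × ℝ)) (x : ℝ × ℝ → E4) : Prop :=
  ∃ (x0 : E4) (x1 x2 : ℝ × ℝ → E4) (lam : ℝ), lam ≠ 0 ∧
    ContDiffOn ℝ ∞ x1 Ω ∧ ContDiffOn ℝ ∞ x2 Ω ∧
    (∀ p ∈ Ω, x p = x0 + x1 p + x2 p) ∧
    (∀ p ∈ Ω, lap x x1 p = 0) ∧ (∀ p ∈ Ω, lap x x2 p = lam • x2 p) ∧
    (∃ p ∈ Ω, ∃ q ∈ Ω, x1 p ≠ x1 q) ∧ (∃ p ∈ Ω, ∃ q ∈ Ω, x2 p ≠ x2 q)

/-- Matrix of the first fundamental form. -/
noncomputable def firstForm (x : ℝ × ℝ → E4) (p : ℝ × ℝ) : Matrix (Fin 2) (Fin 2) ℝ :=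
  !![gE x p, gF x p; gF x p, gG x p]

/-- Matrix of the second fundamental form in the normal direction `ξ`. -/
noncomputable def secondForm (x : ℝ × ℝ → E4) (ξ : E4) (p : ℝ × ℝ) : Matrix (Fin 2) (Fin 2) ℝ :=
  !![⟪pu (pu x) p, ξ⟫, ⟪pu (pv x) p, ξ⟫; ⟪pu (pv x) p, ξ⟫, ⟪pv (pv x) p, ξ⟫]

/-- Matrix of the shape operator in the normal direction `ξ`. -/
noncomputable def shapeOperator (x : ℝ × ℝ → E4) (ξ : E4) (p : ℝ × ℝ) :
    Matrix (Fin 2) (Fin 2) ℝ := (firstForm x p)⁻¹ * secondForm x ξ p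

/-- The normal connection is flat, in the form of the Ricci equation: at every point all shape
operators commute. -/
def HasFlatNormalConnection (Ω : Set (ℝ × ℝ)) (x : ℝ × ℝ → E4) : Prop :=
  ∀ p ∈ Ω, ∀ ξ ∈ (tangentPlane x p)ᗮ, ∀ η ∈ (tangentPlane x p)ᗮ,
    shapeOperator x ξ p * shapeOperator x η p = shapeOperator x η p * shapeOperator x ξ p

/-- On `V` the surface is an open part of a surface of revolution: there are a point `c` and
orthonormal vectors `a`, `b` such that the velocity field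
`y ↦ ⟪a, y - c⟫ b - ⟪b, y - c⟫ a` of the rotations about `c` in the plane of `a` and `b` is
tangent to the surface and does not vanish, at every point of `V`. -/
def IsRotationalOn (V : Set (ℝ × ℝ)) (x : ℝ × ℝ → E4) : Prop :=
  ∃ c a b : E4, ‖a‖ = 1 ∧ ‖b‖ = 1 ∧ ⟪a, b⟫ = 0 ∧ ∀ p ∈ V,
    ⟪a, x p - c⟫ • b - ⟪b, x p - c⟫ • a ∈ tangentPlane x p ∧
    ⟪a, x p - c⟫ • b - ⟪b, x p - c⟫ • a ≠ 0

end Run7.h793
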