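import Pool.Agent.Run7.h793.Transfer

/-!
Consequences for surfaces: Beltrami's formula and the linear system in the germ field.
-/

namespace Run7.h793

open Filter Topology
open scoped ContDiff RealInnerProductSpace

set_option linter.unusedSimpArgs false
set_option linter.unusedVariables false
set_option linter.unusedSectionVars false

section algebra
variable {K : Type*} [Field K] [CharZero K]

theorem LBK_add (du dv : Derivation ℤ K K) (E F G W f g : K) :
    LBK du dv E F G W (f + g) = LBK du dv E F G W f + LBK du dv E F G W g := by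
  unfold LBK
  have e1 : (G * du (f + g) - F * dv (f + g)) / W
      = (G * du f - F * dv f) / W + (G * du g - F * dv g) / W := by
    rw [map_add, map_add]; ring
  have e2 : (E * dv (f + g) - F * du (f + g)) / W
      = (E * dv f - F * du f) / W + (E * dv g - F * du g) / W := by
    rw [map_add, map_add]; ring
  rw [e1, e2, map_add, map_add]; ring

theorem LBK_const (du dv : Derivation ℤ K K) (E F G W : K) {c : K} (h1 : du c = 0)
    (h2 : dv c = 0) : LBK du dv E F G W c = 0 := by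
  unfold LBK; rw [h1, h2]; simp

theorem LBK_smul (du dv : Derivation ℤ K K) (E F G W : K) {c : K} (h1 : du c = 0)
    (h2 : dv c = 0) (f : K) :
    LBK du dv E F G W (c * f) = c * LBK du dv E F G W f := by
  unfold LBK
  have e1 : (G * du (c * f) - F * dv (c * f)) / W = c * ((G * du f - F * dv f) / W) := by
    rw [Derivation.leibniz, Derivation.leibniz, h1, h2]; simp only [smul_eq_mul]; ring
  have e2 : (E * dv (c * f) - F * du (c * f)) / W = c * ((E * dv f - F * du f) / W) := by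
    rw [Derivation.leibniz, Derivation.leibniz, h1, h2]; simp only [smul_eq_mul]; ring
  rw [e1, e2, Derivation.leibniz, Derivation.leibniz, h1, h2]; simp only [smul_eq_mul]; ring

theorem lap_normal_u {du dv : Derivation ℤ K K} (huv : ∀ f, du (dv f) = dv (du f))
    {X : Fin 4 → K} {E F G W : K} (hW : W ≠ 0)
    (hEd : E = ip (fun i => du (X i)) (fun i => du (X i)))
    (hFd : F = ip (fun i => du (X i)) (fun i => dv (X i)))
    (hGd : G = ip (fun i => dv (X i)) (fun i => dv (X i)))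
    (hEG : E * G - F ^ 2 = W ^ 2) :
    ip (fun i => LBK du dv E F G W (X i)) (fun i => du (X i)) = 0 := by
  obtain ⟨P, hP⟩ : ∃ P : Fin 4 → K, ∀ i, P i = (G * du (X i) - F * dv (X i)) / W :=
    ⟨_, fun _ => rfl⟩
  obtain ⟨Q, hQ⟩ : ∃ Q : Fin 4 → K, ∀ i, Q i = (E * dv (X i) - F * du (X i)) / W :=
    ⟨_, fun _ => rfl⟩
  have hP' : ∀ i, P i * W = G * du (X i) - F * dv (X i) := by
    intro i; rw [hP]; field_simp
  have hQ' : ∀ i, Q i * W = E * dv (X i) - F * du (X i) := by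
    intro i; rw [hQ]; field_simp
  have h1 : ip P (fun i => du (X i)) = W := by
    refine mul_left_cancel₀ hW ?_
    have : W * ip P (fun i => du (X i)) = G * ip (fun i => du (X i)) (fun i => du (X i))
        - F * ip (fun i => du (X i)) (fun i => dv (X i)) := by
      unfold ip
      linear_combination du (X 0) * hP' 0 + du (X 1) * hP' 1 + du (X 2) * hP' 2 + du (X 3) * hP' 3
    rw [this, ← hEd, ← hFd]; linear_combination hEG
  have h2 : ip Q (fun i => du (X i)) = 0 := by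
    refine mul_left_cancel₀ hW ?_
    have : W * ip Q (fun i => du (X i)) = E * ip (fun i => du (X i)) (fun i => dv (X i))
        - F * ip (fun i => du (X i)) (fun i => du (X i)) := by
      unfold ip
      linear_combination du (X 0) * hQ' 0 + du (X 1) * hQ' 1 + du (X 2) * hQ' 2 + du (X 3) * hQ' 3
    rw [this, ← hEd, ← hFd]; ring
  have h3 := congrArg du h1
  have h4 := congrArg dv h2
  rw [D_ip] at h3 h4
  rw [map_zero] at h4
  have e1 := congrArg du hEd
  have e2 := congrArg du hFd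
  have e3 := congrArg du hGd
  have e4 := congrArg du hEG
  rw [D_ip] at e1 e2 e3
  simp only [map_sub, Derivation.leibniz, Derivation.leibniz_pow, smul_eq_mul, nsmul_eq_mul] at e4
  push_cast at e4
  have e5 : W * ip P (fun i => du (du (X i))) = G * ip (fun i => du (X i)) (fun i => du (du (X i)))
      - F * ip (fun i => dv (X i)) (fun i => du (du (X i))) := by
    unfold ip
    linear_combination du (du (X 0)) * hP' 0 + du (du (X 1)) * hP' 1 + du (du (X 2)) * hP' 2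
      + du (du (X 3)) * hP' 3
  have e6 : W * ip Q (fun i => dv (du (X i))) = E * ip (fun i => dv (X i)) (fun i => dv (du (X i)))
      - F * ip (fun i => du (X i)) (fun i => dv (du (X i))) := by
    unfold ip
    linear_combination dv (du (X 0)) * hQ' 0 + dv (du (X 1)) * hQ' 1 + dv (du (X 2)) * hQ' 2
      + dv (du (X 3)) * hQ' 3
  have key : (2 * W) * (ip (fun i => du (P i)) (fun i => du (X i))
      + ip (fun i => dv (Q i)) (fun i => du (X i))) = 0 := by
    simp only [huv] at e1 e2 e3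
    unfold ip at *
    linear_combination 2 * W * h3 + 2 * W * h4 - 2 * e5 - 2 * e6 - e4 + G * e1 - 2 * F * e2
      + E * e3
  have key2 := (mul_eq_zero.mp key).resolve_left (mul_ne_zero two_ne_zero hW)
  have : ip (fun i => LBK du dv E F G W (X i)) (fun i => du (X i))
      = -(ip (fun i => du (P i)) (fun i => du (X i))
      + ip (fun i => dv (Q i)) (fun i => du (X i))) / W := by
    unfold ip LBK
    simp only [hP, hQ]
    ring
  rw [this, key2]; simp

theorem LBK_swap (du dv : Derivation ℤ K K) (E F G W f : K) :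
    LBK dv du G F E W f = LBK du dv E F G W f := by
  unfold LBK; rw [add_comm]

theorem lap_normal_v {du dv : Derivation ℤ K K} (huv : ∀ f, du (dv f) = dv (du f))
    {X : Fin 4 → K} {E F G W : K} (hW : W ≠ 0)
    (hEd : E = ip (fun i => du (X i)) (fun i => du (X i)))
    (hFd : F = ip (fun i => du (X i)) (fun i => dv (X i)))
    (hGd : G = ip (fun i => dv (X i)) (fun i => dv (X i)))
    (hEG : E * G - F ^ 2 = W ^ 2) :
    ip (fun i => LBK du dv E F G W (X i)) (fun i => dv (X i)) = 0 := by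
  have := lap_normal_u (du := dv) (dv := du) (fun f => (huv f).symm) (X := X) (E := G) (F := F)
    (G := E) (W := W) hW hGd (by rw [hFd, ip_comm]) hEd (by linear_combination hEG)
  simpa only [LBK_swap] using this

end algebra

theorem eq_on_of_adapted {Ω : Set P2} {f g : P2 → ℝ} (hΩ : IsOpen Ω) (hf : ContinuousOn f Ω)
    (hg : ContinuousOn g Ω)
    (h : ∀ (U : Ultrafilter P2) (V0 : Set P2), IsOpen V0 → V0 ⊆ Ω → Adapted U V0 →
      ∀ᶠ p in (U : Filter P2), f p = g p) : ∀ p ∈ Ω, f p = g p := by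
  by_contra hcon
  push Not at hcon
  obtain ⟨p, hp, hne⟩ := hcon
  have hopen : IsOpen (Ω ∩ {q | f q - g q ≠ 0}) :=
    (hf.sub hg).isOpen_inter_preimage hΩ isOpen_ne
  obtain ⟨U, hU⟩ := exists_adapted _ hopen ⟨p, hp, sub_ne_zero.2 hne⟩
  have h1 := h U _ hopen Set.inter_subset_left hU
  obtain ⟨q, hq1, hq2⟩ := (h1.and hU.1).exists
  exact hq2.2 (sub_eq_zero.2 hq1)

section surface

variable {U : Ultrafilter P2} {V0 Ω : Set P2} {x : P2 → E4}

/-- germ of a smooth function -/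
noncomputable def gs (U : Ultrafilter P2) (hΩ : IsOpen Ω) (hΩU : Ω ∈ U) {f : P2 → ℝ}
    (hf : ContDiffOn ℝ ∞ f Ω) : KF U := mkK f ⟨Ω, hΩ, hΩU, hf⟩

theorem isRep_gs (hΩ : IsOpen Ω) (hΩU : Ω ∈ U) {f : P2 → ℝ} (hf : ContDiffOn ℝ ∞ f Ω) :
    IsRep (gs U hΩ hΩU hf) f := isRep_mkK _ _

/-- germ of a smooth vector function -/
noncomputable def gv (U : Ultrafilter P2) (hΩ : IsOpen Ω) (hΩU : Ω ∈ U) {f : P2 → E4}
    (hf : ContDiffOn ℝ ∞ f Ω) : Fin 4 → KF U := fun i => gs U hΩ hΩU (comp_smooth hf i)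

theorem isRep_gv (hΩ : IsOpen Ω) (hΩU : Ω ∈ U) {f : P2 → E4} (hf : ContDiffOn ℝ ∞ f Ω)
    (i : Fin 4) : IsRep (gv U hΩ hΩU hf i) (fun p => f p i) := isRep_gs hΩ hΩU (comp_smooth hf i)

/-- metric relations in the germ field -/
theorem metric_rel (hU : Adapted U V0) (hΩ : IsOpen Ω) (hΩU : Ω ∈ U)
    (hx : ContDiffOn ℝ ∞ x Ω) (himm : ∀ p ∈ Ω, Function.Injective (fderiv ℝ x p)) :
    gs U hΩ hΩU (gE_smooth hΩ hx) = ip (fun i => Der hU (1, 0) (gv U hΩ hΩU hx i))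
        (fun i => Der hU (1, 0) (gv U hΩ hΩU hx i)) ∧
    gs U hΩ hΩU (gF_smooth hΩ hx) = ip (fun i => Der hU (1, 0) (gv U hΩ hΩU hx i))
        (fun i => Der hU (0, 1) (gv U hΩ hΩU hx i)) ∧
    gs U hΩ hΩU (gG_smooth hΩ hx) = ip (fun i => Der hU (0, 1) (gv U hΩ hΩU hx i))
        (fun i => Der hU (0, 1) (gv U hΩ hΩU hx i)) ∧
    gs U hΩ hΩU (gE_smooth hΩ hx) * gs U hΩ hΩU (gG_smooth hΩ hx)
        - gs U hΩ hΩU (gF_smooth hΩ hx) ^ 2 = gs U hΩ hΩU (gW_smooth hΩ hx himm) ^ 2 ∧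
    0 < gs U hΩ hΩU (gW_smooth hΩ hx himm) := by
  have ru := fun i => rep_pu hU hΩ hΩU hx (isRep_gv hΩ hΩU hx i)
  have rv := fun i => rep_pv hU hΩ hΩU hx (isRep_gv hΩ hΩU hx i)
  refine ⟨?_, ?_, ?_, ?_, ?_⟩
  · rw [(isRep_gs hΩ hΩU (gE_smooth hΩ hx)).eq_iff (rep_ip ru ru)]
    exact Eventually.of_forall (fun _ => rfl)
  · rw [(isRep_gs hΩ hΩU (gF_smooth hΩ hx)).eq_iff (rep_ip ru rv)]
    exact Eventually.of_forall (fun _ => rfl)
  · rw [(isRep_gs hΩ hΩU (gG_smooth hΩ hx)).eq_iff (rep_ip rv rv)]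
    exact Eventually.of_forall (fun _ => rfl)
  · rw [pow_two, pow_two]
    rw [(((isRep_gs hΩ hΩU (gE_smooth hΩ hx)).mul (isRep_gs hΩ hΩU (gG_smooth hΩ hx))).sub
      ((isRep_gs hΩ hΩU (gF_smooth hΩ hx)).mul (isRep_gs hΩ hΩU (gF_smooth hΩ hx)))).eq_iff
      ((isRep_gs hΩ hΩU (gW_smooth hΩ hx himm)).mul (isRep_gs hΩ hΩU (gW_smooth hΩ hx himm)))]
    filter_upwards [hΩU] with p hp
    have := gW_sq (himm p hp)
    linear_combination -this
  · apply mkK_pos'
    filter_upwards [hΩU] with p hp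
    exact gW_pos (himm p hp)

/-- Laplacian of the position vector is normal. -/
theorem lap_normal (hΩ : IsOpen Ω) (hx : ContDiffOn ℝ ∞ x Ω)
    (himm : ∀ p ∈ Ω, Function.Injective (fderiv ℝ x p)) :
    ∀ p ∈ Ω, ⟪lap x x p, pu x p⟫ = 0 ∧ ⟪lap x x p, pv x p⟫ = 0 := by
  have hl := lap_smooth hΩ hx himm hx
  have h1 : ∀ p ∈ Ω, ⟪lap x x p, pu x p⟫ = (fun _ => (0 : ℝ)) p := by
    refine eq_on_of_adapted hΩ (hl.inner ℝ (pu_smooth hΩ hx)).continuousOn continuousOn_const ?_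
    intro U V0 hV0 hV0Ω hU
    have hΩU : Ω ∈ U := Filter.mem_of_superset hU.1 hV0Ω
    obtain ⟨m1, m2, m3, m4, m5⟩ := metric_rel hU hΩ hΩU hx himm
    have h := lap_normal_u (Der_comm hU (1, 0) (0, 1)) (ne_of_gt m5) m1 m2 m3 m4
    rw [IsRep.eq_iff (rep_ip (fun i => rep_lap hU hΩ hΩU hx himm hx (isRep_gs hΩ hΩU _)
      (isRep_gs hΩ hΩU _) (isRep_gs hΩ hΩU _) (isRep_gs hΩ hΩU _) (isRep_gv hΩ hΩU hx i))
      (fun i => rep_pu hU hΩ hΩU hx (isRep_gv hΩ hΩU hx i))) isRep_zero] at h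
    exact h
  have h2 : ∀ p ∈ Ω, ⟪lap x x p, pv x p⟫ = (fun _ => (0 : ℝ)) p := by
    refine eq_on_of_adapted hΩ (hl.inner ℝ (pv_smooth hΩ hx)).continuousOn continuousOn_const ?_
    intro U V0 hV0 hV0Ω hU
    have hΩU : Ω ∈ U := Filter.mem_of_superset hU.1 hV0Ω
    obtain ⟨m1, m2, m3, m4, m5⟩ := metric_rel hU hΩ hΩU hx himm
    have h := lap_normal_v (Der_comm hU (1, 0) (0, 1)) (ne_of_gt m5) m1 m2 m3 m4
    rw [IsRep.eq_iff (rep_ip (fun i => rep_lap hU hΩ hΩU hx himm hx (isRep_gs hΩ hΩU _)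
      (isRep_gs hΩ hΩU _) (isRep_gs hΩ hΩU _) (isRep_gs hΩ hΩU _) (isRep_gv hΩ hΩU hx i))
      (fun i => rep_pv hU hΩ hΩU hx (isRep_gv hΩ hΩU hx i))) isRep_zero] at h
    exact h
  exact fun p hp => ⟨h1 p hp, h2 p hp⟩

/-- the position vector equation `Δ x = lam x₂`. -/
theorem lap_position (hΩ : IsOpen Ω) (hx : ContDiffOn ℝ ∞ x Ω)
    (himm : ∀ p ∈ Ω, Function.Injective (fderiv ℝ x p)) {x0 : E4} {x1 x2 : P2 → E4} {lam : ℝ}
    (h1 : ContDiffOn ℝ ∞ x1 Ω) (h2 : ContDiffOn ℝ ∞ x2 Ω)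
    (hdec : ∀ p ∈ Ω, x p = x0 + x1 p + x2 p) (hl1 : ∀ p ∈ Ω, lap x x1 p = 0)
    (hl2 : ∀ p ∈ Ω, lap x x2 p = lam • x2 p) : ∀ p ∈ Ω, lap x x p = lam • x2 p := by
  intro p hp
  ext i
  revert p
  have hl := lap_smooth hΩ hx himm hx
  refine eq_on_of_adapted hΩ (comp_smooth hl i).continuousOn
    (comp_smooth (f := fun p => lam • x2 p) (h2.const_smul lam) i).continuousOn ?_
  intro U V0 hV0 hV0Ω hU
  have hΩU : Ω ∈ U := Filter.mem_of_superset hU.1 hV0Ω
  obtain ⟨m1, m2, m3, m4, m5⟩ := metric_rel hU hΩ hΩU hx himm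
  have hX : gv U hΩ hΩU hx i = cst U (x0 i) + gv U hΩ hΩU h1 i + gv U hΩ hΩU h2 i := by
    rw [(isRep_gv hΩ hΩU hx i).eq_iff (((isRep_cst (x0 i)).add (isRep_gv hΩ hΩU h1 i)).add
      (isRep_gv hΩ hΩU h2 i))]
    filter_upwards [hΩU] with p hp
    rw [hdec p hp]; simp
  have r1 := rep_lap hU hΩ hΩU hx himm h1 (isRep_gs hΩ hΩU (gE_smooth hΩ hx))
    (isRep_gs hΩ hΩU (gF_smooth hΩ hx)) (isRep_gs hΩ hΩU (gG_smooth hΩ hx))
    (isRep_gs hΩ hΩU (gW_smooth hΩ hx himm)) (isRep_gv hΩ hΩU h1 i)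
  have r2 := rep_lap hU hΩ hΩU hx himm h2 (isRep_gs hΩ hΩU (gE_smooth hΩ hx))
    (isRep_gs hΩ hΩU (gF_smooth hΩ hx)) (isRep_gs hΩ hΩU (gG_smooth hΩ hx))
    (isRep_gs hΩ hΩU (gW_smooth hΩ hx himm)) (isRep_gv hΩ hΩU h2 i)
  have r := rep_lap hU hΩ hΩU hx himm hx (isRep_gs hΩ hΩU (gE_smooth hΩ hx))
    (isRep_gs hΩ hΩU (gF_smooth hΩ hx)) (isRep_gs hΩ hΩU (gG_smooth hΩ hx))
    (isRep_gs hΩ hΩU (gW_smooth hΩ hx himm)) (isRep_gv hΩ hΩU hx i)
  rw [hX, LBK_add, LBK_add, LBK_const _ _ _ _ _ _ (Der_cst hU _ _) (Der_cst hU _ _), zero_add] at r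
  have r3 := r1.add r2
  have : ∀ᶠ p in (U : Filter P2), lap x x p i = lap x x1 p i + lap x x2 p i :=
    (r.eq_iff r3).mp rfl
  filter_upwards [this, hΩU] with p hp hpΩ
  rw [hp, hl1 p hpΩ, hl2 p hpΩ]; simp

end surface

end Run7.h793
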