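import Mathlib

/-!
The field of smooth germs along an ultrafilter adapted to an open set of the plane.
-/

namespace Run7.h793

open Filter Topology
open scoped ContDiff

/-- parameter plane -/
abbrev P2 := ℝ × ℝ

/-- The ultrafilter contains `V0` and every open dense set. -/
def Adapted (U : Ultrafilter P2) (V0 : Set P2) : Prop :=
  V0 ∈ U ∧ ∀ O : Set P2, IsOpen O → Dense O → O ∈ U

theorem exists_adapted (V0 : Set P2) (hV : IsOpen V0) (hne : V0.Nonempty) :
    ∃ U : Ultrafilter P2, Adapted U V0 := by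
  let D : Filter P2 :=
    { sets := {s | ∃ O, IsOpen O ∧ Dense O ∧ O ∩ V0 ⊆ s}
      univ_sets := ⟨Set.univ, isOpen_univ, dense_univ, fun _ _ => trivial⟩
      sets_of_superset := by
        rintro s t ⟨O, h1, h2, h3⟩ hst
        exact ⟨O, h1, h2, h3.trans hst⟩
      inter_sets := by
        rintro s t ⟨O, h1, h2, h3⟩ ⟨O', h1', h2', h3'⟩
        exact ⟨O ∩ O', h1.inter h1', h2.inter_of_isOpen_left h2' h1,
          fun x hx => ⟨h3 ⟨hx.1.1, hx.2⟩, h3' ⟨hx.1.2, hx.2⟩⟩⟩ }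
  have hD : D.NeBot := by
    rw [Filter.neBot_iff]
    intro hbot
    have hmem : (∅ : Set P2) ∈ D := by rw [hbot]; exact Filter.mem_bot
    obtain ⟨O, h1, h2, h3⟩ := hmem
    obtain ⟨x, hx⟩ := h2.inter_open_nonempty V0 hV hne
    exact h3 ⟨hx.2, hx.1⟩
  refine ⟨Ultrafilter.of D, ?_, ?_⟩
  · exact Ultrafilter.of_le D ⟨Set.univ, isOpen_univ, dense_univ, fun x hx => hx.2⟩
  · intro O hO hd
    exact Ultrafilter.of_le D ⟨O, hO, hd, fun x hx => hx.1⟩

/-- The key lemma: a continuous function on an open member vanishing eventually vanishes on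
an open member. -/
theorem open_zero {U : Ultrafilter P2} {V0 : Set P2} (hU : Adapted U V0) {f : P2 → ℝ}
    {O : Set P2} (hO : IsOpen O) (hOU : O ∈ U) (hf : ContinuousOn f O)
    (hz : ∀ᶠ p in (U : Filter P2), f p = 0) :
    ∃ N : Set P2, IsOpen N ∧ N ∈ U ∧ N ⊆ O ∧ ∀ p ∈ N, f p = 0 := by
  set Z : Set P2 := O ∩ {p | f p = 0} with hZ
  have hZU : Z ∈ U := Filter.inter_mem hOU hz
  refine ⟨interior Z, isOpen_interior, ?_, ?_, ?_⟩
  · have h1 : (frontier (closure Z))ᶜ ∈ U := by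
      apply hU.2
      · exact isClosed_frontier.isOpen_compl
      · rw [← interior_eq_empty_iff_dense_compl]
        exact interior_frontier isClosed_closure
    have h2 : Z ∩ (frontier (closure Z))ᶜ ∈ U := Filter.inter_mem hZU h1
    apply Filter.mem_of_superset h2
    rintro p ⟨hp, hp2⟩
    have h3 : p ∈ interior (closure Z) := by
      by_contra hcon
      apply hp2
      rw [isClosed_closure.frontier_eq]
      exact ⟨subset_closure hp, hcon⟩
    -- O ∩ interior (closure Z) ⊆ Z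
    have h4 : O ∩ interior (closure Z) ⊆ Z := by
      rintro q ⟨hq1, hq2⟩
      refine ⟨hq1, ?_⟩
      have hq3 : q ∈ closure Z := interior_subset hq2
      have hc : ContinuousAt f q := hf.continuousAt (hO.mem_nhds hq1)
      by_contra hne
      have hne' : f q ≠ 0 := hne
      have : ∀ᶠ y in 𝓝 q, f y ≠ 0 := hc.eventually_ne hne'
      have h5 := mem_closure_iff_frequently.1 hq3
      obtain ⟨y, hy1, hy2⟩ := (h5.and_eventually this).exists
      exact hy2 hy1.2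
    exact mem_interior.2 ⟨O ∩ interior (closure Z), h4, hO.inter isOpen_interior, hp.1, h3⟩
  · exact interior_subset.trans Set.inter_subset_left
  · intro p hp
    exact (interior_subset hp).2

/-- Smooth germs. -/
def SmoothGerm (U : Ultrafilter P2) (g : (U : Filter P2).Germ ℝ) : Prop :=
  ∃ (f : P2 → ℝ) (O : Set P2), IsOpen O ∧ O ∈ U ∧ ContDiffOn ℝ ∞ f O ∧
    ((f : P2 → ℝ) : (U : Filter P2).Germ ℝ) = g

/-- The field of smooth germs. -/
noncomputable def KF (U : Ultrafilter P2) : Subfield ((U : Filter P2).Germ ℝ) where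
  carrier := {g | SmoothGerm U g}
  mul_mem' := by
    rintro _ _ ⟨f, O, h1, h2, h3, rfl⟩ ⟨g, O', h1', h2', h3', rfl⟩
    exact ⟨f * g, O ∩ O', h1.inter h1', Filter.inter_mem h2 h2',
      (h3.mono Set.inter_subset_left).mul (h3'.mono Set.inter_subset_right), rfl⟩
  one_mem' := ⟨fun _ => 1, Set.univ, isOpen_univ, Filter.univ_mem, contDiffOn_const, rfl⟩
  add_mem' := by
    rintro _ _ ⟨f, O, h1, h2, h3, rfl⟩ ⟨g, O', h1', h2', h3', rfl⟩
    exact ⟨f + g, O ∩ O', h1.inter h1', Filter.inter_mem h2 h2',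
      (h3.mono Set.inter_subset_left).add (h3'.mono Set.inter_subset_right), rfl⟩
  zero_mem' := ⟨fun _ => 0, Set.univ, isOpen_univ, Filter.univ_mem, contDiffOn_const, rfl⟩
  neg_mem' := by
    rintro _ ⟨f, O, h1, h2, h3, rfl⟩
    exact ⟨-f, O, h1, h2, h3.neg, rfl⟩
  inv_mem' := by
    rintro _ ⟨f, O, h1, h2, h3, rfl⟩
    by_cases hz : ∀ᶠ p in (U : Filter P2), f p = 0
    · have : ((f : P2 → ℝ) : (U : Filter P2).Germ ℝ) = 0 := Germ.coe_eq.2 hz
      rw [this, inv_zero]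
      exact ⟨fun _ => 0, Set.univ, isOpen_univ, Filter.univ_mem, contDiffOn_const, rfl⟩
    · have hne : ∀ᶠ p in (U : Filter P2), f p ≠ 0 := Ultrafilter.eventually_not.2 hz
      refine ⟨f⁻¹, O ∩ {p | f p ≠ 0}, ?_, Filter.inter_mem h2 hne, ?_, rfl⟩
      · exact h3.continuousOn.isOpen_inter_preimage h1 isOpen_ne
      · exact (h3.mono Set.inter_subset_left).inv (fun p hp => hp.2)

variable {U : Ultrafilter P2} {V0 : Set P2}

/-- representative of a germ -/
noncomputable def rep (g : KF U) : P2 → ℝ := Classical.choose g.2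

theorem rep_spec (g : KF U) : ∃ O : Set P2, IsOpen O ∧ O ∈ U ∧ ContDiffOn ℝ ∞ (rep g) O ∧
    ((rep g : P2 → ℝ) : (U : Filter P2).Germ ℝ) = g.1 := Classical.choose_spec g.2

/-- the class of a function smooth on an open member -/
noncomputable def mkK (f : P2 → ℝ) (h : ∃ O : Set P2, IsOpen O ∧ O ∈ U ∧ ContDiffOn ℝ ∞ f O) :
    KF U :=
  ⟨((f : P2 → ℝ) : (U : Filter P2).Germ ℝ), f, h.choose, h.choose_spec.1, h.choose_spec.2.1,
    h.choose_spec.2.2, rfl⟩

theorem mkK_val (f : P2 → ℝ) (h) : ((mkK (U := U) f h : KF U) : (U : Filter P2).Germ ℝ) =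
    ((f : P2 → ℝ) : (U : Filter P2).Germ ℝ) := rfl

theorem mkK_eq_iff {f g : P2 → ℝ} {hf hg} : (mkK (U := U) f hf = mkK g hg) ↔
    ∀ᶠ p in (U : Filter P2), f p = g p := by
  rw [Subtype.ext_iff, mkK_val, mkK_val]
  exact Germ.coe_eq

/-- directional derivative of functions -/
noncomputable def pd (e : P2) (f : P2 → ℝ) : P2 → ℝ := fun p => fderiv ℝ f p e

theorem pd_contDiffOn {e : P2} {f : P2 → ℝ} {O : Set P2} (hO : IsOpen O)
    (hf : ContDiffOn ℝ ∞ f O) : ContDiffOn ℝ ∞ (pd e f) O := by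
  have h1 : ContDiffOn ℝ ∞ (fderiv ℝ f) O := hf.fderiv_of_isOpen hO (by simp)
  exact h1.clm_apply contDiffOn_const

theorem pd_smooth {e : P2} {f : P2 → ℝ} (h : ∃ O : Set P2, IsOpen O ∧ O ∈ U ∧
    ContDiffOn ℝ ∞ f O) : ∃ O : Set P2, IsOpen O ∧ O ∈ U ∧ ContDiffOn ℝ ∞ (pd e f) O := by
  obtain ⟨O, h1, h2, h3⟩ := h
  exact ⟨O, h1, h2, pd_contDiffOn h1 h3⟩

/-- two eventually equal smooth functions agree on an open member -/
theorem open_eq (hU : Adapted U V0) {f g : P2 → ℝ}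
    (hf : ∃ O : Set P2, IsOpen O ∧ O ∈ U ∧ ContDiffOn ℝ ∞ f O)
    (hg : ∃ O : Set P2, IsOpen O ∧ O ∈ U ∧ ContDiffOn ℝ ∞ g O)
    (h : ∀ᶠ p in (U : Filter P2), f p = g p) :
    ∃ N : Set P2, IsOpen N ∧ N ∈ U ∧ ContDiffOn ℝ ∞ f N ∧ ContDiffOn ℝ ∞ g N ∧
      ∀ p ∈ N, f p = g p := by
  obtain ⟨O, h1, h2, h3⟩ := hf
  obtain ⟨O', h1', h2', h3'⟩ := hg
  have hz : ∀ᶠ p in (U : Filter P2), f p - g p = 0 := h.mono (fun p hp => sub_eq_zero.2 hp)
  have hc : ContinuousOn (fun p => f p - g p) (O ∩ O') :=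
    ((h3.mono Set.inter_subset_left).sub (h3'.mono Set.inter_subset_right)).continuousOn
  obtain ⟨N, n1, n2, n3, n4⟩ := open_zero hU (h1.inter h1') (Filter.inter_mem h2 h2') hc hz
  exact ⟨N, n1, n2, h3.mono (n3.trans Set.inter_subset_left),
    h3'.mono (n3.trans Set.inter_subset_right), fun p hp => sub_eq_zero.1 (n4 p hp)⟩

theorem pd_congr (hU : Adapted U V0) (e : P2) {f g : P2 → ℝ}
    (hf : ∃ O : Set P2, IsOpen O ∧ O ∈ U ∧ ContDiffOn ℝ ∞ f O)
    (hg : ∃ O : Set P2, IsOpen O ∧ O ∈ U ∧ ContDiffOn ℝ ∞ g O)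
    (h : ∀ᶠ p in (U : Filter P2), f p = g p) :
    ∀ᶠ p in (U : Filter P2), pd e f p = pd e g p := by
  obtain ⟨N, n1, n2, n3, n4, n5⟩ := open_eq hU hf hg h
  filter_upwards [n2] with p hp
  have : f =ᶠ[𝓝 p] g := by
    filter_upwards [n1.mem_nhds hp] with q hq using n5 q hq
  simp only [pd, this.fderiv_eq]

theorem rep_smooth (g : KF U) : ∃ O : Set P2, IsOpen O ∧ O ∈ U ∧ ContDiffOn ℝ ∞ (rep g) O := by
  obtain ⟨O, h1, h2, h3, _⟩ := rep_spec g
  exact ⟨O, h1, h2, h3⟩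

theorem mkK_rep (g : KF U) : mkK (rep g) (rep_smooth g) = g := by
  obtain ⟨O, h1, h2, h3, h4⟩ := rep_spec g
  exact Subtype.ext h4

/-- derivative on germs, as a function -/
noncomputable def derFun (e : P2) (g : KF U) : KF U := mkK (pd e (rep g)) (pd_smooth (rep_smooth g))

theorem derFun_mkK (hU : Adapted U V0) (e : P2) (f : P2 → ℝ) (h) :
    derFun e (mkK (U := U) f h) = mkK (pd e f) (pd_smooth h) := by
  unfold derFun
  rw [mkK_eq_iff]
  apply pd_congr hU e (rep_smooth _) h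
  rw [← mkK_eq_iff (hf := rep_smooth _) (hg := h), mkK_rep]

theorem exists_rep (g : KF U) : ∃ f h, mkK (U := U) f h = g := ⟨_, _, mkK_rep g⟩

theorem add_smooth {f g : P2 → ℝ}
    (hf : ∃ O : Set P2, IsOpen O ∧ O ∈ U ∧ ContDiffOn ℝ ∞ f O)
    (hg : ∃ O : Set P2, IsOpen O ∧ O ∈ U ∧ ContDiffOn ℝ ∞ g O) :
    ∃ O : Set P2, IsOpen O ∧ O ∈ U ∧ ContDiffOn ℝ ∞ (fun p => f p + g p) O := by
  obtain ⟨O, h1, h2, h3⟩ := hf
  obtain ⟨O', h1', h2', h3'⟩ := hg
  exact ⟨O ∩ O', h1.inter h1', Filter.inter_mem h2 h2',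
      (h3.mono Set.inter_subset_left).add (h3'.mono Set.inter_subset_right)⟩

theorem mul_smooth {f g : P2 → ℝ}
    (hf : ∃ O : Set P2, IsOpen O ∧ O ∈ U ∧ ContDiffOn ℝ ∞ f O)
    (hg : ∃ O : Set P2, IsOpen O ∧ O ∈ U ∧ ContDiffOn ℝ ∞ g O) :
    ∃ O : Set P2, IsOpen O ∧ O ∈ U ∧ ContDiffOn ℝ ∞ (fun p => f p * g p) O := by
  obtain ⟨O, h1, h2, h3⟩ := hf
  obtain ⟨O', h1', h2', h3'⟩ := hg
  exact ⟨O ∩ O', h1.inter h1', Filter.inter_mem h2 h2',
      (h3.mono Set.inter_subset_left).mul (h3'.mono Set.inter_subset_right)⟩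

theorem mkK_add {f g : P2 → ℝ} (hf hg) :
    mkK (U := U) f hf + mkK g hg = mkK (fun p => f p + g p) (add_smooth hf hg) := rfl

theorem mkK_mul {f g : P2 → ℝ} (hf hg) :
    mkK (U := U) f hf * mkK g hg = mkK (fun p => f p * g p) (mul_smooth hf hg) := rfl

/-- the derivation -/
noncomputable def Der (hU : Adapted U V0) (e : P2) : Derivation ℤ (KF U) (KF U) :=
  Derivation.mk' (AddMonoidHom.toIntLinearMap
    { toFun := derFun e
      map_zero' := by
        have h0 : (0 : KF U) = mkK (fun _ => 0)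
          ⟨Set.univ, isOpen_univ, Filter.univ_mem, contDiffOn_const⟩ := rfl
        rw [h0, derFun_mkK hU, mkK_eq_iff]
        exact Eventually.of_forall (fun p => by simp [pd])
      map_add' := by
        intro a b
        obtain ⟨f, hf, rfl⟩ := exists_rep a
        obtain ⟨g, hg, rfl⟩ := exists_rep b
        rw [mkK_add, derFun_mkK hU, derFun_mkK hU, derFun_mkK hU, mkK_add, mkK_eq_iff]
        obtain ⟨O, h1, h2, h3⟩ := hf
        obtain ⟨O', h1', h2', h3'⟩ := hg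
        filter_upwards [h2, h2'] with p hp hp'
        have hd1 : DifferentiableAt ℝ f p := (h3.contDiffAt (h1.mem_nhds hp)).differentiableAt
          (by simp)
        have hd2 : DifferentiableAt ℝ g p := (h3'.contDiffAt (h1'.mem_nhds hp')).differentiableAt
          (by simp)
        simp only [pd]
        rw [fderiv_fun_add hd1 hd2]
        rfl }) (by
    intro a b
    obtain ⟨f, hf, rfl⟩ := exists_rep a
    obtain ⟨g, hg, rfl⟩ := exists_rep b
    change derFun e _ = _ * derFun e _ + _ * derFun e _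
    rw [mkK_mul, derFun_mkK hU, derFun_mkK hU, derFun_mkK hU, mkK_mul, mkK_mul, mkK_add,
      mkK_eq_iff]
    obtain ⟨O, h1, h2, h3⟩ := hf
    obtain ⟨O', h1', h2', h3'⟩ := hg
    filter_upwards [h2, h2'] with p hp hp'
    have hd1 : DifferentiableAt ℝ f p := (h3.contDiffAt (h1.mem_nhds hp)).differentiableAt
      (by simp)
    have hd2 : DifferentiableAt ℝ g p := (h3'.contDiffAt (h1'.mem_nhds hp')).differentiableAt
      (by simp)
    simp only [pd]
    rw [fderiv_fun_mul hd1 hd2]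
    simp)

theorem Der_mkK (hU : Adapted U V0) (e : P2) (f : P2 → ℝ) (h) :
    Der hU e (mkK (U := U) f h) = mkK (pd e f) (pd_smooth h) := derFun_mkK hU e f h

theorem Der_comm (hU : Adapted U V0) (e e' : P2) (a : KF U) :
    Der hU e (Der hU e' a) = Der hU e' (Der hU e a) := by
  obtain ⟨f, hf, rfl⟩ := exists_rep a
  rw [Der_mkK, Der_mkK, Der_mkK, Der_mkK, mkK_eq_iff]
  obtain ⟨O, h1, h2, h3⟩ := hf
  filter_upwards [h2] with p hp
  have h4 : ContDiffAt ℝ ∞ f p := h3.contDiffAt (h1.mem_nhds hp)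
  have h5 : DifferentiableAt ℝ (fderiv ℝ f) p := by
    have := (h3.fderiv_of_isOpen h1 (m := ∞) (by simp)).contDiffAt (h1.mem_nhds hp)
    exact this.differentiableAt (by simp)
  have h6 : IsSymmSndFDerivAt ℝ f p := h4.isSymmSndFDerivAt (by simp; exact WithTop.coe_le_coe.2 le_top)
  have key : ∀ v w : P2, fderiv ℝ (fun q => fderiv ℝ f q v) p w = fderiv ℝ (fderiv ℝ f) p w v := by
    intro v w
    rw [fderiv_clm_apply h5 (differentiableAt_const v)]
    simp
  change fderiv ℝ (fun q => fderiv ℝ f q e') p e = fderiv ℝ (fun q => fderiv ℝ f q e) p e'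
  rw [key, key]
  exact h6 _ _

/-- real constants -/
noncomputable def cst (U : Ultrafilter P2) (r : ℝ) : KF U :=
  mkK (fun _ => r) ⟨Set.univ, isOpen_univ, Filter.univ_mem, contDiffOn_const⟩

theorem Der_cst (hU : Adapted U V0) (e : P2) (r : ℝ) : Der hU e (cst U r) = 0 := by
  rw [cst, Der_mkK]
  have h0 : (0 : KF U) = mkK (fun _ => 0)
          ⟨Set.univ, isOpen_univ, Filter.univ_mem, contDiffOn_const⟩ := rfl
  rw [h0, mkK_eq_iff]
  exact Eventually.of_forall (fun p => by simp [pd])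

theorem mkK_pos {f : P2 → ℝ} (hf) (h : 0 < mkK (U := U) f hf) :
    ∀ᶠ p in (U : Filter P2), 0 < f p := by
  have : (0 : (U : Filter P2).Germ ℝ) < ((f : P2 → ℝ) : (U : Filter P2).Germ ℝ) := h
  exact Germ.coe_pos.1 this

theorem mkK_pos' {f : P2 → ℝ} (hf) (h : ∀ᶠ p in (U : Filter P2), 0 < f p) :
    0 < mkK (U := U) f hf := by
  have : (0 : (U : Filter P2).Germ ℝ) < ((f : P2 → ℝ) : (U : Filter P2).Germ ℝ) :=
    Germ.coe_pos.2 h
  exact this

theorem exists_sqrt (a : KF U) (ha : 0 < a) : ∃ b : KF U, 0 < b ∧ b * b = a := by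
  obtain ⟨f, hf, rfl⟩ := exists_rep a
  have hpos := mkK_pos hf ha
  have hs : ∃ O : Set P2, IsOpen O ∧ O ∈ U ∧ ContDiffOn ℝ ∞ (fun p => Real.sqrt (f p)) O := by
    obtain ⟨O, h1, h2, h3⟩ := hf
    refine ⟨O ∩ {p | 0 < f p}, ?_, Filter.inter_mem h2 hpos, ?_⟩
    · exact h3.continuousOn.isOpen_inter_preimage h1 isOpen_Ioi
    · exact (h3.mono Set.inter_subset_left).sqrt (fun p hp => (ne_of_gt hp.2))
  refine ⟨mkK _ hs, ?_, ?_⟩
  · apply mkK_pos'
    filter_upwards [hpos] with p hp using Real.sqrt_pos.2 hp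
  · rw [mkK_mul, mkK_eq_iff]
    filter_upwards [hpos] with p hp using Real.mul_self_sqrt hp.le

end Run7.h793
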