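import Pool.Agent.Run7.h793.Coords
import Pool.Agent.Run7.h793.GenC

/-!
The main theorem over an ordered differential field.
-/

namespace Run7.h793

set_option linter.unusedSimpArgs false
set_option linter.unusedVariables false

variable {K : Type*} [Field K]

theorem FrameEq.swap {D1 D2 : Derivation ℤ K K} {A B al mu be ga W1 W2 : K}
    {e1 e2 e3 e4 : Fin 4 → K} (h : FrameEq D1 D2 A B al mu be ga W1 W2 e1 e2 e3 e4) :
    FrameEq D2 D1 B A al (-mu) (-be) ga W2 W1 e2 e1 e3 e4 := by
  obtain ⟨⟨h11, h22, h33, h44, h12, h13, h14, h23, h24, h34⟩, d11, d12, d13, d14, d21, d22, d23,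
    d24⟩ := h
  refine ⟨⟨h22, h11, h33, h44, ?_, h23, h24, h13, h14, h34⟩, ?_, ?_, ?_, ?_, ?_, ?_, ?_, ?_⟩
  · rw [ip_comm]; exact h12
  · intro i; rw [d22]; ring
  · intro i; rw [d21]
  · intro i; rw [d23]; ring
  · intro i; rw [d24]; ring
  · intro i; rw [d12]
  · intro i; rw [d11]; ring
  · intro i; rw [d13]; ring
  · intro i; rw [d14]; ring

theorem StrEq.swap {D1 D2 : Derivation ℤ K K} {A B al mu be ga W1 W2 la : K}
    (h : StrEq D1 D2 A B al mu be ga W1 W2 la) :
    StrEq D2 D1 B A al (-mu) (-be) ga W2 W1 la := by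
  obtain ⟨mu1, mu2, be2, be1, gauss, ricci, t1, t2, n3, n4⟩ := h
  refine ⟨?_, ?_, ?_, ?_, ?_, ?_, ?_, ?_, ?_, ?_⟩
  · rw [map_neg]; linear_combination -mu2
  · rw [map_neg]; linear_combination -mu1
  · rw [map_neg]; linear_combination -be1
  · rw [map_neg]; linear_combination -be2
  · linear_combination gauss
  · linear_combination -ricci
  · linear_combination -t2
  · linear_combination -t1
  · linear_combination n3
  · linear_combination n4

section ordered
variable [LinearOrder K] [IsStrictOrderedRing K]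

/-- If one derivative of `al` vanishes (flat normal connection, `mu`, `be` nonzero). -/
theorem s2_vanish {D1 D2 : Derivation ℤ K K} {A B al mu be W1 W2 la : K}
    (hal : 0 < al) (hmu : mu ≠ 0) (hbe : be ≠ 0) (h1 : D1 al ≠ 0) (h2 : D2 al = 0)
    (hcomm : ∀ f, D1 (D2 f) - D2 (D1 f) = -A * D1 f + B * D2 f)
    (h : StrEq D1 D2 A B al mu be 0 W1 W2 la) :
    A = 0 ∧ W2 = 0 ∧ D2 mu = 0 ∧ D2 be = 0 ∧ D2 B = 0 := by
  obtain ⟨mu1, mu2, be2, be1, gauss, ricci, t1, t2, n3, n4⟩ := h
  have hal0 : al ≠ 0 := ne_of_gt hal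
  have hW2 : W2 = 0 := by
    rw [h2] at t2
    have : al * (be * W2) = 0 := by linear_combination t2
    rcases mul_eq_zero.mp this with h3 | h3
    · exact absurd h3 hal0
    · exact (mul_eq_zero.mp h3).resolve_left hbe
  have c1 := hcomm al
  rw [h2, map_zero] at c1
  have hD2W1 : D2 W1 = A * W1 := by
    rw [hW2, map_zero] at ricci; linear_combination -ricci
  have hD2mu : D2 mu = 2 * A * mu := by
    rw [mu2, h2, hW2]; ring
  have hD2be : D2 be = 2 * A * be := by
    rw [map_zero] at be2
    rw [hW2] at be2; linear_combination be2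
  have hD2al1 : D2 (D1 al) = A * D1 al := by linear_combination -c1
  have t1' := congrArg D2 t1
  simp only [Derivation.leibniz, map_add, map_neg, map_zero, map_mul, smul_eq_mul, h2, hD2W1,
    hD2mu, hD2be, hD2al1, hW2] at t1'
  have h2c : D2 (2 : K) = 0 := der_ofNat D2 2
  have hA : A * (4 * al * D1 al) = 0 := by
    rw [h2c] at t1'
    rw [hW2] at t1
    linear_combination 3 * A * t1 - t1'
  have hA0 : A = 0 := by
    rcases mul_eq_zero.mp hA with h3 | h3
    · exact h3
    · exfalso
      have : (4 : K) ≠ 0 := by norm_num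
      exact mul_ne_zero (mul_ne_zero this hal0) h1 h3
  refine ⟨hA0, hW2, by rw [hD2mu, hA0]; ring, by rw [hD2be, hA0]; ring, ?_⟩
  have c2 := hcomm mu
  have hmu20 : D2 mu = 0 := by rw [hD2mu, hA0]; ring
  have hbe20 : D2 be = 0 := by rw [hD2be, hA0]; ring
  rw [hmu20, map_zero, hA0, mu1, hW2] at c2
  simp only [Derivation.leibniz, map_add, map_neg, map_zero, map_mul, smul_eq_mul, h2, hD2W1,
    hmu20, hbe20, hD2al1, hW2, hA0, h2c] at c2
  have : D2 B * (2 * mu) = 0 := by linear_combination -c2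
  rcases mul_eq_zero.mp this with h3 | h3
  · exact h3
  · exfalso
    exact mul_ne_zero two_ne_zero hmu h3

/-- the case `be = 0`. -/
theorem be_zero_case {D1 D2 : Derivation ℤ K K} {A B al mu W1 W2 la : K}
    (hal : 0 < al) (hmu : mu ≠ 0) (h1 : D1 al ≠ 0) (hD1la : D1 la = 0)
    (h : StrEq D1 D2 A B al mu 0 0 W1 W2 la) : False := by
  obtain ⟨mu1, mu2, be2, be1, gauss, ricci, t1, t2, n3, n4⟩ := h
  have hal0 : al ≠ 0 := ne_of_gt hal
  rw [map_zero] at be1 be2
  have e1 : mu = -2 * al := by
    have : (2 * al + mu) * D1 al = 0 := by linear_combination t1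
    rcases mul_eq_zero.mp this with h3 | h3
    · linear_combination h3
    · exact absurd h3 h1
  have hfour : (4 : K) ≠ 0 := by norm_num
  have e2 : D2 al = 0 := by
    have : (4 * al) * D2 al = 0 := by rw [e1] at t2; linear_combination -t2
    rcases mul_eq_zero.mp this with h3 | h3
    · exact absurd h3 (mul_ne_zero hfour hal0)
    · exact h3
  have eW2 : W2 = 0 := by
    have : al * W2 = 0 := by rw [e1, map_zero] at be2; linear_combination -be2
    exact (mul_eq_zero.mp this).resolve_left hal0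
  have eW1 : W1 = 0 := by
    have : (3 * al) * W1 = 0 := by rw [e1, map_zero] at be1; linear_combination -be1
    have h3 : (3 : K) ≠ 0 := by norm_num
    exact (mul_eq_zero.mp this).resolve_left (mul_ne_zero h3 hal0)
  have h2c : D1 (2 : K) = 0 := der_ofNat D1 2
  have h2c' : D2 (2 : K) = 0 := der_ofNat D2 2
  have eA : A = 0 := by
    rw [e1] at mu2
    simp only [Derivation.leibniz, map_neg, smul_eq_mul, e2, eW2, eW1, h2c', map_zero] at mu2
    have : (4 * al) * A = 0 := by linear_combination mu2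
    exact (mul_eq_zero.mp this).resolve_left (mul_ne_zero hfour hal0)
  have eB : 4 * al * B = 3 * D1 al := by
    rw [e1] at mu1
    simp only [Derivation.leibniz, map_neg, smul_eq_mul, e2, eW2, eW1, h2c, map_zero] at mu1
    linear_combination mu1
  rw [eA, e1, map_zero] at gauss
  have eB' := congrArg D1 eB
  have h3c : D1 (3 : K) = 0 := der_ofNat D1 3
  have h4c : D1 (4 : K) = 0 := der_ofNat D1 4
  simp only [Derivation.leibniz, map_add, map_neg, map_zero, smul_eq_mul, h3c, h4c] at eB'
  rw [eA, e1, eW1, eW2, e2, map_zero] at n3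
  -- D1B = B^2 - 3 al^2
  have g : D1 B = B ^ 2 - 3 * al ^ 2 := by linear_combination gauss
  obtain ⟨p, hp⟩ : ∃ p, p = D1 al := ⟨_, rfl⟩
  rw [← hp] at eB eB' n3 h1
  -- p' from n3
  have n3' : D1 p = 10 * al ^ 3 + B * p - la * al := by linear_combination n3
  rw [g, n3'] at eB'
  -- eB' : 4 al (B^2 - 3 al^2) + 4 B p = 3 (10 al^3 + B p - la al)
  have eB3 : B * (4 * al) = 3 * p := by linear_combination eB
  have q1 : 16 * al ^ 2 * (4 * al * (B ^ 2 - 3 * al ^ 2) + 4 * B * p - 3 * (10 * al ^ 3 + B * p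
      - la * al)) = 0 := by
    linear_combination (16 * al ^ 2) * eB'
  have q2 : (4 * al) * (12 * p ^ 2 - 168 * al ^ 4 + 12 * la * al ^ 2) = 0 := by
    linear_combination q1 - (4 * al * (B * (4 * al) + 3 * p) + 4 * al * p) * eB3
  have q3 : p ^ 2 = 14 * al ^ 4 - la * al ^ 2 := by
    have := (mul_eq_zero.mp q2).resolve_left (mul_ne_zero hfour hal0)
    have h12 : (12 : K) ≠ 0 := by norm_num
    exact mul_left_cancel₀ h12 (by linear_combination this)
  have h14c : D1 (14 : K) = 0 := der_ofNat D1 14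
  have q4 : 2 * (p * (10 * al ^ 3 + B * p - la * al)) = 14 * (4 * (al ^ 3 * p))
      - la * (2 * (al * p)) := by
    have := congrArg D1 q3
    simp only [Derivation.leibniz, Derivation.leibniz_pow, map_add, map_sub, map_neg, map_zero,
      smul_eq_mul, nsmul_eq_mul, h14c, hD1la, ← hp, n3'] at this
    push_cast at this
    norm_num at this
    linear_combination this
  have q5 : p ^ 2 = 24 * al ^ 4 := by
    have h6 : (6 * p) ≠ 0 := mul_ne_zero (by norm_num) h1
    refine mul_left_cancel₀ h6 ?_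
    linear_combination 4 * al * q4 - 2 * p ^ 2 * eB3
  have q6 : la = -10 * al ^ 2 := by
    refine mul_left_cancel₀ (pow_ne_zero 2 hal0) ?_
    linear_combination q3 - q5
  have q7 := congrArg D1 q6
  have h10c : D1 (10 : K) = 0 := der_ofNat D1 10
  simp only [Derivation.leibniz, Derivation.leibniz_pow, map_add, map_sub, map_neg, map_zero,
      smul_eq_mul, nsmul_eq_mul, h10c, hD1la, ← hp] at q7
  push_cast at q7
  norm_num at q7
  rcases q7 with h3 | h3
  · exact hal0 h3
  · exact h1 h3

end ordered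

end Run7.h793
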