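import Pool.Agent.Run7.h793.MainK2

/-!
The main theorem over an ordered differential field, in coordinates.
-/

namespace Run7.h793

set_option linter.unusedSimpArgs false
set_option linter.unusedVariables false

variable {K : Type*} [Field K]

/-- flatness in an adapted frame -/
theorem flat_of {du dv D1 D2 : Derivation ℤ K K} {E F G a b c d W : K}
    (huv : ∀ f, du (dv f) = dv (du f))
    (hW : W ≠ 0) (hdet : (a * d - b * c) * W = 1) (hG : W ^ 2 * (a ^ 2 + c ^ 2) = G)
    (hF : W ^ 2 * (a * b + c * d) = -F) (hE : W ^ 2 * (b ^ 2 + d ^ 2) = E)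
    (hD1 : ∀ f, D1 f = a * du f + b * dv f)
    (hD2 : ∀ f, D2 f = c * du f + d * dv f) {A B al mu be ga W1 W2 : K} {X e3 e4 : Fin 4 → K}
    (hFr : FrameEq D1 D2 A B al mu be ga W1 W2 (fun i => D1 (X i)) (fun i => D2 (X i)) e3 e4)
    (hflat : ∀ ξ η : Fin 4 → K, ip (fun i => du (X i)) ξ = 0 → ip (fun i => dv (X i)) ξ = 0 →
      ip (fun i => du (X i)) η = 0 → ip (fun i => dv (X i)) η = 0 →
      G * (ip (fun i => du (du (X i))) ξ * ip (fun i => du (dv (X i))) η
          - ip (fun i => du (dv (X i))) ξ * ip (fun i => du (du (X i))) η)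
        - F * (ip (fun i => du (du (X i))) ξ * ip (fun i => dv (dv (X i))) η
          - ip (fun i => dv (dv (X i))) ξ * ip (fun i => du (du (X i))) η)
        + E * (ip (fun i => du (dv (X i))) ξ * ip (fun i => dv (dv (X i))) η
          - ip (fun i => dv (dv (X i))) ξ * ip (fun i => du (dv (X i))) η) = 0) :
    2 * (mu * ga) = 0 := by
  obtain ⟨⟨h11, h22, h33, h44, h12, h13, h14, h23, h24, h34⟩, d11, d12, d13, d14, d21, d22, d23,
    d24⟩ := hFr
  have hu : ∀ f, du f = W * (d * D1 f - b * D2 f) := by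
    intro f; rw [hD1, hD2]; linear_combination (-du f) * hdet
  have hv : ∀ f, dv f = W * (-c * D1 f + a * D2 f) := by
    intro f; rw [hD1, hD2]; linear_combination (-dv f) * hdet
  have t : ∀ ξ : Fin 4 → K, ip (fun i => D1 (X i)) ξ = 0 → ip (fun i => D2 (X i)) ξ = 0 →
      ip (fun i => du (X i)) ξ = 0 ∧ ip (fun i => dv (X i)) ξ = 0 := by
    intro ξ k1 k2
    unfold ip at *
    constructor
    · simp only [hu]; linear_combination W * d * k1 - W * b * k2
    · simp only [hv]; linear_combination (-W * c) * k1 + W * a * k2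
  obtain ⟨p3, q3⟩ := t e3 h13 h23
  obtain ⟨p4, q4⟩ := t e4 h14 h24
  have hfl := hflat e3 e4 p3 q3 p4 q4
  -- second fundamental form in the frame
  have s : ∀ ξ : Fin 4 → K, ip (fun i => du (X i)) ξ = 0 → ip (fun i => dv (X i)) ξ = 0 →
      ip (fun i => D1 (D1 (X i))) ξ = a ^ 2 * ip (fun i => du (du (X i))) ξ
        + 2 * a * b * ip (fun i => du (dv (X i))) ξ + b ^ 2 * ip (fun i => dv (dv (X i))) ξ ∧
      ip (fun i => D1 (D2 (X i))) ξ = a * c * ip (fun i => du (du (X i))) ξ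
        + (a * d + b * c) * ip (fun i => du (dv (X i))) ξ
        + b * d * ip (fun i => dv (dv (X i))) ξ ∧
      ip (fun i => D2 (D2 (X i))) ξ = c ^ 2 * ip (fun i => du (du (X i))) ξ
        + 2 * c * d * ip (fun i => du (dv (X i))) ξ + d ^ 2 * ip (fun i => dv (dv (X i))) ξ := by
    intro ξ k1 k2
    unfold ip at *
    refine ⟨?_, ?_, ?_⟩
    · simp only [hD1, map_add, Derivation.leibniz, smul_eq_mul, ← huv]
      linear_combination (a * du a + b * dv a) * k1 + (a * du b + b * dv b) * k2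
    · simp only [hD1, hD2, map_add, Derivation.leibniz, smul_eq_mul, ← huv]
      linear_combination (a * du c + b * dv c) * k1 + (a * du d + b * dv d) * k2
    · simp only [hD2, map_add, Derivation.leibniz, smul_eq_mul, ← huv]
      linear_combination (c * du c + d * dv c) * k1 + (c * du d + d * dv d) * k2
  obtain ⟨s3a, s3b, s3c⟩ := s e3 p3 q3
  obtain ⟨s4a, s4b, s4c⟩ := s e4 p4 q4
  have v3a : ip (fun i => D1 (D1 (X i))) e3 = al + mu := by
    unfold ip at *; simp only [d11]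
    linear_combination A * h23 + (al + mu) * h33 + be * h34
  have v3b : ip (fun i => D1 (D2 (X i))) e3 = 0 := by
    unfold ip at *; simp only [d12]
    linear_combination (-A) * h13 + ga * h34
  have v3c : ip (fun i => D2 (D2 (X i))) e3 = al - mu := by
    unfold ip at *; simp only [d22]
    linear_combination B * h13 + (al - mu) * h33 - be * h34
  have v4a : ip (fun i => D1 (D1 (X i))) e4 = be := by
    unfold ip at *; simp only [d11]
    linear_combination A * h24 + (al + mu) * h34 + be * h44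
  have v4b : ip (fun i => D1 (D2 (X i))) e4 = ga := by
    unfold ip at *; simp only [d12]
    linear_combination (-A) * h14 + ga * h44
  have v4c : ip (fun i => D2 (D2 (X i))) e4 = -be := by
    unfold ip at *; simp only [d22]
    linear_combination B * h14 + (al - mu) * h34 - be * h44
  rw [v3a] at s3a
  rw [v3b] at s3b
  rw [v3c] at s3c
  rw [v4a] at s4a
  rw [v4b] at s4b
  rw [v4c] at s4c
  obtain ⟨L3, hL3⟩ : ∃ t, t = ip (fun i => du (du (X i))) e3 := ⟨_, rfl⟩
  obtain ⟨M3, hM3⟩ : ∃ t, t = ip (fun i => du (dv (X i))) e3 := ⟨_, rfl⟩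
  obtain ⟨N3, hN3⟩ : ∃ t, t = ip (fun i => dv (dv (X i))) e3 := ⟨_, rfl⟩
  obtain ⟨L4, hL4⟩ : ∃ t, t = ip (fun i => du (du (X i))) e4 := ⟨_, rfl⟩
  obtain ⟨M4, hM4⟩ : ∃ t, t = ip (fun i => du (dv (X i))) e4 := ⟨_, rfl⟩
  obtain ⟨N4, hN4⟩ : ∃ t, t = ip (fun i => dv (dv (X i))) e4 := ⟨_, rfl⟩
  rw [← hL3, ← hM3, ← hN3] at s3a s3b s3c
  rw [← hL4, ← hM4, ← hN4] at s4a s4b s4c
  rw [← hL3, ← hM3, ← hN3, ← hL4, ← hM4, ← hN4] at hfl
  have key : (al + mu) * ga - 0 * be + (0 * (-be) - (al - mu) * ga)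
      = (a * d - b * c) * ((a ^ 2 + c ^ 2) * (L3 * M4 - M3 * L4)
        + (a * b + c * d) * (L3 * N4 - N3 * L4) + (b ^ 2 + d ^ 2) * (M3 * N4 - N3 * M4)) := by
    rw [s3a, s3c, s4a, s4b]
    have e5 : (0 : K) * be = (a * c * L3 + (a * d + b * c) * M3 + b * d * N3) * be := by
      rw [← s3b]
    have e6 : (0 : K) * -be = (a * c * L3 + (a * d + b * c) * M3 + b * d * N3) * (-be) := by
      rw [← s3b]
    rw [s4a] at e5
    rw [s4c] at e6
    rw [e5]
    have e7 : (0 : K) * -(a ^ 2 * L4 + 2 * a * b * M4 + b ^ 2 * N4)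
        = (a * c * L3 + (a * d + b * c) * M3 + b * d * N3)
          * (c ^ 2 * L4 + 2 * c * d * M4 + d ^ 2 * N4) := by
      rw [← s3b]; ring
    rw [e7]
    ring
  have k2 : W ^ 2 * ((a ^ 2 + c ^ 2) * (L3 * M4 - M3 * L4)
        + (a * b + c * d) * (L3 * N4 - N3 * L4) + (b ^ 2 + d ^ 2) * (M3 * N4 - N3 * M4)) = 0 := by
    linear_combination hfl + (L3 * M4 - M3 * L4) * hG + (L3 * N4 - N3 * L4) * hF
      + (M3 * N4 - N3 * M4) * hE
  have k3 := (mul_eq_zero.mp k2).resolve_left (pow_ne_zero 2 hW)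
  rw [k3] at key
  linear_combination key

section ordered
variable [LinearOrder K] [IsStrictOrderedRing K]

theorem main_K (hsqrt : ∀ a : K, 0 < a → ∃ b, 0 < b ∧ b * b = a)
    {du dv : Derivation ℤ K K} (huv : ∀ f, du (dv f) = dv (du f)) {X H : Fin 4 → K}
    {E F G W la : K} (hW : 0 < W)
    (hEd : E = ip (fun i => du (X i)) (fun i => du (X i)))
    (hFd : F = ip (fun i => du (X i)) (fun i => dv (X i)))
    (hGd : G = ip (fun i => dv (X i)) (fun i => dv (X i)))
    (hEG : E * G - F ^ 2 = W ^ 2)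
    (hX : ∀ i, LBK du dv E F G W (X i) = -2 * H i)
    (hH : ∀ i, LBK du dv E F G W (H i) = la * H i)
    (hula : du la = 0) (hvla : dv la = 0)
    (hflat : ∀ ξ η : Fin 4 → K, ip (fun i => du (X i)) ξ = 0 → ip (fun i => dv (X i)) ξ = 0 →
      ip (fun i => du (X i)) η = 0 → ip (fun i => dv (X i)) η = 0 →
      G * (ip (fun i => du (du (X i))) ξ * ip (fun i => du (dv (X i))) η
          - ip (fun i => du (dv (X i))) ξ * ip (fun i => du (du (X i))) η)
        - F * (ip (fun i => du (du (X i))) ξ * ip (fun i => dv (dv (X i))) η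
          - ip (fun i => dv (dv (X i))) ξ * ip (fun i => du (du (X i))) η)
        + E * (ip (fun i => du (dv (X i))) ξ * ip (fun i => dv (dv (X i))) η
          - ip (fun i => dv (dv (X i))) ξ * ip (fun i => du (dv (X i))) η) = 0) :
    (du (ip H H) = 0 ∧ dv (ip H H) = 0) ∨
      ∃ (u v c : Fin 4 → K) (p q r : K), RotData du dv X u v c p q r := by
  by_cases hne : H = 0
  · left
    subst hne
    have : ip (0 : Fin 4 → K) 0 = 0 := by unfold ip; simp
    rw [this, map_zero, map_zero]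
    exact ⟨rfl, rfl⟩
  have hW0 : W ≠ 0 := ne_of_gt hW
  have hE0 : 0 ≤ E := by rw [hEd]; exact ip_self_nonneg _
  have hEpos : 0 < E := by
    rcases hE0.lt_or_eq with h | h
    · exact h
    · exfalso
      rw [← h] at hEG
      have h1 : 0 < W ^ 2 := by positivity
      have h2 := sq_nonneg F
      linarith
  obtain ⟨L, hL⟩ : ∃ t, t = ip (fun i => du (du (X i))) H := ⟨_, rfl⟩
  obtain ⟨M, hM⟩ : ∃ t, t = ip (fun i => du (dv (X i))) H := ⟨_, rfl⟩
  obtain ⟨N, hN⟩ : ∃ t, t = ip (fun i => dv (dv (X i))) H := ⟨_, rfl⟩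
  obtain ⟨a, b, c, d, hdet, hG, hF, hE, o1, o2, o3, hdiag⟩ :=
    exists_coframe hsqrt L M N hEpos hW hEG
  obtain ⟨A, hA⟩ : ∃ A, A = -(du (W * c) + dv (W * d)) / W := ⟨_, rfl⟩
  obtain ⟨B, hB⟩ : ∃ B, B = -(du (W * a) + dv (W * b)) / W := ⟨_, rfl⟩
  obtain ⟨D1, hD1⟩ : ∃ D1 : Derivation ℤ K K, ∀ f, D1 f = a * du f + b * dv f :=
    ⟨a • du + b • dv, fun f => by simp⟩
  obtain ⟨D2, hD2⟩ : ∃ D2 : Derivation ℤ K K, ∀ f, D2 f = c * du f + d * dv f :=
    ⟨c • du + d • dv, fun f => by simp⟩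
  have hcomm := fun f => comm_of huv hW0 hdet hA hB hD1 hD2 f
  have hlap := fun f => lap_of hW0 hG hF hE hA hB hD1 hD2 f
  have h11 : ip (fun i => D1 (X i)) (fun i => D1 (X i)) = 1 := by
    rw [← o1, hEd, hFd, hGd]; unfold ip; simp only [hD1]; ring
  have h22 : ip (fun i => D2 (X i)) (fun i => D2 (X i)) = 1 := by
    rw [← o3, hEd, hFd, hGd]; unfold ip; simp only [hD2]; ring
  have h12 : ip (fun i => D1 (X i)) (fun i => D2 (X i)) = 0 := by
    rw [← o2, hEd, hFd, hGd]; unfold ip; simp only [hD1, hD2]; ring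
  have hHH : ∀ i, 2 * H i = D1 (D1 (X i)) + D2 (D2 (X i)) - A * D2 (X i) - B * D1 (X i) := by
    intro i
    have h1 := hX i
    rw [hlap] at h1
    linear_combination h1
  -- normality of H
  have i1 := congrArg D1 h11
  have i2 := congrArg D2 h11
  have i3 := congrArg D1 h22
  have i4 := congrArg D2 h22
  have i5 := congrArg D1 h12
  have i6 := congrArg D2 h12
  rw [D_ip] at i1 i2 i3 i4 i5 i6
  simp only [map_zero, Derivation.map_one_eq_zero] at i1 i2 i3 i4 i5 i6
  have two : (2 : K) ≠ 0 := two_ne_zero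
  have hc := fun i => hcomm (X i)
  have k1 : ip (fun i => D1 (X i)) H = 0 := by
    refine mul_left_cancel₀ (mul_ne_zero two two) ?_
    unfold ip at *
    linear_combination 2 * (D1 (X 0) * hHH 0 + D1 (X 1) * hHH 1 + D1 (X 2) * hHH 2
      + D1 (X 3) * hHH 3) + i1 + 2 * i6 - i3 - 2 * A * h12 - 2 * B * h11 + 2 * (D2 (X 0) * hc 0
      + D2 (X 1) * hc 1 + D2 (X 2) * hc 2 + D2 (X 3) * hc 3) + 2 * B * h22 - 2 * A * h12
  have k2 : ip (fun i => D2 (X i)) H = 0 := by
    refine mul_left_cancel₀ (mul_ne_zero two two) ?_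
    unfold ip at *
    linear_combination 2 * (D2 (X 0) * hHH 0 + D2 (X 1) * hHH 1 + D2 (X 2) * hHH 2
      + D2 (X 3) * hHH 3) + i4 + 2 * i5 - i2 - 2 * A * h22 - 2 * B * h12 - 2 * (D1 (X 0) * hc 0
      + D1 (X 1) * hc 1 + D1 (X 2) * hc 2 + D1 (X 3) * hc 3) + 2 * A * h11 - 2 * B * h12
  have ku : ip (fun i => du (X i)) H = 0 := by
    unfold ip at *
    simp only [hD1, hD2] at k1 k2
    linear_combination W * d * k1 - W * b * k2 - (du (X 0) * H 0 + du (X 1) * H 1
      + du (X 2) * H 2 + du (X 3) * H 3) * hdet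
  have kv : ip (fun i => dv (X i)) H = 0 := by
    unfold ip at *
    simp only [hD1, hD2] at k1 k2
    linear_combination (-W * c) * k1 + W * a * k2 - (dv (X 0) * H 0 + dv (X 1) * H 1
      + dv (X 2) * H 2 + dv (X 3) * H 3) * hdet
  have hdg : ip (fun i => D1 (D2 (X i))) H = 0 := by
    rw [← hdiag, hL, hM, hN]
    unfold ip at *
    simp only [hD1, hD2, map_add, Derivation.leibniz, smul_eq_mul, ← huv]
    linear_combination (a * du c + b * dv c) * ku + (a * du d + b * dv d) * kv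
  obtain ⟨e3, e4, al, mu, be, ga, W1, W2, hal, hHe, hFr⟩ :=
    exists_frame hsqrt hcomm h11 h22 h12 hHH hdg hne
  have hal0 : al ≠ 0 := ne_of_gt hal
  have hSt : StrEq D1 D2 A B al mu be ga W1 W2 la := by
    refine StrEq.of_frame hal0 hcomm hFr ?_
    intro i
    have h1 := hH i
    rw [hlap, hHe] at h1
    linear_combination -h1
  have hmg : mu * ga = 0 := by
    have := flat_of huv hW0 hdet hG hF hE hD1 hD2 hFr hflat
    exact (mul_eq_zero.mp this).resolve_left two
  have h1la : D1 la = 0 := by rw [hD1, hula, hvla]; ring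
  have h2la : D2 la = 0 := by rw [hD2, hula, hvla]; ring
  rcases cases_K hal h1la h2la hcomm hSt hmg with ⟨c1, c2⟩ | ⟨hmu, hbe, hga, c1, c2⟩ |
      ⟨hmu, hbe, hga, c1, c2⟩
  · left
    have hHHal : ip H H = al ^ 2 := by
      have h33 := hFr.on.h33
      unfold ip at *
      simp only [hHe]
      linear_combination al ^ 2 * h33
    apply du_dv_zero hdet hD1 hD2
    · rw [hHHal, Derivation.leibniz_pow, c1]; simp
    · rw [hHHal, Derivation.leibniz_pow, c2]; simp
  · right
    subst hga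
    obtain ⟨rA, rW2, rmu, rbe, rB⟩ := s2_vanish hal hmu hbe c1 c2 hcomm hSt
    obtain ⟨v, y, r, hr⟩ := rot_of_frame hsqrt hbe hFr hSt rA rW2 c2 rmu rbe rB
    obtain ⟨p, q, h⟩ := hr.change hdet hD1 hD2
    exact ⟨_, _, _, _, _, _, h⟩
  · right
    subst hga
    have hcomm' : ∀ f, D2 (D1 f) - D1 (D2 f) = -B * D2 f + A * D1 f := by
      intro f; linear_combination -hcomm f
    obtain ⟨rA, rW2, rmu, rbe, rB⟩ := s2_vanish hal (neg_ne_zero.mpr hmu) (neg_ne_zero.mpr hbe)
      c2 c1 hcomm' hSt.swap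
    obtain ⟨v, y, r, hr⟩ := rot_of_frame hsqrt (neg_ne_zero.mpr hbe) hFr.swap hSt.swap rA rW2 c1
      rmu rbe rB
    have hdet' : (c * b - d * a) * (-W) = 1 := by linear_combination hdet
    obtain ⟨p, q, h⟩ := hr.change hdet' hD2 hD1
    exact ⟨_, _, _, _, _, _, h⟩

end ordered

end Run7.h793
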