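import Mathlib

namespace Run7.h793

variable {K : Type*} [Field K]

def f9_0 (c c1 c2 L : K) : K :=
  8*c^8*L - 16*c^8 - 34*c^6*L + 116*c^6 + 32*c^5*c1*L - 32*c^5*c1 - 156*c^4*L - 120*c^4 - 12*c^3*c1*L + 56*c^3*c1 - 8*c^3*c2*L + 32*c^3*c2 + 32*c^2*c1^2*L - 135*c^2*L - 630*c^2 - 78*c*c1*L - 300*c*c1 - 18*c*c2*L - 180*c*c2 + 24*c1^2*L + 240*c1^2

def f9_1 (c c1 c2 L : K) : K :=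
  - 62*c^7*L + 332*c^7 - 444*c^5*L - 728*c^5 + 72*c^4*c1*L + 384*c^4*c1 - 24*c^4*c2*L + 32*c^4*c2 + 96*c^3*c1^2 - 601*c^3*L - 2458*c^3 - 150*c^2*c1*L - 1316*c^2*c1 - 90*c^2*c2*L - 452*c^2*c2 + 244*c*c1^2*L + 648*c*c1^2 + 8*c*c1*c2*L - 144*c*c1*c2 - 90*c*L + 540*c - 32*c1^3*L + 320*c1^3 - 108*c1*L + 648*c1 - 36*c2*L + 216*c2

def f9_2 (c c1 c2 L : K) : K :=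
  4*c^8*L - 8*c^8 - 580*c^6*L - 1064*c^6 + 244*c^5*c1*L - 312*c^5*c1 - 16*c^5*c2*L + 32*c^5*c2 + 16*c^4*c1^2*L - 32*c^4*c1^2 - 1310*c^4*L - 2844*c^4 - 214*c^3*c1*L - 2100*c^3*c1 - 182*c^3*c2*L - 220*c^3*c2 + 502*c^2*c1^2*L - 236*c^2*c1^2 + 32*c^2*c1*c2*L - 160*c^2*c1*c2 - 414*c^2*L + 1932*c^2 - 32*c*c1^3*L + 256*c*c1^3 - 402*c*c1*L + 2604*c*c1 - 162*c*c2*L + 636*c*c2 + 48*c1^2*L + 192*c1^2 - 36*c1*c2*L + 120*c1*c2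

def f9_3 (c c1 c2 L : K) : K :=
  - 432*c^7*L + 304*c^7 + 64*c^6*c1*L - 128*c^6*c1 - 1558*c^5*L - 1100*c^5 - 158*c^4*c1*L - 436*c^4*c1 - 182*c^4*c2*L + 132*c^4*c2 + 286*c^3*c1^2*L - 300*c^3*c1^2 + 24*c^3*c1*c2*L - 48*c^3*c1*c2 - 808*c^3*L + 1512*c^3 - 32*c^2*c1^3*L + 64*c^2*c1^3 - 432*c^2*c1*L + 2528*c^2*c1 - 266*c^2*c2*L + 748*c^2*c2 + 324*c*c1^2*L - 40*c*c1^2 - 96*c*c1*c2*L + 224*c*c1*c2 - 18*c*L + 108*c + 44*c1^3*L - 8*c1^3 - 8*c1^2*c2*L + 16*c1^2*c2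

def f9_4 (c c1 c2 L : K) : K :=
  - 92*c^8*L + 184*c^8 - 1075*c^6*L - 734*c^6 + 144*c^5*c1*L - 408*c^5*c1 - 72*c^5*c2*L + 144*c^5*c2 + 100*c^4*c1^2*L - 200*c^4*c1^2 - 1028*c^4*L - 936*c^4 - 184*c^3*c1*L - 576*c^3*c1 - 198*c^3*c2*L + 484*c^3*c2 + 500*c^2*c1^2*L - 1160*c^2*c1^2 - 68*c^2*c1*c2*L + 152*c^2*c1*c2 - 87*c^2*L + 354*c^2 + 100*c*c1^3*L - 216*c*c1^3 - 8*c*c1^2*c2*L + 16*c*c1^2*c2 - 24*c*c1*L + 96*c*c1 + 8*c1^4*L - 16*c1^4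

def f9_5 (c c1 c2 L : K) : K :=
  - 497*c^7*L + 102*c^7 + 64*c^6*c1*L - 128*c^6*c1 - 942*c^5*L - 1308*c^5 - 92*c^4*c1*L - 872*c^4*c1 - 74*c^4*c2*L + 156*c^4*c2 + 204*c^3*c1^2*L - 568*c^3*c1^2 - 8*c^3*c1*c2*L + 16*c^3*c1*c2 - 151*c^3*L + 402*c^3 + 24*c^2*c1^3*L - 48*c^2*c1^3 - 74*c^2*c1*L + 228*c^2*c1

def f9_6 (c c1 c2 L : K) : K :=
  - 104*c^8*L + 208*c^8 - 554*c^6*L - 428*c^6 - 6*c^5*c1*L - 188*c^5*c1 - 16*c^5*c2*L + 32*c^5*c2 + 28*c^4*c1^2*L - 56*c^4*c1^2 - 114*c^4*L + 156*c^4 - 86*c^3*c1*L + 220*c^3*c1 - 2*c^2*c1^2*L + 4*c^2*c1^2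

def f9_7 (c c1 c2 L : K) : K :=
  - 196*c^7*L + 64*c^7 + 8*c^6*c1*L - 16*c^6*c1 - 28*c^5*L - 56*c^5 - 42*c^4*c1*L + 100*c^4*c1 - 2*c^3*c1^2*L + 4*c^3*c1^2

def f9_8 (c c1 c2 L : K) : K :=
  - 32*c^8*L + 64*c^8 + 7*c^6*L - 74*c^6 - 6*c^5*c1*L + 12*c^5*c1

def f9_9 (c c1 c2 L : K) : K :=
  3*c^7*L - 18*c^7

def csp (n c c1 c2 L : K) : K :=
  3*n^5*c^2 + 2*n^4*c + 10*n^3*c^2 + 4*n^2*c1 + 11*n*c^2 - 12*n + 14*c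

def csq (n c c1 c2 L : K) : K :=
  - 2*n^3*c^2 - 18*n^2*c - 4*n^2*c1 + 18*n*c^2 - 12*n + 14*c

def csr (n c c1 c2 L : K) : K :=
  - 2*n^6*c^3*L + 4*n^6*c^3 - 4*n^5*c^2*L + 8*n^5*c^2 - 12*n^4*c^3*L + 24*n^4*c^3 - 2*n^4*c*L + 4*n^4*c - 24*n^3*c^2*L + 16*n^3*c^2 - 10*n^2*c^3*L + 20*n^2*c^3 - 12*n^2*c*L - 88*n^2*c - 32*n^2*c1 - 20*n*c^2*L + 120*n*c^2 - 48*n - 10*c*L + 68*c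

def cdp (n c c1 c2 L : K) : K :=
  - n^8*c^3 - 3*n^7*c^4 - 3*n^7*c^2 - 13*n^6*c^3 - 10*n^6*c^2*c1 - 2*n^6*c - 18*n^5*c^4 - 18*n^5*c^2 - 18*n^5*c*c1 - 4*n^5*c*c2 + 4*n^5*c1^2 - 59*n^4*c^3 - 14*n^4*c^2*c1 - 12*n^4*c - 16*n^4*c1 - 4*n^4*c2 - 15*n^3*c^4 - 39*n^3*c^2 - 34*n^3*c*c1 - 55*n^2*c^3 + 18*n^2*c - 28*n^2*c1 - 64*n*c^2 + 24*n - 28*c

def cdq (n c c1 c2 L : K) : K :=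
  4*n^6*c^3 + 10*n^5*c^2 - 14*n^4*c^3 + 2*n^4*c - 4*n^4*c1 - 8*n^3*c*c1 - 26*n^2*c^3 + 30*n^2*c - 12*n^2*c1 - 50*n*c^2 + 24*n - 28*c

def cdr (n c c1 c2 L : K) : K :=
  - 2*n^6*c^3*L + 4*n^6*c^3 + 6*n^5*c^2*L - 44*n^5*c^2 + 12*n^5*c*c1*L - 24*n^5*c*c1 + 8*n^4*c^3*L - 16*n^4*c^3 + 8*n^4*c*L + 12*n^4*c1*L - 24*n^4*c1 + 36*n^3*c^2*L - 184*n^3*c^2 + 12*n^3*c*c1*L - 24*n^3*c*c1 + 10*n^2*c^3*L - 20*n^2*c^3 + 28*n^2*c*L - 8*n^2*c + 12*n^2*c1*L - 56*n^2*c1 + 30*n*c^2*L - 172*n*c^2 + 96*n + 20*c*L - 136*c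

def cgp (n c c1 c2 L : K) : K :=
  - n^7*c^3 + 3*n^6*c^4 - 3*n^6*c^2 + 19*n^5*c^3 + 2*n^5*c^2*c1 - 2*n^5*c + 6*n^4*c^4 + 32*n^4*c^2 + 10*n^4*c*c1 - 4*n^4*c*c2 + 4*n^4*c1^2 + 33*n^3*c^3 - 2*n^3*c^2*c1 + 12*n^3*c - 4*n^3*c2 + 3*n^2*c^4 + 81*n^2*c^2 - 6*n^2*c*c1 + 5*n*c^3 + 70*n*c - 12*n*c1 + 6*c^2 + 24

def cgq (n c c1 c2 L : K) : K :=
  4*n^5*c^3 + 10*n^4*c^2 + 14*n^3*c^3 + 2*n^3*c - 4*n^3*c1 + 56*n^2*c^2 - 8*n^2*c*c1 + 2*n*c^3 + 58*n*c - 12*n*c1 + 6*c^2 + 24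

def cgr (n c c1 c2 L : K) : K :=
  - 6*n^5*c^3*L + 12*n^5*c^3 - 22*n^4*c^2*L + 28*n^4*c^2 + 4*n^4*c*c1*L - 8*n^4*c*c1 - 8*n^3*c^3*L + 16*n^3*c^3 - 28*n^3*c*L + 104*n^3*c + 4*n^3*c1*L - 8*n^3*c1 - 24*n^2*c^2*L + 80*n^2*c^2 + 4*n^2*c*c1*L - 8*n^2*c*c1 - 12*n^2*L + 72*n^2 - 2*n*c^3*L + 4*n*c^3 - 28*n*c*L + 232*n*c + 4*n*c1*L - 40*n*c1 - 2*c^2*L + 20*c^2 - 12*L + 168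


end Run7.h793
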