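import Pool.Agent.Run7.h793.Geometry

/-!
Transfer of the rotational data from germs to an open set.
-/

namespace Run7.h793

open Filter Topology
open scoped ContDiff RealInnerProductSpace

variable {U : Ultrafilter P2} {V0 Ω : Set P2} {x : P2 → E4}

/-- filter of sets containing an open member of `U` -/
def OF (U : Ultrafilter P2) : Filter P2 where
  sets := {s | ∃ N, IsOpen N ∧ N ∈ U ∧ N ⊆ s}
  univ_sets := ⟨Set.univ, isOpen_univ, Filter.univ_mem, fun _ _ => trivial⟩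
  sets_of_superset := by
    rintro s t ⟨O, h1, h2, h3⟩ hst
    exact ⟨O, h1, h2, h3.trans hst⟩
  inter_sets := by
    rintro s t ⟨O, h1, h2, h3⟩ ⟨O', h1', h2', h3'⟩
    exact ⟨O ∩ O', h1.inter h1', Filter.inter_mem h2 h2', fun x hx => ⟨h3 hx.1, h3' hx.2⟩⟩

theorem eventually_OF {P : P2 → Prop} : (∀ᶠ p in OF U, P p) ↔
    ∃ N, IsOpen N ∧ N ∈ U ∧ ∀ p ∈ N, P p := Iff.rfl

/-- smooth on an open member -/
def Sm (U : Ultrafilter P2) (f : P2 → ℝ) : Prop :=
  ∃ O : Set P2, IsOpen O ∧ O ∈ U ∧ ContDiffOn ℝ ∞ f O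

theorem Sm.mul {f g : P2 → ℝ} (hf : Sm U f) (hg : Sm U g) : Sm U (fun p => f p * g p) :=
  mul_smooth hf hg

theorem Sm.add {f g : P2 → ℝ} (hf : Sm U f) (hg : Sm U g) : Sm U (fun p => f p + g p) :=
  add_smooth hf hg

theorem Sm.sub {f g : P2 → ℝ} (hf : Sm U f) (hg : Sm U g) : Sm U (fun p => f p - g p) := by
  obtain ⟨O, h1, h2, h3⟩ := hf
  obtain ⟨O', h1', h2', h3'⟩ := hg
  exact ⟨O ∩ O', h1.inter h1', Filter.inter_mem h2 h2',
      (h3.mono Set.inter_subset_left).sub (h3'.mono Set.inter_subset_right)⟩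

theorem Sm.eventually {f : P2 → ℝ} (hf : Sm U f) :
    ∀ᶠ p in OF U, DifferentiableAt ℝ f p := by
  obtain ⟨O, h1, h2, h3⟩ := hf
  exact ⟨O, h1, h2, fun p hp => diffAt h1 h3 hp⟩

theorem rep_eq_OF (hU : Adapted U V0) {a b : KF U} {f g : P2 → ℝ} (ha : IsRep a f)
    (hb : IsRep b g) (hf : Sm U f) (hg : Sm U g) (hab : a = b) :
    ∀ᶠ p in OF U, f p = g p := by
  obtain ⟨N, n1, n2, _, _, n3⟩ := open_eq hU hf hg ((ha.eq_iff hb).mp hab)
  exact ⟨N, n1, n2, n3⟩

/-- vanishing of the derivatives as a derivation implies vanishing of the Fréchet derivative -/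
theorem fderiv_zero_OF (hU : Adapted U V0) {a : KF U} {f : P2 → ℝ} (ha : IsRep a f)
    (hf : Sm U f) (h1 : Der hU (1, 0) a = 0) (h2 : Der hU (0, 1) a = 0) :
    ∀ᶠ p in OF U, fderiv ℝ f p = 0 := by
  have e1 := rep_eq_OF hU (ha.der hU (1, 0) hf) isRep_zero (pd_smooth hf)
    ⟨Set.univ, isOpen_univ, Filter.univ_mem, contDiffOn_const⟩ h1
  have e2 := rep_eq_OF hU (ha.der hU (0, 1) hf) isRep_zero (pd_smooth hf)
    ⟨Set.univ, isOpen_univ, Filter.univ_mem, contDiffOn_const⟩ h2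
  filter_upwards [e1, e2] with p p1 p2
  ext
  · simpa [pd] using p1
  · simpa [pd] using p2

theorem rot_transfer (hU : Adapted U V0) (hV0 : IsOpen V0) (hΩ : IsOpen Ω) (hΩU : Ω ∈ U)
    (hx : ContDiffOn ℝ ∞ x Ω) {u v c : Fin 4 → KF U} {p q r : KF U}
    (h : RotData (Der hU (1, 0)) (Der hU (0, 1)) (gv U hΩ hΩU hx) u v c p q r) :
    ∃ V ⊆ V0, IsOpen V ∧ V.Nonempty ∧ IsRotationalOn V x := by
  obtain ⟨uu, vv, uv, rne, dS, dT, field, tang⟩ := h
  have su : ∀ i, Sm U (rep (u i)) := fun i => rep_smooth _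
  have sv : ∀ i, Sm U (rep (v i)) := fun i => rep_smooth _
  have sc : ∀ i, Sm U (rep (c i)) := fun i => rep_smooth _
  have sp : Sm U (rep p) := rep_smooth _
  have sq : Sm U (rep q) := rep_smooth _
  have sr : Sm U (rep r) := rep_smooth _
  have sx : ∀ i, Sm U (fun p => x p i) := fun i => ⟨Ω, hΩ, hΩU, comp_smooth hx i⟩
  have sxu : ∀ i, Sm U (fun p => pu x p i) := fun i => ⟨Ω, hΩ, hΩU, comp_smooth (pu_smooth hΩ hx) i⟩
  have sxv : ∀ i, Sm U (fun p => pv x p i) := fun i => ⟨Ω, hΩ, hΩU, comp_smooth (pv_smooth hΩ hx) i⟩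
  have ru : ∀ i, IsRep (u i) (rep (u i)) := fun i => isRep_rep _
  have rv : ∀ i, IsRep (v i) (rep (v i)) := fun i => isRep_rep _
  have rc : ∀ i, IsRep (c i) (rep (c i)) := fun i => isRep_rep _
  have rx : ∀ i, IsRep (gv U hΩ hΩU hx i) (fun p => x p i) := fun i => isRep_gv hΩ hΩU hx i
  have rxu := fun i => rep_pu hU hΩ hΩU hx (isRep_gv hΩ hΩU hx i)
  have rxv := fun i => rep_pv hU hΩ hΩU hx (isRep_gv hΩ hΩU hx i)
  have s1 : Sm U (fun _ => (1 : ℝ)) := ⟨Set.univ, isOpen_univ, Filter.univ_mem, contDiffOn_const⟩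
  have s0 : Sm U (fun _ => (0 : ℝ)) := ⟨Set.univ, isOpen_univ, Filter.univ_mem, contDiffOn_const⟩
  -- inner product of four smooth functions
  have sip : ∀ {f g : Fin 4 → P2 → ℝ}, (∀ i, Sm U (f i)) → (∀ i, Sm U (g i)) →
      Sm U (fun p => f 0 p * g 0 p + f 1 p * g 1 p + f 2 p * g 2 p + f 3 p * g 3 p) := by
    intro f g hf hg
    exact ((((hf 0).mul (hg 0)).add ((hf 1).mul (hg 1))).add ((hf 2).mul (hg 2))).add
      ((hf 3).mul (hg 3))
  have rip : ∀ {A B : Fin 4 → KF U} {f g : Fin 4 → P2 → ℝ}, (∀ i, IsRep (A i) (f i)) →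
      (∀ i, IsRep (B i) (g i)) → IsRep (ip A B)
      (fun p => f 0 p * g 0 p + f 1 p * g 1 p + f 2 p * g 2 p + f 3 p * g 3 p) := by
    intro A B f g hf hg
    exact ((((hf 0).mul (hg 0)).add ((hf 1).mul (hg 1))).add ((hf 2).mul (hg 2))).add
      ((hf 3).mul (hg 3))
  have euu := rep_eq_OF hU (rip ru ru) isRep_one (sip su su) s1 uu
  have evv := rep_eq_OF hU (rip rv rv) isRep_one (sip sv sv) s1 vv
  have euv := rep_eq_OF hU (rip ru rv) isRep_zero (sip su sv) s0 uv
  have eS : ∀ᶠ y in OF U, ∀ i j, fderiv ℝ (fun z => rep (u i) z * rep (v j) z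
      - rep (v i) z * rep (u j) z) y = 0 := by
    rw [eventually_all]
    intro i
    rw [eventually_all]
    intro j
    exact fderiv_zero_OF hU (((ru i).mul (rv j)).sub ((rv i).mul (ru j)))
      (((su i).mul (sv j)).sub ((sv i).mul (su j))) (dS i j).1 (dS i j).2
  have dSd : ∀ᶠ y in OF U, ∀ i j, DifferentiableAt ℝ (fun z => rep (u i) z * rep (v j) z
      - rep (v i) z * rep (u j) z) y := by
    rw [eventually_all]
    intro i
    rw [eventually_all]
    intro j
    exact (((su i).mul (sv j)).sub ((sv i).mul (su j))).eventually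
  have eT : ∀ᶠ y in OF U, ∀ i, fderiv ℝ (fun z => rep (u i) z *
      (rep (v 0) z * rep (c 0) z + rep (v 1) z * rep (c 1) z + rep (v 2) z * rep (c 2) z
        + rep (v 3) z * rep (c 3) z)
      - rep (v i) z * (rep (u 0) z * rep (c 0) z + rep (u 1) z * rep (c 1) z
        + rep (u 2) z * rep (c 2) z + rep (u 3) z * rep (c 3) z)) y = 0 := by
    rw [eventually_all]
    intro i
    exact fderiv_zero_OF hU (((ru i).mul (rip rv rc)).sub ((rv i).mul (rip ru rc)))
      (((su i).mul (sip sv sc)).sub ((sv i).mul (sip su sc))) (dT i).1 (dT i).2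
  have dTd : ∀ᶠ y in OF U, ∀ i, DifferentiableAt ℝ (fun z => rep (u i) z *
      (rep (v 0) z * rep (c 0) z + rep (v 1) z * rep (c 1) z + rep (v 2) z * rep (c 2) z
        + rep (v 3) z * rep (c 3) z)
      - rep (v i) z * (rep (u 0) z * rep (c 0) z + rep (u 1) z * rep (c 1) z
        + rep (u 2) z * rep (c 2) z + rep (u 3) z * rep (c 3) z)) y := by
    rw [eventually_all]
    intro i
    exact (((su i).mul (sip sv sc)).sub ((sv i).mul (sip su sc))).eventually
  have eF : ∀ᶠ y in OF U, ∀ i, rep (u i) y * ((rep (v 0) y * x y 0 + rep (v 1) y * x y 1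
        + rep (v 2) y * x y 2 + rep (v 3) y * x y 3)
        - (rep (v 0) y * rep (c 0) y + rep (v 1) y * rep (c 1) y + rep (v 2) y * rep (c 2) y
        + rep (v 3) y * rep (c 3) y)) - rep (v i) y * ((rep (u 0) y * x y 0 + rep (u 1) y * x y 1
        + rep (u 2) y * x y 2 + rep (u 3) y * x y 3)
        - (rep (u 0) y * rep (c 0) y + rep (u 1) y * rep (c 1) y + rep (u 2) y * rep (c 2) y
        + rep (u 3) y * rep (c 3) y)) = rep r y * rep (u i) y := by
    rw [eventually_all]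
    intro i
    exact rep_eq_OF hU (((ru i).mul ((rip rv rx).sub (rip rv rc))).sub
      ((rv i).mul ((rip ru rx).sub (rip ru rc)))) ((isRep_rep r).mul (ru i))
      (((su i).mul ((sip sv sx).sub (sip sv sc))).sub
      ((sv i).mul ((sip su sx).sub (sip su sc)))) (sr.mul (su i)) (field i)
  have eP : ∀ᶠ y in OF U, ∀ i, rep (u i) y = rep p y * pu x y i + rep q y * pv x y i := by
    rw [eventually_all]
    intro i
    exact rep_eq_OF hU (ru i) (((isRep_rep p).mul (rxu i)).add ((isRep_rep q).mul (rxv i)))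
      (su i) ((sp.mul (sxu i)).add (sq.mul (sxv i))) (tang i)
  have eR : ∀ᶠ y in OF U, rep r y ≠ 0 := by
    obtain ⟨O, h1, h2, h3⟩ := sr
    refine ⟨O ∩ {y | rep r y ≠ 0}, h3.continuousOn.isOpen_inter_preimage h1 isOpen_ne,
      Filter.inter_mem h2 ?_, fun y hy => hy.2⟩
    by_contra hcon
    apply rne
    rw [(isRep_rep r).eq_iff isRep_zero]
    have : ¬ ∀ᶠ y in (U : Filter P2), rep r y ≠ 0 := hcon
    rw [← Ultrafilter.eventually_not] at this
    simpa using this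
  obtain ⟨N, n1, n2, n3⟩ := eventually_OF.mp (euu.and (evv.and (euv.and (eS.and (dSd.and
    (eT.and (dTd.and (eF.and (eP.and eR)))))))))
  obtain ⟨y0, hy0⟩ : (N ∩ V0).Nonempty := Ultrafilter.nonempty_of_mem (Filter.inter_mem n2 hU.1)
  obtain ⟨ε, hε, hball⟩ := Metric.isOpen_iff.mp (n1.inter hV0) y0 hy0
  have hyb : y0 ∈ Metric.ball y0 ε := Metric.mem_ball_self hε
  have hconv : IsPreconnected (Metric.ball y0 ε) := (convex_ball y0 ε).isPreconnected
  refine ⟨Metric.ball y0 ε, fun y hy => (hball hy).2, Metric.isOpen_ball, ⟨y0, hyb⟩, ?_⟩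
  have cS : ∀ i j, ∀ y ∈ Metric.ball y0 ε, rep (u i) y * rep (v j) y - rep (v i) y * rep (u j) y
      = rep (u i) y0 * rep (v j) y0 - rep (v i) y0 * rep (u j) y0 := by
    intro i j y hy
    exact Metric.isOpen_ball.is_const_of_fderiv_eq_zero hconv
      (fun z hz => ((n3 z (hball hz).1).2.2.2.2.1 i j).differentiableWithinAt)
      (fun z hz => (n3 z (hball hz).1).2.2.2.1 i j) hy hyb
  have cT : ∀ i, ∀ y ∈ Metric.ball y0 ε, rep (u i) y *
      (rep (v 0) y * rep (c 0) y + rep (v 1) y * rep (c 1) y + rep (v 2) y * rep (c 2) y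
        + rep (v 3) y * rep (c 3) y)
      - rep (v i) y * (rep (u 0) y * rep (c 0) y + rep (u 1) y * rep (c 1) y
        + rep (u 2) y * rep (c 2) y + rep (u 3) y * rep (c 3) y) = rep (u i) y0 *
      (rep (v 0) y0 * rep (c 0) y0 + rep (v 1) y0 * rep (c 1) y0 + rep (v 2) y0 * rep (c 2) y0
        + rep (v 3) y0 * rep (c 3) y0)
      - rep (v i) y0 * (rep (u 0) y0 * rep (c 0) y0 + rep (u 1) y0 * rep (c 1) y0
        + rep (u 2) y0 * rep (c 2) y0 + rep (u 3) y0 * rep (c 3) y0) := by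
    intro i y hy
    exact Metric.isOpen_ball.is_const_of_fderiv_eq_zero hconv
      (fun z hz => ((n3 z (hball hz).1).2.2.2.2.2.2.1 i).differentiableWithinAt)
      (fun z hz => (n3 z (hball hz).1).2.2.2.2.2.1 i) hy hyb
  obtain ⟨uv0, hu0⟩ : ∃ w : E4, ∀ i, w i = rep (u i) y0 :=
    ⟨WithLp.toLp 2 (fun i => rep (u i) y0), fun _ => rfl⟩
  obtain ⟨vv0, hv0⟩ : ∃ w : E4, ∀ i, w i = rep (v i) y0 :=
    ⟨WithLp.toLp 2 (fun i => rep (v i) y0), fun _ => rfl⟩
  obtain ⟨cc0, hc0⟩ : ∃ w : E4, ∀ i, w i = rep (c i) y0 :=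
    ⟨WithLp.toLp 2 (fun i => rep (c i) y0), fun _ => rfl⟩
  have hN0 := n3 y0 (hball hyb).1
  refine ⟨cc0, uv0, vv0, ?_, ?_, ?_, ?_⟩
  · have : ‖uv0‖ ^ 2 = 1 := by
      rw [← real_inner_self_eq_norm_sq, inner_four]; simp only [hu0]; exact hN0.1
    nlinarith [norm_nonneg uv0]
  · have : ‖vv0‖ ^ 2 = 1 := by
      rw [← real_inner_self_eq_norm_sq, inner_four]; simp only [hv0]; exact hN0.2.1
    nlinarith [norm_nonneg vv0]
  · rw [inner_four]; simp only [hu0, hv0]; exact hN0.2.2.1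
  · intro y hy
    have hNy := n3 y (hball hy).1
    obtain ⟨_, _, _, _, _, _, _, hF, hP, hR⟩ := hNy
    have hkey : ∀ i, (⟪uv0, x y - cc0⟫ • vv0 - ⟪vv0, x y - cc0⟫ • uv0) i
        = -(rep r y * rep (u i) y) := by
      intro i
      have hFi := hF i
      have cTi := cT i y hy
      have c0 := cS i 0 y hy
      have c1 := cS i 1 y hy
      have c2 := cS i 2 y hy
      have c3 := cS i 3 y hy
      simp only [PiLp.sub_apply, PiLp.smul_apply, smul_eq_mul, inner_four, hu0, hv0, hc0]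
      linear_combination -hFi - cTi + x y 0 * c0 + x y 1 * c1 + x y 2 * c2 + x y 3 * c3
    have hvec : ⟪uv0, x y - cc0⟫ • vv0 - ⟪vv0, x y - cc0⟫ • uv0
        = (-(rep r y * rep p y)) • pu x y + (-(rep r y * rep q y)) • pv x y := by
      ext i
      rw [hkey i, hP i]
      simp only [PiLp.add_apply, PiLp.smul_apply, smul_eq_mul]
      ring
    constructor
    · rw [hvec]
      unfold tangentPlane
      rw [Submodule.mem_span_pair]
      exact ⟨_, _, rfl⟩
    · intro hzero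
      have hz : ∀ i, rep (u i) y = 0 := by
        intro i
        have h1 := hkey i
        rw [hzero] at h1
        have h2 : rep r y * rep (u i) y = 0 := by
          have : (0 : E4) i = 0 := rfl
          rw [this] at h1
          linarith
        exact (mul_eq_zero.mp h2).resolve_left hR
      have hone := (n3 y (hball hy).1).1
      rw [hz 0, hz 1, hz 2, hz 3] at hone
      norm_num at hone

end Run7.h793
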