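import Pool.Agent.Run7.h793.S2Sys
import Pool.Agent.Run7.h793.EvenRel

/-!
The derived equations of the rotational case.
-/

namespace Run7.h793

set_option linter.unusedSimpArgs false
set_option linter.unusedVariables false

theorem Sys.of_l1 {K : Type*} [Field K] [CharZero K] (D : Derivation ℤ K K) {x w m k s n : K}
    (hx : D x = w - m - x ^ 2) (hw : D w = 0) (hm : D m = 2 * x * m + n)
    (hk : D k = 2 * x * k - n) (hs : D s = 2 / 3 * x * s + 2 * n) (hn : D n = -m * k)
    (l1 : s * pA1 x w m k n + pB1 x w m k n = 0) (lx : pX x w m k s n = 0) :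
    Sys x w m k s n := by
  have l2 : s * pA2 x w m k n + pB2 x w m k n = 0 := by
    have := congrArg D l1
    simp only [pA1, pB1, map_add, map_sub, map_neg, map_zero, Derivation.leibniz,
      Derivation.leibniz_pow, smul_eq_mul, nsmul_eq_mul, der_ofNat, hx, hw, hm, hk, hs, hn]
      at this
    push_cast at this
    unfold pA2 pB2
    linear_combination (-3) * this
  have l3 : s * pA3 x w m k n + pB3 x w m k n = 0 := by
    have := congrArg D l2
    simp only [pA2, pB2, map_add, map_sub, map_neg, map_zero, Derivation.leibniz,
      Derivation.leibniz_pow, smul_eq_mul, nsmul_eq_mul, der_ofNat, hx, hw, hm, hk, hs, hn]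
      at this
    push_cast at this
    unfold pA3 pB3
    linear_combination (-3) * this
  have l4 : s * pA4 x w m k n + pB4 x w m k n = 0 := by
    have := congrArg D l3
    simp only [pA3, pB3, map_add, map_sub, map_neg, map_zero, Derivation.leibniz,
      Derivation.leibniz_pow, smul_eq_mul, nsmul_eq_mul, der_ofNat, hx, hw, hm, hk, hs, hn]
      at this
    push_cast at this
    unfold pA4 pB4
    linear_combination (-3) * this
  have l5 : s * pA5 x w m k n + pB5 x w m k n = 0 := by
    have := congrArg D l4
    simp only [pA4, pB4, map_add, map_sub, map_neg, map_zero, Derivation.leibniz,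
      Derivation.leibniz_pow, smul_eq_mul, nsmul_eq_mul, der_ofNat, hx, hw, hm, hk, hs, hn]
      at this
    push_cast at this
    unfold pA5 pB5
    linear_combination (-3) * this
  have l6 : s * pA6 x w m k n + pB6 x w m k n = 0 := by
    have := congrArg D l5
    simp only [pA5, pB5, map_add, map_sub, map_neg, map_zero, Derivation.leibniz,
      Derivation.leibniz_pow, smul_eq_mul, nsmul_eq_mul, der_ofNat, hx, hw, hm, hk, hs, hn]
      at this
    push_cast at this
    unfold pA6 pB6
    linear_combination (-3) * this
  exact ⟨l1, l2, l3, l4, l5, l6, lx⟩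

end Run7.h793
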