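import Mathlib

/-!
Linear algebra over a domain with a ring homomorphism to a field.
-/

namespace Run7.h793

variable {R κ : Type*} [CommRing R] [IsDomain R] [Field κ]

theorem lin_gen {N : ℕ} (φ : R →+* κ) (M : Matrix (Fin N) (Fin N) R) (v : Fin N → R)
    (h : M.mulVec v = 0) (hd : (φ.mapMatrix M).det ≠ 0) : v = 0 := by
  apply Matrix.eq_zero_of_mulVec_eq_zero (M := M) _ h
  intro h0
  apply hd
  rw [← RingHom.map_det, h0, map_zero]

theorem lin2 (φ : R →+* κ) {a11 a12 a21 a22 u1 u2 : R}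
    (h1 : a11 * u1 + a12 * u2 = 0) (h2 : a21 * u1 + a22 * u2 = 0)
    (d : φ a11 * φ a22 - φ a12 * φ a21 ≠ 0) : u1 = 0 ∧ u2 = 0 := by
  have hd : a11 * a22 - a12 * a21 ≠ 0 := by
    intro h; apply d
    rw [← map_mul, ← map_mul, ← map_sub, h, map_zero]
  constructor
  · refine (mul_eq_zero.mp (?_ : (a11 * a22 - a12 * a21) * u1 = 0)).resolve_left hd
    linear_combination a22 * h1 - a12 * h2
  · refine (mul_eq_zero.mp (?_ : (a11 * a22 - a12 * a21) * u2 = 0)).resolve_left hd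
    linear_combination a11 * h2 - a21 * h1

theorem lin3 (φ : R →+* κ) {a11 a12 a13 a21 a22 a23 a31 a32 a33 u1 u2 u3 : R}
    (h1 : a11 * u1 + a12 * u2 + a13 * u3 = 0) (h2 : a21 * u1 + a22 * u2 + a23 * u3 = 0)
    (h3 : a31 * u1 + a32 * u2 + a33 * u3 = 0)
    (d : φ a11 * (φ a22 * φ a33 - φ a23 * φ a32) - φ a12 * (φ a21 * φ a33 - φ a23 * φ a31)
      + φ a13 * (φ a21 * φ a32 - φ a22 * φ a31) ≠ 0) : u1 = 0 ∧ u2 = 0 ∧ u3 = 0 := by
  have hd : a11 * (a22 * a33 - a23 * a32) - a12 * (a21 * a33 - a23 * a31)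
      + a13 * (a21 * a32 - a22 * a31) ≠ 0 := by
    intro h; apply d
    have := congrArg φ h
    simpa only [map_mul, map_sub, map_add, map_zero] using this
  refine ⟨?_, ?_, ?_⟩
  · refine (mul_eq_zero.mp (?_ : (a11 * (a22 * a33 - a23 * a32) - a12 * (a21 * a33 - a23 * a31)
      + a13 * (a21 * a32 - a22 * a31)) * u1 = 0)).resolve_left hd
    linear_combination (a22 * a33 - a23 * a32) * h1 - (a12 * a33 - a13 * a32) * h2
      + (a12 * a23 - a13 * a22) * h3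
  · refine (mul_eq_zero.mp (?_ : (a11 * (a22 * a33 - a23 * a32) - a12 * (a21 * a33 - a23 * a31)
      + a13 * (a21 * a32 - a22 * a31)) * u2 = 0)).resolve_left hd
    linear_combination -(a21 * a33 - a23 * a31) * h1 + (a11 * a33 - a13 * a31) * h2
      - (a11 * a23 - a13 * a21) * h3
  · refine (mul_eq_zero.mp (?_ : (a11 * (a22 * a33 - a23 * a32) - a12 * (a21 * a33 - a23 * a31)
      + a13 * (a21 * a32 - a22 * a31)) * u3 = 0)).resolve_left hd
    linear_combination (a21 * a32 - a22 * a31) * h1 - (a11 * a32 - a12 * a31) * h2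
      + (a11 * a22 - a12 * a21) * h3

theorem lin4 (φ : R →+* κ) {a11 a12 a13 a14 a21 a22 a23 a24 a31 a32 a33 a34 a41 a42 a43 a44
    u1 u2 u3 u4 : R}
    (h1 : a11 * u1 + a12 * u2 + a13 * u3 + a14 * u4 = 0)
    (h2 : a21 * u1 + a22 * u2 + a23 * u3 + a24 * u4 = 0)
    (h3 : a31 * u1 + a32 * u2 + a33 * u3 + a34 * u4 = 0)
    (h4 : a41 * u1 + a42 * u2 + a43 * u3 + a44 * u4 = 0)
    (d : (Matrix.det !![φ a11, φ a12, φ a13, φ a14; φ a21, φ a22, φ a23, φ a24;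
      φ a31, φ a32, φ a33, φ a34; φ a41, φ a42, φ a43, φ a44]) ≠ 0) :
    u1 = 0 ∧ u2 = 0 ∧ u3 = 0 ∧ u4 = 0 := by
  have hv := lin_gen φ !![a11, a12, a13, a14; a21, a22, a23, a24; a31, a32, a33, a34;
    a41, a42, a43, a44] ![u1, u2, u3, u4] (by
      ext i
      fin_cases i
      · simp [Matrix.mulVec, dotProduct, Fin.sum_univ_four]; linear_combination h1
      · simp [Matrix.mulVec, dotProduct, Fin.sum_univ_four]; linear_combination h2
      · simp [Matrix.mulVec, dotProduct, Fin.sum_univ_four]; linear_combination h3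
      · simp [Matrix.mulVec, dotProduct, Fin.sum_univ_four]; linear_combination h4) (by
      convert d using 2
      ext i j
      fin_cases i <;> fin_cases j <;> rfl)
  exact ⟨congrFun hv 0, congrFun hv 1, congrFun hv 2, congrFun hv 3⟩

/-- block version -/
theorem lin22 (φ : R →+* κ) {a11 a12 a13 a14 a21 a22 a23 a24 a31 a32 a33 a34 a41 a42 a43 a44
    u1 u2 u3 u4 : R}
    (h1 : a11 * u1 + a12 * u2 + a13 * u3 + a14 * u4 = 0)
    (h2 : a21 * u1 + a22 * u2 + a23 * u3 + a24 * u4 = 0)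
    (h3 : a31 * u1 + a32 * u2 + a33 * u3 + a34 * u4 = 0)
    (h4 : a41 * u1 + a42 * u2 + a43 * u3 + a44 * u4 = 0)
    (z13 : φ a13 = 0) (z14 : φ a14 = 0) (z23 : φ a23 = 0) (z24 : φ a24 = 0)
    (z31 : φ a31 = 0) (z32 : φ a32 = 0) (z41 : φ a41 = 0) (z42 : φ a42 = 0)
    (d1 : φ a11 * φ a22 - φ a12 * φ a21 ≠ 0) (d2 : φ a33 * φ a44 - φ a34 * φ a43 ≠ 0) :
    u1 = 0 ∧ u2 = 0 ∧ u3 = 0 ∧ u4 = 0 := by
  refine lin4 φ h1 h2 h3 h4 ?_
  rw [z13, z14, z23, z24, z31, z32, z41, z42]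
  have : Matrix.det !![φ a11, φ a12, 0, 0; φ a21, φ a22, 0, 0; 0, 0, φ a33, φ a34;
      0, 0, φ a43, φ a44] = (φ a11 * φ a22 - φ a12 * φ a21) * (φ a33 * φ a44 - φ a34 * φ a43) := by
    simp [Matrix.det_succ_row_zero, Fin.sum_univ_succ, Fin.succAbove]
    ring
  rw [this]
  exact mul_ne_zero d1 d2

theorem lin13 (φ : R →+* κ) {a11 a12 a13 a14 a21 a22 a23 a24 a31 a32 a33 a34 a41 a42 a43 a44
    u1 u2 u3 u4 : R}
    (h1 : a11 * u1 + a12 * u2 + a13 * u3 + a14 * u4 = 0)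
    (h2 : a21 * u1 + a22 * u2 + a23 * u3 + a24 * u4 = 0)
    (h3 : a31 * u1 + a32 * u2 + a33 * u3 + a34 * u4 = 0)
    (h4 : a41 * u1 + a42 * u2 + a43 * u3 + a44 * u4 = 0)
    (z12 : φ a12 = 0) (z13 : φ a13 = 0) (z14 : φ a14 = 0)
    (z21 : φ a21 = 0) (z31 : φ a31 = 0) (z41 : φ a41 = 0)
    (d1 : φ a11 ≠ 0) (d2 : φ a22 * (φ a33 * φ a44 - φ a34 * φ a43)
      - φ a23 * (φ a32 * φ a44 - φ a34 * φ a42) + φ a24 * (φ a32 * φ a43 - φ a33 * φ a42) ≠ 0) :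
    u1 = 0 ∧ u2 = 0 ∧ u3 = 0 ∧ u4 = 0 := by
  refine lin4 φ h1 h2 h3 h4 ?_
  rw [z12, z13, z14, z21, z31, z41]
  have : Matrix.det !![φ a11, 0, 0, 0; 0, φ a22, φ a23, φ a24; 0, φ a32, φ a33, φ a34;
      0, φ a42, φ a43, φ a44] = φ a11 * (φ a22 * (φ a33 * φ a44 - φ a34 * φ a43)
      - φ a23 * (φ a32 * φ a44 - φ a34 * φ a42) + φ a24 * (φ a32 * φ a43 - φ a33 * φ a42)) := by
    simp [Matrix.det_succ_row_zero, Fin.sum_univ_succ, Fin.succAbove]
    left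
    ring
  rw [this]
  exact mul_ne_zero d1 d2

end Run7.h793
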