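import Pool.Agent.Run7.h793.S2Slice

/-!
Local analysis at the special centers.
-/

namespace Run7.h793

set_option linter.unusedSimpArgs false
set_option linter.unusedVariables false
set_option linter.unreachableTactic false
set_option linter.unusedTactic false
set_option linter.unnecessarySeqFocus false

theorem loc_E3 {R κ : Type*} [CommRing R] [IsDomain R] [Field κ] [CharZero κ] (φ : R →+* κ)
    {x w m k s n : R} (h : Sys x w m k s n)
    (hx : φ x = 0) (hw : φ w ≠ 0) (hm : φ m = φ w) (hk : φ k = 0) (hs : φ s = 3 * φ w)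
    (hn : φ n = 0) :
    x = 0 := by
  have r1 : (70 * x ^ 2 * s - 54 * w * s + 144 * m * k + 45 * m * s + 9 * k * s) * x + (66 * x ^ 2 - 18 * w - 9 * m + 81 * k - 9 * s) * n
      + (0) * (m - w) + (0) * k = 0 := by
    have := h.l1
    unfold pA1 pB1 at this
    linear_combination this
  have r2 : (4900 * x ^ 4 * s - 8616 * x ^ 2 * w * s + 6516 * x ^ 2 * m * k + 5070 * x ^ 2 * m * s +
      90 * x ^ 2 * k * s + 3780 * w ^ 2 * s + 12204 * w * m * k - 4158 * w * m * s + 486 * w *
      k * s - 12042 * m ^ 2 * k + 540 * m ^ 2 * s - 7290 * m * k ^ 2 - 540 * m * k * s) * x + (-3156 * x ^ 4 + 4104 * x ^ 2 * w - 7776 * x ^ 2 * m + 6480 * x ^ 2 * k - 1440 * x ^ 2 * s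
      - 4212 * x * n - 756 * w ^ 2 - 1728 * w * m + 4536 * w * k + 1080 * w * s + 2241 * m ^ 2
      - 1944 * m * k - 1080 * m * s - 729 * k ^ 2) * n
      + (0) * (m - w) + (0) * k = 0 := by
    have := h.l3
    unfold pA3 pB3 at this
    linear_combination this
  have r3 : (490 * x ^ 3 * s - 684 * x * w * s - 1098 * x * m * k + 405 * x * m * s - 45 * x * k * s) * x + (-24 * x ^ 3 - 72 * x * w + 612 * x * m - 972 * x * k - 90 * x * s + 324 * n) * n
      + (-162 * w * s + 135 * m * s) * (m - w) + (-486 * w * m - 27 * w * s + 405 * m ^ 2 + 243 * m * k) * k = 0 := by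
    have := h.l2
    unfold pA2 pB2 at this
    linear_combination this
  have r4 : (63700 * x ^ 5 * s - 133812 * x ^ 3 * w * s - 29016 * x ^ 3 * m * k + 78570 * x ^ 3 * m *
      s + 90 * x ^ 3 * k * s + 81324 * x * w ^ 2 * s - 156168 * x * w * m * k - 102384 * x * w
      * m * s - 3240 * x * w * k * s + 215946 * x * m ^ 2 * k + 39690 * x * m ^ 2 * s + 128790
      * x * m * k ^ 2 + 2430 * x * m * k * s) * x + (-67272 * x ^ 5 + 114192 * x ^ 3 * w - 48744 * x ^ 3 * m - 20088 * x ^ 3 * k - 20700 * x ^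
      3 * s + 38772 * x ^ 2 * n - 47304 * x * w ^ 2 + 143208 * x * w * m - 105624 * x * w * k +
      20412 * x * w * s - 112914 * x * m ^ 2 + 68688 * x * m * k - 4860 * x * m * s + 30618 * x
      * k ^ 2 + 1620 * x * k * s + 24948 * w * n - 25434 * m * n + 1458 * k * n + 3240 * s * n) * n
      + (11340 * w ^ 2 * s - 12474 * w * m * s + 1620 * m ^ 2 * s) * (m - w) + (-38880 * w ^ 2 * m - 1458 * w ^ 2 * s + 67554 * w * m ^ 2 + 35478 * w * m * k + 6318 * w
      * m * s - 29403 * m ^ 3 - 27702 * m ^ 2 * k - 4860 * m ^ 2 * s - 2187 * m * k ^ 2) * k = 0 := by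
    have := h.l4
    unfold pA4 pB4 at this
    linear_combination this
  have hd1 := lin22 φ r1 r2 r3 r4
    (by simp only [map_add, map_sub, map_mul, map_pow, map_neg, map_zero, map_ofNat, map_one, hx, hm, hk, hs, hn] <;> ring)
    (by simp only [map_add, map_sub, map_mul, map_pow, map_neg, map_zero, map_ofNat, map_one, hx, hm, hk, hs, hn] <;> ring)
    (by simp only [map_add, map_sub, map_mul, map_pow, map_neg, map_zero, map_ofNat, map_one, hx, hm, hk, hs, hn] <;> ring)
    (by simp only [map_add, map_sub, map_mul, map_pow, map_neg, map_zero, map_ofNat, map_one, hx, hm, hk, hs, hn] <;> ring)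
    (by simp only [map_add, map_sub, map_mul, map_pow, map_neg, map_zero, map_ofNat, map_one, hx, hm, hk, hs, hn] <;> ring)
    (by simp only [map_add, map_sub, map_mul, map_pow, map_neg, map_zero, map_ofNat, map_one, hx, hm, hk, hs, hn] <;> ring)
    (by simp only [map_add, map_sub, map_mul, map_pow, map_neg, map_zero, map_ofNat, map_one, hx, hm, hk, hs, hn] <;> ring)
    (by simp only [map_add, map_sub, map_mul, map_pow, map_neg, map_zero, map_ofNat, map_one, hx, hm, hk, hs, hn] <;> ring)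
    (by
      intro hz
      simp only [map_add, map_sub, map_mul, map_pow, map_neg, map_zero, map_ofNat, map_one, hx, hm, hk, hs, hn] at hz
      have hz2 : (32805 : κ) * φ w ^ 4 = 0 := by linear_combination hz
      exact mul_ne_zero (by norm_num) (pow_ne_zero _ hw) hz2)
    (by
      intro hz
      simp only [map_add, map_sub, map_mul, map_pow, map_neg, map_zero, map_ofNat, map_one, hx, hm, hk, hs, hn] at hz
      have hz2 : (295245 : κ) * φ w ^ 5 = 0 := by linear_combination hz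
      exact mul_ne_zero (by norm_num) (pow_ne_zero _ hw) hz2)
  exact hd1.1

theorem loc_E0 {R κ : Type*} [CommRing R] [IsDomain R] [Field κ] [CharZero κ] (φ : R →+* κ)
    {x w m k s n : R} (h : Sys x w m k s n)
    (hx : φ x = 0) (hw : φ w ≠ 0) (hm : φ m = φ w) (hk : φ k = 0) (hs : φ s = 0)
    (hn : φ n = 0) :
    n = 0 ∧ x * s = 0 := by
  have r1 : (66 * x ^ 2 - 18 * w - 9 * m + 81 * k - 9 * s) * n + (70 * x ^ 2 - 54 * w + 45 * m) * (x * s)
      + (144 * x * m + 9 * x * s) * k + (0) * ((m - w) * s) = 0 := by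
    have := h.l1
    unfold pA1 pB1 at this
    linear_combination this
  have r2 : (-3156 * x ^ 4 + 4104 * x ^ 2 * w - 7776 * x ^ 2 * m + 6480 * x ^ 2 * k - 1440 * x ^ 2 * s
      - 4212 * x * n - 756 * w ^ 2 - 1728 * w * m + 4536 * w * k + 1080 * w * s + 2241 * m ^ 2
      - 1944 * m * k - 1080 * m * s - 729 * k ^ 2) * n + (4900 * x ^ 4 - 8616 * x ^ 2 * w + 5070 * x ^ 2 * m + 3780 * w ^ 2 - 4158 * w * m + 540 *
      m ^ 2) * (x * s)
      + (6516 * x ^ 3 * m + 90 * x ^ 3 * s + 12204 * x * w * m + 486 * x * w * s - 12042 * x * m ^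
      2 - 7290 * x * m * k - 540 * x * m * s) * k + (0) * ((m - w) * s) = 0 := by
    have := h.l3
    unfold pA3 pB3 at this
    linear_combination this
  have r3 : (-24 * x ^ 3 - 72 * x * w + 612 * x * m - 972 * x * k - 90 * x * s + 324 * n) * n + (490 * x ^ 3 - 684 * x * w + 405 * x * m) * (x * s)
      + (-1098 * x ^ 2 * m - 45 * x ^ 2 * s - 486 * w * m - 27 * w * s + 405 * m ^ 2 + 243 * m * k) * k + (-162 * w + 135 * m) * ((m - w) * s) = 0 := by
    have := h.l2
    unfold pA2 pB2 at this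
    linear_combination this
  have r4 : (-67272 * x ^ 5 + 114192 * x ^ 3 * w - 48744 * x ^ 3 * m - 20088 * x ^ 3 * k - 20700 * x ^
      3 * s + 38772 * x ^ 2 * n - 47304 * x * w ^ 2 + 143208 * x * w * m - 105624 * x * w * k +
      20412 * x * w * s - 112914 * x * m ^ 2 + 68688 * x * m * k - 4860 * x * m * s + 30618 * x
      * k ^ 2 + 1620 * x * k * s + 24948 * w * n - 25434 * m * n + 1458 * k * n + 3240 * s * n) * n + (63700 * x ^ 5 - 133812 * x ^ 3 * w + 78570 * x ^ 3 * m + 81324 * x * w ^ 2 - 102384 * x *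
      w * m + 39690 * x * m ^ 2) * (x * s)
      + (-29016 * x ^ 4 * m + 90 * x ^ 4 * s - 156168 * x ^ 2 * w * m - 3240 * x ^ 2 * w * s +
      215946 * x ^ 2 * m ^ 2 + 128790 * x ^ 2 * m * k + 2430 * x ^ 2 * m * s - 38880 * w ^ 2 *
      m - 1458 * w ^ 2 * s + 67554 * w * m ^ 2 + 35478 * w * m * k + 6318 * w * m * s - 29403 *
      m ^ 3 - 27702 * m ^ 2 * k - 4860 * m ^ 2 * s - 2187 * m * k ^ 2) * k + (11340 * w ^ 2 - 12474 * w * m + 1620 * m ^ 2) * ((m - w) * s) = 0 := by
    have := h.l4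
    unfold pA4 pB4 at this
    linear_combination this
  have hd1 := lin22 φ r1 r2 r3 r4
    (by simp only [map_add, map_sub, map_mul, map_pow, map_neg, map_zero, map_ofNat, map_one, hx, hm, hk, hs, hn] <;> ring)
    (by simp only [map_add, map_sub, map_mul, map_pow, map_neg, map_zero, map_ofNat, map_one, hx, hm, hk, hs, hn] <;> ring)
    (by simp only [map_add, map_sub, map_mul, map_pow, map_neg, map_zero, map_ofNat, map_one, hx, hm, hk, hs, hn] <;> ring)
    (by simp only [map_add, map_sub, map_mul, map_pow, map_neg, map_zero, map_ofNat, map_one, hx, hm, hk, hs, hn] <;> ring)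
    (by simp only [map_add, map_sub, map_mul, map_pow, map_neg, map_zero, map_ofNat, map_one, hx, hm, hk, hs, hn] <;> ring)
    (by simp only [map_add, map_sub, map_mul, map_pow, map_neg, map_zero, map_ofNat, map_one, hx, hm, hk, hs, hn] <;> ring)
    (by simp only [map_add, map_sub, map_mul, map_pow, map_neg, map_zero, map_ofNat, map_one, hx, hm, hk, hs, hn] <;> ring)
    (by simp only [map_add, map_sub, map_mul, map_pow, map_neg, map_zero, map_ofNat, map_one, hx, hm, hk, hs, hn] <;> ring)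
    (by
      intro hz
      simp only [map_add, map_sub, map_mul, map_pow, map_neg, map_zero, map_ofNat, map_one, hx, hm, hk, hs, hn] at hz
      have hz2 : (-6561 : κ) * φ w ^ 3 = 0 := by linear_combination hz
      exact mul_ne_zero (by norm_num) (pow_ne_zero _ hw) hz2)
    (by
      intro hz
      simp only [map_add, map_sub, map_mul, map_pow, map_neg, map_zero, map_ofNat, map_one, hx, hm, hk, hs, hn] at hz
      have hz2 : (-59049 : κ) * φ w ^ 4 = 0 := by linear_combination hz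
      exact mul_ne_zero (by norm_num) (pow_ne_zero _ hw) hz2)
  exact ⟨hd1.1, hd1.2.1⟩

theorem loc_Q {R κ : Type*} [CommRing R] [IsDomain R] [Field κ] [CharZero κ] (φ : R →+* κ)
    {x w m k s n : R} (h : Sys x w m k s n)
    (hx : φ x = 0) (hw : φ w = 0) (hm : φ m = 0) (hk : φ k ≠ 0)
    (hn : φ n = 0) :
    n = 0 ∧ m = 0 ∧ w * s = 0 := by
  have r1 : (66 * x ^ 2 - 18 * w + 81 * k - 9 * s) * n + (70 * x ^ 2 - 54 * w + 9 * k) * (x * s)
      + (144 * x * k + 45 * x * s - 9 * n) * m + (0) * (w * s) = 0 := by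
    have := h.l1
    unfold pA1 pB1 at this
    linear_combination this
  have r2 : (-3156 * x ^ 4 + 4104 * x ^ 2 * w + 6480 * x ^ 2 * k - 1440 * x ^ 2 * s - 4212 * x * n -
      756 * w ^ 2 + 4536 * w * k + 1080 * w * s - 729 * k ^ 2) * n + (4900 * x ^ 4 - 8616 * x ^ 2 * w + 90 * x ^ 2 * k + 3780 * w ^ 2 + 486 * w * k) * (x * s)
      + (6516 * x ^ 3 * k + 5070 * x ^ 3 * s - 7776 * x ^ 2 * n + 12204 * x * w * k - 4158 * x * w
      * s - 12042 * x * m * k + 540 * x * m * s - 7290 * x * k ^ 2 - 540 * x * k * s - 1728 * w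
      * n + 2241 * m * n - 1944 * k * n - 1080 * s * n) * m + (0) * (w * s) = 0 := by
    have := h.l3
    unfold pA3 pB3 at this
    linear_combination this
  have r3 : (-24 * x ^ 3 - 72 * x * w - 972 * x * k - 90 * x * s + 324 * n) * n + (490 * x ^ 3 - 684 * x * w - 45 * x * k) * (x * s)
      + (-1098 * x ^ 2 * k + 405 * x ^ 2 * s + 612 * x * n - 486 * w * k - 297 * w * s + 405 * m *
      k + 135 * m * s + 243 * k ^ 2) * m + (162 * w - 27 * k) * (w * s) = 0 := by
    have := h.l2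
    unfold pA2 pB2 at this
    linear_combination this
  have r4 : (-67272 * x ^ 5 + 114192 * x ^ 3 * w - 20088 * x ^ 3 * k - 20700 * x ^ 3 * s + 38772 * x ^
      2 * n - 47304 * x * w ^ 2 - 105624 * x * w * k + 20412 * x * w * s + 30618 * x * k ^ 2 +
      1620 * x * k * s + 24948 * w * n + 1458 * k * n + 3240 * s * n) * n + (63700 * x ^ 5 - 133812 * x ^ 3 * w + 90 * x ^ 3 * k + 81324 * x * w ^ 2 - 3240 * x * w *
      k) * (x * s)
      + (-29016 * x ^ 4 * k + 78570 * x ^ 4 * s - 48744 * x ^ 3 * n - 156168 * x ^ 2 * w * k -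
      102384 * x ^ 2 * w * s + 215946 * x ^ 2 * m * k + 39690 * x ^ 2 * m * s + 128790 * x ^ 2
      * k ^ 2 + 2430 * x ^ 2 * k * s + 143208 * x * w * n - 112914 * x * m * n + 68688 * x * k
      * n - 4860 * x * s * n - 38880 * w ^ 2 * k + 23814 * w ^ 2 * s + 67554 * w * m * k -
      14094 * w * m * s + 35478 * w * k ^ 2 + 6318 * w * k * s - 29403 * m ^ 2 * k + 1620 * m ^
      2 * s - 27702 * m * k ^ 2 - 4860 * m * k * s - 2187 * k ^ 3 - 25434 * n ^ 2) * m + (-11340 * w ^ 2 - 1458 * w * k) * (w * s) = 0 := by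
    have := h.l4
    unfold pA4 pB4 at this
    linear_combination this
  have hd1 := lin22 φ r1 r2 r3 r4
    (by simp only [map_add, map_sub, map_mul, map_pow, map_neg, map_zero, map_ofNat, map_one, hx, hm, hw, hn] <;> ring)
    (by simp only [map_add, map_sub, map_mul, map_pow, map_neg, map_zero, map_ofNat, map_one, hx, hm, hw, hn] <;> ring)
    (by simp only [map_add, map_sub, map_mul, map_pow, map_neg, map_zero, map_ofNat, map_one, hx, hm, hw, hn] <;> ring)
    (by simp only [map_add, map_sub, map_mul, map_pow, map_neg, map_zero, map_ofNat, map_one, hx, hm, hw, hn] <;> ring)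
    (by simp only [map_add, map_sub, map_mul, map_pow, map_neg, map_zero, map_ofNat, map_one, hx, hm, hw, hn] <;> ring)
    (by simp only [map_add, map_sub, map_mul, map_pow, map_neg, map_zero, map_ofNat, map_one, hx, hm, hw, hn] <;> ring)
    (by simp only [map_add, map_sub, map_mul, map_pow, map_neg, map_zero, map_ofNat, map_one, hx, hm, hw, hn] <;> ring)
    (by simp only [map_add, map_sub, map_mul, map_pow, map_neg, map_zero, map_ofNat, map_one, hx, hm, hw, hn] <;> ring)
    (by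
      intro hz
      simp only [map_add, map_sub, map_mul, map_pow, map_neg, map_zero, map_ofNat, map_one, hx, hm, hw, hn] at hz
      have hz2 : (6561 : κ) * φ k ^ 3 = 0 := by linear_combination hz
      exact mul_ne_zero (by norm_num) (pow_ne_zero _ hk) hz2)
    (by
      intro hz
      simp only [map_add, map_sub, map_mul, map_pow, map_neg, map_zero, map_ofNat, map_one, hx, hm, hw, hn] at hz
      have hz2 : (-59049 : κ) * φ k ^ 4 = 0 := by linear_combination hz
      exact mul_ne_zero (by norm_num) (pow_ne_zero _ hk) hz2)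
  exact ⟨hd1.1, hd1.2.2.1, hd1.2.2.2⟩

theorem loc_S {R κ : Type*} [CommRing R] [IsDomain R] [Field κ] [CharZero κ] (φ : R →+* κ)
    {x w m k s n : R} (h : Sys x w m k s n)
    (hx : φ x = 0) (hw : φ w ≠ 0) (hm : φ m = 2 * φ w) (hk : φ k = 0) (hs : φ s = 0)
    (hn : φ n = 0) :
    k = 0 ∧ n = 0 ∧ s = 0 := by
  have r1 : (66 * x ^ 2 - 18 * w - 9 * m + 81 * k - 9 * s) * (n - 2 * x * k) + (70 * x ^ 3 - 54 * x * w + 45 * x * m - 9 * x * k) * (s + 6 * k)
      + (-144 * x) * (k * (m - 2 * (w - x ^ 2))) + (216 * x) * (k ^ 2) = 0 := by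
    have := h.l1
    unfold pA1 pB1 at this
    linear_combination this
  have r2 : (-24 * x ^ 3 - 72 * x * w + 612 * x * m - 324 * x * k - 90 * x * s + 324 * n) * (n - 2 * x * k) + (490 * x ^ 4 - 684 * x ^ 2 * w + 405 * x ^ 2 * m - 225 * x ^ 2 * k + 162 * w ^ 2 - 297 * w
      * m - 27 * w * k + 135 * m ^ 2) * (s + 6 * k)
      + (-1494 * x ^ 2 + 486 * w - 405 * m + 243 * k) * (k * (m - 2 * (w - x ^ 2))) + (216 * x ^ 2 + 648 * w) * (k ^ 2) = 0 := by
    have := h.l2
    unfold pA2 pB2 at this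
    linear_combination this
  have r3 : (-67272 * x ^ 5 + 114192 * x ^ 3 * w - 48744 * x ^ 3 * m + 57456 * x ^ 3 * k - 20700 * x ^
      3 * s + 38772 * x ^ 2 * n - 47304 * x * w ^ 2 + 143208 * x * w * m - 55728 * x * w * k +
      20412 * x * w * s - 112914 * x * m ^ 2 + 17820 * x * m * k - 4860 * x * m * s + 33534 * x
      * k ^ 2 + 8100 * x * k * s + 24948 * w * n - 25434 * m * n + 1458 * k * n + 3240 * s * n) * (n - 2 * x * k) + (63700 * x ^ 6 - 133812 * x ^ 4 * w + 78570 * x ^ 4 * m - 41310 * x ^ 4 * k + 81324 * x ^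
      2 * w ^ 2 - 102384 * x ^ 2 * w * m + 37584 * x ^ 2 * w * k + 39690 * x ^ 2 * m ^ 2 - 7290
      * x ^ 2 * m * k + 16200 * x ^ 2 * k ^ 2 - 11340 * w ^ 3 + 23814 * w ^ 2 * m - 1458 * w ^
      2 * k - 14094 * w * m ^ 2 + 6318 * w * m * k + 1620 * m ^ 3 - 4860 * m ^ 2 * k) * (s + 6 * k)
      + (-258372 * x ^ 4 + 257256 * x ^ 2 * w - 169776 * x ^ 2 * m + 205254 * x ^ 2 * k - 34020 *
      w ^ 2 + 73872 * w * m + 486 * w * k - 39123 * m ^ 2 + 1458 * m * k - 2187 * k ^ 2) * (k * (m - 2 * (w - x ^ 2))) + (-47736 * x ^ 4 + 72576 * x ^ 2 * w - 25758 * x ^ 2 * k + 9720 * w ^ 2 - 4374 * w * k) * (k ^ 2) = 0 := by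
    have := h.l4
    unfold pA4 pB4 at this
    linear_combination this
  have r4 : (-31158240 * x ^ 7 + 74027520 * x ^ 5 * w - 44696448 * x ^ 5 * m + 23735376 * x ^ 5 * k -
      8184960 * x ^ 5 * s + 11487312 * x ^ 4 * n - 55607904 * x ^ 3 * w ^ 2 + 73587744 * x ^ 3
      * w * m - 27042336 * x ^ 3 * w * k + 13628304 * x ^ 3 * w * s - 39497976 * x ^ 3 * m ^ 2
      + 5384880 * x ^ 3 * m * k - 7771680 * x ^ 3 * m * s - 8477784 * x ^ 3 * k ^ 2 + 2562840 *
      x ^ 3 * k * s - 10905840 * x ^ 2 * w * n - 6786504 * x ^ 2 * m * n - 8633304 * x ^ 2 * k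
      * n + 1145340 * x ^ 2 * s * n + 12737088 * x * w ^ 3 - 13740192 * x * w ^ 2 * m + 3355344
      * x * w ^ 2 * k - 5392656 * x * w ^ 2 * s - 16621200 * x * w * m ^ 2 - 11555136 * x * w *
      m * k + 7694352 * x * w * m * s + 13308624 * x * w * k ^ 2 - 830088 * x * w * k * s +
      17536824 * x * m ^ 3 + 9479916 * x * m ^ 2 * k - 3304800 * x * m ^ 2 * s - 16247952 * x *
      m * k ^ 2 - 393660 * x * m * k * s - 1915812 * x * k ^ 3 - 335340 * x * k ^ 2 * s -
      4094064 * x * n ^ 2 + 7947072 * w ^ 2 * n - 16419024 * w * m * n + 886464 * w * k * n -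
      648324 * w * s * n + 8629416 * m ^ 2 * n + 504468 * m * k * n + 461700 * m * s * n -
      682344 * k ^ 2 * n - 160380 * k * s * n) * (n - 2 * x * k) + (19364800 * x ^ 8 - 53704560 * x ^ 6 * w + 31629360 * x ^ 6 * m - 16367400 * x ^ 6 * k +
      50788080 * x ^ 4 * w ^ 2 - 61527816 * x ^ 4 * w * m + 27256608 * x ^ 4 * w * k + 18786600
      * x ^ 4 * m ^ 2 - 16276680 * x ^ 4 * m * k + 5125680 * x ^ 4 * k ^ 2 - 17844624 * x ^ 2 *
      w ^ 3 + 33915024 * x ^ 2 * w ^ 2 * m - 10989432 * x ^ 2 * w ^ 2 * k - 19515816 * x ^ 2 *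
      w * m ^ 2 + 18347472 * x ^ 2 * w * m * k - 1660176 * x ^ 2 * w * k ^ 2 + 2130300 * x ^ 2
      * m ^ 3 - 10164690 * x ^ 2 * m ^ 2 * k - 916110 * x ^ 2 * m * k ^ 2 - 670680 * x ^ 2 * k
      ^ 3 + 1395792 * w ^ 4 - 4131000 * w ^ 3 * m - 93312 * w ^ 3 * k + 4700592 * w ^ 2 * m ^ 2
      - 134136 * w ^ 2 * m * k - 2582604 * w * m ^ 3 + 62694 * w * m ^ 2 * k - 86022 * w * m *
      k ^ 2 + 617220 * m ^ 4 + 160380 * m ^ 3 * k + 174960 * m ^ 2 * k ^ 2) * (s + 6 * k)
      + (-89252640 * x ^ 6 + 145888560 * x ^ 4 * w - 97347852 * x ^ 4 * m + 85671432 * x ^ 4 * k -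
      62083584 * x ^ 2 * w ^ 2 + 91210536 * x ^ 2 * w * m - 46016424 * x ^ 2 * w * k - 37382148
      * x ^ 2 * m ^ 2 + 18644418 * x ^ 2 * m * k - 32265540 * x ^ 2 * k ^ 2 + 4187376 * w ^ 3 -
      8721756 * w ^ 2 * m + 758160 * w ^ 2 * k + 4566456 * w * m ^ 2 - 3279042 * w * m * k -
      262440 * w * k ^ 2 - 25515 * m ^ 3 + 4511781 * m ^ 2 * k + 124659 * m * k ^ 2 + 19683 * k
      ^ 3) * (k * (m - 2 * (w - x ^ 2))) + (-25667712 * x ^ 6 + 45751392 * x ^ 4 * w + 16821432 * x ^ 4 * k - 20901888 * x ^ 2 * w ^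
      2 - 27427896 * x ^ 2 * w * k + 153090 * x ^ 2 * k ^ 2 + 2076192 * w ^ 3 - 524880 * w ^ 2
      * k + 39366 * w * k ^ 2) * (k ^ 2) = 0 := by
    have := h.l6
    unfold pA6 pB6 at this
    linear_combination this
  have hd1 := lin13 φ r1 r2 r3 r4
    (by simp only [map_add, map_sub, map_mul, map_pow, map_neg, map_zero, map_ofNat, map_one, hx, hm, hk, hs, hn] <;> ring)
    (by simp only [map_add, map_sub, map_mul, map_pow, map_neg, map_zero, map_ofNat, map_one, hx, hm, hk, hs, hn] <;> ring)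
    (by simp only [map_add, map_sub, map_mul, map_pow, map_neg, map_zero, map_ofNat, map_one, hx, hm, hk, hs, hn] <;> ring)
    (by simp only [map_add, map_sub, map_mul, map_pow, map_neg, map_zero, map_ofNat, map_one, hx, hm, hk, hs, hn] <;> ring)
    (by simp only [map_add, map_sub, map_mul, map_pow, map_neg, map_zero, map_ofNat, map_one, hx, hm, hk, hs, hn] <;> ring)
    (by simp only [map_add, map_sub, map_mul, map_pow, map_neg, map_zero, map_ofNat, map_one, hx, hm, hk, hs, hn] <;> ring)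
    (by
      intro hz
      simp only [map_add, map_sub, map_mul, map_pow, map_neg, map_zero, map_ofNat, map_one, hx, hm, hk, hs, hn] at hz
      have hz2 : (-36 : κ) * φ w ^ 1 = 0 := by linear_combination hz
      exact mul_ne_zero (by norm_num) (pow_ne_zero _ hw) hz2)
    (by
      intro hz
      simp only [map_add, map_sub, map_mul, map_pow, map_neg, map_zero, map_ofNat, map_one, hx, hm, hk, hs, hn] at hz
      have hz2 : (-13356192218112 : κ) * φ w ^ 7 = 0 := by linear_combination hz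
      exact mul_ne_zero (by norm_num) (pow_ne_zero _ hw) hz2)
  have hk2 : k = 0 := pow_eq_zero_iff (by norm_num) |>.mp hd1.2.2.2
  refine ⟨hk2, ?_, ?_⟩
  · have := hd1.1
    rw [hk2] at this; linear_combination this
  · have := hd1.2.1
    rw [hk2] at this; linear_combination this

end Run7.h793
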