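import Pool.Agent.Run7.h793.S2Loc

/-!
Local analysis at the generic degenerate centers.
-/

namespace Run7.h793

set_option linter.unusedSimpArgs false
set_option linter.unusedVariables false
set_option linter.unreachableTactic false
set_option linter.unusedTactic false
set_option linter.unnecessarySeqFocus false

theorem lin12 {R κ : Type*} [CommRing R] [IsDomain R] [Field κ] (φ : R →+* κ)
    {a11 a12 a13 a21 a22 a23 a31 a32 a33 u1 u2 u3 : R}
    (h1 : a11 * u1 + a12 * u2 + a13 * u3 = 0) (h2 : a21 * u1 + a22 * u2 + a23 * u3 = 0)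
    (h3 : a31 * u1 + a32 * u2 + a33 * u3 = 0) (z12 : φ a12 = 0) (z13 : φ a13 = 0)
    (z21 : φ a21 = 0) (z31 : φ a31 = 0) (d1 : φ a11 ≠ 0)
    (d2 : φ a22 * φ a33 - φ a23 * φ a32 ≠ 0) : u1 = 0 ∧ u2 = 0 ∧ u3 = 0 := by
  refine lin3 φ h1 h2 h3 ?_
  rw [z12, z13, z21, z31]
  have := mul_ne_zero d1 d2
  intro hz
  apply this
  linear_combination hz

theorem loc_D2 {R κ : Type*} [CommRing R] [IsDomain R] [Field κ] [CharZero κ] (φ : R →+* κ)
    {x w m k s n : R} (h : Sys x w m k s n) (hx : φ x = 0) (hk : φ k = 0) (hs : φ s = 0)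
    (hn : φ n = 0) (hwm : ¬(φ w = 0 ∧ φ m = 0)) (hm1 : φ m ≠ φ w) (hm2 : φ m ≠ 2 * φ w) :
    m * k = 0 ∧ s = 0 ∧ n = 0 := by
  have r1 : (66 * x ^ 2 - 18 * w - 9 * m + 81 * k) * n + (144 * x) * (m * k) + (70 * x ^ 3 - 54 * x * w + 45 * x * m + 9 * x * k - 9 * n) * s = 0 := by
    have := h.l1
    unfold pA1 pB1 at this
    linear_combination this
  have r2 : (-24 * x ^ 3 - 72 * x * w + 612 * x * m - 972 * x * k + 324 * n) * n + (-1098 * x ^ 2 - 486 * w + 405 * m + 243 * k) * (m * k) + (490 * x ^ 4 - 684 * x ^ 2 * w + 405 * x ^ 2 * m - 45 * x ^ 2 * k - 90 * x * n + 162 * w ^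
      2 - 297 * w * m - 27 * w * k + 135 * m ^ 2) * s = 0 := by
    have := h.l2
    unfold pA2 pB2 at this
    linear_combination this
  have r3 : (-3156 * x ^ 4 + 4104 * x ^ 2 * w - 7776 * x ^ 2 * m + 6480 * x ^ 2 * k - 4212 * x * n -
      756 * w ^ 2 - 1728 * w * m + 4536 * w * k + 2241 * m ^ 2 - 1944 * m * k - 729 * k ^ 2) * n + (6516 * x ^ 3 + 12204 * x * w - 12042 * x * m - 7290 * x * k) * (m * k) + (4900 * x ^ 5 - 8616 * x ^ 3 * w + 5070 * x ^ 3 * m + 90 * x ^ 3 * k - 1440 * x ^ 2 * n +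
      3780 * x * w ^ 2 - 4158 * x * w * m + 486 * x * w * k + 540 * x * m ^ 2 - 540 * x * m * k
      + 1080 * w * n - 1080 * m * n) * s = 0 := by
    have := h.l3
    unfold pA3 pB3 at this
    linear_combination this
  have r4 : (-67272 * x ^ 5 + 114192 * x ^ 3 * w - 48744 * x ^ 3 * m - 20088 * x ^ 3 * k + 38772 * x ^
      2 * n - 47304 * x * w ^ 2 + 143208 * x * w * m - 105624 * x * w * k - 112914 * x * m ^ 2
      + 68688 * x * m * k + 30618 * x * k ^ 2 + 24948 * w * n - 25434 * m * n + 1458 * k * n) * n + (-29016 * x ^ 4 - 156168 * x ^ 2 * w + 215946 * x ^ 2 * m + 128790 * x ^ 2 * k - 38880 * w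
      ^ 2 + 67554 * w * m + 35478 * w * k - 29403 * m ^ 2 - 27702 * m * k - 2187 * k ^ 2) * (m * k) + (63700 * x ^ 6 - 133812 * x ^ 4 * w + 78570 * x ^ 4 * m + 90 * x ^ 4 * k - 20700 * x ^ 3 *
      n + 81324 * x ^ 2 * w ^ 2 - 102384 * x ^ 2 * w * m - 3240 * x ^ 2 * w * k + 39690 * x ^ 2
      * m ^ 2 + 2430 * x ^ 2 * m * k + 20412 * x * w * n - 4860 * x * m * n + 1620 * x * k * n
      - 11340 * w ^ 3 + 23814 * w ^ 2 * m - 1458 * w ^ 2 * k - 14094 * w * m ^ 2 + 6318 * w * m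
      * k + 1620 * m ^ 3 - 4860 * m ^ 2 * k + 3240 * n ^ 2) * s = 0 := by
    have := h.l4
    unfold pA4 pB4 at this
    linear_combination this
  have r6 : (-31158240 * x ^ 7 + 74027520 * x ^ 5 * w - 44696448 * x ^ 5 * m + 760752 * x ^ 5 * k +
      11487312 * x ^ 4 * n - 55607904 * x ^ 3 * w ^ 2 + 73587744 * x ^ 3 * w * m - 5230656 * x
      ^ 3 * w * k - 39497976 * x ^ 3 * m ^ 2 + 18957888 * x ^ 3 * m * k + 8788824 * x ^ 3 * k ^
      2 - 10905840 * x ^ 2 * w * n - 6786504 * x ^ 2 * m * n - 445176 * x ^ 2 * k * n +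
      12737088 * x * w ^ 3 - 13740192 * x * w ^ 2 * m - 12538800 * x * w ^ 2 * k - 16621200 * x
      * w * m ^ 2 + 21282912 * x * w * m * k + 11535696 * x * w * k ^ 2 + 17536824 * x * m ^ 3
      - 7778916 * x * m ^ 2 * k - 17256888 * x * m * k ^ 2 - 551124 * x * k ^ 3 - 4094064 * x *
      n ^ 2 + 7947072 * w ^ 2 * n - 16419024 * w * m * n + 886464 * w * k * n + 8629416 * m ^ 2
      * n + 504468 * m * k * n - 682344 * k ^ 2 * n) * n + (-4779288 * x ^ 6 + 6662952 * x ^ 4 * w + 19603404 * x ^ 4 * m + 14530428 * x ^ 4 * k -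
      30977640 * x ^ 2 * w ^ 2 + 91255248 * x ^ 2 * w * m + 43331760 * x ^ 2 * w * k - 59725026
      * x ^ 2 * m ^ 2 - 52279992 * x ^ 2 * m * k - 5016978 * x ^ 2 * k ^ 2 - 3155112 * w ^ 3 +
      10348884 * w ^ 2 * m + 6511428 * w ^ 2 * k - 10878138 * w * m ^ 2 - 11926440 * w * m * k
      - 1027890 * w * k ^ 2 + 3677805 * m ^ 3 + 5474061 * m ^ 2 * k + 1174419 * m * k ^ 2 +
      19683 * k ^ 3) * (m * k) + (19364800 * x ^ 8 - 53704560 * x ^ 6 * w + 31629360 * x ^ 6 * m + 2520 * x ^ 6 * k -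
      8184960 * x ^ 5 * n + 50788080 * x ^ 4 * w ^ 2 - 61527816 * x ^ 4 * w * m + 18786600 * x
      ^ 4 * m ^ 2 - 733320 * x ^ 4 * m * k + 13628304 * x ^ 3 * w * n - 7771680 * x ^ 3 * m * n
      + 272160 * x ^ 3 * k * n - 17844624 * x ^ 2 * w ^ 3 + 33915024 * x ^ 2 * w ^ 2 * m -
      204120 * x ^ 2 * w ^ 2 * k - 19515816 * x ^ 2 * w * m ^ 2 + 2958768 * x ^ 2 * w * m * k +
      2130300 * x ^ 2 * m ^ 3 - 3555090 * x ^ 2 * m ^ 2 * k - 128790 * x ^ 2 * m * k ^ 2 +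
      1145340 * x ^ 2 * n ^ 2 - 5392656 * x * w ^ 2 * n + 7694352 * x * w * m * n + 466560 * x
      * w * k * n - 3304800 * x * m ^ 2 * n - 1317060 * x * m * k * n - 14580 * x * k ^ 2 * n +
      1395792 * w ^ 4 - 4131000 * w ^ 3 * m - 93312 * w ^ 3 * k + 4700592 * w ^ 2 * m ^ 2 -
      134136 * w ^ 2 * m * k - 2582604 * w * m ^ 3 + 62694 * w * m ^ 2 * k - 86022 * w * m * k
      ^ 2 - 648324 * w * n ^ 2 + 617220 * m ^ 4 + 160380 * m ^ 3 * k + 174960 * m ^ 2 * k ^ 2 +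
      461700 * m * n ^ 2 - 160380 * k * n ^ 2) * s = 0 := by
    have := h.l6
    unfold pA6 pB6 at this
    linear_combination this
  have hodd : ∃ c b a : R, c * n + b * (m * k) + a * s = 0 ∧ φ c ≠ 0 ∧ φ b = 0 ∧ φ a = 0 := by
    by_cases hc1 : φ (66 * x ^ 2 - 18 * w - 9 * m + 81 * k) = 0
    · refine ⟨_, _, _, r3, ?_, (by simp only [map_add, map_sub, map_mul, map_pow, map_neg, map_zero, map_ofNat, map_one, hx, hk, hs, hn] <;> ring), (by simp only [map_add, map_sub, map_mul, map_pow, map_neg, map_zero, map_ofNat, map_one, hx, hk, hs, hn] <;> ring)⟩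
      intro hc3
      simp only [map_add, map_sub, map_mul, map_pow, map_neg, map_zero, map_ofNat, map_one, hx, hk, hs, hn] at hc1 hc3
      have a1 : φ m = -2 * φ w := by linear_combination (-1 / 9) * hc1
      have a3 : (11664 : κ) * φ w ^ 2 = 0 := by
        rw [a1] at hc3
        linear_combination hc3
      have a4 : φ w = 0 := pow_eq_zero_iff (by norm_num) |>.mp
        ((mul_eq_zero.mp a3).resolve_left (by norm_num))
      exact hwm ⟨a4, by rw [a1, a4]; ring⟩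
    · exact ⟨_, _, _, r1, hc1, (by simp only [map_add, map_sub, map_mul, map_pow, map_neg, map_zero, map_ofNat, map_one, hx, hk, hs, hn] <;> ring), (by simp only [map_add, map_sub, map_mul, map_pow, map_neg, map_zero, map_ofNat, map_one, hx, hk, hs, hn] <;> ring)⟩
  have heven : ∃ c2 b2 a2 c3 b3 a3 : R, c2 * n + b2 * (m * k) + a2 * s = 0 ∧
      c3 * n + b3 * (m * k) + a3 * s = 0 ∧ φ c2 = 0 ∧ φ c3 = 0 ∧
      φ b2 * φ a3 - φ a2 * φ b3 ≠ 0 := by
    by_cases hz24 : φ (-1098 * x ^ 2 - 486 * w + 405 * m + 243 * k) * φ (63700 * x ^ 6 - 133812 * x ^ 4 * w + 78570 * x ^ 4 * m + 90 * x ^ 4 * k - 20700 * x ^ 3 *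
      n + 81324 * x ^ 2 * w ^ 2 - 102384 * x ^ 2 * w * m - 3240 * x ^ 2 * w * k + 39690 * x ^ 2
      * m ^ 2 + 2430 * x ^ 2 * m * k + 20412 * x * w * n - 4860 * x * m * n + 1620 * x * k * n
      - 11340 * w ^ 3 + 23814 * w ^ 2 * m - 1458 * w ^ 2 * k - 14094 * w * m ^ 2 + 6318 * w * m
      * k + 1620 * m ^ 3 - 4860 * m ^ 2 * k + 3240 * n ^ 2)
      - φ (490 * x ^ 4 - 684 * x ^ 2 * w + 405 * x ^ 2 * m - 45 * x ^ 2 * k - 90 * x * n + 162 * w ^
      2 - 297 * w * m - 27 * w * k + 135 * m ^ 2) * φ (-29016 * x ^ 4 - 156168 * x ^ 2 * w + 215946 * x ^ 2 * m + 128790 * x ^ 2 * k - 38880 * w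
      ^ 2 + 67554 * w * m + 35478 * w * k - 29403 * m ^ 2 - 27702 * m * k - 2187 * k ^ 2) = 0
    · by_cases hz26 : φ (-1098 * x ^ 2 - 486 * w + 405 * m + 243 * k) * φ (19364800 * x ^ 8 - 53704560 * x ^ 6 * w + 31629360 * x ^ 6 * m + 2520 * x ^ 6 * k -
      8184960 * x ^ 5 * n + 50788080 * x ^ 4 * w ^ 2 - 61527816 * x ^ 4 * w * m + 18786600 * x
      ^ 4 * m ^ 2 - 733320 * x ^ 4 * m * k + 13628304 * x ^ 3 * w * n - 7771680 * x ^ 3 * m * n
      + 272160 * x ^ 3 * k * n - 17844624 * x ^ 2 * w ^ 3 + 33915024 * x ^ 2 * w ^ 2 * m -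
      204120 * x ^ 2 * w ^ 2 * k - 19515816 * x ^ 2 * w * m ^ 2 + 2958768 * x ^ 2 * w * m * k +
      2130300 * x ^ 2 * m ^ 3 - 3555090 * x ^ 2 * m ^ 2 * k - 128790 * x ^ 2 * m * k ^ 2 +
      1145340 * x ^ 2 * n ^ 2 - 5392656 * x * w ^ 2 * n + 7694352 * x * w * m * n + 466560 * x
      * w * k * n - 3304800 * x * m ^ 2 * n - 1317060 * x * m * k * n - 14580 * x * k ^ 2 * n +
      1395792 * w ^ 4 - 4131000 * w ^ 3 * m - 93312 * w ^ 3 * k + 4700592 * w ^ 2 * m ^ 2 -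
      134136 * w ^ 2 * m * k - 2582604 * w * m ^ 3 + 62694 * w * m ^ 2 * k - 86022 * w * m * k
      ^ 2 - 648324 * w * n ^ 2 + 617220 * m ^ 4 + 160380 * m ^ 3 * k + 174960 * m ^ 2 * k ^ 2 +
      461700 * m * n ^ 2 - 160380 * k * n ^ 2)
      - φ (490 * x ^ 4 - 684 * x ^ 2 * w + 405 * x ^ 2 * m - 45 * x ^ 2 * k - 90 * x * n + 162 * w ^
      2 - 297 * w * m - 27 * w * k + 135 * m ^ 2) * φ (-4779288 * x ^ 6 + 6662952 * x ^ 4 * w + 19603404 * x ^ 4 * m + 14530428 * x ^ 4 * k -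
      30977640 * x ^ 2 * w ^ 2 + 91255248 * x ^ 2 * w * m + 43331760 * x ^ 2 * w * k - 59725026
      * x ^ 2 * m ^ 2 - 52279992 * x ^ 2 * m * k - 5016978 * x ^ 2 * k ^ 2 - 3155112 * w ^ 3 +
      10348884 * w ^ 2 * m + 6511428 * w ^ 2 * k - 10878138 * w * m ^ 2 - 11926440 * w * m * k
      - 1027890 * w * k ^ 2 + 3677805 * m ^ 3 + 5474061 * m ^ 2 * k + 1174419 * m * k ^ 2 +
      19683 * k ^ 3) = 0
      · refine ⟨_, _, _, _, _, _, r4, r6, (by simp only [map_add, map_sub, map_mul, map_pow, map_neg, map_zero, map_ofNat, map_one, hx, hk, hs, hn] <;> ring), (by simp only [map_add, map_sub, map_mul, map_pow, map_neg, map_zero, map_ofNat, map_one, hx, hk, hs, hn] <;> ring), ?_⟩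
        intro hz46
        simp only [map_add, map_sub, map_mul, map_pow, map_neg, map_zero, map_ofNat, map_one, hx, hk, hs, hn] at hz24 hz26 hz46
        have w1 : φ w - φ m ≠ 0 := fun hh => hm1 (by linear_combination -hh)
        have w2 : 2 * φ w - φ m ≠ 0 := fun hh => hm2 (by linear_combination -hh)
        have f24 : (6 * φ w - 5 * φ m) * (50 * φ w - 47 * φ m) = 0 := by
          refine mul_left_cancel₀ (mul_ne_zero (mul_ne_zero (show (19683 : κ) ≠ 0 by norm_num) w1) w2) ?_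
          linear_combination hz24
        have f26 : (6 * φ w - 5 * φ m) * (236 * φ w ^ 2 + 608 * φ w * φ m - 835 * φ m ^ 2) = 0 := by
          refine mul_left_cancel₀ (mul_ne_zero (mul_ne_zero (show (-59049 : κ) ≠ 0 by norm_num) w1) w2) ?_
          linear_combination hz26
        have f46 : (-45023681520 * φ w ^ 4 + 156162874968 * φ w ^ 3 * φ m - 201813656868 * φ w ^ 2 * φ m ^ 2 +
        114771061242 * φ w * φ m ^ 3 - 24106163760 * φ m ^ 4) = 0 := by
          refine mul_left_cancel₀ (mul_ne_zero w1 w2) ?_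
          linear_combination hz46
        rcases mul_eq_zero.mp f24 with g1 | g1
        · have a1 : φ m = 6 / 5 * φ w := by linear_combination (-1 / 5) * g1
          rw [a1] at f46
          have a3 : (2448880128/25 : κ) * φ w ^ 4 = 0 := by linear_combination f46
          have a4 : φ w = 0 := pow_eq_zero_iff (by norm_num) |>.mp
            ((mul_eq_zero.mp a3).resolve_left (by norm_num))
          exact hwm ⟨a4, by rw [a1, a4]; ring⟩
        · have a1 : φ m = 50 / 47 * φ w := by linear_combination (-1 / 47) * g1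
          rw [a1] at f26
          have a3 : (-4396032/103823 : κ) * φ w ^ 3 = 0 := by linear_combination f26
          have a4 : φ w = 0 := pow_eq_zero_iff (by norm_num) |>.mp
            ((mul_eq_zero.mp a3).resolve_left (by norm_num))
          exact hwm ⟨a4, by rw [a1, a4]; ring⟩
      · exact ⟨_, _, _, _, _, _, r2, r6, (by simp only [map_add, map_sub, map_mul, map_pow, map_neg, map_zero, map_ofNat, map_one, hx, hk, hs, hn] <;> ring), (by simp only [map_add, map_sub, map_mul, map_pow, map_neg, map_zero, map_ofNat, map_one, hx, hk, hs, hn] <;> ring), hz26⟩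
    · exact ⟨_, _, _, _, _, _, r2, r4, (by simp only [map_add, map_sub, map_mul, map_pow, map_neg, map_zero, map_ofNat, map_one, hx, hk, hs, hn] <;> ring), (by simp only [map_add, map_sub, map_mul, map_pow, map_neg, map_zero, map_ofNat, map_one, hx, hk, hs, hn] <;> ring), hz24⟩
  obtain ⟨c, b, a, ho, z1, z2, z3⟩ := hodd
  obtain ⟨c2, b2, a2, c3, b3, a3, he2, he3, z4, z5, z6⟩ := heven
  obtain ⟨u1, u2, u3⟩ := lin12 φ ho he2 he3 z2 z3 z4 z5 z1 z6
  exact ⟨u2, u3, u1⟩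

theorem loc_D1 {R κ : Type*} [CommRing R] [IsDomain R] [Field κ] [CharZero κ] (φ : R →+* κ)
    {x w m k s n : R} (h : Sys x w m k s n) (hx : φ x = 0) (hm : φ m = 0) (hs : φ s = 0)
    (hn : φ n = 0) (hw : φ w ≠ 0) :
    m * k = 0 ∧ s = 0 ∧ n = 0 := by
  have r1 : (66 * x ^ 2 - 18 * w - 9 * m + 81 * k) * n + (144 * x) * (m * k) + (70 * x ^ 3 - 54 * x * w + 45 * x * m + 9 * x * k - 9 * n) * s = 0 := by
    have := h.l1
    unfold pA1 pB1 at this
    linear_combination this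
  have r2 : (-24 * x ^ 3 - 72 * x * w + 612 * x * m - 972 * x * k + 324 * n) * n + (-1098 * x ^ 2 - 486 * w + 405 * m + 243 * k) * (m * k) + (490 * x ^ 4 - 684 * x ^ 2 * w + 405 * x ^ 2 * m - 45 * x ^ 2 * k - 90 * x * n + 162 * w ^
      2 - 297 * w * m - 27 * w * k + 135 * m ^ 2) * s = 0 := by
    have := h.l2
    unfold pA2 pB2 at this
    linear_combination this
  have r3 : (-3156 * x ^ 4 + 4104 * x ^ 2 * w - 7776 * x ^ 2 * m + 6480 * x ^ 2 * k - 4212 * x * n -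
      756 * w ^ 2 - 1728 * w * m + 4536 * w * k + 2241 * m ^ 2 - 1944 * m * k - 729 * k ^ 2) * n + (6516 * x ^ 3 + 12204 * x * w - 12042 * x * m - 7290 * x * k) * (m * k) + (4900 * x ^ 5 - 8616 * x ^ 3 * w + 5070 * x ^ 3 * m + 90 * x ^ 3 * k - 1440 * x ^ 2 * n +
      3780 * x * w ^ 2 - 4158 * x * w * m + 486 * x * w * k + 540 * x * m ^ 2 - 540 * x * m * k
      + 1080 * w * n - 1080 * m * n) * s = 0 := by
    have := h.l3
    unfold pA3 pB3 at this
    linear_combination this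
  have r4 : (-67272 * x ^ 5 + 114192 * x ^ 3 * w - 48744 * x ^ 3 * m - 20088 * x ^ 3 * k + 38772 * x ^
      2 * n - 47304 * x * w ^ 2 + 143208 * x * w * m - 105624 * x * w * k - 112914 * x * m ^ 2
      + 68688 * x * m * k + 30618 * x * k ^ 2 + 24948 * w * n - 25434 * m * n + 1458 * k * n) * n + (-29016 * x ^ 4 - 156168 * x ^ 2 * w + 215946 * x ^ 2 * m + 128790 * x ^ 2 * k - 38880 * w
      ^ 2 + 67554 * w * m + 35478 * w * k - 29403 * m ^ 2 - 27702 * m * k - 2187 * k ^ 2) * (m * k) + (63700 * x ^ 6 - 133812 * x ^ 4 * w + 78570 * x ^ 4 * m + 90 * x ^ 4 * k - 20700 * x ^ 3 *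
      n + 81324 * x ^ 2 * w ^ 2 - 102384 * x ^ 2 * w * m - 3240 * x ^ 2 * w * k + 39690 * x ^ 2
      * m ^ 2 + 2430 * x ^ 2 * m * k + 20412 * x * w * n - 4860 * x * m * n + 1620 * x * k * n
      - 11340 * w ^ 3 + 23814 * w ^ 2 * m - 1458 * w ^ 2 * k - 14094 * w * m ^ 2 + 6318 * w * m
      * k + 1620 * m ^ 3 - 4860 * m ^ 2 * k + 3240 * n ^ 2) * s = 0 := by
    have := h.l4
    unfold pA4 pB4 at this
    linear_combination this
  have r6 : (-31158240 * x ^ 7 + 74027520 * x ^ 5 * w - 44696448 * x ^ 5 * m + 760752 * x ^ 5 * k +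
      11487312 * x ^ 4 * n - 55607904 * x ^ 3 * w ^ 2 + 73587744 * x ^ 3 * w * m - 5230656 * x
      ^ 3 * w * k - 39497976 * x ^ 3 * m ^ 2 + 18957888 * x ^ 3 * m * k + 8788824 * x ^ 3 * k ^
      2 - 10905840 * x ^ 2 * w * n - 6786504 * x ^ 2 * m * n - 445176 * x ^ 2 * k * n +
      12737088 * x * w ^ 3 - 13740192 * x * w ^ 2 * m - 12538800 * x * w ^ 2 * k - 16621200 * x
      * w * m ^ 2 + 21282912 * x * w * m * k + 11535696 * x * w * k ^ 2 + 17536824 * x * m ^ 3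
      - 7778916 * x * m ^ 2 * k - 17256888 * x * m * k ^ 2 - 551124 * x * k ^ 3 - 4094064 * x *
      n ^ 2 + 7947072 * w ^ 2 * n - 16419024 * w * m * n + 886464 * w * k * n + 8629416 * m ^ 2
      * n + 504468 * m * k * n - 682344 * k ^ 2 * n) * n + (-4779288 * x ^ 6 + 6662952 * x ^ 4 * w + 19603404 * x ^ 4 * m + 14530428 * x ^ 4 * k -
      30977640 * x ^ 2 * w ^ 2 + 91255248 * x ^ 2 * w * m + 43331760 * x ^ 2 * w * k - 59725026
      * x ^ 2 * m ^ 2 - 52279992 * x ^ 2 * m * k - 5016978 * x ^ 2 * k ^ 2 - 3155112 * w ^ 3 +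
      10348884 * w ^ 2 * m + 6511428 * w ^ 2 * k - 10878138 * w * m ^ 2 - 11926440 * w * m * k
      - 1027890 * w * k ^ 2 + 3677805 * m ^ 3 + 5474061 * m ^ 2 * k + 1174419 * m * k ^ 2 +
      19683 * k ^ 3) * (m * k) + (19364800 * x ^ 8 - 53704560 * x ^ 6 * w + 31629360 * x ^ 6 * m + 2520 * x ^ 6 * k -
      8184960 * x ^ 5 * n + 50788080 * x ^ 4 * w ^ 2 - 61527816 * x ^ 4 * w * m + 18786600 * x
      ^ 4 * m ^ 2 - 733320 * x ^ 4 * m * k + 13628304 * x ^ 3 * w * n - 7771680 * x ^ 3 * m * n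
      + 272160 * x ^ 3 * k * n - 17844624 * x ^ 2 * w ^ 3 + 33915024 * x ^ 2 * w ^ 2 * m -
      204120 * x ^ 2 * w ^ 2 * k - 19515816 * x ^ 2 * w * m ^ 2 + 2958768 * x ^ 2 * w * m * k +
      2130300 * x ^ 2 * m ^ 3 - 3555090 * x ^ 2 * m ^ 2 * k - 128790 * x ^ 2 * m * k ^ 2 +
      1145340 * x ^ 2 * n ^ 2 - 5392656 * x * w ^ 2 * n + 7694352 * x * w * m * n + 466560 * x
      * w * k * n - 3304800 * x * m ^ 2 * n - 1317060 * x * m * k * n - 14580 * x * k ^ 2 * n +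
      1395792 * w ^ 4 - 4131000 * w ^ 3 * m - 93312 * w ^ 3 * k + 4700592 * w ^ 2 * m ^ 2 -
      134136 * w ^ 2 * m * k - 2582604 * w * m ^ 3 + 62694 * w * m ^ 2 * k - 86022 * w * m * k
      ^ 2 - 648324 * w * n ^ 2 + 617220 * m ^ 4 + 160380 * m ^ 3 * k + 174960 * m ^ 2 * k ^ 2 +
      461700 * m * n ^ 2 - 160380 * k * n ^ 2) * s = 0 := by
    have := h.l6
    unfold pA6 pB6 at this
    linear_combination this
  have hodd : ∃ c b a : R, c * n + b * (m * k) + a * s = 0 ∧ φ c ≠ 0 ∧ φ b = 0 ∧ φ a = 0 := by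
    by_cases hc1 : φ (66 * x ^ 2 - 18 * w - 9 * m + 81 * k) = 0
    · refine ⟨_, _, _, r3, ?_, (by simp only [map_add, map_sub, map_mul, map_pow, map_neg, map_zero, map_ofNat, map_one, hx, hm, hs, hn] <;> ring), (by simp only [map_add, map_sub, map_mul, map_pow, map_neg, map_zero, map_ofNat, map_one, hx, hm, hs, hn] <;> ring)⟩
      intro hc3
      simp only [map_add, map_sub, map_mul, map_pow, map_neg, map_zero, map_ofNat, map_one, hx, hm, hs, hn] at hc1 hc3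
      have a1 : φ k = 2 / 9 * φ w := by linear_combination (1 / 81) * hc1
      have a3 : (216 : κ) * φ w ^ 2 = 0 := by
        rw [a1] at hc3
        linear_combination hc3
      have a4 : φ w = 0 := pow_eq_zero_iff (by norm_num) |>.mp
        ((mul_eq_zero.mp a3).resolve_left (by norm_num))
      exact hw a4
    · exact ⟨_, _, _, r1, hc1, (by simp only [map_add, map_sub, map_mul, map_pow, map_neg, map_zero, map_ofNat, map_one, hx, hm, hs, hn] <;> ring), (by simp only [map_add, map_sub, map_mul, map_pow, map_neg, map_zero, map_ofNat, map_one, hx, hm, hs, hn] <;> ring)⟩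
  have heven : ∃ c2 b2 a2 c3 b3 a3 : R, c2 * n + b2 * (m * k) + a2 * s = 0 ∧
      c3 * n + b3 * (m * k) + a3 * s = 0 ∧ φ c2 = 0 ∧ φ c3 = 0 ∧
      φ b2 * φ a3 - φ a2 * φ b3 ≠ 0 := by
    by_cases hz24 : φ (-1098 * x ^ 2 - 486 * w + 405 * m + 243 * k) * φ (63700 * x ^ 6 - 133812 * x ^ 4 * w + 78570 * x ^ 4 * m + 90 * x ^ 4 * k - 20700 * x ^ 3 *
      n + 81324 * x ^ 2 * w ^ 2 - 102384 * x ^ 2 * w * m - 3240 * x ^ 2 * w * k + 39690 * x ^ 2
      * m ^ 2 + 2430 * x ^ 2 * m * k + 20412 * x * w * n - 4860 * x * m * n + 1620 * x * k * n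
      - 11340 * w ^ 3 + 23814 * w ^ 2 * m - 1458 * w ^ 2 * k - 14094 * w * m ^ 2 + 6318 * w * m
      * k + 1620 * m ^ 3 - 4860 * m ^ 2 * k + 3240 * n ^ 2)
      - φ (490 * x ^ 4 - 684 * x ^ 2 * w + 405 * x ^ 2 * m - 45 * x ^ 2 * k - 90 * x * n + 162 * w ^
      2 - 297 * w * m - 27 * w * k + 135 * m ^ 2) * φ (-29016 * x ^ 4 - 156168 * x ^ 2 * w + 215946 * x ^ 2 * m + 128790 * x ^ 2 * k - 38880 * w
      ^ 2 + 67554 * w * m + 35478 * w * k - 29403 * m ^ 2 - 27702 * m * k - 2187 * k ^ 2) = 0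
    · by_cases hz26 : φ (-1098 * x ^ 2 - 486 * w + 405 * m + 243 * k) * φ (19364800 * x ^ 8 - 53704560 * x ^ 6 * w + 31629360 * x ^ 6 * m + 2520 * x ^ 6 * k -
      8184960 * x ^ 5 * n + 50788080 * x ^ 4 * w ^ 2 - 61527816 * x ^ 4 * w * m + 18786600 * x
      ^ 4 * m ^ 2 - 733320 * x ^ 4 * m * k + 13628304 * x ^ 3 * w * n - 7771680 * x ^ 3 * m * n
      + 272160 * x ^ 3 * k * n - 17844624 * x ^ 2 * w ^ 3 + 33915024 * x ^ 2 * w ^ 2 * m -
      204120 * x ^ 2 * w ^ 2 * k - 19515816 * x ^ 2 * w * m ^ 2 + 2958768 * x ^ 2 * w * m * k +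
      2130300 * x ^ 2 * m ^ 3 - 3555090 * x ^ 2 * m ^ 2 * k - 128790 * x ^ 2 * m * k ^ 2 +
      1145340 * x ^ 2 * n ^ 2 - 5392656 * x * w ^ 2 * n + 7694352 * x * w * m * n + 466560 * x
      * w * k * n - 3304800 * x * m ^ 2 * n - 1317060 * x * m * k * n - 14580 * x * k ^ 2 * n +
      1395792 * w ^ 4 - 4131000 * w ^ 3 * m - 93312 * w ^ 3 * k + 4700592 * w ^ 2 * m ^ 2 -
      134136 * w ^ 2 * m * k - 2582604 * w * m ^ 3 + 62694 * w * m ^ 2 * k - 86022 * w * m * k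
      ^ 2 - 648324 * w * n ^ 2 + 617220 * m ^ 4 + 160380 * m ^ 3 * k + 174960 * m ^ 2 * k ^ 2 +
      461700 * m * n ^ 2 - 160380 * k * n ^ 2)
      - φ (490 * x ^ 4 - 684 * x ^ 2 * w + 405 * x ^ 2 * m - 45 * x ^ 2 * k - 90 * x * n + 162 * w ^
      2 - 297 * w * m - 27 * w * k + 135 * m ^ 2) * φ (-4779288 * x ^ 6 + 6662952 * x ^ 4 * w + 19603404 * x ^ 4 * m + 14530428 * x ^ 4 * k -
      30977640 * x ^ 2 * w ^ 2 + 91255248 * x ^ 2 * w * m + 43331760 * x ^ 2 * w * k - 59725026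
      * x ^ 2 * m ^ 2 - 52279992 * x ^ 2 * m * k - 5016978 * x ^ 2 * k ^ 2 - 3155112 * w ^ 3 +
      10348884 * w ^ 2 * m + 6511428 * w ^ 2 * k - 10878138 * w * m ^ 2 - 11926440 * w * m * k
      - 1027890 * w * k ^ 2 + 3677805 * m ^ 3 + 5474061 * m ^ 2 * k + 1174419 * m * k ^ 2 +
      19683 * k ^ 3) = 0
      · refine ⟨_, _, _, _, _, _, r4, r6, (by simp only [map_add, map_sub, map_mul, map_pow, map_neg, map_zero, map_ofNat, map_one, hx, hm, hs, hn] <;> ring), (by simp only [map_add, map_sub, map_mul, map_pow, map_neg, map_zero, map_ofNat, map_one, hx, hm, hs, hn] <;> ring), ?_⟩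
        intro hz46
        simp only [map_add, map_sub, map_mul, map_pow, map_neg, map_zero, map_ofNat, map_one, hx, hm, hs, hn] at hz24 hz26 hz46
        have f24 : 1800 * φ w ^ 3 - 1348 * φ w ^ 2 * φ k + 146 * φ w * φ k ^ 2 - 9 * φ k ^ 3 = 0 := by
          refine mul_left_cancel₀ (mul_ne_zero (show (6561 : κ) ≠ 0 by norm_num) hw) ?_
          linear_combination hz24
        have f26 : 8496 * φ w ^ 4 + 38384 * φ w ^ 3 * φ k - 16240 * φ w ^ 2 * φ k ^ 2 + 1572 * φ w * φ k ^ 3 - 27 * φ k ^ 4 = 0 := by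
          refine mul_left_cancel₀ (mul_ne_zero (show (-19683 : κ) ≠ 0 by norm_num) hw) ?_
          linear_combination hz26
        have a3 : (5312587523328 : κ) * φ w ^ 6 = 0 := by
          linear_combination (2082548204 * φ w ^ 3 - 2262952324 * φ w ^ 2 * φ k + 255467319 * φ w * φ k ^ 2 - 4523877 * φ k ^ 3) * f24 + (184086718 * φ w ^ 2 - 21821495 * φ w * φ k + 1507959 * φ k ^ 2) * f26
        have a4 : φ w = 0 := pow_eq_zero_iff (by norm_num) |>.mp
          ((mul_eq_zero.mp a3).resolve_left (by norm_num))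
        exact hw a4
      · exact ⟨_, _, _, _, _, _, r2, r6, (by simp only [map_add, map_sub, map_mul, map_pow, map_neg, map_zero, map_ofNat, map_one, hx, hm, hs, hn] <;> ring), (by simp only [map_add, map_sub, map_mul, map_pow, map_neg, map_zero, map_ofNat, map_one, hx, hm, hs, hn] <;> ring), hz26⟩
    · exact ⟨_, _, _, _, _, _, r2, r4, (by simp only [map_add, map_sub, map_mul, map_pow, map_neg, map_zero, map_ofNat, map_one, hx, hm, hs, hn] <;> ring), (by simp only [map_add, map_sub, map_mul, map_pow, map_neg, map_zero, map_ofNat, map_one, hx, hm, hs, hn] <;> ring), hz24⟩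
  obtain ⟨c, b, a, ho, z1, z2, z3⟩ := hodd
  obtain ⟨c2, b2, a2, c3, b3, a3, he2, he3, z4, z5, z6⟩ := heven
  obtain ⟨u1, u2, u3⟩ := lin12 φ ho he2 he3 z2 z3 z4 z5 z1 z6
  exact ⟨u2, u3, u1⟩

end Run7.h793
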