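import Pool.Agent.Run7.h793.S2Loc

/-!
Local analysis at the center where `s` dominates.
-/

namespace Run7.h793

set_option linter.unusedSimpArgs false
set_option linter.unusedVariables false
set_option linter.unreachableTactic false
set_option linter.unusedTactic false
set_option linter.unnecessarySeqFocus false

theorem lin_block {R κ : Type*} [CommRing R] [IsDomain R] [Field κ] (φ : R →+* κ)
    (A B C D : Matrix (Fin 3) (Fin 3) R) (z y : Fin 3 → R)
    (h1 : A.mulVec z + B.mulVec y = 0) (h2 : C.mulVec z + D.mulVec y = 0)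
    (hC : C.map φ = 0) (hA : (A.map φ).det ≠ 0) (hD : (D.map φ).det ≠ 0) : z = 0 ∧ y = 0 := by
  have hv : Sum.elim z y = 0 := by
    apply Matrix.eq_zero_of_mulVec_eq_zero (M := Matrix.fromBlocks A B C D)
    · intro h0
      have h3 : (φ.mapMatrix (Matrix.fromBlocks A B C D)).det = 0 := by
        rw [← RingHom.map_det, h0, map_zero]
      rw [RingHom.mapMatrix_apply, Matrix.fromBlocks_map, hC,
        Matrix.det_fromBlocks_zero₂₁] at h3
      exact mul_ne_zero hA hD h3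
    · rw [Matrix.fromBlocks_mulVec]
      simp only [Sum.elim_comp_inl, Sum.elim_comp_inr, h1, h2]
      ext i; cases i <;> rfl
  constructor
  · ext i; exact congrFun hv (Sum.inl i)
  · ext i; exact congrFun hv (Sum.inr i)

/-- the system in the second normalisation: `s = 1 / σ`. -/
structure SysInf {R : Type*} [CommRing R] (x w m k σ n : R) : Prop where
  l1 : pA1 x w m k n + σ * pB1 x w m k n = 0
  l2 : pA2 x w m k n + σ * pB2 x w m k n = 0
  l3 : pA3 x w m k n + σ * pB3 x w m k n = 0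
  l4 : pA4 x w m k n + σ * pB4 x w m k n = 0
  l5 : pA5 x w m k n + σ * pB5 x w m k n = 0
  lx : (3 * n * σ + x) ^ 2 * (σ * (4 * (w - x ^ 2) + 6 * m) - 3)
    - ((w - x ^ 2) * (6 * m * σ - 1) - 3 * m ^ 2 * σ) * (σ * (6 * w + 3 * m + 9 * k - 14 * x ^ 2)
      + σ ^ 2 * (36 * m * k - 24 * x * n) - 3 - 18 * σ * k) = 0

theorem loc_inf {R κ : Type*} [CommRing R] [IsDomain R] [Field κ] [CharZero κ] (φ : R →+* κ)
    {x w m k σ n : R} (h : SysInf x w m k σ n) (hx : φ x = 0) (hσ : φ σ = 0)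
    (hne : ¬(φ w = 0 ∧ φ m = 0 ∧ φ k = 0 ∧ φ n = 0)) (hx0 : x ≠ 0) : σ = 0 := by
  have hw : φ w = 0 := by
    have := congrArg φ h.lx
    simp only [map_add, map_sub, map_mul, map_pow, map_neg, map_zero, map_ofNat, map_one, hx, hσ]
      at this
    refine mul_left_cancel₀ (show (-3 : κ) ≠ 0 by norm_num) ?_
    linear_combination this
  have hn : φ n = 0 := by
    have := congrArg φ h.l1
    simp only [pA1, pB1, map_add, map_sub, map_mul, map_pow, map_neg, map_zero, map_ofNat,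
      map_one, hx, hσ] at this
    refine mul_left_cancel₀ (show (-9 : κ) ≠ 0 by norm_num) ?_
    linear_combination this
  have hm : φ m = 0 := by
    have := congrArg φ h.l2
    simp only [pA2, pB2, map_add, map_sub, map_mul, map_pow, map_neg, map_zero, map_ofNat,
      map_one, hx, hσ, hw, hn] at this
    have h2 : φ m ^ 2 = 0 := by
      refine mul_left_cancel₀ (show (135 : κ) ≠ 0 by norm_num) ?_
      linear_combination this
    exact pow_eq_zero_iff (by norm_num) |>.mp h2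
  have hk : φ k ≠ 0 := fun h0 => hne ⟨hw, hm, h0, hn⟩
  obtain ⟨al, hal⟩ : ∃ t, t = 70 * x ^ 2 - 54 * w + 144 * m * k * σ + 45 * m + 9 * k := ⟨_, rfl⟩
  obtain ⟨de, hde⟩ : ∃ t, t = 66 * x ^ 2 * σ - 18 * w * σ - 9 * m * σ + 81 * k * σ - 9 := ⟨_, rfl⟩
  have r1 : x * al + n * de = 0 := by
    have := h.l1
    unfold pA1 pB1 at this
    rw [hal, hde]; linear_combination this
  have r3 : x * ((6516 * x ^ 2 * m * k + 12204 * w * m * k - 12042 * m ^ 2 * k - 7290 * m * k ^ 2) * σ +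
      (5070 * x ^ 2 - 4158 * w + 540 * m - 540 * k) * m +
      (-8616 * x ^ 2 + 3780 * w + 486 * k) * w +
      (4900 * x ^ 2 + 90 * k) * x ^ 2 +
      (0) * (x * n) +
      (0) * n ^ 2) +
      n * ((-3156 * x ^ 4 + 4104 * x ^ 2 * w - 7776 * x ^ 2 * m + 6480 * x ^ 2 * k - 4212 * x * n -
      756 * w ^ 2 - 1728 * w * m + 4536 * w * k + 2241 * m ^ 2 - 1944 * m * k - 729 * k ^ 2) * σ +
      (-1080) * m +
      (1080) * w +
      (-1440) * x ^ 2 +
      (0) * (x * n) +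
      (0) * n ^ 2) = 0 := by
    have := h.l3
    unfold pA3 pB3 at this
    linear_combination this
  have y3 : al * ((-3156 * x ^ 4 + 4104 * x ^ 2 * w - 7776 * x ^ 2 * m + 6480 * x ^ 2 * k - 4212 * x * n -
      756 * w ^ 2 - 1728 * w * m + 4536 * w * k + 2241 * m ^ 2 - 1944 * m * k - 729 * k ^ 2) * σ +
      (-1080) * m +
      (1080) * w +
      (-1440) * x ^ 2 +
      (0) * (x * n) +
      (0) * n ^ 2) -
      de * ((6516 * x ^ 2 * m * k + 12204 * w * m * k - 12042 * m ^ 2 * k - 7290 * m * k ^ 2) * σ +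
      (5070 * x ^ 2 - 4158 * w + 540 * m - 540 * k) * m +
      (-8616 * x ^ 2 + 3780 * w + 486 * k) * w +
      (4900 * x ^ 2 + 90 * k) * x ^ 2 +
      (0) * (x * n) +
      (0) * n ^ 2) = 0 := by
    refine (mul_eq_zero.mp (?_ : x * _ = 0)).resolve_left hx0
    linear_combination ((-3156 * x ^ 4 + 4104 * x ^ 2 * w - 7776 * x ^ 2 * m + 6480 * x ^ 2 * k - 4212 * x * n -
      756 * w ^ 2 - 1728 * w * m + 4536 * w * k + 2241 * m ^ 2 - 1944 * m * k - 729 * k ^ 2) * σ +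
      (-1080) * m +
      (1080) * w +
      (-1440) * x ^ 2 +
      (0) * (x * n) +
      (0) * n ^ 2) * r1 - de * r3
  have r5 : x * ((-201816 * x ^ 4 * m * k + 1627776 * x ^ 2 * w * m * k - 3085776 * x ^ 2 * m ^ 2 * k -
      1605744 * x ^ 2 * m * k ^ 2 + 1261656 * w ^ 2 * m * k - 3019032 * w * m ^ 2 * k - 1728216
      * w * m * k ^ 2 + 1662606 * m ^ 3 * k + 1643652 * m ^ 2 * k ^ 2 + 144342 * m * k ^ 3) * σ +
      (1460880 * x ^ 4 - 2343816 * x ^ 2 * w + 625320 * x ^ 2 * m - 80460 * x ^ 2 * k + 911736 *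
      w ^ 2 - 655128 * w * m - 61236 * w * k + 205740 * m ^ 2 + 97200 * m * k + 4860 * k ^ 2) * m +
      (-2484720 * x ^ 4 + 1931040 * x ^ 2 * w + 5400 * x ^ 2 * k - 465264 * w ^ 2 + 31104 * w *
      k) * w +
      (1019200 * x ^ 4 + 360 * x ^ 2 * k) * x ^ 2 +
      (0) * (x * n) +
      (0) * n ^ 2) +
      n * ((-1391280 * x ^ 6 + 2839680 * x ^ 4 * w - 1713780 * x ^ 4 * m + 26244 * x ^ 4 * k + 442800
      * x ^ 3 * n - 1657584 * x ^ 2 * w ^ 2 + 1182600 * x ^ 2 * w * m + 985608 * x ^ 2 * w * k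
      + 987228 * x ^ 2 * m ^ 2 - 1103868 * x ^ 2 * m * k - 661932 * x ^ 2 * k ^ 2 - 1101600 * x
      * w * n + 1297944 * x * m * n - 40824 * x * k * n + 209952 * w ^ 3 - 831060 * w ^ 2 * m +
      442260 * w ^ 2 * k + 1055592 * w * m ^ 2 - 603612 * w * m * k - 198288 * w * k ^ 2 -
      436671 * m ^ 3 + 181035 * m ^ 2 * k + 247131 * m * k ^ 2 + 6561 * k ^ 3 + 61236 * n ^ 2) * σ +
      (-392850 * x ^ 2 + 179334 * w - 43740 * m + 53460 * k) * m +
      (504144 * x ^ 2 - 137052 * w - 23814 * k) * w +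
      (-380340 * x ^ 2 - 15390 * k) * x ^ 2 +
      (12960) * (x * n) +
      (0) * n ^ 2) = 0 := by
    have := h.l5
    unfold pA5 pB5 at this
    linear_combination this
  have y5 : al * ((-1391280 * x ^ 6 + 2839680 * x ^ 4 * w - 1713780 * x ^ 4 * m + 26244 * x ^ 4 * k + 442800
      * x ^ 3 * n - 1657584 * x ^ 2 * w ^ 2 + 1182600 * x ^ 2 * w * m + 985608 * x ^ 2 * w * k
      + 987228 * x ^ 2 * m ^ 2 - 1103868 * x ^ 2 * m * k - 661932 * x ^ 2 * k ^ 2 - 1101600 * x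
      * w * n + 1297944 * x * m * n - 40824 * x * k * n + 209952 * w ^ 3 - 831060 * w ^ 2 * m +
      442260 * w ^ 2 * k + 1055592 * w * m ^ 2 - 603612 * w * m * k - 198288 * w * k ^ 2 -
      436671 * m ^ 3 + 181035 * m ^ 2 * k + 247131 * m * k ^ 2 + 6561 * k ^ 3 + 61236 * n ^ 2) * σ +
      (-392850 * x ^ 2 + 179334 * w - 43740 * m + 53460 * k) * m +
      (504144 * x ^ 2 - 137052 * w - 23814 * k) * w +
      (-380340 * x ^ 2 - 15390 * k) * x ^ 2 +
      (12960) * (x * n) +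
      (0) * n ^ 2) -
      de * ((-201816 * x ^ 4 * m * k + 1627776 * x ^ 2 * w * m * k - 3085776 * x ^ 2 * m ^ 2 * k -
      1605744 * x ^ 2 * m * k ^ 2 + 1261656 * w ^ 2 * m * k - 3019032 * w * m ^ 2 * k - 1728216
      * w * m * k ^ 2 + 1662606 * m ^ 3 * k + 1643652 * m ^ 2 * k ^ 2 + 144342 * m * k ^ 3) * σ +
      (1460880 * x ^ 4 - 2343816 * x ^ 2 * w + 625320 * x ^ 2 * m - 80460 * x ^ 2 * k + 911736 *
      w ^ 2 - 655128 * w * m - 61236 * w * k + 205740 * m ^ 2 + 97200 * m * k + 4860 * k ^ 2) * m +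
      (-2484720 * x ^ 4 + 1931040 * x ^ 2 * w + 5400 * x ^ 2 * k - 465264 * w ^ 2 + 31104 * w *
      k) * w +
      (1019200 * x ^ 4 + 360 * x ^ 2 * k) * x ^ 2 +
      (0) * (x * n) +
      (0) * n ^ 2) = 0 := by
    refine (mul_eq_zero.mp (?_ : x * _ = 0)).resolve_left hx0
    linear_combination ((-1391280 * x ^ 6 + 2839680 * x ^ 4 * w - 1713780 * x ^ 4 * m + 26244 * x ^ 4 * k + 442800
      * x ^ 3 * n - 1657584 * x ^ 2 * w ^ 2 + 1182600 * x ^ 2 * w * m + 985608 * x ^ 2 * w * k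
      + 987228 * x ^ 2 * m ^ 2 - 1103868 * x ^ 2 * m * k - 661932 * x ^ 2 * k ^ 2 - 1101600 * x
      * w * n + 1297944 * x * m * n - 40824 * x * k * n + 209952 * w ^ 3 - 831060 * w ^ 2 * m +
      442260 * w ^ 2 * k + 1055592 * w * m ^ 2 - 603612 * w * m * k - 198288 * w * k ^ 2 -
      436671 * m ^ 3 + 181035 * m ^ 2 * k + 247131 * m * k ^ 2 + 6561 * k ^ 3 + 61236 * n ^ 2) * σ +
      (-392850 * x ^ 2 + 179334 * w - 43740 * m + 53460 * k) * m +
      (504144 * x ^ 2 - 137052 * w - 23814 * k) * w +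
      (-380340 * x ^ 2 - 15390 * k) * x ^ 2 +
      (12960) * (x * n) +
      (0) * n ^ 2) * r1 - de * r5
  have r2 : (-24 * x ^ 3 * n - 1098 * x ^ 2 * m * k - 72 * x * w * n + 612 * x * m * n - 972 * x * k *
      n - 486 * w * m * k + 405 * m ^ 2 * k + 243 * m * k ^ 2 + 324 * n ^ 2) * σ +
      (405 * x ^ 2 - 297 * w + 135 * m) * m +
      (-684 * x ^ 2 + 162 * w - 27 * k) * w +
      (490 * x ^ 2 - 45 * k) * x ^ 2 +
      (-90) * (x * n) +
      (0) * n ^ 2 = 0 := by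
    have := h.l2
    unfold pA2 pB2 at this
    linear_combination this
  have r4 : (-67272 * x ^ 5 * n - 29016 * x ^ 4 * m * k + 114192 * x ^ 3 * w * n - 48744 * x ^ 3 * m *
      n - 20088 * x ^ 3 * k * n - 156168 * x ^ 2 * w * m * k + 215946 * x ^ 2 * m ^ 2 * k +
      128790 * x ^ 2 * m * k ^ 2 + 38772 * x ^ 2 * n ^ 2 - 47304 * x * w ^ 2 * n + 143208 * x *
      w * m * n - 105624 * x * w * k * n - 112914 * x * m ^ 2 * n + 68688 * x * m * k * n +
      30618 * x * k ^ 2 * n - 38880 * w ^ 2 * m * k + 67554 * w * m ^ 2 * k + 35478 * w * m * k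
      ^ 2 + 24948 * w * n ^ 2 - 29403 * m ^ 3 * k - 27702 * m ^ 2 * k ^ 2 - 2187 * m * k ^ 3 -
      25434 * m * n ^ 2 + 1458 * k * n ^ 2) * σ +
      (78570 * x ^ 4 - 102384 * x ^ 2 * w + 39690 * x ^ 2 * m + 2430 * x ^ 2 * k - 4860 * x * n
      + 23814 * w ^ 2 - 14094 * w * m + 6318 * w * k + 1620 * m ^ 2 - 4860 * m * k) * m +
      (-133812 * x ^ 4 + 81324 * x ^ 2 * w - 3240 * x ^ 2 * k + 20412 * x * n - 11340 * w ^ 2 -
      1458 * w * k) * w +
      (63700 * x ^ 4 + 90 * x ^ 2 * k - 20700 * x * n) * x ^ 2 +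
      (1620 * k) * (x * n) +
      (3240) * n ^ 2 = 0 := by
    have := h.l4
    unfold pA4 pB4 at this
    linear_combination this
  have hal2 : φ al = 9 * φ k := by
    rw [hal]; simp only [map_add, map_sub, map_mul, map_pow, map_neg, map_zero, map_ofNat, map_one, hx, hw, hm, hn, hσ]; ring
  have hde2 : φ de = -9 := by
    rw [hde]; simp only [map_add, map_sub, map_mul, map_pow, map_neg, map_zero, map_ofNat, map_one, hx, hw, hm, hn, hσ]; ring
  have hfin := lin_block φ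
    !![al * (-3156 * x ^ 4 + 4104 * x ^ 2 * w - 7776 * x ^ 2 * m + 6480 * x ^ 2 * k - 4212 * x * n -
      756 * w ^ 2 - 1728 * w * m + 4536 * w * k + 2241 * m ^ 2 - 1944 * m * k - 729 * k ^ 2) - de * (6516 * x ^ 2 * m * k + 12204 * w * m * k - 12042 * m ^ 2 * k - 7290 * m * k ^ 2), al * (-1080) - de * (5070 * x ^ 2 - 4158 * w + 540 * m - 540 * k), al * (1080) - de * (-8616 * x ^ 2 + 3780 * w + 486 * k);
      al * (-1391280 * x ^ 6 + 2839680 * x ^ 4 * w - 1713780 * x ^ 4 * m + 26244 * x ^ 4 * k + 442800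
      * x ^ 3 * n - 1657584 * x ^ 2 * w ^ 2 + 1182600 * x ^ 2 * w * m + 985608 * x ^ 2 * w * k
      + 987228 * x ^ 2 * m ^ 2 - 1103868 * x ^ 2 * m * k - 661932 * x ^ 2 * k ^ 2 - 1101600 * x
      * w * n + 1297944 * x * m * n - 40824 * x * k * n + 209952 * w ^ 3 - 831060 * w ^ 2 * m +
      442260 * w ^ 2 * k + 1055592 * w * m ^ 2 - 603612 * w * m * k - 198288 * w * k ^ 2 -
      436671 * m ^ 3 + 181035 * m ^ 2 * k + 247131 * m * k ^ 2 + 6561 * k ^ 3 + 61236 * n ^ 2) - de * (-201816 * x ^ 4 * m * k + 1627776 * x ^ 2 * w * m * k - 3085776 * x ^ 2 * m ^ 2 * k -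
      1605744 * x ^ 2 * m * k ^ 2 + 1261656 * w ^ 2 * m * k - 3019032 * w * m ^ 2 * k - 1728216
      * w * m * k ^ 2 + 1662606 * m ^ 3 * k + 1643652 * m ^ 2 * k ^ 2 + 144342 * m * k ^ 3), al * (-392850 * x ^ 2 + 179334 * w - 43740 * m + 53460 * k) - de * (1460880 * x ^ 4 - 2343816 * x ^ 2 * w + 625320 * x ^ 2 * m - 80460 * x ^ 2 * k + 911736 *
      w ^ 2 - 655128 * w * m - 61236 * w * k + 205740 * m ^ 2 + 97200 * m * k + 4860 * k ^ 2), al * (504144 * x ^ 2 - 137052 * w - 23814 * k) - de * (-2484720 * x ^ 4 + 1931040 * x ^ 2 * w + 5400 * x ^ 2 * k - 465264 * w ^ 2 + 31104 * w *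
      k);
      (-24 * x ^ 3 * n - 1098 * x ^ 2 * m * k - 72 * x * w * n + 612 * x * m * n - 972 * x * k *
      n - 486 * w * m * k + 405 * m ^ 2 * k + 243 * m * k ^ 2 + 324 * n ^ 2), (405 * x ^ 2 - 297 * w + 135 * m), (-684 * x ^ 2 + 162 * w - 27 * k)]
    !![al * (-1440) - de * (4900 * x ^ 2 + 90 * k), al * (0) - de * (0), al * (0) - de * (0);
      al * (-380340 * x ^ 2 - 15390 * k) - de * (1019200 * x ^ 4 + 360 * x ^ 2 * k), al * (12960) - de * (0), al * (0) - de * (0);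
      (490 * x ^ 2 - 45 * k), (-90), (0)]
    !![0, 0, 0; 0, 0, 0; (-67272 * x ^ 5 * n - 29016 * x ^ 4 * m * k + 114192 * x ^ 3 * w * n - 48744 * x ^ 3 * m *
      n - 20088 * x ^ 3 * k * n - 156168 * x ^ 2 * w * m * k + 215946 * x ^ 2 * m ^ 2 * k +
      128790 * x ^ 2 * m * k ^ 2 + 38772 * x ^ 2 * n ^ 2 - 47304 * x * w ^ 2 * n + 143208 * x *
      w * m * n - 105624 * x * w * k * n - 112914 * x * m ^ 2 * n + 68688 * x * m * k * n +
      30618 * x * k ^ 2 * n - 38880 * w ^ 2 * m * k + 67554 * w * m ^ 2 * k + 35478 * w * m * k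
      ^ 2 + 24948 * w * n ^ 2 - 29403 * m ^ 3 * k - 27702 * m ^ 2 * k ^ 2 - 2187 * m * k ^ 3 -
      25434 * m * n ^ 2 + 1458 * k * n ^ 2), (78570 * x ^ 4 - 102384 * x ^ 2 * w + 39690 * x ^ 2 * m + 2430 * x ^ 2 * k - 4860 * x * n
      + 23814 * w ^ 2 - 14094 * w * m + 6318 * w * k + 1620 * m ^ 2 - 4860 * m * k), (-133812 * x ^ 4 + 81324 * x ^ 2 * w - 3240 * x ^ 2 * k + 20412 * x * n - 11340 * w ^ 2 -
      1458 * w * k)]
    !![al, de, 0; 0, al, de; (63700 * x ^ 4 + 90 * x ^ 2 * k - 20700 * x * n), (1620 * k), (3240)]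
    ![σ, m, w] ![x ^ 2, x * n, n ^ 2]
    (by
      ext i
      fin_cases i
      · simp [Matrix.mulVec, dotProduct, Fin.sum_univ_three]; linear_combination y3
      · simp [Matrix.mulVec, dotProduct, Fin.sum_univ_three]; linear_combination y5
      · simp [Matrix.mulVec, dotProduct, Fin.sum_univ_three]; linear_combination r2)
    (by
      ext i
      fin_cases i
      · simp [Matrix.mulVec, dotProduct, Fin.sum_univ_three]; linear_combination x * r1
      · simp [Matrix.mulVec, dotProduct, Fin.sum_univ_three]; linear_combination n * r1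
      · simp [Matrix.mulVec, dotProduct, Fin.sum_univ_three]; linear_combination r4)
    (by
      ext i j
      fin_cases i <;> fin_cases j <;> simp [hx, hw, hm, hn, hσ])
    (by
      intro hz
      rw [Matrix.det_fin_three] at hz
      simp [hx, hw, hm, hn, hσ, hal2, hde2, map_ofNat, -mul_eq_zero] at hz
      have hz2 : (69735688020 : κ) * φ k ^ 6 = 0 := by linear_combination hz
      exact mul_ne_zero (by norm_num) (pow_ne_zero _ hk) hz2)
    (by
      intro hz
      rw [Matrix.det_fin_three] at hz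
      simp [hx, hw, hm, hn, hσ, hal2, hde2, map_ofNat, -mul_eq_zero] at hz
      have hz2 : (393660 : κ) * φ k ^ 2 = 0 := by linear_combination hz
      exact mul_ne_zero (by norm_num) (pow_ne_zero _ hk) hz2)
  exact congrFun hfin.1 0

end Run7.h793
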