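import Pool.Agent.Run7.h793.S2Val

/-!
The contradiction in the rotational case.
-/

namespace Run7.h793

set_option linter.unusedSimpArgs false
set_option linter.unusedVariables false

theorem Sys.of_inj {R S : Type*} [CommRing R] [CommRing S] (φ : R →+* S)
    (hφ : Function.Injective φ) {x w m k s n : R}
    (h : Sys (φ x) (φ w) (φ m) (φ k) (φ s) (φ n)) : Sys x w m k s n := by
  obtain ⟨l1, l2, l3, l4, l5, l6, lx⟩ := h
  refine ⟨?_, ?_, ?_, ?_, ?_, ?_, ?_⟩
  · apply hφ
    simpa only [pA1, pB1, map_add, map_sub, map_mul, map_pow, map_neg, map_zero, map_ofNat]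
      using l1
  · apply hφ
    simpa only [pA2, pB2, map_add, map_sub, map_mul, map_pow, map_neg, map_zero, map_ofNat]
      using l2
  · apply hφ
    simpa only [pA3, pB3, map_add, map_sub, map_mul, map_pow, map_neg, map_zero, map_ofNat]
      using l3
  · apply hφ
    simpa only [pA4, pB4, map_add, map_sub, map_mul, map_pow, map_neg, map_zero, map_ofNat]
      using l4
  · apply hφ
    simpa only [pA5, pB5, map_add, map_sub, map_mul, map_pow, map_neg, map_zero, map_ofNat]
      using l5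
  · apply hφ
    simpa only [pA6, pB6, map_add, map_sub, map_mul, map_pow, map_neg, map_zero, map_ofNat]
      using l6
  · apply hφ
    simpa only [pX, map_add, map_sub, map_mul, map_pow, map_neg, map_zero, map_ofNat]
      using lx

theorem SysInf.of_inj {R S : Type*} [CommRing R] [CommRing S] (φ : R →+* S)
    (hφ : Function.Injective φ) {x w m k s n : R}
    (h : SysInf (φ x) (φ w) (φ m) (φ k) (φ s) (φ n)) : SysInf x w m k s n := by
  obtain ⟨l1, l2, l3, l4, l5, lx⟩ := h
  refine ⟨?_, ?_, ?_, ?_, ?_, ?_⟩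
  · apply hφ
    simpa only [pA1, pB1, map_add, map_sub, map_mul, map_pow, map_neg, map_zero, map_ofNat]
      using l1
  · apply hφ
    simpa only [pA2, pB2, map_add, map_sub, map_mul, map_pow, map_neg, map_zero, map_ofNat]
      using l2
  · apply hφ
    simpa only [pA3, pB3, map_add, map_sub, map_mul, map_pow, map_neg, map_zero, map_ofNat]
      using l3
  · apply hφ
    simpa only [pA4, pB4, map_add, map_sub, map_mul, map_pow, map_neg, map_zero, map_ofNat]
      using l4
  · apply hφ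
    simpa only [pA5, pB5, map_add, map_sub, map_mul, map_pow, map_neg, map_zero, map_ofNat]
      using l5
  · apply hφ
    simpa only [map_one, map_add, map_sub, map_mul, map_pow, map_neg, map_zero, map_ofNat]
      using lx

theorem SysInf.of_sys {K : Type*} [Field K] {x w m k s n : K} (hs : s ≠ 0)
    (h : Sys x w m k s n) : SysInf x w m k s⁻¹ n := by
  obtain ⟨l1, l2, l3, l4, l5, l6, lx⟩ := h
  have hss : s * s⁻¹ = 1 := mul_inv_cancel₀ hs
  refine ⟨?_, ?_, ?_, ?_, ?_, ?_⟩
  · linear_combination s⁻¹ * l1 - pA1 x w m k n * hss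
  · linear_combination s⁻¹ * l2 - pA2 x w m k n * hss
  · linear_combination s⁻¹ * l3 - pA3 x w m k n * hss
  · linear_combination s⁻¹ * l4 - pA4 x w m k n * hss
  · linear_combination s⁻¹ * l5 - pA5 x w m k n * hss
  · unfold pX at lx
    field_simp
    linear_combination lx

theorem root_exists {K Γ : Type*} [Field K] [LinearOrderedCommGroupWithZero Γ]
    (v : Valuation K Γ) (hsq : ∀ a : K, a ≠ 0 → ∃ b, b ≠ 0 ∧ (b ^ 2 = a ∨ b ^ 2 = -a)) (a : K) :
    ∃ r : K, r ≠ 0 ∧ v a ≤ v r ^ 2 ∧ (v r = 1 ∨ (a ≠ 0 ∧ v a = v r ^ 2)) := by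
  by_cases ha : a = 0
  · refine ⟨1, one_ne_zero, ?_, Or.inl (map_one v)⟩
    rw [ha, map_zero]; exact zero_le
  · obtain ⟨b, hb, h⟩ := hsq a ha
    have hv : v a = v b ^ 2 := by
      rcases h with h | h
      · rw [← h, map_pow]
      · rw [← map_pow, h, Valuation.map_neg]
    exact ⟨b, hb, hv.le, Or.inr ⟨ha, hv⟩⟩

theorem root3_exists {K Γ : Type*} [Field K] [LinearOrderedCommGroupWithZero Γ]
    (v : Valuation K Γ) (hcb : ∀ a : K, a ≠ 0 → ∃ b, b ≠ 0 ∧ b ^ 3 = a) (a : K) :
    ∃ r : K, r ≠ 0 ∧ v a ≤ v r ^ 3 ∧ (v r = 1 ∨ (a ≠ 0 ∧ v a = v r ^ 3)) := by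
  by_cases ha : a = 0
  · refine ⟨1, one_ne_zero, ?_, Or.inl (map_one v)⟩
    rw [ha, map_zero]; exact zero_le
  · obtain ⟨b, hb, h⟩ := hcb a ha
    have hv : v a = v b ^ 3 := by rw [← h, map_pow]
    exact ⟨b, hb, hv.le, Or.inr ⟨ha, hv⟩⟩

theorem scale_exists {K Γ : Type*} [Field K] [LinearOrderedCommGroupWithZero Γ]
    (v : Valuation K Γ) (hsq : ∀ a : K, a ≠ 0 → ∃ b, b ≠ 0 ∧ (b ^ 2 = a ∨ b ^ 2 = -a))
    (hcb : ∀ a : K, a ≠ 0 → ∃ b, b ≠ 0 ∧ b ^ 3 = a) (m k s n : K) :
    ∃ c : K, c ≠ 0 ∧ 1 ≤ v c ∧ v m ≤ v c ^ 2 ∧ v k ≤ v c ^ 2 ∧ v s ≤ v c ^ 2 ∧ v n ≤ v c ^ 3 ∧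
      (v c = 1 ∨ (m ≠ 0 ∧ v m = v c ^ 2) ∨ (k ≠ 0 ∧ v k = v c ^ 2) ∨ (s ≠ 0 ∧ v s = v c ^ 2) ∨
        (n ≠ 0 ∧ v n = v c ^ 3)) := by
  classical
  obtain ⟨rm, hm1, hm2, hm3⟩ := root_exists v hsq m
  obtain ⟨rk, hk1, hk2, hk3⟩ := root_exists v hsq k
  obtain ⟨rs, hs1, hs2, hs3⟩ := root_exists v hsq s
  obtain ⟨rn, hn1, hn2, hn3⟩ := root3_exists v hcb n
  obtain ⟨c, hc, hmax⟩ := Finset.exists_max_image ({1, rm, rk, rs, rn} : Finset K) (fun y => v y)
    ⟨1, by simp⟩
  have h1 : v 1 ≤ v c := hmax 1 (by simp)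
  have h2 : v rm ≤ v c := hmax rm (by simp)
  have h3 : v rk ≤ v c := hmax rk (by simp)
  have h4 : v rs ≤ v c := hmax rs (by simp)
  have h5 : v rn ≤ v c := hmax rn (by simp)
  rw [map_one] at h1
  simp only [Finset.mem_insert, Finset.mem_singleton] at hc
  refine ⟨c, ?_, h1, hm2.trans (pow_le_pow_left₀ zero_le h2 2),
    hk2.trans (pow_le_pow_left₀ zero_le h3 2), hs2.trans (pow_le_pow_left₀ zero_le h4 2),
    hn2.trans (pow_le_pow_left₀ zero_le h5 3), ?_⟩
  · rcases hc with rfl | rfl | rfl | rfl | rfl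
    · exact one_ne_zero
    · exact hm1
    · exact hk1
    · exact hs1
    · exact hn1
  · rcases hc with rfl | rfl | rfl | rfl | rfl
    · exact Or.inl (map_one v)
    · rcases hm3 with h | h
      · exact Or.inl h
      · exact Or.inr (Or.inl h)
    · rcases hk3 with h | h
      · exact Or.inl h
      · exact Or.inr (Or.inr (Or.inl h))
    · rcases hs3 with h | h
      · exact Or.inl h
      · exact Or.inr (Or.inr (Or.inr (Or.inl h)))
    · rcases hn3 with h | h
      · exact Or.inl h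
      · exact Or.inr (Or.inr (Or.inr (Or.inr h)))

/-- the residue of a quotient -/
theorem quot_mem {K : Type*} [Field K] (B : ValuationSubring K) {a c : K} (hc : c ≠ 0)
    (h : B.valuation a ≤ B.valuation c) : ∃ t : B, (t : K) = a / c ∧
      (IsLocalRing.residue B t = 0 ↔ B.valuation a < B.valuation c) := by
  have hc' : (0 : B.ValueGroup) < B.valuation c := by
    rw [Valuation.pos_iff]; exact hc
  have hmem : a / c ∈ B := by
    rw [← ValuationSubring.valuation_le_one_iff, map_div₀]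
    exact (div_le_one₀ hc').mpr h
  refine ⟨⟨a / c, hmem⟩, rfl, ?_⟩
  rw [IsLocalRing.residue_eq_zero_iff, ValuationSubring.valuation_lt_one_iff]
  change B.valuation (a / c) < 1 ↔ _
  rw [map_div₀]
  exact div_lt_one₀ hc'

theorem s2_place {K : Type*} [Field K] [CharZero K] (B : ValuationSubring K)
    (hQ : ∀ q : ℚ, (q : K) ∈ B)
    (hsq : ∀ a : K, a ≠ 0 → ∃ b, b ≠ 0 ∧ (b ^ 2 = a ∨ b ^ 2 = -a))
    (hcb : ∀ a : K, a ≠ 0 → ∃ b, b ≠ 0 ∧ b ^ 3 = a)
    {x m k s n : K} (hv : B.valuation x < 1) (h : Sys x 1 m k s n)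
    (ht : 3 * n + x * s ≠ 0) (hx : x ≠ 0) : False := by
  obtain ⟨κ, hκ⟩ : ∃ κ : Type _, κ = IsLocalRing.ResidueField B := ⟨_, rfl⟩
  have hchar : CharZero (IsLocalRing.ResidueField B) := by
    let f : ℚ →+* B := (algebraMap ℚ K).codRestrict B.toSubring (fun q => by
      have := hQ q
      simpa using this)
    exact charZero_of_injective_ringHom ((IsLocalRing.residue B).comp f).injective
  set φ := IsLocalRing.residue B with hφ
  have hinj : Function.Injective (B.subtype : B →+* K) := Subtype.val_injective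
  obtain ⟨c, hc, c1, cm, ck, cs, cn, hcase⟩ := scale_exists B.valuation hsq hcb m k s n
  have hc2 : c ^ 2 ≠ 0 := pow_ne_zero 2 hc
  have hc3 : c ^ 3 ≠ 0 := pow_ne_zero 3 hc
  obtain ⟨xt, ex, rx⟩ := quot_mem B (a := x) hc (hv.le.trans c1)
  obtain ⟨wt, ew, rw'⟩ := quot_mem B (a := 1) hc2 (by
    rw [map_pow, map_one]; exact one_le_pow₀ c1)
  obtain ⟨mt, em, rm⟩ := quot_mem B (a := m) hc2 (by rw [map_pow]; exact cm)
  obtain ⟨kt, ek, rk⟩ := quot_mem B (a := k) hc2 (by rw [map_pow]; exact ck)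
  obtain ⟨st, es, rs⟩ := quot_mem B (a := s) hc2 (by rw [map_pow]; exact cs)
  obtain ⟨nt, en, rn⟩ := quot_mem B (a := n) hc3 (by rw [map_pow]; exact cn)
  have hxr : φ xt = 0 := rx.mpr (lt_of_lt_of_le hv c1)
  have hsys : Sys xt wt mt kt st nt := by
    apply Sys.of_inj B.subtype hinj
    change Sys (xt : K) (wt : K) (mt : K) (kt : K) (st : K) (nt : K)
    rw [ex, ew, em, ek, es, en]
    apply Sys.scale hc
    have e1 : c * (x / c) = x := by field_simp
    have e2 : c ^ 2 * (1 / c ^ 2) = 1 := by field_simp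
    have e3 : c ^ 2 * (m / c ^ 2) = m := by field_simp
    have e4 : c ^ 2 * (k / c ^ 2) = k := by field_simp
    have e5 : c ^ 2 * (s / c ^ 2) = s := by field_simp
    have e6 : c ^ 3 * (n / c ^ 3) = n := by field_simp
    rw [e1, e2, e3, e4, e5, e6]
    exact h
  have hne : ¬(φ wt = 0 ∧ φ mt = 0 ∧ φ kt = 0 ∧ φ st = 0 ∧ φ nt = 0) := by
    rintro ⟨z1, z2, z3, z4, z5⟩
    rw [rw', map_pow, map_one] at z1
    rw [rm, map_pow] at z2
    rw [rk, map_pow] at z3
    rw [rs, map_pow] at z4
    rw [rn, map_pow] at z5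
    rcases hcase with h1 | ⟨_, h1⟩ | ⟨_, h1⟩ | ⟨_, h1⟩ | ⟨_, h1⟩
    · rw [h1, one_pow] at z1; exact lt_irrefl _ z1
    · rw [h1] at z2; exact lt_irrefl _ z2
    · rw [h1] at z3; exact lt_irrefl _ z3
    · rw [h1] at z4; exact lt_irrefl _ z4
    · rw [h1] at z5; exact lt_irrefl _ z5
  -- contradiction from `n = 0` and `x * s = 0`
  have fin1 : nt = 0 → xt * st = 0 → False := by
    intro z1 z2
    apply ht
    have z1' : n = 0 := by
      have : (nt : K) = 0 := by rw [z1]; rfl
      rw [en] at this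
      exact (div_eq_zero_iff.mp this).resolve_right hc3
    have z2' : x * s = 0 := by
      have : (xt : K) * (st : K) = 0 := congrArg B.subtype z2
      rw [ex, es] at this
      have e7 : x / c * (s / c ^ 2) = x * s / c ^ 3 := by field_simp
      rw [e7] at this
      exact (div_eq_zero_iff.mp this).resolve_right hc3
    rw [z1', z2']; ring
  have hm := hsys.map φ
  rw [hxr] at hm
  obtain ⟨hn0, hcl⟩ := slice_class hm
  rcases hcl with ⟨hk0, hs0⟩ | ⟨hm0, hs0⟩ | ⟨hw0, hk0, hm0, hs0⟩ | ⟨hw0, hm0⟩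
  · -- k = s = 0
    by_cases hwm : φ wt = 0 ∧ φ mt = 0
    · exact hne ⟨hwm.1, hwm.2, hk0, hs0, hn0⟩
    · by_cases hm1 : φ mt = φ wt
      · have hw : φ wt ≠ 0 := fun h0 => hwm ⟨h0, by rw [hm1, h0]⟩
        obtain ⟨z1, z2⟩ := loc_E0 φ hsys hxr hw hm1 hk0 hs0 hn0
        exact fin1 z1 z2
      · by_cases hm2 : φ mt = 2 * φ wt
        · have hw : φ wt ≠ 0 := fun h0 => hwm ⟨h0, by rw [hm2, h0, mul_zero]⟩
          obtain ⟨z1, z2, z3⟩ := loc_S φ hsys hxr hw hm2 hk0 hs0 hn0
          exact fin1 z2 (by rw [z3, mul_zero])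
        · obtain ⟨z1, z2, z3⟩ := loc_D2 φ hsys hxr hk0 hs0 hn0 hwm hm1 hm2
          exact fin1 z3 (by rw [z2, mul_zero])
  · -- m = s = 0
    by_cases hw : φ wt = 0
    · have hk : φ kt ≠ 0 := fun h0 => hne ⟨hw, hm0, h0, hs0, hn0⟩
      obtain ⟨z1, z2, z3⟩ := loc_Q φ hsys hxr hw hm0 hk hn0
      refine fin1 z1 ?_
      have hwne : wt ≠ 0 := by
        intro h0
        have : (wt : K) = 0 := by rw [h0]; rfl
        rw [ew] at this
        exact one_ne_zero ((div_eq_zero_iff.mp this).resolve_right hc2)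
      rw [(mul_eq_zero.mp z3).resolve_left hwne, mul_zero]
    · obtain ⟨z1, z2, z3⟩ := loc_D1 φ hsys hxr hm0 hs0 hn0 hw
      exact fin1 z3 (by rw [z2, mul_zero])
  · -- equilibrium
    have := loc_E3 φ hsys hxr hw0 hm0 hk0 hs0 hn0
    have h2 : (xt : K) = 0 := by rw [this]; rfl
    rw [ex] at h2
    exact hx ((div_eq_zero_iff.mp h2).resolve_right hc)
  · -- w = m = 0
    by_cases hk : φ kt = 0
    · -- s dominates
      have hs0 : φ st ≠ 0 := fun h0 => hne ⟨hw0, hm0, hk, h0, hn0⟩
      have hsK : s ≠ 0 := by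
        intro h0
        apply hs0
        have : st = 0 := by
          apply hinj
          change (st : K) = ((0 : B) : K)
          rw [es, h0, zero_div]; rfl
        rw [this, map_zero]
      have hvs : B.valuation s = B.valuation c ^ 2 := by
        have : ¬ B.valuation s < B.valuation (c ^ 2) := fun h0 => hs0 (rs.mpr h0)
        rw [map_pow] at this
        exact le_antisymm cs (not_lt.mp this)
      have hw1 : 1 < B.valuation c ^ 2 := by
        have := rw'.mp hw0; rwa [map_pow, map_one] at this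
      have hm1 : B.valuation m < B.valuation c ^ 2 := by
        have := rm.mp hm0; rwa [map_pow] at this
      have hk1 : B.valuation k < B.valuation c ^ 2 := by
        have := rk.mp hk; rwa [map_pow] at this
      have hn1 : B.valuation n < B.valuation c ^ 3 := by
        have := rn.mp hn0; rwa [map_pow] at this
      obtain ⟨d, hd, d1, dm, dk, _, dn, hcase2⟩ := scale_exists B.valuation hsq hcb m k 0 n
      have hdc : B.valuation d ^ 2 < B.valuation s := by
        rw [hvs]
        rcases hcase2 with h1 | ⟨_, h1⟩ | ⟨_, h1⟩ | ⟨h0, _⟩ | ⟨_, h1⟩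
        · rw [h1, one_pow]; exact hw1
        · rw [← h1]; exact hm1
        · rw [← h1]; exact hk1
        · exact absurd rfl h0
        · rw [h1] at hn1
          exact pow_lt_pow_left₀ (lt_of_pow_lt_pow_left₀ 3 zero_le hn1) zero_le (by norm_num)
      have hd2 : d ^ 2 ≠ 0 := pow_ne_zero 2 hd
      have hd3 : d ^ 3 ≠ 0 := pow_ne_zero 3 hd
      obtain ⟨xu, fx, gx⟩ := quot_mem B (a := x) hd (hv.le.trans d1)
      obtain ⟨wu, fw, gw⟩ := quot_mem B (a := 1) hd2 (by
        rw [map_pow, map_one]; exact one_le_pow₀ d1)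
      obtain ⟨mu, fm, gm⟩ := quot_mem B (a := m) hd2 (by rw [map_pow]; exact dm)
      obtain ⟨ku, fk, gk⟩ := quot_mem B (a := k) hd2 (by rw [map_pow]; exact dk)
      obtain ⟨σu, fσ, gσ⟩ := quot_mem B (a := d ^ 2) hsK (by rw [map_pow]; exact hdc.le)
      obtain ⟨nu, fn, gn⟩ := quot_mem B (a := n) hd3 (by rw [map_pow]; exact dn)
      have hsys2 : SysInf xu wu mu ku σu nu := by
        apply SysInf.of_inj B.subtype hinj
        change SysInf (xu : K) (wu : K) (mu : K) (ku : K) (σu : K) (nu : K)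
        rw [fx, fw, fm, fk, fσ, fn]
        have e0 : d ^ 2 / s = (s / d ^ 2)⁻¹ := by field_simp
        rw [e0]
        apply SysInf.of_sys (div_ne_zero hsK hd2)
        apply Sys.scale hd
        have e1 : d * (x / d) = x := by field_simp
        have e2 : d ^ 2 * (1 / d ^ 2) = 1 := by field_simp
        have e3 : d ^ 2 * (m / d ^ 2) = m := by field_simp
        have e4 : d ^ 2 * (k / d ^ 2) = k := by field_simp
        have e5 : d ^ 2 * (s / d ^ 2) = s := by field_simp
        have e6 : d ^ 3 * (n / d ^ 3) = n := by field_simp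
        rw [e1, e2, e3, e4, e5, e6]
        exact h
      have hxu : φ xu = 0 := gx.mpr (lt_of_lt_of_le hv d1)
      have hσu : φ σu = 0 := gσ.mpr (by rw [map_pow]; exact hdc)
      have hne2 : ¬(φ wu = 0 ∧ φ mu = 0 ∧ φ ku = 0 ∧ φ nu = 0) := by
        rintro ⟨z1, z2, z3, z5⟩
        rw [gw, map_pow, map_one] at z1
        rw [gm, map_pow] at z2
        rw [gk, map_pow] at z3
        rw [gn, map_pow] at z5
        rcases hcase2 with h1 | ⟨_, h1⟩ | ⟨_, h1⟩ | ⟨h0, _⟩ | ⟨_, h1⟩
        · rw [h1, one_pow] at z1; exact lt_irrefl _ z1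
        · rw [h1] at z2; exact lt_irrefl _ z2
        · rw [h1] at z3; exact lt_irrefl _ z3
        · exact absurd rfl h0
        · rw [h1] at z5; exact lt_irrefl _ z5
      have hxu0 : xu ≠ 0 := by
        intro h0
        have : (xu : K) = 0 := by rw [h0]; rfl
        rw [fx] at this
        exact hx ((div_eq_zero_iff.mp this).resolve_right hd)
      have hfin := loc_inf φ hsys2 hxu hσu hne2 hxu0
      have : (σu : K) = 0 := by rw [hfin]; rfl
      rw [fσ] at this
      rcases div_eq_zero_iff.mp this with h1 | h1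
      · exact hd2 h1
      · exact hsK h1
    · obtain ⟨z1, z2, z3⟩ := loc_Q φ hsys hxr hw0 hm0 hk hn0
      refine fin1 z1 ?_
      have hwne : wt ≠ 0 := by
        intro h0
        have : (wt : K) = 0 := by rw [h0]; rfl
        rw [ew] at this
        exact one_ne_zero ((div_eq_zero_iff.mp this).resolve_right hc2)
      rw [(mul_eq_zero.mp z3).resolve_left hwne, mul_zero]

theorem s2_contra {K : Type*} [Field K] [CharZero K] (D : Derivation ℤ K K)
    (hsq : ∀ a : K, a ≠ 0 → ∃ b, b ≠ 0 ∧ (b ^ 2 = a ∨ b ^ 2 = -a))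
    (hcb : ∀ a : K, a ≠ 0 → ∃ b, b ≠ 0 ∧ b ^ 3 = a)
    {x m k s n : K} (hx : D x = 1 - m - x ^ 2) (hm : D m = 2 * x * m + n)
    (hk : D k = 2 * x * k - n) (hs : D s = 2 / 3 * x * s + 2 * n) (hn : D n = -m * k)
    (l1 : s * pA1 x 1 m k n + pB1 x 1 m k n = 0) (lx : pX x 1 m k s n = 0)
    (ht : 3 * n + x * s ≠ 0) : False := by
  have hsys := Sys.of_l1 D hx (Derivation.map_one_eq_zero D) hm hk hs hn l1 lx
  by_cases hD : D x = 0
  · have e1 : m = 1 - x ^ 2 := by rw [hx] at hD; linear_combination -hD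
    have e2 : n = -2 * x * m := by
      have h1 : D m = 0 := by
        rw [e1, map_sub, Derivation.map_one_eq_zero, Derivation.leibniz_pow, hD]; simp
      rw [hm] at h1; linear_combination h1
    have hDm : D m = 0 := by rw [hm, e2]; ring
    have e3 : m * k = 0 := by
      have h1 : D n = 0 := by
        rw [e2, Derivation.leibniz, Derivation.leibniz, hD, hDm, map_neg, der_ofNat]; simp
      rw [hn] at h1; linear_combination -h1
    have l1' := l1
    unfold pA1 pB1 at l1'
    rcases mul_eq_zero.mp e3 with h1 | h1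
    · have hn0 : n = 0 := by rw [e2, h1]; ring
      have hx2 : x ^ 2 = 1 := by rw [h1] at e1; linear_combination e1
      have hx0 : x ≠ 0 := by rintro rfl; norm_num at hx2
      rw [hn0, h1] at l1'
      have hsk : s * (16 + 9 * k) = 0 := by
        refine mul_left_cancel₀ hx0 ?_
        linear_combination l1' - 70 * s * x * hx2
      rcases mul_eq_zero.mp hsk with h2 | h2
      · apply ht; rw [hn0, h2]; ring
      · have hk0 : D k = 0 := by
          have : k = -(16 / 9) := by linear_combination (1 / 9) * h2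
          rw [this, map_neg]
          have h16 : (16 / 9 : K) = ((16 / 9 : ℚ) : K) := by norm_num
          have h9 : (9 : K) * (16 / 9) = 16 := by norm_num
          have := congrArg D h9
          rw [Derivation.leibniz, der_ofNat, der_ofNat] at this
          simp at this
          rw [this, neg_zero]
        rw [hk, hn0] at hk0
        have : x * k = 0 := by
          refine mul_left_cancel₀ (show (2 : K) ≠ 0 by norm_num) ?_
          linear_combination hk0
        rcases mul_eq_zero.mp this with h3 | h3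
        · exact hx0 h3
        · rw [h3] at h2; norm_num at h2
    · have hn0 : n = 0 := by
        have h2 : D k = 0 := by rw [h1, map_zero]
        rw [hk, h1] at h2; linear_combination -h2
      have hxm : x * m = 0 := by
        refine mul_left_cancel₀ (show (-2 : K) ≠ 0 by norm_num) ?_
        linear_combination hn0 - e2
      rcases mul_eq_zero.mp hxm with h2 | h2
      · apply ht; rw [hn0, h2]; ring
      · -- m = 0, k = 0, n = 0, x^2 = 1
        have hx2 : x ^ 2 = 1 := by rw [h2] at e1; linear_combination e1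
        have hx0 : x ≠ 0 := by rintro rfl; norm_num at hx2
        rw [hn0, h1, h2] at l1'
        have hs0 : s = 0 := by
          refine mul_left_cancel₀ (mul_ne_zero (show (16 : K) ≠ 0 by norm_num) hx0) ?_
          linear_combination l1' - 70 * s * x * hx2
        apply ht; rw [hn0, hs0]; ring
  · obtain ⟨B, hQ, hv⟩ := exists_place D hD
    have hx0 : x ≠ 0 := by rintro rfl; exact hD (map_zero D)
    exact s2_place B hQ hsq hcb hv hsys ht hx0

end Run7.h793
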