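import Mathlib

/-!
Polynomials of the rotational case.
-/

namespace Run7.h793

variable {R : Type*} [CommRing R]

/-- coefficient polynomial -/
def pA1 (x w m k n : R) : R :=
    70 * x ^ 3 - 54 * x * w + 45 * x * m + 9 * x * k - 9 * n

/-- coefficient polynomial -/
def pB1 (x w m k n : R) : R :=
    66 * x ^ 2 * n + 144 * x * m * k - 18 * w * n - 9 * m * n + 81 * k * n

/-- coefficient polynomial -/
def pA2 (x w m k n : R) : R :=
    490 * x ^ 4 - 684 * x ^ 2 * w + 405 * x ^ 2 * m - 45 * x ^ 2 * k - 90 * x * n + 162 * w ^ 2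
    - 297 * w * m - 27 * w * k + 135 * m ^ 2

/-- coefficient polynomial -/
def pB2 (x w m k n : R) : R :=
    -24 * x ^ 3 * n - 1098 * x ^ 2 * m * k - 72 * x * w * n + 612 * x * m * n - 972 * x * k * n
    - 486 * w * m * k + 405 * m ^ 2 * k + 243 * m * k ^ 2 + 324 * n ^ 2

/-- coefficient polynomial -/
def pA3 (x w m k n : R) : R :=
    4900 * x ^ 5 - 8616 * x ^ 3 * w + 5070 * x ^ 3 * m + 90 * x ^ 3 * k - 1440 * x ^ 2 * n +
    3780 * x * w ^ 2 - 4158 * x * w * m + 486 * x * w * k + 540 * x * m ^ 2 - 540 * x * m * k +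
    1080 * w * n - 1080 * m * n

/-- coefficient polynomial -/
def pB3 (x w m k n : R) : R :=
    -3156 * x ^ 4 * n + 6516 * x ^ 3 * m * k + 4104 * x ^ 2 * w * n - 7776 * x ^ 2 * m * n +
    6480 * x ^ 2 * k * n + 12204 * x * w * m * k - 12042 * x * m ^ 2 * k - 7290 * x * m * k ^ 2
    - 4212 * x * n ^ 2 - 756 * w ^ 2 * n - 1728 * w * m * n + 4536 * w * k * n + 2241 * m ^ 2 *
    n - 1944 * m * k * n - 729 * k ^ 2 * n

/-- coefficient polynomial -/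
def pA4 (x w m k n : R) : R :=
    63700 * x ^ 6 - 133812 * x ^ 4 * w + 78570 * x ^ 4 * m + 90 * x ^ 4 * k - 20700 * x ^ 3 * n
    + 81324 * x ^ 2 * w ^ 2 - 102384 * x ^ 2 * w * m - 3240 * x ^ 2 * w * k + 39690 * x ^ 2 * m
    ^ 2 + 2430 * x ^ 2 * m * k + 20412 * x * w * n - 4860 * x * m * n + 1620 * x * k * n -
    11340 * w ^ 3 + 23814 * w ^ 2 * m - 1458 * w ^ 2 * k - 14094 * w * m ^ 2 + 6318 * w * m * k
    + 1620 * m ^ 3 - 4860 * m ^ 2 * k + 3240 * n ^ 2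

/-- coefficient polynomial -/
def pB4 (x w m k n : R) : R :=
    -67272 * x ^ 5 * n - 29016 * x ^ 4 * m * k + 114192 * x ^ 3 * w * n - 48744 * x ^ 3 * m * n
    - 20088 * x ^ 3 * k * n - 156168 * x ^ 2 * w * m * k + 215946 * x ^ 2 * m ^ 2 * k + 128790
    * x ^ 2 * m * k ^ 2 + 38772 * x ^ 2 * n ^ 2 - 47304 * x * w ^ 2 * n + 143208 * x * w * m *
    n - 105624 * x * w * k * n - 112914 * x * m ^ 2 * n + 68688 * x * m * k * n + 30618 * x * k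
    ^ 2 * n - 38880 * w ^ 2 * m * k + 67554 * w * m ^ 2 * k + 35478 * w * m * k ^ 2 + 24948 * w
    * n ^ 2 - 29403 * m ^ 3 * k - 27702 * m ^ 2 * k ^ 2 - 2187 * m * k ^ 3 - 25434 * m * n ^ 2
    + 1458 * k * n ^ 2

/-- coefficient polynomial -/
def pA5 (x w m k n : R) : R :=
    1019200 * x ^ 7 - 2484720 * x ^ 5 * w + 1460880 * x ^ 5 * m + 360 * x ^ 5 * k - 380340 * x
    ^ 4 * n + 1931040 * x ^ 3 * w ^ 2 - 2343816 * x ^ 3 * w * m + 5400 * x ^ 3 * w * k + 625320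
    * x ^ 3 * m ^ 2 - 80460 * x ^ 3 * m * k + 504144 * x ^ 2 * w * n - 392850 * x ^ 2 * m * n -
    15390 * x ^ 2 * k * n - 465264 * x * w ^ 3 + 911736 * x * w ^ 2 * m + 31104 * x * w ^ 2 * k
    - 655128 * x * w * m ^ 2 - 61236 * x * w * m * k + 205740 * x * m ^ 3 + 97200 * x * m ^ 2 *
    k + 4860 * x * m * k ^ 2 + 12960 * x * n ^ 2 - 137052 * w ^ 2 * n + 179334 * w * m * n -
    23814 * w * k * n - 43740 * m ^ 2 * n + 53460 * m * k * n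

/-- coefficient polynomial -/
def pB5 (x w m k n : R) : R :=
    -1391280 * x ^ 6 * n - 201816 * x ^ 5 * m * k + 2839680 * x ^ 4 * w * n - 1713780 * x ^ 4 *
    m * n + 26244 * x ^ 4 * k * n + 1627776 * x ^ 3 * w * m * k - 3085776 * x ^ 3 * m ^ 2 * k -
    1605744 * x ^ 3 * m * k ^ 2 + 442800 * x ^ 3 * n ^ 2 - 1657584 * x ^ 2 * w ^ 2 * n +
    1182600 * x ^ 2 * w * m * n + 985608 * x ^ 2 * w * k * n + 987228 * x ^ 2 * m ^ 2 * n -
    1103868 * x ^ 2 * m * k * n - 661932 * x ^ 2 * k ^ 2 * n + 1261656 * x * w ^ 2 * m * k -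
    3019032 * x * w * m ^ 2 * k - 1728216 * x * w * m * k ^ 2 - 1101600 * x * w * n ^ 2 +
    1662606 * x * m ^ 3 * k + 1643652 * x * m ^ 2 * k ^ 2 + 144342 * x * m * k ^ 3 + 1297944 *
    x * m * n ^ 2 - 40824 * x * k * n ^ 2 + 209952 * w ^ 3 * n - 831060 * w ^ 2 * m * n +
    442260 * w ^ 2 * k * n + 1055592 * w * m ^ 2 * n - 603612 * w * m * k * n - 198288 * w * k
    ^ 2 * n - 436671 * m ^ 3 * n + 181035 * m ^ 2 * k * n + 247131 * m * k ^ 2 * n + 6561 * k ^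
    3 * n + 61236 * n ^ 3

/-- coefficient polynomial -/
def pA6 (x w m k n : R) : R :=
    19364800 * x ^ 8 - 53704560 * x ^ 6 * w + 31629360 * x ^ 6 * m + 2520 * x ^ 6 * k - 8184960
    * x ^ 5 * n + 50788080 * x ^ 4 * w ^ 2 - 61527816 * x ^ 4 * w * m + 18786600 * x ^ 4 * m ^
    2 - 733320 * x ^ 4 * m * k + 13628304 * x ^ 3 * w * n - 7771680 * x ^ 3 * m * n + 272160 *
    x ^ 3 * k * n - 17844624 * x ^ 2 * w ^ 3 + 33915024 * x ^ 2 * w ^ 2 * m - 204120 * x ^ 2 *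
    w ^ 2 * k - 19515816 * x ^ 2 * w * m ^ 2 + 2958768 * x ^ 2 * w * m * k + 2130300 * x ^ 2 *
    m ^ 3 - 3555090 * x ^ 2 * m ^ 2 * k - 128790 * x ^ 2 * m * k ^ 2 + 1145340 * x ^ 2 * n ^ 2
    - 5392656 * x * w ^ 2 * n + 7694352 * x * w * m * n + 466560 * x * w * k * n - 3304800 * x
    * m ^ 2 * n - 1317060 * x * m * k * n - 14580 * x * k ^ 2 * n + 1395792 * w ^ 4 - 4131000 *
    w ^ 3 * m - 93312 * w ^ 3 * k + 4700592 * w ^ 2 * m ^ 2 - 134136 * w ^ 2 * m * k - 2582604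
    * w * m ^ 3 + 62694 * w * m ^ 2 * k - 86022 * w * m * k ^ 2 - 648324 * w * n ^ 2 + 617220 *
    m ^ 4 + 160380 * m ^ 3 * k + 174960 * m ^ 2 * k ^ 2 + 461700 * m * n ^ 2 - 160380 * k * n ^
    2

/-- coefficient polynomial -/
def pB6 (x w m k n : R) : R :=
    -31158240 * x ^ 7 * n - 4779288 * x ^ 6 * m * k + 74027520 * x ^ 5 * w * n - 44696448 * x ^
    5 * m * n + 760752 * x ^ 5 * k * n + 6662952 * x ^ 4 * w * m * k + 19603404 * x ^ 4 * m ^ 2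
    * k + 14530428 * x ^ 4 * m * k ^ 2 + 11487312 * x ^ 4 * n ^ 2 - 55607904 * x ^ 3 * w ^ 2 *
    n + 73587744 * x ^ 3 * w * m * n - 5230656 * x ^ 3 * w * k * n - 39497976 * x ^ 3 * m ^ 2 *
    n + 18957888 * x ^ 3 * m * k * n + 8788824 * x ^ 3 * k ^ 2 * n - 30977640 * x ^ 2 * w ^ 2 *
    m * k + 91255248 * x ^ 2 * w * m ^ 2 * k + 43331760 * x ^ 2 * w * m * k ^ 2 - 10905840 * x
    ^ 2 * w * n ^ 2 - 59725026 * x ^ 2 * m ^ 3 * k - 52279992 * x ^ 2 * m ^ 2 * k ^ 2 - 5016978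
    * x ^ 2 * m * k ^ 3 - 6786504 * x ^ 2 * m * n ^ 2 - 445176 * x ^ 2 * k * n ^ 2 + 12737088 *
    x * w ^ 3 * n - 13740192 * x * w ^ 2 * m * n - 12538800 * x * w ^ 2 * k * n - 16621200 * x
    * w * m ^ 2 * n + 21282912 * x * w * m * k * n + 11535696 * x * w * k ^ 2 * n + 17536824 *
    x * m ^ 3 * n - 7778916 * x * m ^ 2 * k * n - 17256888 * x * m * k ^ 2 * n - 551124 * x * k
    ^ 3 * n - 4094064 * x * n ^ 3 - 3155112 * w ^ 3 * m * k + 10348884 * w ^ 2 * m ^ 2 * k +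
    6511428 * w ^ 2 * m * k ^ 2 + 7947072 * w ^ 2 * n ^ 2 - 10878138 * w * m ^ 3 * k - 11926440
    * w * m ^ 2 * k ^ 2 - 1027890 * w * m * k ^ 3 - 16419024 * w * m * n ^ 2 + 886464 * w * k *
    n ^ 2 + 3677805 * m ^ 4 * k + 5474061 * m ^ 3 * k ^ 2 + 1174419 * m ^ 2 * k ^ 3 + 8629416 *
    m ^ 2 * n ^ 2 + 19683 * m * k ^ 4 + 504468 * m * k * n ^ 2 - 682344 * k ^ 2 * n ^ 2

end Run7.h793
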