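import Pool.Agent.Run7.h793.S2Slice0

/-!
Classification of the solutions of the system on the slice `x = 0`.
-/

namespace Run7.h793

theorem slice_inf {κ : Type*} [Field κ] [CharZero κ] {m k s : κ} (h : Sys 0 0 m k s 0) :
    m = 0 ∨ (k = 0 ∧ s = 0) := by
  by_cases hm : m = 0
  · exact Or.inl hm
  · right
    have e2 : 5 * m * s + 15 * m * k + 9 * k ^ 2 = 0 := by
      have := h.l2
      unfold pA2 pB2 at this
      refine mul_left_cancel₀ hm ?_
      linear_combination (1 / 27) * this
    have eF : s * (m - 3 * k - s) + 12 * m * k = 0 := by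
      have := h.lx
      unfold pX at this
      refine mul_left_cancel₀ (pow_ne_zero 2 hm) ?_
      linear_combination (1 / 9) * this
    have e4 : s * (1620 * m ^ 2 - 4860 * m * k) - 29403 * m ^ 2 * k - 27702 * m * k ^ 2
        - 2187 * k ^ 3 = 0 := by
      have := h.l4
      unfold pA4 pB4 at this
      refine mul_left_cancel₀ hm ?_
      linear_combination this
    have c4 : k * (47 * m ^ 2 + 22 * m * k - 9 * k ^ 2) = 0 := by
      refine mul_left_cancel₀ (show (-729 : κ) ≠ 0 by norm_num) ?_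
      linear_combination e4 - (324 * m - 972 * k) * e2
    have cF : k * (25 * m ^ 3 - 5 * m ^ 2 * k - 15 * m * k ^ 2 - 9 * k ^ 3) = 0 := by
      refine mul_left_cancel₀ (show (9 : κ) ≠ 0 by norm_num) ?_
      linear_combination 25 * m ^ 2 * eF
        - (5 * m * (m - 3 * k) - (5 * m * s - 15 * m * k - 9 * k ^ 2)) * e2
    have hk : k = 0 := by
      by_contra hk
      have d4 := (mul_eq_zero.mp c4).resolve_left hk
      have dF := (mul_eq_zero.mp cF).resolve_left hk
      have f1 : 25 * m ^ 2 - 52 * m * k - 37 * k ^ 2 = 0 := by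
        refine mul_left_cancel₀ hm ?_
        linear_combination dF - k * d4
      have f2 : 757 * m + 641 * k = 0 := by
        refine mul_left_cancel₀ (mul_ne_zero (show (-2 : κ) ≠ 0 by norm_num) hm) ?_
        linear_combination 9 * f1 - 37 * d4
      have hm' : m = -(641 / 757) * k := by linear_combination (1 / 757) * f2
      rw [hm'] at d4
      have : k ^ 2 = 0 := by
        have hc : (47 * (641 / 757) ^ 2 - 22 * (641 / 757) - 9 : κ) ≠ 0 := by norm_num
        refine mul_left_cancel₀ hc ?_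
        linear_combination d4
      exact hk (pow_eq_zero_iff (by norm_num) |>.mp this)
    refine ⟨hk, ?_⟩
    rw [hk] at e2
    refine mul_left_cancel₀ (mul_ne_zero (show (5 : κ) ≠ 0 by norm_num) hm) ?_
    linear_combination e2

theorem Sys.scale0 {κ : Type*} [Field κ] {w m k s : κ} (hw : w ≠ 0) (h : Sys 0 w m k s 0) :
    Sys 0 1 (m / w) (k / w) (s / w) 0 := by
  obtain ⟨m', rfl⟩ : ∃ t, m = w * t := ⟨m / w, by field_simp⟩
  obtain ⟨k', rfl⟩ : ∃ t, k = w * t := ⟨k / w, by field_simp⟩
  obtain ⟨s', rfl⟩ : ∃ t, s = w * t := ⟨s / w, by field_simp⟩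
  have e1 : w * m' / w = m' := by field_simp
  have e2 : w * k' / w = k' := by field_simp
  have e3 : w * s' / w = s' := by field_simp
  rw [e1, e2, e3]
  obtain ⟨l1, l2, l3, l4, l5, l6, lx⟩ := h
  refine ⟨?_, ?_, ?_, ?_, ?_, ?_, ?_⟩
  · unfold pA1 pB1; ring
  · refine (mul_eq_zero.mp ?_).resolve_left (pow_ne_zero 3 hw)
    unfold pA2 pB2 at l2 ⊢; linear_combination l2
  · unfold pA3 pB3; ring
  · refine (mul_eq_zero.mp ?_).resolve_left (pow_ne_zero 4 hw)
    unfold pA4 pB4 at l4 ⊢; linear_combination l4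
  · unfold pA5 pB5; ring
  · refine (mul_eq_zero.mp ?_).resolve_left (pow_ne_zero 5 hw)
    unfold pA6 pB6 at l6 ⊢; linear_combination l6
  · refine (mul_eq_zero.mp ?_).resolve_left (pow_ne_zero 4 hw)
    unfold pX at lx ⊢; linear_combination lx

theorem slice_class {κ : Type*} [Field κ] [CharZero κ] {w m k s n : κ} (h : Sys 0 w m k s n) :
    n = 0 ∧ ((k = 0 ∧ s = 0) ∨ (m = 0 ∧ s = 0) ∨ (w ≠ 0 ∧ k = 0 ∧ m = w ∧ s = 3 * w) ∨
      (w = 0 ∧ m = 0)) := by
  have hn := slice_n h
  refine ⟨hn, ?_⟩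
  subst hn
  by_cases hw : w = 0
  · subst hw
    rcases slice_inf h with h1 | h1
    · exact Or.inr (Or.inr (Or.inr ⟨rfl, h1⟩))
    · exact Or.inl h1
  · rcases slice_one (h.scale0 hw) with ⟨h1, h2⟩ | ⟨h1, h2⟩ | ⟨h1, h2, h3⟩
    · left
      exact ⟨(div_eq_zero_iff.mp h1).resolve_right hw, (div_eq_zero_iff.mp h2).resolve_right hw⟩
    · right; left
      exact ⟨(div_eq_zero_iff.mp h1).resolve_right hw, (div_eq_zero_iff.mp h2).resolve_right hw⟩
    · right; right; left
      refine ⟨hw, (div_eq_zero_iff.mp h1).resolve_right hw, ?_, ?_⟩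
      · rw [div_eq_iff hw] at h2; linear_combination h2
      · rw [div_eq_iff hw] at h3; exact h3

end Run7.h793
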