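import Pool.Agent.Run7.h793.S2SliceN

/-!
The system on the slice `x = 0`, `n = 0`.
-/

namespace Run7.h793

theorem slice_f1 {κ : Type*} [Field κ] [CharZero κ] {m k : κ}
    (h2 : 5 * m ^ 3 - 21 * m ^ 2 - 6 * m * k + 28 * m - 3 * k ^ 2 + 8 * k - 12 = 0)
    (h4 : 20 * m ^ 4 - 60 * m ^ 3 * k - 214 * m ^ 3 + 319 * m ^ 2 * k + 642 * m ^ 2 + 114 * m * k ^
      2 - 452 * m * k - 728 * m + 9 * k ^ 3 - 146 * k ^ 2 + 196 * k + 280 = 0)
    (h6 : 2540 * m ^ 5 + 660 * m ^ 4 * k - 15708 * m ^ 4 + 720 * m ^ 3 * k ^ 2 - 6107 * m ^ 3 * k +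
      40600 * m ^ 3 - 9303 * m ^ 2 * k ^ 2 + 13854 * m ^ 2 * k - 55688 * m ^ 2 - 1611 * m * k ^
      3 + 17068 * m * k ^ 2 - 13476 * m * k + 39744 * m - 27 * k ^ 4 + 1410 * k ^ 3 - 8932 * k
      ^ 2 + 5096 * k - 11488 = 0)
    : k = 0 ∧ (m = 1 ∨ m = 2) := by
  have hk2 : (620671902686649527040 : κ) * k ^ 2 = 0 := by
    linear_combination
      (-827236619727503364820 * m ^ 4 - 1345981235260784601600 * m ^ 3 * k +
        4242727072936274245004 * m ^ 3 + 1002995969692313048220 * m ^ 2 * k ^ 2 +
        6984490895912182890463 * m ^ 2 * k - 7658951797565671256118 * m ^ 2 +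
        45281193770775415140 * m * k ^ 3 - 1758570093229685593164 * m * k ^ 2 -
        10794799458892095875492 * m * k + 5825905670363771826400 * m - 25216620717771232740 * k
        ^ 4 + 145190373502611699189 * k ^ 3 + 814751502479128584262 * k ^ 2 +
        5525842142027850628372 * k - 1583818849997249573768) * h2 +
      (93362629701704773665 * m ^ 2 * k + 36084135959210108965 * m ^ 2 + 10461623831899345395
        * m * k ^ 2 - 171590198992867854634 * m * k - 126048006496124716384 * m -
        10506925299071346975 * k ^ 3 + 3446042572381398243 * k ^ 2 + 57751898365703221964 * k +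
        90192957868644294636) * h4 +
      (1628418542770675915 * m ^ 2 + 1491298166945347020 * m * k - 5404759302480853068 * m -
        700461686604756465 * k ^ 2 - 2219614353587493800 * k + 3852703203620072892) * h6
  have hk : k = 0 := by
    have hc : (620671902686649527040 : κ) ≠ 0 := by norm_num
    exact pow_eq_zero_iff (by norm_num) |>.mp ((mul_eq_zero.mp hk2).resolve_left hc)
  subst hk
  refine ⟨rfl, ?_⟩
  have hz : (16 : κ) * ((m - 1) * (m - 2)) = 0 := by
    linear_combination
      (4 * m - 26) * h2 +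
      (-1) * h4
  have hc : (16 : κ) ≠ 0 := by norm_num
  rcases mul_eq_zero.mp ((mul_eq_zero.mp hz).resolve_left hc) with h1 | h1
  · left; linear_combination h1
  · right; linear_combination h1

theorem slice_f2 {κ : Type*} [Field κ] [CharZero κ] {m k : κ}
    (hQ4 : 705 * m ^ 4 + 330 * m ^ 3 * k - 3711 * m ^ 3 - 135 * m ^ 2 * k ^ 2 - 1877 * m ^ 2 * k +
      7098 * m ^ 2 + 21 * m * k ^ 2 + 2892 * m * k - 5892 * m - 9 * k ^ 3 + 146 * k ^ 2 - 1348
      * k + 1800 = 0)
    (hR2 : 75 * m ^ 4 - 15 * m ^ 3 * k - 405 * m ^ 3 - 45 * m ^ 2 * k ^ 2 - 107 * m ^ 2 * k + 798 *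
      m ^ 2 - 27 * m * k ^ 3 - 3 * m * k ^ 2 + 320 * m * k - 684 * m - 9 * k ^ 3 + 82 * k ^ 2 -
      204 * k + 216 = 0)
    (hQ5 : 12525 * m ^ 5 + 26625 * m ^ 4 * k - 61725 * m ^ 4 + 2475 * m ^ 3 * k ^ 2 - 134890 * m ^ 3
      * k + 104904 * m ^ 3 - 2025 * m ^ 2 * k ^ 3 - 26964 * m ^ 2 * k ^ 2 + 230872 * m ^ 2 * k
      - 66264 * m ^ 2 - 846 * m * k ^ 3 + 41068 * m * k ^ 2 - 161000 * m * k + 2064 * m - 27 *
      k ^ 4 + 1572 * k ^ 3 - 16240 * k ^ 2 + 38384 * k + 8496 = 0)
    (hQ6 : 68040 * m ^ 6 + 36150 * m ^ 5 * k - 528063 * m ^ 5 - 38850 * m ^ 4 * k ^ 2 - 346605 * m ^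
      4 * k + 1677531 * m ^ 4 - 1350 * m ^ 3 * k ^ 3 + 142199 * m ^ 3 * k ^ 2 + 1141738 * m ^ 3
      * k - 2797524 * m ^ 3 + 810 * m ^ 2 * k ^ 4 + 10401 * m ^ 2 * k ^ 3 - 156846 * m ^ 2 * k
      ^ 2 - 1732276 * m ^ 2 * k + 2588640 * m ^ 2 - 180 * m * k ^ 4 - 14054 * m * k ^ 3 + 29712
      * m * k ^ 2 + 1246424 * m * k - 1262784 * m - 81 * k ^ 4 + 3024 * k ^ 3 + 24064 * k ^ 2 -
      345440 * k + 254160 = 0)
    (hR4 : 1005 * m ^ 5 - 630 * m ^ 4 * k - 5871 * m ^ 4 + 1134 * m ^ 3 * k ^ 2 + 4970 * m ^ 3 * k +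
      13158 * m ^ 3 + 1026 * m ^ 2 * k ^ 3 - 312 * m ^ 2 * k ^ 2 - 12526 * m ^ 2 * k - 14172 *
      m ^ 2 + 81 * m * k ^ 4 - 846 * m * k ^ 3 - 4174 * m * k ^ 2 + 12992 * m * k + 7320 * m +
      27 * k ^ 4 - 618 * k ^ 3 + 3580 * k ^ 2 - 4824 * k - 1440 = 0)
    : k = 0 := by
  have hk : (2743090590252391387167444417376358400000 : κ) * k = 0 := by
    linear_combination
      (4877125403817639580171062818488372774075 * m ^ 3 * k +
        14702371126180138217860326074891096768800 * m ^ 3 +
        6474592710463435840179471234686677310025 * m ^ 2 * k ^ 2 +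
        4716373793391424653980843557486225532880 * m ^ 2 * k -
        42908568610265261043048845769035921888980 * m ^ 2 +
        1180686821573145597034760395125107001525 * m * k ^ 3 -
        3405486478789477102999158053578679469620 * m * k ^ 2 -
        26972152891555117520128196460609949372780 * m * k +
        40174586332360254847633632288255868513232 * m + 532556673457340106594286180990919415 *
        k ^ 4 + 363777163258728163825375592818189664760 * k ^ 3 -
        4790515020096912905655664616279631605440 * k ^ 2 +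
        17857029443447290863363715787414423730432 * k -
        11737197419570290035887292289409384983952) * hQ4 +
      (-12580144377902697664204360859780392788900 * m ^ 3 * k -
        66360281503016562434307362265362216666220 * m ^ 3 +
        748069998001948992266143166849958534600 * m ^ 2 * k ^ 2 +
        32632320566877450098735737586338546448520 * m ^ 2 * k +
        252199440145996823079594987512673092057148 * m ^ 2 +
        10651133469146802131885723619818388300 * m * k ^ 3 +
        2373428667986149942054802751729060711240 * m * k ^ 2 -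
        8612314212517329860677504360785760935848 * m * k -
        309052970181193369886966652816820934396544 * m -
        302082588558681011197804162281721153680 * k ^ 3 +
        1532339903109584657968384350855401381652 * k ^ 2 -
        9322477173659279519974554674583001511728 * k +
        122046776173372649434943609608912464172080) * hR2 +
      (-199190625257383918499422931940181504715 * m ^ 2 * k -
        430191659180100220440597022985713131500 * m ^ 2 -
        89053593786617416217075332379911436160 * m * k ^ 2 +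
        52799941922213231260032489980883602890 * m * k +
        995336362229808090879772399710647692200 * m - 177518891152446702198095393663639805 * k
        ^ 3 - 28020651661751812368177150046029042170 * k ^ 2 +
        261726229869149234717094897838785494520 * k - 581250943945713168465838935683790510400) * hQ5 +
      (-1735862014144091424691898420370976800 * k) * hQ6 +
      (-327956378805498379064532989345909852096 * k + 206139082263327176433976359040774384512) * hR4
  have hc : (2743090590252391387167444417376358400000 : κ) ≠ 0 := by norm_num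
  exact (mul_eq_zero.mp hk).resolve_left hc

theorem slice_one {κ : Type*} [Field κ] [CharZero κ] {m k s : κ} (h : Sys 0 1 m k s 0) :
    (k = 0 ∧ s = 0) ∨ (m = 0 ∧ s = 0) ∨ (k = 0 ∧ m = 1 ∧ s = 3) := by
  have e2 : s * (5 * m ^ 2 - 11 * m - k + 6) + m * k * (15 * m + 9 * k - 18) = 0 := by
    have := h.l2
    unfold pA2 pB2 at this
    linear_combination (1 / (27)) * this
  have e4 : s * (-20 * m ^ 3 + 60 * m ^ 2 * k + 174 * m ^ 2 - 78 * m * k - 294 * m + 18 * k + 140) + m * k * (363 * m ^ 2 + 342 * m * k - 834 * m + 27 * k ^ 2 - 438 * k + 480) = 0 := by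
    have := h.l4
    unfold pA4 pB4 at this
    linear_combination (1 / (-81)) * this
  have e6 : s * (2540 * m ^ 4 + 660 * m ^ 3 * k - 10628 * m ^ 3 + 720 * m ^ 2 * k ^ 2 + 258 * m ^ 2 * k +
      19344 * m ^ 2 - 354 * m * k ^ 2 - 552 * m * k - 17000 * m - 384 * k + 5744) + m * k * (15135 * m ^ 3 + 22527 * m ^ 2 * k - 44766 * m ^ 2 + 4833 * m * k ^ 2 - 49080 * m * k +
      42588 * m + 81 * k ^ 3 - 4230 * k ^ 2 + 26796 * k - 12984) = 0 := by
    have := h.l6
    unfold pA6 pB6 at this
    linear_combination (1 / (243)) * this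
  have eF : (6 * m - s - 3 * m ^ 2) * (s * (2 + m - 3 * k - s) + 12 * m * k) = 0 := by
    have := h.lx
    unfold pX at this
    linear_combination (-1 / 3) * this
  rcases mul_eq_zero.mp eF with hF1 | hF2
  · have hs : s = 6 * m - 3 * m ^ 2 := by linear_combination -hF1
    by_cases hm : m = 0
    · right; left
      exact ⟨hm, by rw [hs, hm]; ring⟩
    · subst hs
      have g2 : 5 * m ^ 3 - 21 * m ^ 2 - 6 * m * k + 28 * m - 3 * k ^ 2 + 8 * k - 12 = 0 := by
        refine mul_left_cancel₀ hm ?_
        linear_combination (1 / (-3)) * e2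
      have g4 : 20 * m ^ 4 - 60 * m ^ 3 * k - 214 * m ^ 3 + 319 * m ^ 2 * k + 642 * m ^ 2 + 114 * m *
          k ^ 2 - 452 * m * k - 728 * m + 9 * k ^ 3 - 146 * k ^ 2 + 196 * k + 280 = 0 := by
        refine mul_left_cancel₀ hm ?_
        linear_combination (1 / (3)) * e4
      have g6 : 2540 * m ^ 5 + 660 * m ^ 4 * k - 15708 * m ^ 4 + 720 * m ^ 3 * k ^ 2 - 6107 * m ^ 3 *
          k + 40600 * m ^ 3 - 9303 * m ^ 2 * k ^ 2 + 13854 * m ^ 2 * k - 55688 * m ^ 2 - 1611 *
          m * k ^ 3 + 17068 * m * k ^ 2 - 13476 * m * k + 39744 * m - 27 * k ^ 4 + 1410 * k ^ 3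
          - 8932 * k ^ 2 + 5096 * k - 11488 = 0 := by
        refine mul_left_cancel₀ hm ?_
        linear_combination (1 / (-3)) * e6
      obtain ⟨hk, hm12⟩ := slice_f1 g2 g4 g6
      rcases hm12 with h1 | h1
      · right; right
        exact ⟨hk, h1, by rw [h1]; norm_num⟩
      · left
        exact ⟨hk, by rw [h1]; norm_num⟩
  · by_cases hs : s = 0
    · have hmk : m * k = 0 := by
        rw [hs] at hF2
        have h12 : (12 : κ) ≠ 0 := by norm_num
        exact mul_left_cancel₀ h12 (by linear_combination hF2)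
      rcases mul_eq_zero.mp hmk with h1 | h1
      · exact Or.inr (Or.inl ⟨h1, hs⟩)
      · exact Or.inl ⟨h1, hs⟩
    · by_cases hm : m = 0
      · exfalso
        subst hm
        have a2 : 6 - k = 0 := by
          refine (mul_eq_zero.mp (?_ : s * (6 - k) = 0)).resolve_left hs
          linear_combination e2
        have a4 : 140 + 18 * k = 0 := by
          refine (mul_eq_zero.mp (?_ : s * (140 + 18 * k) = 0)).resolve_left hs
          linear_combination e4
        have : (248 : κ) = 0 := by linear_combination a4 + 18 * a2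
        norm_num at this
      · by_cases hk : k = 0
        · subst hk
          have a2 : (6 - 5 * m) * (1 - m) = 0 := by
            refine (mul_eq_zero.mp (?_ : s * ((6 - 5 * m) * (1 - m)) = 0)).resolve_left hs
            linear_combination e2
          have a4 : (140 - 154 * m + 20 * m ^ 2) * (1 - m) = 0 := by
            refine (mul_eq_zero.mp (?_ : s * ((140 - 154 * m + 20 * m ^ 2) * (1 - m)) = 0)
              ).resolve_left hs
            linear_combination e4
          have aF : 2 + m - s = 0 := by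
            refine (mul_eq_zero.mp (?_ : s * (2 + m - s) = 0)).resolve_left hs
            linear_combination hF2
          have hm1 : 1 - m = 0 := by
            by_contra hne
            have b2 := (mul_eq_zero.mp a2).resolve_right hne
            have b4 := (mul_eq_zero.mp a4).resolve_right hne
            have : (16 : κ) = 0 := by linear_combination (-1) * b4 + (26 - 4 * m) * b2 + 0 * b2
            norm_num at this
          right; right
          refine ⟨rfl, by linear_combination -hm1, ?_⟩
          linear_combination -aF - hm1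
        · exfalso
          apply hk
          have hmk : m * k ≠ 0 := mul_ne_zero hm hk
          obtain ⟨A2, hA2⟩ : ∃ t, t = 5 * m ^ 2 - 11 * m - k + 6 := ⟨_, rfl⟩
          obtain ⟨A4, hA4⟩ : ∃ t, t = -20 * m ^ 3 + 60 * m ^ 2 * k + 174 * m ^ 2 - 78 * m * k - 294 * m + 18 * k + 140 := ⟨_, rfl⟩
          obtain ⟨A6, hA6⟩ : ∃ t, t = 2540 * m ^ 4 + 660 * m ^ 3 * k - 10628 * m ^ 3 + 720 * m ^ 2 * k ^ 2 + 258 * m ^ 2 * k + 19344 * m ^ 2 - 354 * m * k ^ 2 - 552 * m * k - 17000 * m - 384 * k + 5744 := ⟨_, rfl⟩
          obtain ⟨b2, hb2⟩ : ∃ t, t = 15 * m + 9 * k - 18 := ⟨_, rfl⟩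
          obtain ⟨b4, hb4⟩ : ∃ t, t = 363 * m ^ 2 + 342 * m * k - 834 * m + 27 * k ^ 2 - 438 * k + 480 := ⟨_, rfl⟩
          obtain ⟨b6, hb6⟩ : ∃ t, t = 15135 * m ^ 3 + 22527 * m ^ 2 * k - 44766 * m ^ 2 + 4833 * m * k ^ 2 - 49080 * m * k + 42588 * m + 81 * k ^ 3 - 4230 * k ^ 2 + 26796 * k - 12984 := ⟨_, rfl⟩
          rw [← hA2, ← hb2] at e2
          rw [← hA4, ← hb4] at e4
          rw [← hA6, ← hb6] at e6
          have q4 : A2 * b4 - A4 * b2 = 0 := by
            refine mul_left_cancel₀ hmk ?_
            linear_combination A2 * e4 - A4 * e2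
          have q5 : A2 * b6 - A6 * b2 = 0 := by
            refine mul_left_cancel₀ hmk ?_
            linear_combination A2 * e6 - A6 * e2
          have q6 : A4 * b6 - A6 * b4 = 0 := by
            refine mul_left_cancel₀ hmk ?_
            linear_combination A4 * e6 - A6 * e4
          have r2 : 12 * A2 * A2 - b2 * A2 * (2 + m - 3 * k) - m * k * b2 * b2 = 0 := by
            refine mul_left_cancel₀ hmk ?_
            linear_combination A2 ^ 2 * hF2 - (A2 * (2 + m - 3 * k) - (A2 * s - m * k * b2)) * e2
          have r4 : 12 * A2 * A4 - b4 * A2 * (2 + m - 3 * k) - m * k * b2 * b4 = 0 := by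
            refine mul_left_cancel₀ hmk ?_
            linear_combination A2 * A4 * hF2 - A2 * (2 + m - 3 * k) * e4 + A4 * s * e2
              - m * k * b2 * e4
          rw [hA2, hA4, hb2, hb4] at q4
          rw [hA2, hA6, hb2, hb6] at q5
          rw [hA4, hA6, hb4, hb6] at q6
          rw [hA2, hb2] at r2
          rw [hA2, hA4, hb2, hb4] at r4
          refine slice_f2 (m := m) (k := k) ?_ ?_ ?_ ?_ ?_
          · linear_combination (1 / (3)) * q4
          · linear_combination (1 / (3)) * r2
          · linear_combination (1 / (3)) * q5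
          · linear_combination (1 / (-18)) * q6
          · linear_combination (1 / (-3)) * r4

end Run7.h793
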