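import Pool.Agent.Run7.h793.S2Sys

/-!
The system on the slice `x = 0`: the case `n ≠ 0` does not occur.
-/

namespace Run7.h793

theorem slice_n {κ : Type*} [Field κ] [CharZero κ] {w m k s n : κ} (h : Sys 0 w m k s n) :
    n = 0 := by
  by_contra hn
  have e1 : n * (s - (9 * k - m - 2 * w)) = 0 := by
    have := h.l1
    unfold pA1 pB1 at this
    linear_combination (-1 / 9) * this
  have hs : s = 9 * k - m - 2 * w := by
    have := (mul_eq_zero.mp e1).resolve_left hn
    linear_combination this
  subst hs
  have h3 : 36 * w ^ 2 + 8 * w * m - 176 * w * k - 41 * m ^ 2 + 144 * m * k + 9 * k ^ 2 = 0 := by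
    have := h.l3
    unfold pA3 pB3 at this
    refine mul_left_cancel₀ hn ?_
    linear_combination (1 / (-81)) * this
  have h2 := h.l2
  unfold pA2 pB2 at h2
  have h4 : 1016 * w ^ 4 - 2212 * w ^ 3 * m - 3820 * w ^ 3 * k + 1014 * w ^ 2 * m ^ 2 + 10760 * w ^ 2
      * m * k - 3510 * w ^ 2 * k ^ 2 + 517 * w * m ^ 3 - 10567 * w * m ^ 2 * k + 8715 * w * m *
      k ^ 2 + 567 * w * k ^ 3 - 335 * m ^ 4 + 3609 * m ^ 3 * k - 5013 * m ^ 2 * k ^ 2 - 621 * m
      * k ^ 3 = 0 := by
    have := h.l4
    unfold pA4 pB4 at this
    linear_combination (1 / (81/2)) * this - (1 / (81/2)) * (57*w + (-177/2)*m + (189/2)*k) * h2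
  have h5 : 748 * w ^ 3 - 1556 * w ^ 2 * m - 1412 * w ^ 2 * k + 1315 * w * m ^ 2 + 2084 * w * m * k -
      503 * w * k ^ 2 - 504 * m ^ 3 - 785 * m ^ 2 * k + 936 * m * k ^ 2 + 9 * k ^ 3 = 0 := by
    have := h.l5
    unfold pA5 pB5 at this
    refine mul_left_cancel₀ hn ?_
    linear_combination (1 / (729)) * this - (1 / (729)) * (189) * n * h2
  have hX : 184 * w ^ 4 + 236 * w ^ 3 * m - 1652 * w ^ 3 * k - 10 * w ^ 2 * m ^ 2 - 1216 * w ^ 2 * m
      * k + 4626 * w ^ 2 * k ^ 2 + w * m ^ 3 - 57 * w * m ^ 2 * k + 1395 * w * m * k ^ 2 - 4131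
      * w * k ^ 3 + 21 * m ^ 4 - 171 * m ^ 3 * k + 243 * m ^ 2 * k ^ 2 + 243 * m * k ^ 3 = 0 := by
    have := h.lx
    unfold pX at this
    linear_combination (1 / (3/4)) * this - (1 / (3/4)) * ((5/18)*w + (1/4)*m + (-3/4)*k) * h2
  have hw5 : (260977525745636080158486604905604608 : κ) * w ^ 5 = 0 := by
    linear_combination
      (-118395553662935249127238332954905964 * w ^ 3 + 255064125370021958816897236227233880 *
        w ^ 2 * m - 568744570888099177044111316212829680 * w ^ 2 * k -
        408330724857672829151695946884265559 * w * m ^ 2 +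
        1818888156893059412306047246285732764 * w * m * k -
        932399239544578502314125598268078853 * w * k ^ 2 + 125610822350393897259310717386547329
        * m ^ 3 - 967207053641275293527867683453020414 * m ^ 2 * k +
        1097141290564803340196612699432058735 * m * k ^ 2 - 8714799069936217517787954459825114
        * k ^ 3) * h3 +
      (-3585076710134250846274226496757524 * w ^ 2 + 16081116418881957726480171164968398 * w *
        m + 8538627946922253661773208021315842 * w * k - 14817005420563429023385494753701958 *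
        m * k + 8714799069936217517787954459825114 * k ^ 2) * h5 +
      (4724010725225002790038541607616814 * w - 16096698084458624490792083503185144 * m +
        27203922472917106076357652506735760 * k) * h4 +
      (13072064891103923081918639877816110 * w - 11540482948928067465886121938980131 * m +
        1031261012320491352967067623029653 * k) * hX
  have hw : w = 0 := by
    have hc : (260977525745636080158486604905604608 : κ) ≠ 0 := by norm_num
    exact pow_eq_zero_iff (by norm_num) |>.mp ((mul_eq_zero.mp hw5).resolve_left hc)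
  subst hw
  have hm4 : (18002888 : κ) * m ^ 4 = 0 := by
    linear_combination
      (-104488 * m ^ 2 + 174796 * m * k + 1677 * k ^ 2) * h3 +
      (-27220 * m - 1677 * k) * h5
  have hm : m = 0 := by
    have hc : (18002888 : κ) ≠ 0 := by norm_num
    exact pow_eq_zero_iff (by norm_num) |>.mp ((mul_eq_zero.mp hm4).resolve_left hc)
  have hk4 : (1458233928 : κ) * k ^ 4 = 0 := by
    linear_combination
      (-95887008 * m ^ 2 - 142853780 * m * k + 189950565 * k ^ 2) * h3 +
      (7800332 * m - 27924573 * k) * h5
  have hk : k = 0 := by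
    have hc : (1458233928 : κ) ≠ 0 := by norm_num
    exact pow_eq_zero_iff (by norm_num) |>.mp ((mul_eq_zero.mp hk4).resolve_left hc)
  subst hm hk
  apply hn
  have : (324 : κ) * n ^ 2 = 0 := by linear_combination h2
  exact pow_eq_zero_iff (by norm_num) |>.mp ((mul_eq_zero.mp this).resolve_left (by norm_num))

end Run7.h793
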