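import Pool.Agent.Run7.h793.S2Poly
import Pool.Agent.Run7.h793.S2Lin

/-!
The system of the rotational case, its invariance under scaling and its derivation.
-/

namespace Run7.h793

set_option linter.unusedSimpArgs false
set_option linter.unusedVariables false

/-- The Gram relation. -/
def pX {R : Type*} [CommRing R] (x w m k s n : R) : R :=
  (3 * n + x * s) ^ 2 * (4 * (w - x ^ 2) + 6 * m - 3 * s)
    - ((w - x ^ 2) * (6 * m - s) - 3 * m ^ 2) * ((s * (6 * w + 3 * m + 9 * k - 14 * x ^ 2)
      + 36 * m * k - 24 * x * n) - 3 * s ^ 2 - 18 * s * k)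

/-- The system. -/
structure Sys {R : Type*} [CommRing R] (x w m k s n : R) : Prop where
  l1 : s * pA1 x w m k n + pB1 x w m k n = 0
  l2 : s * pA2 x w m k n + pB2 x w m k n = 0
  l3 : s * pA3 x w m k n + pB3 x w m k n = 0
  l4 : s * pA4 x w m k n + pB4 x w m k n = 0
  l5 : s * pA5 x w m k n + pB5 x w m k n = 0
  l6 : s * pA6 x w m k n + pB6 x w m k n = 0
  lx : pX x w m k s n = 0

theorem Sys.scale {R : Type*} [CommRing R] [IsDomain R] {c x w m k s n : R} (hc : c ≠ 0)
    (h : Sys (c * x) (c ^ 2 * w) (c ^ 2 * m) (c ^ 2 * k) (c ^ 2 * s) (c ^ 3 * n)) :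
    Sys x w m k s n := by
  obtain ⟨l1, l2, l3, l4, l5, l6, lx⟩ := h
  refine ⟨?_, ?_, ?_, ?_, ?_, ?_, ?_⟩
  · refine (mul_eq_zero.mp ?_).resolve_left (pow_ne_zero 5 hc)
    rw [← l1]; unfold pA1 pB1; ring
  · refine (mul_eq_zero.mp ?_).resolve_left (pow_ne_zero 6 hc)
    rw [← l2]; unfold pA2 pB2; ring
  · refine (mul_eq_zero.mp ?_).resolve_left (pow_ne_zero 7 hc)
    rw [← l3]; unfold pA3 pB3; ring
  · refine (mul_eq_zero.mp ?_).resolve_left (pow_ne_zero 8 hc)
    rw [← l4]; unfold pA4 pB4; ring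
  · refine (mul_eq_zero.mp ?_).resolve_left (pow_ne_zero 9 hc)
    rw [← l5]; unfold pA5 pB5; ring
  · refine (mul_eq_zero.mp ?_).resolve_left (pow_ne_zero 10 hc)
    rw [← l6]; unfold pA6 pB6; ring
  · refine (mul_eq_zero.mp ?_).resolve_left (pow_ne_zero 8 hc)
    rw [← lx]; unfold pX; ring

theorem Sys.map {R S : Type*} [CommRing R] [CommRing S] (φ : R →+* S) {x w m k s n : R}
    (h : Sys x w m k s n) : Sys (φ x) (φ w) (φ m) (φ k) (φ s) (φ n) := by
  obtain ⟨l1, l2, l3, l4, l5, l6, lx⟩ := h
  refine ⟨?_, ?_, ?_, ?_, ?_, ?_, ?_⟩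
  · have := congrArg φ l1
    simpa only [pA1, pB1, map_add, map_sub, map_mul, map_pow, map_neg, map_zero, map_ofNat]
      using this
  · have := congrArg φ l2
    simpa only [pA2, pB2, map_add, map_sub, map_mul, map_pow, map_neg, map_zero, map_ofNat]
      using this
  · have := congrArg φ l3
    simpa only [pA3, pB3, map_add, map_sub, map_mul, map_pow, map_neg, map_zero, map_ofNat]
      using this
  · have := congrArg φ l4
    simpa only [pA4, pB4, map_add, map_sub, map_mul, map_pow, map_neg, map_zero, map_ofNat]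
      using this
  · have := congrArg φ l5
    simpa only [pA5, pB5, map_add, map_sub, map_mul, map_pow, map_neg, map_zero, map_ofNat]
      using this
  · have := congrArg φ l6
    simpa only [pA6, pB6, map_add, map_sub, map_mul, map_pow, map_neg, map_zero, map_ofNat]
      using this
  · have := congrArg φ lx
    simpa only [pX, map_add, map_sub, map_mul, map_pow, map_neg, map_zero, map_ofNat]
      using this

end Run7.h793
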