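import Pool.Agent.Run7.h793.S2LocD
import Pool.Agent.Run7.h793.S2LocInf
import Pool.Agent.Run7.h793.S2Der

/-!
A place at which `x` vanishes, and the contradiction in the rotational case.
-/

namespace Run7.h793

open Polynomial

set_option linter.unusedSimpArgs false
set_option linter.unusedVariables false

theorem transc {K : Type*} [Field K] [CharZero K] (D : Derivation ℤ K K) {x : K} (hx : D x ≠ 0) :
    ∀ p : ℤ[X], aeval x p = 0 → p = 0 := by
  intro p
  induction hn : p.natDegree using Nat.strong_induction_on generalizing p with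
  | _ n ih =>
    intro hp
    have h1 : aeval x (derivative p) = 0 := by
      have h2 := D.map_aeval p x
      rw [hp, map_zero, smul_eq_mul] at h2
      exact (mul_eq_zero.mp h2.symm).resolve_right hx
    by_cases hdeg : n = 0
    · rw [hdeg] at hn
      obtain ⟨c, hc⟩ := Polynomial.natDegree_eq_zero.mp hn
      rw [← hc] at hp ⊢
      rw [aeval_C] at hp
      have : c = 0 := by
        have : ((c : ℤ) : K) = 0 := by simpa using hp
        exact_mod_cast this
      rw [this, C_0]
    · have hlt : (derivative p).natDegree < n := by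
        rw [← hn] at hdeg ⊢
        exact natDegree_derivative_lt hdeg
      have h3 := ih _ hlt (derivative p) rfl h1
      exfalso
      apply hdeg
      rw [← hn]
      exact derivative_eq_zero.mp h3

theorem exists_place {K : Type*} [Field K] [CharZero K] (D : Derivation ℤ K K) {x : K}
    (hx : D x ≠ 0) : ∃ B : ValuationSubring K, (∀ q : ℚ, (q : K) ∈ B) ∧ B.valuation x < 1 := by
  obtain ⟨A, hA⟩ : ∃ A : Subring K, A = ((aeval x : ℚ[X] →ₐ[ℚ] K) : ℚ[X] →+* K).range := ⟨_, rfl⟩
  have hxA : x ∈ A := by rw [hA]; exact ⟨X, by simp⟩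
  have hI : Ideal.span {(⟨x, hxA⟩ : A)} ≠ ⊤ := by
    intro htop
    rw [Ideal.span_singleton_eq_top] at htop
    obtain ⟨⟨b, hb⟩, hb2⟩ := isUnit_iff_exists_inv.mp htop
    have h1 : x * b = 1 := congrArg Subtype.val hb2
    rw [hA] at hb
    obtain ⟨q, hq⟩ := hb
    have hq' : aeval x q = b := hq
    have h2 : aeval x (X * q - 1) = 0 := by
      rw [map_sub, map_mul, aeval_X, hq', h1, map_one, sub_self]
    -- clear denominators
    obtain ⟨b', hb'0, hb'⟩ := IsLocalization.integerNormalization_spec (nonZeroDivisors ℤ)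
      (X * q - 1 : ℚ[X])
    have h3 : aeval x (IsLocalization.integerNormalization (nonZeroDivisors ℤ) (X * q - 1)) = 0 := by
      have h4 : (IsLocalization.integerNormalization (nonZeroDivisors ℤ) (X * q - 1)).map
        (algebraMap ℤ ℚ) = b' • (X * q - 1) := hb'
      have h5 : aeval x ((IsLocalization.integerNormalization (nonZeroDivisors ℤ) (X * q - 1)).map
        (algebraMap ℤ ℚ)) = 0 := by
        rw [h4, map_zsmul, h2, smul_zero]
      rwa [aeval_map_algebraMap] at h5
    have h6 := transc D hx _ h3
    have h7 : (X * q - 1 : ℚ[X]) = 0 := by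
      have := congrArg (Polynomial.map (algebraMap ℤ ℚ)) h6
      rw [hb', Polynomial.map_zero] at this
      rcases smul_eq_zero.mp this with h8 | h8
      · exfalso; exact nonZeroDivisors.ne_zero hb'0 h8
      · exact h8
    have h8 := congrArg (Polynomial.eval 0) h7
    simp at h8
  obtain ⟨B, hB1, hB2⟩ := Ideal.image_subset_nonunits_valuationSubring _ hI
  refine ⟨B, ?_, ?_⟩
  · intro q
    apply hB1
    rw [hA]
    exact ⟨C q, by simp⟩
  · rw [← ValuationSubring.mem_nonunits_iff]
    exact hB2 ⟨⟨x, hxA⟩, Ideal.subset_span rfl, rfl⟩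

end Run7.h793
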