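import Pool.Agent.Run7.h793.EvenCore

namespace Run7.h793

variable {K : Type*} [Field K] [CharZero K]

/-- Scaling the frame derivations by the logarithmic derivatives of the mean curvature. -/
theorem scaled_comm (D1 D2 : Derivation ℤ K K) (A B al a1 a2 k0 m1 m2 : K)
    (hal : al ≠ 0) (ha1 : a1 ≠ 0) (ha2 : a2 ≠ 0)
    (hcomm : ∀ f, D1 (D2 f) - D2 (D1 f) = -A * D1 f + B * D2 f)
    (hD1al : D1 al = al * a1) (hD2al : D2 al = al * a2)
    (hm1 : m1 = A / a2) (hm2 : m2 = B / a1) (hk0 : k0 = D2 a1 / (a1 * a2) - m1) :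
    D1 a2 = (k0 + m2) * (a1 * a2) ∧ D2 a1 = (k0 + m1) * (a1 * a2) ∧
    ∀ f, (a1⁻¹ • D1) ((a2⁻¹ • D2) f) - (a2⁻¹ • D2) ((a1⁻¹ • D1) f)
      = k0 * ((a1⁻¹ • D1) f - (a2⁻¹ • D2) f) := by
  have h1 := hcomm al
  rw [hD1al, hD2al, Derivation.leibniz, Derivation.leibniz, hD1al, hD2al] at h1
  simp only [smul_eq_mul] at h1
  have h2 : D1 a2 - D2 a1 = -A * a1 + B * a2 := by
    have h3 : al * (D1 a2 - D2 a1 - (-A * a1 + B * a2)) = 0 := by linear_combination h1
    have h4 := (mul_eq_zero.mp h3).resolve_left hal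
    linear_combination h4
  have e2 : D2 a1 = (k0 + m1) * (a1 * a2) := by
    rw [hk0]; field_simp; ring
  have e1 : D1 a2 = (k0 + m2) * (a1 * a2) := by
    have : D1 a2 = D2 a1 + (-A * a1 + B * a2) := by linear_combination h2
    rw [this, e2, hm1, hm2]; field_simp; ring
  refine ⟨e1, e2, fun f => ?_⟩
  simp only [Derivation.smul_apply, smul_eq_mul, Derivation.leibniz, Derivation.leibniz_inv]
  rw [e1, e2]
  have h5 := hcomm f
  have h6 : D1 (D2 f) = D2 (D1 f) + (-A * D1 f + B * D2 f) := by linear_combination h5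
  rw [h6]
  have hA : A = m1 * a2 := by rw [hm1]; field_simp
  have hB : B = m2 * a1 := by rw [hm2]; field_simp
  rw [hA, hB]
  field_simp
  ring

end Run7.h793
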