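import Pool.Agent.Run7.h793.Frame

/-!
Adapted frames and the structure equations of a surface with `ΔH = λH`.
-/

namespace Run7.h793

set_option linter.unusedSimpArgs false
set_option linter.unusedVariables false

variable {K : Type*} [Field K]

/-- the frame equations -/
structure FrameEq (D1 D2 : Derivation ℤ K K) (A B al mu be ga W1 W2 : K)
    (e1 e2 e3 e4 : Fin 4 → K) : Prop where
  on : ON e1 e2 e3 e4
  d11 : ∀ i, D1 (e1 i) = A * e2 i + (al + mu) * e3 i + be * e4 i
  d12 : ∀ i, D1 (e2 i) = -A * e1 i + ga * e4 i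
  d13 : ∀ i, D1 (e3 i) = -(al + mu) * e1 i + W1 * e4 i
  d14 : ∀ i, D1 (e4 i) = -be * e1 i - ga * e2 i - W1 * e3 i
  d21 : ∀ i, D2 (e1 i) = -B * e2 i + ga * e4 i
  d22 : ∀ i, D2 (e2 i) = B * e1 i + (al - mu) * e3 i - be * e4 i
  d23 : ∀ i, D2 (e3 i) = -(al - mu) * e2 i + W2 * e4 i
  d24 : ∀ i, D2 (e4 i) = -ga * e1 i + be * e2 i - W2 * e3 i

/-- The structure equations. -/
structure StrEq (D1 D2 : Derivation ℤ K K) (A B al mu be ga W1 W2 la : K) : Prop where
  mu1 : D1 mu = D1 al + 2 * B * mu + W2 * ga + W1 * be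
  mu2 : D2 mu = -D2 al + 2 * A * mu + W2 * be - W1 * ga
  be2 : D2 be - D1 ga = 2 * A * be - 2 * B * ga - (al + mu) * W2
  be1 : D1 be + D2 ga = 2 * A * ga + 2 * B * be + (al - mu) * W1
  gauss : D1 B + D2 A = A ^ 2 + B ^ 2 + al ^ 2 - mu ^ 2 - be ^ 2 - ga ^ 2
  ricci : D1 W2 - D2 W1 + A * W1 - B * W2 + 2 * mu * ga = 0
  t1 : al * (be * W1 + ga * W2) = -(2 * al + mu) * D1 al
  t2 : al * (be * W2 - ga * W1) = (2 * al - mu) * D2 al
  n3 : D1 (D1 al) + D2 (D2 al) - al * (al + mu) ^ 2 - al * (al - mu) ^ 2 - al * W1 ^ 2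
    - al * W2 ^ 2 - A * D2 al - B * D1 al + la * al = 0
  n4 : 2 * D1 al * W1 + 2 * D2 al * W2 + al * D1 W1 + al * D2 W2 - 2 * al * mu * be
    - A * al * W2 - B * al * W1 = 0

theorem StrEq.of_frame [CharZero K] {D1 D2 : Derivation ℤ K K} {A B al mu be ga W1 W2 la : K}
    {e1 e2 e3 e4 : Fin 4 → K} (hal : al ≠ 0)
    (hcomm : ∀ f, D1 (D2 f) - D2 (D1 f) = -A * D1 f + B * D2 f)
    (hF : FrameEq D1 D2 A B al mu be ga W1 W2 e1 e2 e3 e4)
    (hlap : ∀ i, D1 (D1 (al * e3 i)) + D2 (D2 (al * e3 i)) - A * D2 (al * e3 i)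
      - B * D1 (al * e3 i) + la * (al * e3 i) = 0) :
    StrEq D1 D2 A B al mu be ga W1 W2 la := by
  obtain ⟨on, d11, d12, d13, d14, d21, d22, d23, d24⟩ := hF
  have h3 := on.indep (c1 := D2 (al + mu) - 2 * A * mu - W2 * be + W1 * ga)
    (c2 := -D1 (al - mu) - 2 * B * mu - W2 * ga - W1 * be) (c3 := 0)
    (c4 := D1 W2 - D2 W1 + A * W1 - B * W2 + 2 * mu * ga) (by
      intro i
      have h := hcomm (e3 i)
      rw [d13, d23] at h
      simp only [map_add, map_sub, map_neg, Derivation.leibniz, smul_eq_mul, d11, d12, d13, d14,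
        d21, d22, d23, d24] at h ⊢
      linear_combination h)
  have h4 := on.indep (c1 := D2 be - D1 ga - 2 * A * be + 2 * B * ga + (al + mu) * W2)
    (c2 := D1 be + D2 ga - 2 * A * ga - 2 * B * be - (al - mu) * W1)
    (c3 := -(D1 W2 - D2 W1 + A * W1 - B * W2 + 2 * mu * ga))
    (c4 := 0) (by
      intro i
      have h := hcomm (e4 i)
      rw [d14, d24] at h
      simp only [map_add, map_sub, map_neg, Derivation.leibniz, smul_eq_mul, d11, d12, d13, d14,
        d21, d22, d23, d24] at h ⊢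
      linear_combination h)
  have h1 := on.indep (c1 := 0)
    (c2 := -(D1 B + D2 A - (A ^ 2 + B ^ 2 + al ^ 2 - mu ^ 2 - be ^ 2 - ga ^ 2)))
    (c3 := -(D2 (al + mu) - 2 * A * mu - W2 * be + W1 * ga))
    (c4 := -(D2 be - D1 ga - 2 * A * be + 2 * B * ga + (al + mu) * W2)) (by
      intro i
      have h := hcomm (e1 i)
      rw [d11, d21] at h
      simp only [map_add, map_sub, map_neg, Derivation.leibniz, smul_eq_mul, d11, d12, d13, d14,
        d21, d22, d23, d24] at h ⊢
      linear_combination h)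
  have hmu1 : D1 mu = D1 al + 2 * B * mu + W2 * ga + W1 * be := by
    have := h3.2.1
    rw [map_sub] at this
    linear_combination this
  have hmu2 : D2 mu = -D2 al + 2 * A * mu + W2 * be - W1 * ga := by
    have := h3.1
    rw [map_add] at this
    linear_combination this
  have hL := on.indep (c1 := -D1 (al * (al + mu)) - (al + mu) * D1 al - al * W1 * be
      - al * W2 * ga + 2 * al * mu * B)
    (c2 := -D2 (al * (al - mu)) - (al - mu) * D2 al - al * W1 * ga + al * W2 * be
      - 2 * al * mu * A)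
    (c3 := D1 (D1 al) + D2 (D2 al) - al * (al + mu) ^ 2 - al * (al - mu) ^ 2 - al * W1 ^ 2
    - al * W2 ^ 2 - A * D2 al - B * D1 al + la * al)
    (c4 := 2 * D1 al * W1 + 2 * D2 al * W2 + al * D1 W1 + al * D2 W2 - 2 * al * mu * be
    - A * al * W2 - B * al * W1) (by
      intro i
      have h := hlap i
      simp only [map_add, map_sub, map_neg, Derivation.leibniz, smul_eq_mul, d11, d12, d13, d14,
        d21, d22, d23, d24] at h ⊢
      linear_combination h)
  have hsum : D1 (al * (al + mu)) = al * (D1 al + D1 mu) + (al + mu) * D1 al := by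
    rw [Derivation.leibniz, map_add]; simp only [smul_eq_mul]
  have hsum2 : D2 (al * (al - mu)) = al * (D2 al - D2 mu) + (al - mu) * D2 al := by
    rw [Derivation.leibniz, map_sub]; simp only [smul_eq_mul]
  refine ⟨hmu1, hmu2, ?_, ?_, ?_, h3.2.2.2, ?_, ?_, hL.2.2.1, hL.2.2.2⟩
  · linear_combination h4.1
  · linear_combination h4.2.1
  · linear_combination -h1.2.1
  · have h5 := hL.1
    rw [hsum, hmu1] at h5
    have h2 : (2 : K) ≠ 0 := two_ne_zero
    exact mul_left_cancel₀ h2 (by linear_combination -h5)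
  · have h5 := hL.2.1
    rw [hsum2, hmu2] at h5
    have h2 : (2 : K) ≠ 0 := two_ne_zero
    exact mul_left_cancel₀ h2 (by linear_combination h5)

section ordered
variable [LinearOrder K] [IsStrictOrderedRing K]

theorem exists_frame (hsqrt : ∀ a : K, 0 < a → ∃ b, 0 < b ∧ b * b = a)
    {D1 D2 : Derivation ℤ K K} {A B : K} {X H : Fin 4 → K}
    (hcomm : ∀ f, D1 (D2 f) - D2 (D1 f) = -A * D1 f + B * D2 f)
    (h11 : ip (fun i => D1 (X i)) (fun i => D1 (X i)) = 1)
    (h22 : ip (fun i => D2 (X i)) (fun i => D2 (X i)) = 1)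
    (h12 : ip (fun i => D1 (X i)) (fun i => D2 (X i)) = 0)
    (hH : ∀ i, 2 * H i = D1 (D1 (X i)) + D2 (D2 (X i)) - A * D2 (X i) - B * D1 (X i))
    (hdiag : ip (fun i => D1 (D2 (X i))) H = 0) (hne : H ≠ 0) :
    ∃ (e3 e4 : Fin 4 → K) (al mu be ga W1 W2 : K), 0 < al ∧ (∀ i, H i = al * e3 i) ∧
      FrameEq D1 D2 A B al mu be ga W1 W2 (fun i => D1 (X i)) (fun i => D2 (X i)) e3 e4 := by
  obtain ⟨e1, he1⟩ : ∃ e1 : Fin 4 → K, ∀ i, D1 (X i) = e1 i := ⟨_, fun _ => rfl⟩
  obtain ⟨e2, he2⟩ : ∃ e2 : Fin 4 → K, ∀ i, D2 (X i) = e2 i := ⟨_, fun _ => rfl⟩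
  simp only [he1, he2] at h11 h22 h12 hH hdiag ⊢
  obtain ⟨al, hal, halal⟩ := hsqrt _ (ip_self_pos hne)
  have hal0 : al ≠ 0 := ne_of_gt hal
  obtain ⟨e3, he3⟩ : ∃ e3 : Fin 4 → K, ∀ i, e3 i = H i / al := ⟨_, fun _ => rfl⟩
  have hHe : ∀ i, H i = al * e3 i := by intro i; rw [he3]; field_simp
  obtain ⟨e4, g44, g14, g24, g34⟩ := exists_normal hsqrt e1 e2 e3
  have hc : ∀ i, D1 (e2 i) - D2 (e1 i) = -A * e1 i + B * e2 i := by
    intro i
    have := hcomm (X i)
    rw [he2, he1] at this
    exact this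
  -- derivatives of orthonormality
  have i1 := congrArg D1 h11
  have i2 := congrArg D2 h11
  have i3 := congrArg D1 h22
  have i4 := congrArg D2 h22
  have i5 := congrArg D1 h12
  have i6 := congrArg D2 h12
  rw [D_ip] at i1 i2 i3 i4 i5 i6
  simp only [map_zero, Derivation.map_one_eq_zero] at i1 i2 i3 i4 i5 i6
  have two : (2 : K) ≠ 0 := two_ne_zero
  have j1 : ip (fun i => D1 (e1 i)) e1 = 0 := by
    refine mul_left_cancel₀ two ?_
    unfold ip at *; linear_combination i1
  have j2 : ip (fun i => D2 (e1 i)) e1 = 0 := by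
    refine mul_left_cancel₀ two ?_
    unfold ip at *; linear_combination i2
  have j3 : ip (fun i => D1 (e2 i)) e2 = 0 := by
    refine mul_left_cancel₀ two ?_
    unfold ip at *; linear_combination i3
  have j4 : ip (fun i => D2 (e2 i)) e2 = 0 := by
    refine mul_left_cancel₀ two ?_
    unfold ip at *; linear_combination i4
  have j5 : ip (fun i => D2 (e1 i)) e2 = -B := by
    unfold ip at *
    linear_combination j3 - e2 0 * hc 0 - e2 1 * hc 1 - e2 2 * hc 2 - e2 3 * hc 3 - B * h22 + A * h12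
  have j6 : ip (fun i => D1 (e2 i)) e1 = -A := by
    unfold ip at *
    linear_combination j2 + e1 0 * hc 0 + e1 1 * hc 1 + e1 2 * hc 2 + e1 3 * hc 3 + B * h12
      - A * h11
  have j7 : ip (fun i => D1 (e1 i)) e2 = A := by
    unfold ip at *; linear_combination i5 - j6
  have j8 : ip (fun i => D2 (e2 i)) e1 = B := by
    unfold ip at *; linear_combination i6 - j5
  have k1 : ip e1 H = 0 := by
    refine mul_left_cancel₀ two ?_
    unfold ip at *
    linear_combination e1 0 * hH 0 + e1 1 * hH 1 + e1 2 * hH 2 + e1 3 * hH 3 + j1 + j8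
      - A * h12 - B * h11
  have k2 : ip e2 H = 0 := by
    refine mul_left_cancel₀ two ?_
    unfold ip at *
    linear_combination e2 0 * hH 0 + e2 1 * hH 1 + e2 2 * hH 2 + e2 3 * hH 3 + j7 + j4
      - A * h22 - B * h12
  have g13 : ip e1 e3 = 0 := by
    refine mul_left_cancel₀ hal0 ?_
    unfold ip at *
    simp only [hHe] at k1
    linear_combination k1
  have g23 : ip e2 e3 = 0 := by
    refine mul_left_cancel₀ hal0 ?_
    unfold ip at *
    simp only [hHe] at k2
    linear_combination k2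
  have g33 : ip e3 e3 = 1 := by
    refine mul_left_cancel₀ (mul_ne_zero hal0 hal0) ?_
    unfold ip at *
    simp only [hHe] at halal
    linear_combination -halal
  have on : ON e1 e2 e3 e4 := ⟨h11, h22, g33, g44, h12, g13, g14, g23, g24, g34⟩
  -- derivatives of the remaining relations
  have m13 := congrArg D1 g13
  have m13' := congrArg D2 g13
  have m23 := congrArg D1 g23
  have m23' := congrArg D2 g23
  have m33 := congrArg D1 g33
  have m33' := congrArg D2 g33
  have m14 := congrArg D1 g14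
  have m14' := congrArg D2 g14
  have m24 := congrArg D1 g24
  have m24' := congrArg D2 g24
  have m34 := congrArg D1 g34
  have m34' := congrArg D2 g34
  have m44 := congrArg D1 g44
  have m44' := congrArg D2 g44
  rw [D_ip] at m13 m13' m23 m23' m33 m33' m14 m14' m24 m24' m34 m34' m44 m44'
  simp only [map_zero, Derivation.map_one_eq_zero] at m13 m13' m23 m23' m33 m33' m14 m14' m24 m24' m34 m34' m44 m44'
  obtain ⟨al', hal'⟩ : ∃ t, t = ip (fun i => D1 (e1 i)) e3 := ⟨_, rfl⟩
  obtain ⟨be, hbe⟩ : ∃ t, t = ip (fun i => D1 (e1 i)) e4 := ⟨_, rfl⟩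
  obtain ⟨ga, hga⟩ : ∃ t, t = ip (fun i => D1 (e2 i)) e4 := ⟨_, rfl⟩
  obtain ⟨W1, hW1⟩ : ∃ t, t = ip (fun i => D1 (e3 i)) e4 := ⟨_, rfl⟩
  obtain ⟨W2, hW2⟩ : ∃ t, t = ip (fun i => D2 (e3 i)) e4 := ⟨_, rfl⟩
  have n1 : ip (fun i => D1 (e2 i)) e3 = 0 := by
    refine mul_left_cancel₀ hal0 ?_
    unfold ip at *
    simp only [hHe] at hdiag
    linear_combination hdiag
  have n2 : ip (fun i => D2 (e1 i)) e3 = 0 := by
    unfold ip at *
    linear_combination n1 - e3 0 * hc 0 - e3 1 * hc 1 - e3 2 * hc 2 - e3 3 * hc 3 + A * g13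
      - B * g23
  have n3 : ip (fun i => D2 (e1 i)) e4 = ga := by
    unfold ip at *
    linear_combination -hga - e4 0 * hc 0 - e4 1 * hc 1 - e4 2 * hc 2 - e4 3 * hc 3 + A * g14
      - B * g24
  have n4 : ip (fun i => D2 (e2 i)) e3 = 2 * al - al' := by
    unfold ip at *
    simp only [hHe] at hH
    linear_combination hal' - e3 0 * hH 0 - e3 1 * hH 1 - e3 2 * hH 2 - e3 3 * hH 3
      + A * g23 + B * g13 + 2 * al * g33
  have n5 : ip (fun i => D2 (e2 i)) e4 = -be := by
    unfold ip at *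
    simp only [hHe] at hH
    linear_combination hbe - e4 0 * hH 0 - e4 1 * hH 1 - e4 2 * hH 2 - e4 3 * hH 3
      + A * g24 + B * g14 + 2 * al * g34
  refine ⟨e3, e4, al, al' - al, be, ga, W1, W2, hal, hHe, on, ?_, ?_, ?_, ?_, ?_, ?_, ?_, ?_⟩
  · intro i
    rw [on.complete (fun i => D1 (e1 i)) i, j1, j7, ← hal', ← hbe]; ring
  · intro i
    rw [on.complete (fun i => D1 (e2 i)) i, j6, j3, n1, ← hga]; ring
  · intro i
    have r1 : ip (fun i => D1 (e3 i)) e1 = -al' := by
      unfold ip at *; linear_combination m13 + hal'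
    have r2 : ip (fun i => D1 (e3 i)) e2 = 0 := by
      unfold ip at *; linear_combination m23 - n1
    have r3 : ip (fun i => D1 (e3 i)) e3 = 0 := by
      refine mul_left_cancel₀ two ?_
      unfold ip at *; linear_combination m33
    rw [on.complete (fun i => D1 (e3 i)) i, r1, r2, r3, ← hW1]; ring
  · intro i
    have r1 : ip (fun i => D1 (e4 i)) e1 = -be := by
      unfold ip at *; linear_combination m14 + hbe
    have r2 : ip (fun i => D1 (e4 i)) e2 = -ga := by
      unfold ip at *; linear_combination m24 + hga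
    have r3 : ip (fun i => D1 (e4 i)) e3 = -W1 := by
      unfold ip at *; linear_combination m34 + hW1
    have r4 : ip (fun i => D1 (e4 i)) e4 = 0 := by
      refine mul_left_cancel₀ two ?_
      unfold ip at *; linear_combination m44
    rw [on.complete (fun i => D1 (e4 i)) i, r1, r2, r3, r4]; ring
  · intro i
    rw [on.complete (fun i => D2 (e1 i)) i, j2, j5, n2, n3]; ring
  · intro i
    rw [on.complete (fun i => D2 (e2 i)) i, j8, j4, n4, n5]; ring
  · intro i
    have r1 : ip (fun i => D2 (e3 i)) e1 = 0 := by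
      unfold ip at *; linear_combination m13' - n2
    have r2 : ip (fun i => D2 (e3 i)) e2 = -(2 * al - al') := by
      unfold ip at *; linear_combination m23' - n4
    have r3 : ip (fun i => D2 (e3 i)) e3 = 0 := by
      refine mul_left_cancel₀ two ?_
      unfold ip at *; linear_combination m33'
    rw [on.complete (fun i => D2 (e3 i)) i, r1, r2, r3, ← hW2]; ring
  · intro i
    have r1 : ip (fun i => D2 (e4 i)) e1 = -ga := by
      unfold ip at *; linear_combination m14' - n3
    have r2 : ip (fun i => D2 (e4 i)) e2 = be := by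
      unfold ip at *; linear_combination m24' - n5
    have r3 : ip (fun i => D2 (e4 i)) e3 = -W2 := by
      unfold ip at *; linear_combination m34' + hW2
    have r4 : ip (fun i => D2 (e4 i)) e4 = 0 := by
      refine mul_left_cancel₀ two ?_
      unfold ip at *; linear_combination m44'
    rw [on.complete (fun i => D2 (e4 i)) i, r1, r2, r3, r4]; ring

end ordered

end Run7.h793
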