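import Pool.Agent.Run7.h793.GermField
import Pool.Agent.Run7.h793.MainK3
import Pool.Agent.Run7.h793.GeomDefs

/-!
Transfer between smooth functions and germs.
-/

namespace Run7.h793

open Filter Topology
open scoped ContDiff RealInnerProductSpace

variable {U : Ultrafilter P2} {V0 Ω : Set P2}

/-- `a` is the germ of `f` -/
def IsRep (a : KF U) (f : P2 → ℝ) : Prop :=
  (a : (U : Filter P2).Germ ℝ) = ((f : P2 → ℝ) : (U : Filter P2).Germ ℝ)

theorem isRep_mkK (f : P2 → ℝ) (h) : IsRep (mkK (U := U) f h) f := rfl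

theorem isRep_rep (a : KF U) : IsRep a (rep a) := by
  obtain ⟨_, _, _, _, h⟩ := rep_spec a
  exact h.symm

theorem IsRep.congr {a : KF U} {f g : P2 → ℝ} (h : IsRep a f)
    (hfg : ∀ᶠ p in (U : Filter P2), f p = g p) : IsRep a g := by
  unfold IsRep at *
  rw [h]; exact Germ.coe_eq.2 hfg

theorem IsRep.eq_iff {a b : KF U} {f g : P2 → ℝ} (ha : IsRep a f) (hb : IsRep b g) :
    a = b ↔ ∀ᶠ p in (U : Filter P2), f p = g p := by
  rw [Subtype.ext_iff]
  unfold IsRep at *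
  rw [ha, hb]; exact Germ.coe_eq

theorem IsRep.add {a b : KF U} {f g : P2 → ℝ} (ha : IsRep a f) (hb : IsRep b g) :
    IsRep (a + b) (fun p => f p + g p) := by
  unfold IsRep at *
  rw [Subfield.coe_add, ha, hb]; rfl

theorem IsRep.mul {a b : KF U} {f g : P2 → ℝ} (ha : IsRep a f) (hb : IsRep b g) :
    IsRep (a * b) (fun p => f p * g p) := by
  unfold IsRep at *
  rw [Subfield.coe_mul, ha, hb]; rfl

theorem IsRep.sub {a b : KF U} {f g : P2 → ℝ} (ha : IsRep a f) (hb : IsRep b g) :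
    IsRep (a - b) (fun p => f p - g p) := by
  unfold IsRep at *
  rw [Subfield.coe_sub, ha, hb]; rfl

theorem IsRep.neg {a : KF U} {f : P2 → ℝ} (ha : IsRep a f) :
    IsRep (-a) (fun p => -f p) := by
  unfold IsRep at *
  rw [Subfield.coe_neg, ha]; rfl

theorem IsRep.div {a b : KF U} {f g : P2 → ℝ} (ha : IsRep a f) (hb : IsRep b g) :
    IsRep (a / b) (fun p => f p / g p) := by
  unfold IsRep at *
  rw [Subfield.coe_div, ha, hb]; rfl

theorem isRep_zero : IsRep (0 : KF U) (fun _ => 0) := rfl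

theorem isRep_one : IsRep (1 : KF U) (fun _ => 1) := rfl

theorem isRep_cst (r : ℝ) : IsRep (cst U r) (fun _ => r) := rfl

theorem IsRep.der (hU : Adapted U V0) (e : P2) {a : KF U} {f : P2 → ℝ} (ha : IsRep a f)
    (hf : ∃ O : Set P2, IsOpen O ∧ O ∈ U ∧ ContDiffOn ℝ ∞ f O) :
    IsRep (Der hU e a) (pd e f) := by
  have : a = mkK f hf := by
    rw [IsRep.eq_iff ha (isRep_mkK f hf)]
    exact Eventually.of_forall (fun _ => rfl)
  rw [this, Der_mkK]
  exact isRep_mkK _ _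

/-- component of the derivative of a vector function -/
theorem fderiv_comp_apply {f : P2 → E4} {p : P2} (hf : DifferentiableAt ℝ f p) (e : P2)
    (i : Fin 4) : fderiv ℝ (fun q => f q i) p e = (fderiv ℝ f p e) i := by
  have h := (EuclideanSpace.proj (𝕜 := ℝ) (ι := Fin 4) i).hasFDerivAt.comp p
    hf.hasFDerivAt
  have h2 : HasFDerivAt (fun q => f q i)
    ((EuclideanSpace.proj (𝕜 := ℝ) (ι := Fin 4) i).comp (fderiv ℝ f p)) p := h
  rw [h2.fderiv]
  simp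

theorem diffAt {V : Type*} [NormedAddCommGroup V] [NormedSpace ℝ V] {f : P2 → V}
    (hΩ : IsOpen Ω) (hf : ContDiffOn ℝ ∞ f Ω) {p : P2} (hp : p ∈ Ω) :
    DifferentiableAt ℝ f p :=
  (hf.contDiffAt (hΩ.mem_nhds hp)).differentiableAt (by simp)

theorem comp_smooth {f : P2 → E4} (hf : ContDiffOn ℝ ∞ f Ω) (i : Fin 4) :
    ContDiffOn ℝ ∞ (fun q => f q i) Ω := by
  have := (EuclideanSpace.proj (𝕜 := ℝ) (ι := Fin 4) i).contDiff (n := ∞)
  exact this.comp_contDiffOn hf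

theorem pu_smooth {V : Type*} [NormedAddCommGroup V] [NormedSpace ℝ V] {f : P2 → V}
    (hΩ : IsOpen Ω) (hf : ContDiffOn ℝ ∞ f Ω) : ContDiffOn ℝ ∞ (pu f) Ω := by
  have h1 : ContDiffOn ℝ ∞ (fderiv ℝ f) Ω := hf.fderiv_of_isOpen hΩ (by simp)
  exact h1.clm_apply contDiffOn_const

theorem pv_smooth {V : Type*} [NormedAddCommGroup V] [NormedSpace ℝ V] {f : P2 → V}
    (hΩ : IsOpen Ω) (hf : ContDiffOn ℝ ∞ f Ω) : ContDiffOn ℝ ∞ (pv f) Ω := by
  have h1 : ContDiffOn ℝ ∞ (fderiv ℝ f) Ω := hf.fderiv_of_isOpen hΩ (by simp)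
  exact h1.clm_apply contDiffOn_const

theorem rep_pu (hU : Adapted U V0) (hΩ : IsOpen Ω) (hΩU : Ω ∈ U) {f : P2 → E4}
    (hf : ContDiffOn ℝ ∞ f Ω) {i : Fin 4} {a : KF U} (ha : IsRep a (fun p => f p i)) :
    IsRep (Der hU (1, 0) a) (fun p => pu f p i) := by
  refine (ha.der hU (1, 0) ⟨Ω, hΩ, hΩU, comp_smooth hf i⟩).congr ?_
  filter_upwards [hΩU] with p hp
  exact fderiv_comp_apply (diffAt hΩ hf hp) _ _

theorem rep_pv (hU : Adapted U V0) (hΩ : IsOpen Ω) (hΩU : Ω ∈ U) {f : P2 → E4}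
    (hf : ContDiffOn ℝ ∞ f Ω) {i : Fin 4} {a : KF U} (ha : IsRep a (fun p => f p i)) :
    IsRep (Der hU (0, 1) a) (fun p => pv f p i) := by
  refine (ha.der hU (0, 1) ⟨Ω, hΩ, hΩU, comp_smooth hf i⟩).congr ?_
  filter_upwards [hΩU] with p hp
  exact fderiv_comp_apply (diffAt hΩ hf hp) _ _

theorem inner_four (a b : E4) : ⟪a, b⟫ = a 0 * b 0 + a 1 * b 1 + a 2 * b 2 + a 3 * b 3 := by
  rw [PiLp.inner_apply, Fin.sum_univ_four]
  simp only [RCLike.inner_apply, conj_trivial]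
  ring

theorem rep_ip {A B : Fin 4 → KF U} {f g : P2 → E4} (hA : ∀ i, IsRep (A i) (fun p => f p i))
    (hB : ∀ i, IsRep (B i) (fun p => g p i)) : IsRep (ip A B) (fun p => ⟪f p, g p⟫) := by
  unfold ip
  refine (((((hA 0).mul (hB 0)).add ((hA 1).mul (hB 1))).add ((hA 2).mul (hB 2))).add
    ((hA 3).mul (hB 3))).congr ?_
  exact Eventually.of_forall (fun p => (inner_four _ _).symm)

section surface

variable {x : P2 → E4}

theorem gE_smooth (hΩ : IsOpen Ω) (hx : ContDiffOn ℝ ∞ x Ω) : ContDiffOn ℝ ∞ (gE x) Ω :=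
  (pu_smooth hΩ hx).inner ℝ (pu_smooth hΩ hx)

theorem gF_smooth (hΩ : IsOpen Ω) (hx : ContDiffOn ℝ ∞ x Ω) : ContDiffOn ℝ ∞ (gF x) Ω :=
  (pu_smooth hΩ hx).inner ℝ (pv_smooth hΩ hx)

theorem gG_smooth (hΩ : IsOpen Ω) (hx : ContDiffOn ℝ ∞ x Ω) : ContDiffOn ℝ ∞ (gG x) Ω :=
  (pv_smooth hΩ hx).inner ℝ (pv_smooth hΩ hx)

theorem gram_pos {p : P2} (himm : Function.Injective (fderiv ℝ x p)) :
    0 < gE x p * gG x p - gF x p ^ 2 := by
  by_contra hcon
  have hle : gE x p * gG x p - gF x p ^ 2 ≤ 0 := not_lt.mp hcon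
  have hG : 0 ≤ gG x p := real_inner_self_nonneg
  have h1 : ⟪gG x p • pu x p - gF x p • pv x p, gG x p • pu x p - gF x p • pv x p⟫
      = gG x p * (gE x p * gG x p - gF x p ^ 2) := by
    have e1 : ⟪pv x p, pu x p⟫ = gF x p := by rw [real_inner_comm]; rfl
    rw [inner_sub_left, inner_sub_right, inner_sub_right]
    simp only [real_inner_smul_left, real_inner_smul_right, e1]
    change gG x p * (gG x p * gE x p) - gF x p * (gG x p * gF x p) -
      (gG x p * (gF x p * gF x p) - gF x p * (gF x p * gG x p)) = _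
    ring
  have h2 : ⟪gG x p • pu x p - gF x p • pv x p, gG x p • pu x p - gF x p • pv x p⟫ ≤ 0 := by
    rw [h1]; exact mul_nonpos_of_nonneg_of_nonpos hG hle
  have h3 : gG x p • pu x p - gF x p • pv x p = 0 := by
    rw [← inner_self_eq_zero (𝕜 := ℝ)]
    exact le_antisymm h2 real_inner_self_nonneg
  have h4 : fderiv ℝ x p (gG x p, -gF x p) = 0 := by
    have : ((gG x p, -gF x p) : ℝ × ℝ) = gG x p • ((1, 0) : ℝ × ℝ) + (-gF x p) • ((0, 1) : ℝ × ℝ) := by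
      simp
    rw [this, map_add, map_smul, map_smul]
    rw [← h3]
    simp only [pu, pv]
    rw [neg_smul]; abel
  have h5 : ((gG x p, -gF x p) : ℝ × ℝ) = 0 := by
    apply himm; rw [h4, map_zero]
  have h6 : gG x p = 0 := congrArg Prod.fst h5
  have h7 : pv x p = 0 := by
    have : ⟪pv x p, pv x p⟫ = 0 := h6
    exact inner_self_eq_zero.mp this
  have h8 : ((0, 1) : ℝ × ℝ) = 0 := by
    apply himm; rw [map_zero]; exact h7
  have h9 : (1 : ℝ) = 0 := congrArg Prod.snd h8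
  exact one_ne_zero h9

theorem gW_pos {p : P2} (himm : Function.Injective (fderiv ℝ x p)) : 0 < gW x p :=
  Real.sqrt_pos.2 (gram_pos himm)

theorem gW_sq {p : P2} (himm : Function.Injective (fderiv ℝ x p)) :
    gW x p ^ 2 = gE x p * gG x p - gF x p ^ 2 := Real.sq_sqrt (gram_pos himm).le

theorem gW_smooth (hΩ : IsOpen Ω) (hx : ContDiffOn ℝ ∞ x Ω)
    (himm : ∀ p ∈ Ω, Function.Injective (fderiv ℝ x p)) : ContDiffOn ℝ ∞ (gW x) Ω := by
  have h1 : ContDiffOn ℝ ∞ (fun p => gE x p * gG x p - gF x p ^ 2) Ω :=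
    ((gE_smooth hΩ hx).mul (gG_smooth hΩ hx)).sub ((gF_smooth hΩ hx).pow 2)
  exact h1.sqrt (fun p hp => (ne_of_gt (gram_pos (himm p hp))))

/-- inner functions of the Laplace operator -/
theorem lapU_smooth (hΩ : IsOpen Ω) (hx : ContDiffOn ℝ ∞ x Ω)
    (himm : ∀ p ∈ Ω, Function.Injective (fderiv ℝ x p)) {f : P2 → E4}
    (hf : ContDiffOn ℝ ∞ f Ω) :
    ContDiffOn ℝ ∞ (fun q => (gW x q)⁻¹ • (gG x q • pu f q - gF x q • pv f q)) Ω :=
  ((gW_smooth hΩ hx himm).inv (fun p hp => ne_of_gt (gW_pos (himm p hp)))).smul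
    (((gG_smooth hΩ hx).smul (pu_smooth hΩ hf)).sub ((gF_smooth hΩ hx).smul (pv_smooth hΩ hf)))

theorem lapV_smooth (hΩ : IsOpen Ω) (hx : ContDiffOn ℝ ∞ x Ω)
    (himm : ∀ p ∈ Ω, Function.Injective (fderiv ℝ x p)) {f : P2 → E4}
    (hf : ContDiffOn ℝ ∞ f Ω) :
    ContDiffOn ℝ ∞ (fun q => (gW x q)⁻¹ • (gE x q • pv f q - gF x q • pu f q)) Ω :=
  ((gW_smooth hΩ hx himm).inv (fun p hp => ne_of_gt (gW_pos (himm p hp)))).smul
    (((gE_smooth hΩ hx).smul (pv_smooth hΩ hf)).sub ((gF_smooth hΩ hx).smul (pu_smooth hΩ hf)))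

theorem lap_smooth (hΩ : IsOpen Ω) (hx : ContDiffOn ℝ ∞ x Ω)
    (himm : ∀ p ∈ Ω, Function.Injective (fderiv ℝ x p)) {f : P2 → E4}
    (hf : ContDiffOn ℝ ∞ f Ω) : ContDiffOn ℝ ∞ (lap x f) Ω :=
  (((gW_smooth hΩ hx himm).inv (fun p hp => ne_of_gt (gW_pos (himm p hp)))).smul
    ((pu_smooth hΩ (lapU_smooth hΩ hx himm hf)).add
      (pv_smooth hΩ (lapV_smooth hΩ hx himm hf)))).neg

theorem rep_lap (hU : Adapted U V0) (hΩ : IsOpen Ω) (hΩU : Ω ∈ U) (hx : ContDiffOn ℝ ∞ x Ω)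
    (himm : ∀ p ∈ Ω, Function.Injective (fderiv ℝ x p)) {f : P2 → E4}
    (hf : ContDiffOn ℝ ∞ f Ω) {E F G W : KF U} (hE : IsRep E (gE x)) (hF : IsRep F (gF x))
    (hG : IsRep G (gG x)) (hW : IsRep W (gW x)) {i : Fin 4} {a : KF U}
    (ha : IsRep a (fun p => f p i)) :
    IsRep (LBK (Der hU (1, 0)) (Der hU (0, 1)) E F G W a) (fun p => lap x f p i) := by
  have au := rep_pu hU hΩ hΩU hf ha
  have av := rep_pv hU hΩ hΩU hf ha
  have q1 : IsRep ((G * Der hU (1, 0) a - F * Der hU (0, 1) a) / W)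
      (fun p => ((gW x p)⁻¹ • (gG x p • pu f p - gF x p • pv f p)) i) := by
    refine (((hG.mul au).sub (hF.mul av)).div hW).congr (Eventually.of_forall (fun p => ?_))
    simp [div_eq_inv_mul]
  have q2 : IsRep ((E * Der hU (0, 1) a - F * Der hU (1, 0) a) / W)
      (fun p => ((gW x p)⁻¹ • (gE x p • pv f p - gF x p • pu f p)) i) := by
    refine (((hE.mul av).sub (hF.mul au)).div hW).congr (Eventually.of_forall (fun p => ?_))
    simp [div_eq_inv_mul]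
  have r1 := rep_pu hU hΩ hΩU (lapU_smooth hΩ hx himm hf) q1
  have r2 := rep_pv hU hΩ hΩU (lapV_smooth hΩ hx himm hf) q2
  unfold LBK
  refine (((r1.add r2).neg).div hW).congr (Eventually.of_forall (fun p => ?_))
  simp only [lap, PiLp.neg_apply, PiLp.smul_apply, PiLp.add_apply, smul_eq_mul, div_eq_inv_mul]
  ring

end surface

end Run7.h793
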